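import Mathlib

namespace Pool.Agent.H31.Ach
open Filter Topology Finset

lemma L0 (h f : ℕ → ℝ) (κ : ℝ) (hκ : 0 < κ) (N0 : ℕ)
    (hS : Tendsto (fun n => ∑ i ∈ range n, h i) atTop atTop)
    (h0 : ∀ n, N0 ≤ n → 0 ≤ f n) (hd : ∀ n, N0 ≤ n → f (n+1) ≤ f n - κ * h n) : False := by
  have key : ∀ n, N0 ≤ n → f n + κ * ∑ i ∈ range n, h i ≤ f N0 + κ * ∑ i ∈ range N0, h i := by
    intro n hn
    induction n, hn using Nat.le_induction with
    | base => exact le_rfl
    | succ n hn ih => rw [sum_range_succ]; have := hd n hn; nlinarith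
  obtain ⟨n, hn1, hn2⟩ := ((hS.eventually_gt_atTop (f N0 / κ + ∑ i ∈ range N0, h i)).and
    (eventually_ge_atTop N0)).exists
  have h1 := key n hn2
  have h2 := h0 n hn2
  have h3 : κ * (f N0 / κ) = f N0 := by field_simp
  nlinarith

lemma L1 (h W : ℕ → ℝ) (N0 : ℕ) (hp : ∀ n, 0 < h n)
    (hS : Tendsto (fun n => ∑ i ∈ range n, h i) atTop atTop)
    (hW : ∀ n, N0 ≤ n → W (n+1) ≤ W n - h n / 10 ∨ W (n+1) ≤ 2 * h n)
    (hh : ∀ n, N0 ≤ n → 29 * h n ≤ 30 * h (n+1)) : ∃ N, ∀ n, N ≤ n → W n ≤ 3 * h n := by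
  have h1 : ∃ N, N0 ≤ N ∧ W N ≤ 3 * h N := by
    by_contra hc
    push Not at hc
    refine L0 h W (1/10) (by norm_num) N0 hS (fun n hn => ?_) (fun n hn => ?_)
    · have := hc n hn; have := hp n; linarith
    · have a1 := hc (n+1) (by omega); have a2 := hh n hn; have a3 := hp n
      rcases hW n hn with a | a <;> linarith
  obtain ⟨N, hN, hN2⟩ := h1
  refine ⟨N, fun n hn => ?_⟩
  induction n, hn using Nat.le_induction with
  | base => exact hN2
  | succ n hn ih =>
    have a2 := hh n (by omega); have a3 := hp n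
    rcases hW n (by omega) with a | a <;> linarith

lemma L2 (h u α e : ℕ → ℝ) (hp : ∀ n, 0 < h n)
    (hS : Tendsto (fun n => ∑ i ∈ range n, h i) atTop atTop)
    (hu : ∀ n, u (n+1) = (1 - α n) * u n + α n * e n)
    (hα : ∀ n, h n / 57 ≤ α n) (hα1 : ∀ n, α n ≤ 1) (he : Tendsto e atTop (𝓝 0)) :
    Tendsto u atTop (𝓝 0) := by
  rw [Metric.tendsto_atTop] at he ⊢
  intro δ hδ
  obtain ⟨N0, hN0⟩ := he (δ/3) (by linarith)
  have step : ∀ n, N0 ≤ n → |u (n+1)| ≤ (1 - α n) * |u n| + α n * (δ/3) := by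
    intro n hn
    have a0 : 0 ≤ α n := le_trans (by have := hp n; positivity) (hα n)
    have a1 : 0 ≤ 1 - α n := by linarith [hα1 n]
    have a2 := hN0 n hn
    rw [Real.dist_eq, sub_zero] at a2
    rw [hu n]
    refine (abs_add_le _ _).trans ?_
    rw [abs_mul, abs_mul, abs_of_nonneg a0, abs_of_nonneg a1]
    have := mul_le_mul_of_nonneg_left a2.le a0
    linarith
  have h1 : ∃ N, N0 ≤ N ∧ |u N| ≤ 2 * δ / 3 := by
    by_contra hc
    push Not at hc
    refine L0 h (fun n => |u n|) (δ/3/57) (by positivity) N0 hS (fun n _ => abs_nonneg _)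
      (fun n hn => ?_)
    have a1 := hc n hn; have a2 := step n hn; have a3 := hα n; have a4 := hp n
    have a0 : 0 ≤ α n := le_trans (by positivity) (hα n)
    have a5 := mul_le_mul_of_nonneg_left a1.le a0
    have a6 := mul_le_mul_of_nonneg_left a3 (show 0 ≤ δ/3 by linarith)
    show |u (n+1)| ≤ |u n| - δ/3/57 * h n
    nlinarith
  obtain ⟨N, hN, hN2⟩ := h1
  refine ⟨N, fun n hn => ?_⟩
  rw [Real.dist_eq, sub_zero]
  have : |u n| ≤ 2 * δ / 3 := by
    induction n, hn using Nat.le_induction with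
    | base => exact hN2
    | succ n hn ih =>
      have a2 := step n (by omega)
      have a0 : 0 ≤ α n := le_trans (by have := hp n; positivity) (hα n)
      have a1 : 0 ≤ 1 - α n := by linarith [hα1 n]
      have := mul_le_mul_of_nonneg_left ih a1
      nlinarith
  linarith

noncomputable def t (k : ℕ) : ℝ := √((k:ℝ)+1)

lemma t_sq (k : ℕ) : t k ^ 2 = k + 1 := Real.sq_sqrt (by positivity)
lemma t_one (k : ℕ) : 1 ≤ t k := by
  have := t_sq k
  have h0 : 0 ≤ t k := Real.sqrt_nonneg _
  have : (0:ℝ) ≤ k := Nat.cast_nonneg k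
  nlinarith
lemma t_succ (k : ℕ) : t (k+1) ^ 2 = t k ^ 2 + 1 := by rw [t_sq, t_sq]; push_cast; ring
lemma t_mono (k : ℕ) : t k ≤ t (k+1) := by
  have := t_succ k; have := t_one k; have := t_one (k+1); nlinarith
lemma t_diff (k : ℕ) : (t (k+1) - t k) * (2 * t k) ≤ 1 := by
  have := t_succ k; nlinarith [sq_nonneg (t (k+1) - t k)]
lemma t_diff2 (k : ℕ) : 1 ≤ (t (k+1) - t k) * (3 * t k) := by
  have h1 := t_succ k; have h2 := t_one k; have h3 := t_mono k; have h4 := t_diff k
  have h5 : t (k+1) ≤ 2 * t k := by nlinarith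
  nlinarith
lemma t_diff3 (k : ℕ) : 1 ≤ (t (k+1) - t k) * (2 * t (k+1)) := by
  have := t_succ k; nlinarith [sq_nonneg (t (k+1) - t k)]
lemma t_top : Tendsto t atTop atTop := by
  apply Real.tendsto_sqrt_atTop.comp
  exact tendsto_atTop_add_const_right _ _ tendsto_natCast_atTop_atTop
lemma h_sum : Tendsto (fun n => ∑ i ∈ range n, 1 / t i ^ 2) atTop atTop := by
  simp only [t_sq]
  exact Real.tendsto_sum_range_one_div_nat_succ_atTop


theorem dyn (x y ε σ : ℕ → ℝ) (hσ : ∀ k, σ k = 1 ∨ σ k = -1) (hσ' : ∀ k, σ (k+1) = - σ k)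
    (hε : ∀ k, ε k = if 0 < σ k * (x k - y k / (20 * t k)) then 1 else 0)
    (hx : ∀ k, x (k+1) = x k - ε k * σ k / t k ^ 2)
    (hy : ∀ k, y (k+1) = y k - ε k * σ k / t k) :
    Tendsto x atTop (𝓝 0) ∧ Tendsto y atTop (𝓝 0) := by
  have tp : ∀ k, 0 < t k := fun k => lt_of_lt_of_le one_pos (t_one k)
  have hes : ∀ k, |ε k * σ k| ≤ 1 := by
    intro k
    rw [hε k]
    rcases hσ k with h | h <;> rw [h] <;> split_ifs <;> simp
  have hσσ : ∀ k, σ k * σ k = 1 := by
    intro k; rcases hσ k with h | h <;> rw [h] <;> norm_num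
  have hσa : ∀ k, |σ k| = 1 := by
    intro k; rcases hσ k with h | h <;> rw [h] <;> norm_num
  have yb : ∀ k, |y k| ≤ |y 0| + 3 * t k := by
    intro k
    induction k with
    | zero => have := tp 0; linarith
    | succ k ih =>
      rw [hy k]
      refine (abs_sub _ _).trans ?_
      have a1 : |ε k * σ k / t k| ≤ 3 * (t (k+1) - t k) := by
        rw [abs_div, abs_of_pos (tp k), div_le_iff₀ (tp k)]
        have := t_diff2 k; have := hes k; nlinarith
      linarith
  set h : ℕ → ℝ := fun k => 1 / t k ^ 2 with hh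
  have hp : ∀ k, 0 < h k := fun k => by have := tp k; simp only [hh]; positivity
  set m : ℕ → ℝ := fun k => σ k * (x k - y k / (20 * t k)) with hm
  set d : ℕ → ℝ := fun k => σ k * (y (k+1) / 20 * (1 / t k - 1 / t (k+1))) with hd
  have mstep : ∀ k, m (k+1) = - m k + ε k * (19/20) * h k - d k := by
    intro k
    have a1 := (tp k).ne'; have a2 := (tp (k+1)).ne'
    have a3 : ε k * (19/20) * h k = ε k * (σ k * σ k) * (19/20) * h k := by rw [hσσ]; ring
    rw [a3]
    simp only [hm, hd, hh, hσ' k, hx k, hy k]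
    field_simp
    ring
  obtain ⟨N1, hN1⟩ := eventually_atTop.1 (t_top.eventually_ge_atTop |y 0|)
  have dB : ∀ k, N1 ≤ k → |d k| ≤ h k / 10 := by
    intro k hk
    have a1 := tp k; have a2 := tp (k+1)
    have a3 := hN1 (k+1) (by omega)
    have a4 := yb (k+1)
    have a5 : 0 ≤ 1 / t k - 1 / t (k+1) := by
      have := one_div_le_one_div_of_le a1 (t_mono k); linarith
    have a6 : t (k+1) * (1 / t k - 1 / t (k+1)) ≤ 1 / t k ^ 2 / 2 := by
      have e1 : t (k+1) * (1 / t k - 1 / t (k+1)) = (t (k+1) - t k) * (2 * t k) / t k ^ 2 / 2 := by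
        field_simp
      rw [e1]
      have := t_diff k
      gcongr
    simp only [hd, hh]
    rw [abs_mul, hσa, one_mul, abs_mul, abs_of_nonneg a5, abs_div, abs_of_pos (show (0:ℝ) < 20 by norm_num)]
    have a7 : |y (k+1)| / 20 ≤ t (k+1) / 5 := by linarith
    have a8 := mul_le_mul_of_nonneg_right a7 a5
    nlinarith
  have hmono : ∀ k, h (k+1) ≤ h k := by
    intro k
    simp only [hh]
    apply one_div_le_one_div_of_le (by have := tp k; positivity)
    rw [t_succ]; linarith
  set W : ℕ → ℝ := fun k => if 0 < m k then m k - h k / 5 else - m k + h k / 5 with hW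
  obtain ⟨N, hN⟩ := L1 h W (max N1 30) hp h_sum (by
      intro k hk
      have a1 := abs_le.1 (dB k (le_trans (le_max_left _ _) hk))
      have a2 := mstep k
      have a3 : ε k = if 0 < m k then 1 else 0 := hε k
      have a4 := hp k; have a5 := hp (k+1); have a6 := hmono k
      simp only [hW]
      by_cases c1 : 0 < m k
      · rw [if_pos c1] at a3 ⊢
        rw [a3] at a2
        split_ifs with c2
        · right; linarith [a1.1, a1.2]
        · left; linarith [a1.1, a1.2]
      · rw [if_neg c1] at a3 ⊢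
        rw [a3] at a2
        split_ifs with c2
        · left; linarith [a1.1, a1.2]
        · right; linarith [a1.1, a1.2]) (by
      intro k hk
      have a0 : (30:ℝ) ≤ k := by exact_mod_cast le_trans (le_max_right _ _) hk
      simp only [hh, t_sq]
      push_cast
      rw [mul_one_div, mul_one_div, div_le_div_iff₀ (by positivity) (by positivity)]
      linarith)
  have mB : ∀ k, N ≤ k → |m k| ≤ 4 * h k := by
    intro k hk
    have a1 := hN k hk
    have a2 := hp k
    simp only [hW] at a1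
    rw [abs_le]
    split_ifs at a1 with c <;> constructor <;> linarith
  set e : ℕ → ℝ := fun k => 20 * x (k+1) * t k - y (k+1) with he
  have tinv : Tendsto (fun k => (t k)⁻¹) atTop (𝓝 0) := tendsto_inv_atTop_zero.comp t_top
  have e0 : Tendsto e atTop (𝓝 0) := by
    have b0 : Tendsto (fun k => 100 * (t k)⁻¹) atTop (𝓝 0) := by simpa using tinv.const_mul 100
    refine squeeze_zero_norm' (eventually_atTop.2 ⟨N, fun k hk => ?_⟩) b0
    have a1 := tp k
    have a2 : e k = 20 * t k * (σ k * m k) - 19 * (ε k * σ k) / t k := by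
      have a3 : σ k * m k = x k - y k / (20 * t k) := by
        simp only [hm]; rw [← mul_assoc, hσσ, one_mul]
      rw [a3]
      simp only [he, hx k, hy k]
      field_simp
      ring
    rw [Real.norm_eq_abs, a2]
    refine (abs_sub _ _).trans ?_
    have a4 : |20 * t k * (σ k * m k)| ≤ 80 * (t k)⁻¹ := by
      rw [abs_mul, abs_mul (σ k), hσa, one_mul, abs_of_pos (by positivity)]
      have := mul_le_mul_of_nonneg_left (mB k hk) (show 0 ≤ 20 * t k by positivity)
      refine this.trans (le_of_eq ?_)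
      simp only [hh]; field_simp; norm_num
    have a5 : |19 * (ε k * σ k) / t k| ≤ 19 * (t k)⁻¹ := by
      rw [abs_div, abs_mul, abs_of_pos a1, abs_of_pos (show (0:ℝ) < 19 by norm_num), div_eq_mul_inv]
      have := hes k
      have a6 : 0 < (t k)⁻¹ := by positivity
      nlinarith
    have a6 : 0 < (t k)⁻¹ := by positivity
    linarith
  set u : ℕ → ℝ := fun k => x k * t k - y k with hu
  have ueq : ∀ k, u k = x (k+1) * t k - y (k+1) := by
    intro k
    have a1 := (tp k).ne'
    simp only [hu, hx k, hy k]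
    field_simp
    ring
  have u0 : Tendsto u atTop (𝓝 0) := by
    refine L2 h u (fun k => (t (k+1) - t k) / (19 * t k)) e hp h_sum (fun k => ?_) (fun k => ?_)
      (fun k => ?_) e0
    · have a1 := (tp k).ne'
      rw [ueq k]
      simp only [hu, he]
      field_simp
      ring
    · have a1 := tp k
      have a2 := t_diff2 k
      simp only [hh]
      rw [div_div, div_le_div_iff₀ (by positivity) (by positivity)]
      nlinarith
    · have a1 := tp k
      have a2 := t_diff k
      have a3 := t_one k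
      have a4 := t_mono k
      show (t (k+1) - t k) / (19 * t k) ≤ 1
      rw [div_le_one (by positivity)]
      nlinarith
  have y0 : Tendsto (fun k => y (k+1)) atTop (𝓝 0) := by
    have b : Tendsto (fun k => (e k - 20 * u k) / 19) atTop (𝓝 0) := by
      simpa using (e0.sub (u0.const_mul 20)).div_const 19
    refine b.congr (fun k => ?_)
    rw [ueq k]; simp only [he]; ring
  have x0 : Tendsto (fun k => x (k+1)) atTop (𝓝 0) := by
    have b : Tendsto (fun k => (u k + y (k+1)) * (t k)⁻¹) atTop (𝓝 0) := by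
      simpa using (u0.add y0).mul tinv
    refine b.congr (fun k => ?_)
    have a1 := (tp k).ne'
    rw [ueq k]; field_simp; ring
  exact ⟨(tendsto_add_atTop_iff_nat 1).1 x0, (tendsto_add_atTop_iff_nat 1).1 y0⟩

noncomputable def ch (k : ℕ) (p : ℝ × ℝ) : ℝ :=
  if 0 < (-1:ℝ)^(k+1) * (p.1 - p.2 / (20 * t k)) then 1 else 0

noncomputable def st (a b : ℝ) : ℕ → ℝ × ℝ
  | 0 => (a, b)
  | k+1 => ((st a b k).1 - ch k (st a b k) * (-1)^(k+1) / t k ^ 2,
      (st a b k).2 - ch k (st a b k) * (-1)^(k+1) / t k)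

theorem main (a b : ℝ) : ∃ ε : ℕ → ℝ, (∀ k, ε k = 0 ∨ ε k = 1) ∧
    Tendsto (fun N => ∑ k ∈ range N, ε k * ((-1)^(k+1) / ((k:ℝ)+1))) atTop (𝓝 a) ∧
    Tendsto (fun N => ∑ k ∈ range N, ε k * ((-1)^(k+1) / √((k:ℝ)+1))) atTop (𝓝 b) := by
  have D := dyn (fun k => (st a b k).1) (fun k => (st a b k).2) (fun k => ch k (st a b k))
    (fun k => (-1)^(k+1)) (fun k => by rcases neg_one_pow_eq_or ℝ (k+1) with h | h <;> simp [h])
    (fun k => by simp only [pow_succ]; ring) (fun k => rfl) (fun k => rfl) (fun k => rfl)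
  refine ⟨fun k => ch k (st a b k), fun k => ?_, ?_, ?_⟩
  · simp only [ch]; split_ifs <;> simp
  · have b1 : Tendsto (fun k => a - (st a b k).1) atTop (𝓝 a) := by
      simpa using D.1.const_sub a
    refine b1.congr (fun N => ?_)
    induction N with
    | zero => simp [st]
    | succ N ih => rw [sum_range_succ, ← ih, ← t_sq]; simp only [st]; ring
  · have b1 : Tendsto (fun k => b - (st a b k).2) atTop (𝓝 b) := by
      simpa using D.2.const_sub b
    refine b1.congr (fun N => ?_)
    induction N with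
    | zero => simp [st]
    | succ N ih => rw [sum_range_succ, ← ih]; simp only [st, t]; ring

end Pool.Agent.H31.Ach
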