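import Mathlib

namespace Pool.Agent.H31.Cat
open Finset

def maj (w : List ℕ) : ℕ :=
  ∑ i ∈ range (w.length - 1), if w.getD (i + 1) 0 < w.getD i 0 then i + 1 else 0

lemma maj_snoc2 (l : List ℕ) (y x : ℕ) :
    maj (l ++ [y] ++ [x]) = maj (l ++ [y]) + if x < y then l.length + 1 else 0 := by
  unfold maj
  simp only [List.length_append, List.length_singleton, Nat.add_sub_cancel]
  rw [sum_range_succ]
  congr 1
  · refine sum_congr rfl (fun i hi => ?_)
    rw [mem_range] at hi
    rw [List.getD_append _ _ _ (i+1) (by simp; omega), List.getD_append (l ++ [y]) _ _ i (by simp; omega)]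
  · rw [List.getD_append_right _ _ _ _ (by simp), List.getD_append (l ++ [y]) _ _ _ (by simp),
      List.getD_append_right _ _ _ _ le_rfl]
    simp

lemma dec {M : Type*} [AddCommMonoid M] (S S0 S1 : Finset (List ℕ)) (x y : ℕ) (hxy : x ≠ y)
    (h : ∀ l, l ∈ S ↔ (∃ l' ∈ S0, l' ++ [x] = l) ∨ (∃ l' ∈ S1, l' ++ [y] = l)) (φ : List ℕ → M) :
    ∑ l ∈ S, φ l = ∑ l ∈ S0, φ (l ++ [x]) + ∑ l ∈ S1, φ (l ++ [y]) := by
  have : S = S0.image (· ++ [x]) ∪ S1.image (· ++ [y]) := by
    ext l; simp only [mem_union, mem_image, h]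
  rw [this, sum_union, sum_image, sum_image]
  · intro a _ b _ hab; simpa using hab
  · intro a _ b _ hab; simpa using hab
  · rw [disjoint_left]
    intro l h1 h2
    simp only [mem_image] at h1 h2
    obtain ⟨a, _, ha⟩ := h1
    obtain ⟨b, _, hb⟩ := h2
    have := List.append_inj_right' (ha.trans hb.symm) rfl
    simp at this; exact hxy this

def W (a b : ℕ) : Finset (List ℕ) :=
  (List.replicate a 0 ++ List.replicate b 1).permutations.toFinset.filter
    (fun w => ∀ k ≤ w.length, (w.take k).count 1 ≤ (w.take k).count 0)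

lemma ballot_snoc (l : List ℕ) (x : ℕ) :
    (∀ k ≤ (l ++ [x]).length, ((l ++ [x]).take k).count 1 ≤ ((l ++ [x]).take k).count 0) ↔
    (∀ k ≤ l.length, (l.take k).count 1 ≤ (l.take k).count 0) ∧
      (l ++ [x]).count 1 ≤ (l ++ [x]).count 0 := by
  constructor
  · intro h
    refine ⟨fun k hk => ?_, ?_⟩
    · have := h k (by simp; omega)
      rwa [List.take_append_of_le_length hk] at this
    · have := h _ le_rfl
      rwa [List.take_length] at this
  · rintro ⟨h1, h2⟩ k hk
    by_cases c : k ≤ l.length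
    · rw [List.take_append_of_le_length c]; exact h1 k c
    · rw [List.take_of_length_le (by simp at hk ⊢; omega)]; exact h2

lemma memW (a b : ℕ) (l : List ℕ) : l ∈ W a b ↔ (l.count 0 = a ∧ l.count 1 = b ∧
    (∀ x, 2 ≤ x → l.count x = 0)) ∧ ∀ k ≤ l.length, (l.take k).count 1 ≤ (l.take k).count 0 := by
  simp only [W, mem_filter, List.mem_toFinset, List.mem_permutations, List.perm_iff_count]
  refine and_congr_left (fun _ => ⟨fun h => ⟨?_, ?_, fun x hx => ?_⟩, fun ⟨h0, h1, h2⟩ x => ?_⟩)
  · simp [h, List.count_replicate]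
  · simp [h, List.count_replicate]
  · rw [h]; simp [List.count_replicate]; omega
  · rcases x with _ | _ | x
    · simp [h0, List.count_replicate]
    · simp [h1, List.count_replicate]
    · rw [h2 _ (by omega)]; simp [List.count_replicate]

lemma W_len {a b : ℕ} {l : List ℕ} (h : l ∈ W a b) : l.length = a + b := by
  simp only [W, mem_filter, List.mem_toFinset, List.mem_permutations] at h
  simpa using h.1.length_eq

lemma W_le {a b : ℕ} {l : List ℕ} (h : l ∈ W a b) : b ≤ a := by
  rw [memW] at h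
  have := h.2 _ le_rfl
  rw [List.take_length] at this
  omega

lemma W00 : W 0 0 = {[]} := by
  ext l
  rw [mem_singleton]
  constructor
  · intro h; exact List.eq_nil_of_length_eq_zero (W_len h)
  · rintro rfl; rw [memW]; simp

lemma W_dec (a b : ℕ) (hb : b ≤ a + 1) (l : List ℕ) : l ∈ W (a+1) b ↔
    (∃ l' ∈ W a b, l' ++ [0] = l) ∨ (∃ l' ∈ (if b = 0 then ∅ else W (a+1) (b-1)), l' ++ [1] = l) := by
  constructor
  · intro h
    have hl := W_len h
    rcases List.eq_nil_or_concat l with rfl | ⟨l', x, rfl⟩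
    · simp at hl; omega
    rw [List.concat_eq_append] at *
    rw [memW, ballot_snoc] at h
    obtain ⟨⟨h0, h1, h2⟩, h3, h4⟩ := h
    rcases x with _ | _ | x
    · left; refine ⟨l', ?_, rfl⟩
      rw [memW]
      refine ⟨⟨by simpa using h0, by simpa using h1, fun x hx => ?_⟩, h3⟩
      have := h2 x hx; rw [List.count_append] at this; omega
    · right; refine ⟨l', ?_, rfl⟩
      simp at h0 h1
      rw [if_neg (by omega), memW]
      refine ⟨⟨h0, by omega, fun x hx => ?_⟩, h3⟩
      have := h2 x hx; rw [List.count_append] at this; omega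
    · have := h2 (x+1+1) (by omega); simp at this
  · rintro (⟨l', h, rfl⟩ | ⟨l', h, rfl⟩)
    · have hle := W_le h
      rw [memW] at h
      obtain ⟨⟨h0, h1, h2⟩, h3⟩ := h
      rw [memW, ballot_snoc]
      refine ⟨⟨by simp [h0], by simp [h1], fun x hx => ?_⟩, h3, by simp; omega⟩
      rw [List.count_append, h2 x hx, List.count_singleton]; simp; omega
    · split_ifs at h with c
      · simp at h
      rw [memW] at h
      obtain ⟨⟨h0, h1, h2⟩, h3⟩ := h
      rw [memW, ballot_snoc]
      refine ⟨⟨by simp [h0], by simp [h1]; omega, fun x hx => ?_⟩, h3, by simp; omega⟩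
      rw [List.count_append, h2 x hx, List.count_singleton]; simp; omega

noncomputable def T (q : ℝ) (a b : ℕ) : ℝ := ∑ l ∈ W a b, q ^ maj l

lemma W_empty {a b : ℕ} (h : a < b) : W a b = ∅ := by
  ext l; simp only [notMem_empty, iff_false]; intro hl; have := W_le hl; omega

lemma maj_one {a b : ℕ} {l : List ℕ} (h : l ∈ W a b) : maj (l ++ [1]) = maj l := by
  rcases List.eq_nil_or_concat l with rfl | ⟨l', x, rfl⟩
  · simp [maj]
  rw [List.concat_eq_append] at *
  rw [maj_snoc2, if_neg, add_zero]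
  intro hx
  rw [memW] at h
  have := h.1.2.2 x (by omega); simp at this

lemma T_rec (q : ℝ) (a b : ℕ) (hb : b ≤ a + 1) : T q (a+1) b =
    (∑ l ∈ W a b, q ^ maj (l ++ [0])) + if b = 0 then 0 else T q (a+1) (b-1) := by
  unfold T
  rw [dec _ _ _ 0 1 (by omega) (W_dec a b hb)]
  congr 1
  split_ifs with c
  · simp
  · exact sum_congr rfl (fun l hl => by rw [maj_one hl])

lemma T_zero (q : ℝ) (a b : ℕ) (hb : b ≤ a) : (∑ l ∈ W a b, q ^ maj (l ++ [0])) =
    T q a b - (1 - q ^ (a + b)) * if b = 0 then 0 else T q a (b-1) := by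
  rcases a with _ | a
  · obtain rfl : b = 0 := by omega
    simp [T, W00, maj]
  rw [T_rec q a b hb, dec _ _ _ 0 1 (by omega) (W_dec a b hb)]
  have e1 : ∀ l ∈ W a b, q ^ maj (l ++ [0] ++ [0]) = q ^ maj (l ++ [0]) := by
    intro l _; rw [maj_snoc2]; simp
  rw [sum_congr rfl e1]
  split_ifs with c
  · simp
  · have e2 : ∀ l ∈ W (a+1) (b-1), q ^ maj (l ++ [1] ++ [0]) = q ^ (a + 1 + b) * q ^ maj l := by
      intro l hl
      rw [maj_snoc2, maj_one hl, W_len hl, if_pos (by omega), ← pow_add]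
      congr 1; omega
    rw [sum_congr rfl e2, ← mul_sum]
    unfold T; ring

noncomputable def F (q : ℝ) (n : ℕ) : ℝ := ∏ i ∈ range n, (1 - q ^ (i+1))

lemma F_succ (q : ℝ) (n : ℕ) : F q (n+1) = F q n * (1 - q ^ (n+1)) := prod_range_succ _ _

lemma T_closed (q : ℝ) (hq : ∀ n, 1 - q ^ (n+1) ≠ 0) (a : ℕ) : ∀ b ≤ a, T q a b =
    F q (a+b) / (F q (a+1) * F q b) * ((1 - q ^ (a+1)) - q * (1 - q ^ b)) := by
  have hF : ∀ n, F q n ≠ 0 := fun n => prod_ne_zero_iff.2 (fun i _ => hq i)
  induction a with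
  | zero =>
    intro b hb
    obtain rfl : b = 0 := by omega
    have := hq 0
    simp [T, W00, maj, F] at *
    field_simp
  | succ a iha =>
    intro b hb
    induction b with
    | zero =>
      rw [T_rec q a 0 hb, T_zero q a 0 (by omega), iha 0 (by omega)]
      have := hF a; have := hq a; have := hq (a+1); have := hF 0
      simp only [if_true, add_zero, F_succ, pow_zero, sub_self, mul_zero, sub_zero]
      field_simp
    | succ b ihb =>
      rw [T_rec q a _ hb, if_neg (by omega), Nat.add_sub_cancel, ihb (by omega)]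
      by_cases c : b + 1 ≤ a
      · rw [T_zero q a _ c, if_neg (by omega), Nat.add_sub_cancel, iha _ c, iha b (by omega)]
        have := hF a; have := hq a; have := hq (a+1); have := hF b; have := hq b
        rw [show a + 1 + (b + 1) = a + b + 1 + 1 by ring, show a + 1 + b = a + b + 1 by ring,
          show a + (b + 1) = a + b + 1 by ring]
        simp only [F_succ]
        field_simp
        ring
      · obtain rfl : a = b := by omega
        rw [W_empty (by omega)]
        have := hF a; have := hq a; have := hq (a+1)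
        rw [show a + 1 + (a + 1) = a + 1 + a + 1 by ring]
        simp only [F_succ, sum_empty]
        field_simp
        ring

lemma F_inv (q : ℝ) (h0 : q ≠ 0) (n : ℕ) : F q⁻¹ n * q ^ (n * (n+1) / 2) = (-1) ^ n * F q n := by
  induction n with
  | zero => simp [F]
  | succ n ih =>
    have e : (n+1) * (n+1+1) / 2 = n * (n+1) / 2 + (n+1) := by
      rw [show (n+1) * (n+1+1) = n * (n+1) + 2 * (n+1) by ring, Nat.add_mul_div_left _ _ (by norm_num)]
    rw [e, F_succ, F_succ, pow_add, pow_succ (-1 : ℝ)]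
    have : (1 - q⁻¹ ^ (n+1)) * q ^ (n+1) = -(1 - q ^ (n+1)) := by
      rw [inv_pow]; field_simp; ring
    calc _ = (F q⁻¹ n * q ^ (n * (n+1) / 2)) * ((1 - q⁻¹ ^ (n+1)) * q ^ (n+1)) := by ring
      _ = _ := by rw [ih, this]; ring


lemma pal (q : ℝ) (h1 : 1 < q) (t : ℕ) :
    q ^ (2 * t * (2 * t - 1) / 2) * T q⁻¹ t t = q ^ (t ^ 2) * T q t t := by
  have h0 : q ≠ 0 := by positivity
  have hq : ∀ n, 1 - q ^ (n+1) ≠ 0 := fun n => by
    have : 1 < q ^ (n+1) := one_lt_pow₀ h1 (Nat.succ_ne_zero n)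
    linarith
  have hq' : ∀ n, 1 - q⁻¹ ^ (n+1) ≠ 0 := fun n => by
    have : q⁻¹ ^ (n+1) < 1 := pow_lt_one₀ (by positivity) (inv_lt_one_of_one_lt₀ h1) (Nat.succ_ne_zero n)
    linarith
  have hF : ∀ n, F q n ≠ 0 := fun n => prod_ne_zero_iff.2 (fun i _ => hq i)
  have Fi : ∀ n, F q⁻¹ n = (-1) ^ n * F q n / q ^ (n * (n+1) / 2) := fun n => by
    rw [← F_inv q h0 n]; field_simp
  rw [T_closed q hq t t le_rfl, T_closed q⁻¹ hq' t t le_rfl, Fi, Fi, Fi]
  obtain ⟨m, hm⟩ : ∃ m, t * (t+1) = 2 * m := (Nat.even_mul_succ_self t).two_dvd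
  have e1 : t * (t+1) / 2 = m := by omega
  have e2 : (t+1) * (t+1+1) / 2 = m + t + 1 := by
    have : (t+1) * (t+1+1) = t * (t+1) + 2 * (t+1) := by ring
    omega
  have e3 : (t+t) * (t+t+1) / 2 = 2 * t * (2 * t - 1) / 2 + 2 * t := by
    rcases t with _ | t
    · simp
    · have : (t+1+(t+1)) * (t+1+(t+1)+1) = 2 * (t+1) * (2 * (t+1) - 1) + 2 * (2 * (t+1)) := by
        rw [show 2 * (t+1) - 1 = 2 * t + 1 by omega]; ring
      omega
  have e4 : q ^ (t ^ 2) * q ^ t = q ^ m * q ^ m := by
    rw [← pow_add, ← pow_add]; congr 1; nlinarith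
  have e5 : q ^ (t ^ 2) = q ^ m * q ^ m / q ^ t := by rw [← e4]; field_simp
  have e6 : ((-1:ℝ)) ^ (t + t) = 1 := by rw [← two_mul, pow_mul]; norm_num
  rw [e1, e2, e3, e5, e6]
  have := hF t; have := hF (t+1)
  generalize 2 * t * (2 * t - 1) / 2 = N
  simp only [inv_pow, pow_add, pow_mul', pow_one]
  rcases neg_one_pow_eq_or ℝ t with h | h <;> rw [h] <;> field_simp <;> ring

def prec (t x y : ℕ) : Prop :=
  x ≠ y ∧ (if y ≤ t then 1 else 2) ≤ (if x ≤ t then 1 else 2) ∧
    (if y ≤ t then y else y - t) ≤ (if x ≤ t then x else x - t)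

instance (t x y : ℕ) : Decidable (prec t x y) := by unfold prec; infer_instance

def P (t a b : ℕ) : Finset (List ℕ) :=
  (List.range' (2 * t - a + 1) a ++ List.range' (t - b + 1) b).permutations.toFinset.filter
    (fun l => l.Pairwise (fun x y => ¬ prec t y x) ∧ b ≤ a)

lemma memP (t a b : ℕ) (ha : a ≤ t) (hb : b ≤ t) (l : List ℕ) : l ∈ P t a b ↔ l.Nodup ∧
    (∀ x, x ∈ l ↔ (2 * t - a + 1 ≤ x ∧ x ≤ 2 * t) ∨ (t - b + 1 ≤ x ∧ x ≤ t)) ∧
    l.Pairwise (fun x y => ¬ prec t y x) ∧ b ≤ a := by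
  have nd : (List.range' (2 * t - a + 1) a ++ List.range' (t - b + 1) b).Nodup := by
    rw [List.nodup_append]
    refine ⟨List.nodup_range', List.nodup_range', fun x hx y hy => ?_⟩
    rw [List.mem_range'_1] at hx hy; omega
  have mm : ∀ x, x ∈ (List.range' (2 * t - a + 1) a ++ List.range' (t - b + 1) b) ↔
      (2 * t - a + 1 ≤ x ∧ x ≤ 2 * t) ∨ (t - b + 1 ≤ x ∧ x ≤ t) := by
    intro x; rw [List.mem_append, List.mem_range'_1, List.mem_range'_1]; omega
  simp only [P, mem_filter, List.mem_toFinset, List.mem_permutations]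
  constructor
  · rintro ⟨h1, h2⟩
    exact ⟨h1.nodup_iff.2 nd, fun x => by rw [h1.mem_iff, mm], h2⟩
  · rintro ⟨h1, h2, h3⟩
    exact ⟨(List.perm_ext_iff_of_nodup h1 nd).2 (fun x => by rw [h2, mm]), h3⟩

lemma P_len {t a b : ℕ} {l : List ℕ} (h : l ∈ P t a b) : l.length = a + b := by
  simp only [P, mem_filter, List.mem_toFinset, List.mem_permutations] at h
  simpa using h.1.length_eq

lemma P_dec (t a b : ℕ) (ha : a + 1 ≤ t) (hb : b ≤ a + 1) (l : List ℕ) : l ∈ P t (a+1) b ↔
    (∃ l' ∈ P t a b, l' ++ [2 * t - a] = l) ∨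
    (∃ l' ∈ (if b = 0 then ∅ else P t (a+1) (b-1)), l' ++ [t - b + 1] = l) := by
  constructor
  · intro h
    have hl := P_len h
    rcases List.eq_nil_or_concat l with rfl | ⟨l', x, rfl⟩
    · simp at hl; omega
    rw [List.concat_eq_append] at *
    rw [memP t _ _ ha (by omega), List.nodup_append, List.pairwise_append] at h
    obtain ⟨⟨n1, _, n2⟩, h2, ⟨p1, _, p2⟩, _⟩ := h
    have n3 : x ∉ l' := fun hx => n2 x hx x (by simp) rfl
    have hx := (h2 x).1 (by simp)
    have key : ∀ y, ((2 * t - (a+1) + 1 ≤ y ∧ y ≤ 2 * t) ∨ (t - b + 1 ≤ y ∧ y ≤ t)) → ¬ prec t x y := by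
      intro y hy hp
      have h3 := (h2 y).2 hy
      rw [List.mem_append, List.mem_singleton] at h3
      rcases h3 with h3 | h3
      · exact p2 y h3 x (by simp) hp
      · exact hp.1 h3.symm
    have mm : ∀ y, y ∈ l' ↔ y ≠ x ∧ ((2 * t - (a+1) + 1 ≤ y ∧ y ≤ 2 * t) ∨ (t - b + 1 ≤ y ∧ y ≤ t)) := by
      intro y
      rw [← h2, List.mem_append, List.mem_singleton]
      constructor
      · intro h; exact ⟨fun e => n3 (e ▸ h), Or.inl h⟩
      · rintro ⟨h3, h4 | h4⟩
        · exact h4
        · exact absurd h4 h3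
    rcases hx with hx | hx
    · have k1 := key (2 * t - a) (by omega)
      have k2 := key (t - a)
      unfold prec at k1 k2
      have e : x = 2 * t - a := by split_ifs at k1 <;> omega
      have e2 : b ≤ a := by
        by_contra c
        apply k2 (by omega)
        split_ifs <;> omega
      left; refine ⟨l', ?_, by rw [e]⟩
      rw [memP t _ _ (by omega) (by omega)]
      exact ⟨n1, fun y => by rw [mm]; omega, p1, e2⟩
    · have k1 := key (t - b + 1) (by omega)
      unfold prec at k1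
      have e : x = t - b + 1 := by split_ifs at k1 <;> omega
      right; refine ⟨l', ?_, by rw [e]⟩
      rw [if_neg (by omega), memP t _ _ (by omega) (by omega)]
      exact ⟨n1, fun y => by rw [mm]; omega, p1, by omega⟩
  · rintro (⟨l', h, rfl⟩ | ⟨l', h, rfl⟩)
    · rw [memP t _ _ (by omega) (by omega)] at h
      obtain ⟨n1, h2, p1, h3⟩ := h
      rw [memP t _ _ ha (by omega), List.nodup_append, List.pairwise_append]
      refine ⟨⟨n1, by simp, fun y hy z hz => ?_⟩, fun y => ?_, ⟨p1, by simp, fun y hy z hz => ?_⟩, hb⟩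
      · rw [List.mem_singleton] at hz; rw [h2] at hy; omega
      · rw [List.mem_append, List.mem_singleton, h2]; omega
      · rw [List.mem_singleton] at hz; rw [h2] at hy; unfold prec; split_ifs <;> omega
    · split_ifs at h with c
      · simp at h
      rw [memP t _ _ (by omega) (by omega)] at h
      obtain ⟨n1, h2, p1, h3⟩ := h
      rw [memP t _ _ ha (by omega), List.nodup_append, List.pairwise_append]
      refine ⟨⟨n1, by simp, fun y hy z hz => ?_⟩, fun y => ?_, ⟨p1, by simp, fun y hy z hz => ?_⟩, hb⟩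
      · rw [List.mem_singleton] at hz; rw [h2] at hy; omega
      · rw [List.mem_append, List.mem_singleton, h2]; omega
      · rw [List.mem_singleton] at hz; rw [h2] at hy; unfold prec; split_ifs <;> omega

def ty (t x : ℕ) : ℕ := if x ≤ t then 1 else 0

lemma P00 (t : ℕ) : P t 0 0 = {[]} := by
  ext l
  rw [mem_singleton]
  constructor
  · intro h; exact List.eq_nil_of_length_eq_zero (P_len h)
  · rintro rfl; rw [memP t 0 0 (by omega) (by omega)]; simp

lemma P_empty {t a b : ℕ} (h : a < b) : P t a b = ∅ := by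
  ext l; simp only [notMem_empty, iff_false, P, mem_filter]; omega

lemma transfer (t : ℕ) (a : ℕ) (ha : a ≤ t) : ∀ b ≤ a, ∀ φ : List ℕ → ℝ,
    ∑ l ∈ P t a b, φ (l.map (ty t)) = ∑ l ∈ W a b, φ l := by
  induction a with
  | zero => intro b hb φ; obtain rfl : b = 0 := by omega
            simp [P00, W00]
  | succ a iha =>
    intro b hb
    have t0 : ty t (2 * t - a) = 0 := by unfold ty; rw [if_neg (by omega)]
    induction b with
    | zero =>
      intro φ
      rw [dec (P t (a+1) 0) (P t a 0) ∅ (2 * t - a) 0 (by omega) (fun l => by simpa using P_dec t a 0 ha hb l), dec _ _ _ 0 1 (by omega) (W_dec a 0 hb)]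
      simp only [if_true, sum_empty, List.map_append, List.map_singleton, t0]
      rw [iha (by omega) 0 (by omega) (fun l => φ (l ++ [0]))]
    | succ b ihb =>
      intro φ
      have t1 : ty t (t - (b+1) + 1) = 1 := by unfold ty; rw [if_pos (by omega)]
      rw [dec _ _ _ (2 * t - a) (t - (b+1) + 1) (by omega) (P_dec t a _ ha hb), dec _ _ _ 0 1 (by omega) (W_dec a _ hb)]
      simp only [Nat.succ_ne_zero, if_false, Nat.add_sub_cancel, List.map_append, List.map_singleton, t0, t1]
      rw [ihb (by omega) (fun l => φ (l ++ [1]))]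
      by_cases c : b + 1 ≤ a
      · rw [iha (by omega) _ c (fun l => φ (l ++ [0]))]
      · rw [P_empty (t := t) (a := a) (b := b+1) (by omega), W_empty (a := a) (b := b+1) (by omega)]; simp

lemma maj_compl (t : ℕ) (l : List ℕ) (hn : l.Nodup) (hm : ∀ x ∈ l, x ≤ 2 * t)
    (hp : l.Pairwise (fun x y => ¬ prec t y x)) :
    maj l + maj (l.map (ty t)) = l.length * (l.length - 1) / 2 := by
  rw [← sum_range_id]
  rcases Nat.eq_zero_or_pos l.length with h0 | h0
  · simp [maj, h0]
  obtain ⟨n, hn'⟩ : ∃ n, l.length = n + 1 := ⟨l.length - 1, by omega⟩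
  unfold maj
  rw [List.length_map, ← sum_add_distrib, hn', sum_range_succ', Nat.add_sub_cancel, add_zero]
  refine sum_congr rfl (fun i hi => ?_)
  rw [mem_range] at hi
  have i1 : i < l.length := by omega
  have i2 : i + 1 < l.length := by omega
  rw [List.getD_eq_getElem _ _ i1, List.getD_eq_getElem _ _ i2,
    List.getD_eq_getElem _ _ (by simpa using i2), List.getD_eq_getElem _ _ (by simpa using i1)]
  simp only [List.getElem_map]
  have a1 := List.pairwise_iff_getElem.1 hp i (i+1) i1 i2 (by omega)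
  have a2 := List.pairwise_iff_getElem.1 hn i (i+1) i1 i2 (by omega)
  unfold prec at a1
  unfold ty
  split_ifs at a1 ⊢ <;> omega

theorem main_real (q : ℝ) (h1 : 1 < q) (t : ℕ) :
    ∑ l ∈ P t t t, q ^ maj l = q ^ (t ^ 2) * ∑ l ∈ W t t, q ^ maj l := by
  have h0 : q ≠ 0 := by positivity
  have := pal q h1 t
  unfold T at this
  rw [← this, ← transfer t t le_rfl t le_rfl (fun l => q⁻¹ ^ maj l), mul_sum]
  refine sum_congr rfl (fun l hl => ?_)
  have hlen := P_len hl
  rw [memP t t t le_rfl le_rfl] at hl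
  have := maj_compl t l hl.1 (fun x hx => by rw [hl.2.1] at hx; omega) hl.2.2.1
  rw [hlen, ← two_mul] at this
  rw [← this, pow_add, inv_pow]; field_simp

end Pool.Agent.H31.Cat
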