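import Mathlib
import Pool.Agent.H31.Cat

namespace Pool.Agent.H31.Cat
open Finset

def nmaj (w : List ℕ) : ℕ :=
  ∑ i ∈ range (w.length - 1), if w.getD (i + 1) 0 < w.getD i 0 then 0 else i + 1

lemma nmaj_snoc2 (l : List ℕ) (y x : ℕ) :
    nmaj (l ++ [y] ++ [x]) = nmaj (l ++ [y]) + if x < y then 0 else l.length + 1 := by
  unfold nmaj
  simp only [List.length_append, List.length_singleton, Nat.add_sub_cancel]
  rw [sum_range_succ]
  congr 1
  · refine sum_congr rfl (fun i hi => ?_)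
    rw [mem_range] at hi
    rw [List.getD_append _ _ _ (i+1) (by simp; omega), List.getD_append (l ++ [y]) _ _ i (by simp; omega)]
  · rw [List.getD_append_right _ _ _ _ (by simp), List.getD_append (l ++ [y]) _ _ _ (by simp),
      List.getD_append_right _ _ _ _ le_rfl]
    simp

lemma maj_nmaj (l : List ℕ) : maj l + nmaj l = l.length * (l.length - 1) / 2 := by
  rw [← sum_range_id]
  rcases Nat.eq_zero_or_pos l.length with h0 | h0
  · simp [maj, nmaj, h0]
  obtain ⟨n, hn'⟩ : ∃ n, l.length = n + 1 := ⟨l.length - 1, by omega⟩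
  unfold maj nmaj
  rw [← sum_add_distrib, hn', sum_range_succ', Nat.add_sub_cancel, add_zero]
  refine sum_congr rfl (fun i _ => ?_)
  split_ifs <;> omega

/-- e = 0 : NE_{s,2} (first chain even); e = 1 : EN_{s,2} (first chain odd). -/
def pr (e x y : ℕ) : Prop :=
  x ≠ y ∧ (y - 1) / 2 ≤ (x - 1) / 2 ∧ (x + e) % 2 ≤ (y + e) % 2

instance (e x y : ℕ) : Decidable (pr e x y) := by unfold pr; infer_instance

def inQ (e s a b x : ℕ) : Prop :=
  1 ≤ x ∧ x ≤ 2 * s ∧ (((x + e) % 2 = 0 ∧ 2 * s < x + 2 * a) ∨ ((x + e) % 2 = 1 ∧ 2 * s < x + 2 * b))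

instance (e s a b x : ℕ) : Decidable (inQ e s a b x) := by unfold inQ; infer_instance

def Q (e s a b : ℕ) : Finset (List ℕ) :=
  ((List.range (2 * s + 1)).filter (fun x => inQ e s a b x)).permutations.toFinset.filter
    (fun l => l.Pairwise (fun x y => ¬ pr e y x) ∧ b ≤ a ∧ l.length = a + b)

lemma memQ (e s a b : ℕ) (l : List ℕ) : l ∈ Q e s a b ↔ l.Nodup ∧
    (∀ x, x ∈ l ↔ inQ e s a b x) ∧ l.Pairwise (fun x y => ¬ pr e y x) ∧ b ≤ a ∧ l.length = a + b := by
  have nd : ((List.range (2 * s + 1)).filter (fun x => inQ e s a b x)).Nodup :=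
    List.nodup_range.filter _
  have mm : ∀ x, x ∈ ((List.range (2 * s + 1)).filter (fun x => inQ e s a b x)) ↔ inQ e s a b x := by
    intro x; simp only [List.mem_filter, List.mem_range, decide_eq_true_eq]
    exact ⟨fun h => h.2, fun h => ⟨by have := h.2.1; omega, h⟩⟩
  simp only [Q, mem_filter, List.mem_toFinset, List.mem_permutations]
  constructor
  · rintro ⟨h1, h2⟩
    exact ⟨h1.nodup_iff.2 nd, fun x => by rw [h1.mem_iff, mm], h2⟩
  · rintro ⟨h1, h2, h3⟩
    exact ⟨(List.perm_ext_iff_of_nodup h1 nd).2 (fun x => by rw [h2, mm]), h3⟩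

lemma Q_len {e s a b : ℕ} {l : List ℕ} (h : l ∈ Q e s a b) : l.length = a + b :=
  ((memQ _ _ _ _ _).1 h).2.2.2.2

lemma Q_dec (e s a b : ℕ) (he : e ≤ 1) (ha : a + 1 ≤ s) (hb : b ≤ a + 1) (l : List ℕ) :
    l ∈ Q e s (a+1) b ↔ (∃ l' ∈ Q e s a b, l' ++ [2 * s - 2 * a - e] = l) ∨
    (∃ l' ∈ (if b = 0 then ∅ else Q e s (a+1) (b-1)), l' ++ [2 * s + 1 + e - 2 * b] = l) := by
  constructor
  · intro h
    have hl := Q_len h
    rcases List.eq_nil_or_concat l with rfl | ⟨l', x, rfl⟩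
    · simp at hl; omega
    rw [List.concat_eq_append] at *
    rw [memQ, List.nodup_append, List.pairwise_append] at h
    obtain ⟨⟨n1, _, n2⟩, h2, ⟨p1, _, p2⟩, _⟩ := h
    simp only [List.length_append, List.length_singleton] at hl
    have n3 : x ∉ l' := fun hx => n2 x hx x (by simp) rfl
    have hx := (h2 x).1 (by simp)
    have key : ∀ y, inQ e s (a+1) b y → ¬ pr e x y := by
      intro y hy hp
      have h3 := (h2 y).2 hy
      rw [List.mem_append, List.mem_singleton] at h3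
      rcases h3 with h3 | h3
      · exact p2 y h3 x (by simp) hp
      · exact hp.1 h3.symm
    have mm : ∀ y, y ∈ l' ↔ y ≠ x ∧ inQ e s (a+1) b y := by
      intro y
      rw [← h2, List.mem_append, List.mem_singleton]
      constructor
      · intro h; exact ⟨fun e => n3 (e ▸ h), Or.inl h⟩
      · rintro ⟨h3, h4 | h4⟩
        · exact h4
        · exact absurd h4 h3
    have k1 := key (2 * s - 2 * a - e)
    have k2 := key (2 * s + 1 + e - 2 * b)
    unfold inQ pr at k1 k2
    unfold inQ at hx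
    rcases hx with ⟨x1, x2, hx | hx⟩
    · have e1 : x = 2 * s - 2 * a - e := by omega
      have e2 : b ≤ a := by omega
      left; refine ⟨l', ?_, by rw [e1]⟩
      rw [memQ]
      exact ⟨n1, fun y => by rw [mm]; unfold inQ; omega, p1, e2, by omega⟩
    · have e1 : x = 2 * s + 1 + e - 2 * b := by omega
      right; refine ⟨l', ?_, by rw [e1]⟩
      rw [if_neg (by omega), memQ]
      exact ⟨n1, fun y => by rw [mm]; unfold inQ; omega, p1, by omega, by omega⟩
  · rintro (⟨l', h, rfl⟩ | ⟨l', h, rfl⟩)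
    · rw [memQ] at h
      obtain ⟨n1, h2, p1, h3, h4⟩ := h
      rw [memQ, List.nodup_append, List.pairwise_append]
      refine ⟨⟨n1, by simp, fun y hy z hz => ?_⟩, fun y => ?_, ⟨p1, by simp, fun y hy z hz => ?_⟩, hb,
        by simp; omega⟩
      · rw [List.mem_singleton] at hz; rw [h2] at hy; unfold inQ at hy; omega
      · rw [List.mem_append, List.mem_singleton, h2]; unfold inQ; omega
      · rw [List.mem_singleton] at hz; rw [h2] at hy; unfold inQ at hy; unfold pr; omega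
    · split_ifs at h with c
      · simp at h
      rw [memQ] at h
      obtain ⟨n1, h2, p1, h3, h4⟩ := h
      rw [memQ, List.nodup_append, List.pairwise_append]
      refine ⟨⟨n1, by simp, fun y hy z hz => ?_⟩, fun y => ?_, ⟨p1, by simp, fun y hy z hz => ?_⟩, hb,
        by simp; omega⟩
      · rw [List.mem_singleton] at hz; rw [h2] at hy; unfold inQ at hy; omega
      · rw [List.mem_append, List.mem_singleton, h2]; unfold inQ; omega
      · rw [List.mem_singleton] at hz; rw [h2] at hy; unfold inQ at hy; unfold pr; omega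

lemma Q00 (e s : ℕ) : Q e s 0 0 = {[]} := by
  ext l
  rw [mem_singleton]
  constructor
  · intro h; exact List.eq_nil_of_length_eq_zero (Q_len h)
  · rintro rfl; rw [memQ]; simp [inQ]; omega

lemma Q_empty {e s a b : ℕ} (h : a < b) : Q e s a b = ∅ := by
  ext l; simp only [notMem_empty, iff_false, memQ]; omega

noncomputable def U (q : ℝ) (e s a b : ℕ) : ℝ := ∑ l ∈ Q e s a b, q ^ nmaj l

lemma nmaj_first {e s a b : ℕ} (he : e ≤ 1) (ha : a + 1 ≤ s) {l : List ℕ} (h : l ∈ Q e s a b) :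
    nmaj (l ++ [2 * s - 2 * a - e]) = nmaj l := by
  rcases List.eq_nil_or_concat l with rfl | ⟨l', x, rfl⟩
  · simp [nmaj]
  rw [List.concat_eq_append] at *
  rw [memQ] at h
  have h1 := (h.2.1 x).1 (by simp)
  have h2 := h.2.2.2.1
  unfold inQ at h1
  rw [nmaj_snoc2, if_pos (by omega), add_zero]

lemma U_rec (q : ℝ) (e s a b : ℕ) (he : e ≤ 1) (ha : a + 1 ≤ s) (hb : b ≤ a + 1) :
    U q e s (a+1) b = U q e s a b + ∑ l ∈ (if b = 0 then ∅ else Q e s (a+1) (b-1)),
      q ^ nmaj (l ++ [2 * s + 1 + e - 2 * b]) := by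
  unfold U
  rw [dec _ _ _ (2 * s - 2 * a - e) (2 * s + 1 + e - 2 * b) (by omega) (Q_dec e s a b he ha hb)]
  congr 1
  exact sum_congr rfl (fun l hl => by rw [nmaj_first he ha hl])

lemma U_second (q : ℝ) (e s a b : ℕ) (he : e ≤ 1) (ha : a + 1 ≤ s) (hb : b ≤ a) :
    ∑ l ∈ Q e s (a+1) b, q ^ nmaj (l ++ [2 * s + 1 + e - 2 * (b+1)]) =
      U q e s (a+1) b - (if e = 0 ∧ b = a then 0 else (1 - q ^ (a + b + 1))) * U q e s a b := by
  rw [U_rec q e s a b he ha (by omega),
    dec _ _ _ (2 * s - 2 * a - e) (2 * s + 1 + e - 2 * b) (by omega) (Q_dec e s a b he ha (by omega))]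
  have e2 : ∀ l ∈ (if b = 0 then ∅ else Q e s (a+1) (b-1)),
      q ^ nmaj (l ++ [2 * s + 1 + e - 2 * b] ++ [2 * s + 1 + e - 2 * (b+1)]) =
      q ^ nmaj (l ++ [2 * s + 1 + e - 2 * b]) := by
    intro l _; rw [nmaj_snoc2, if_pos (by omega), add_zero]
  rw [sum_congr rfl e2]
  have e1 : ∀ l ∈ Q e s a b, q ^ nmaj (l ++ [2 * s - 2 * a - e] ++ [2 * s + 1 + e - 2 * (b+1)]) =
      (if e = 0 ∧ b = a then 1 else q ^ (a + b + 1)) * q ^ nmaj l := by
    intro l hl
    rw [nmaj_snoc2, nmaj_first he ha hl, Q_len hl]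
    by_cases c : e = 0 ∧ b = a
    · rw [if_pos c, if_pos (by omega)]; simp
    · rw [if_neg c, if_neg (by omega), pow_add, mul_comm]
  rw [sum_congr rfl e1, ← mul_sum]
  unfold U
  by_cases c : e = 0 ∧ b = a
  · rw [if_pos c, if_pos c]; ring
  · rw [if_neg c, if_neg c]; ring

lemma U_closed (q : ℝ) (hq : ∀ n, 1 - q ^ (n+1) ≠ 0) (e s : ℕ) (he : e ≤ 1) (a : ℕ) (ha : a ≤ s) :
    ∀ b ≤ a, U q e s a b = F q (a+b) / (F q (a+1) * F q b) *
      (if e = 0 then (1 - q ^ (a+1)) - q * (1 - q ^ b) else q ^ b - q ^ (a+1)) := by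
  have hF : ∀ n, F q n ≠ 0 := fun n => prod_ne_zero_iff.2 (fun i _ => hq i)
  induction a with
  | zero =>
    intro b hb
    obtain rfl : b = 0 := by omega
    have := hq 0
    simp [U, Q00, nmaj, F] at *
    field_simp
  | succ a iha =>
    intro b hb
    induction b with
    | zero =>
      rw [U_rec q e s a 0 he ha hb, iha (by omega) 0 (by omega)]
      have := hF a; have := hq a; have := hq (a+1); have := hF 0
      simp only [if_true, add_zero, F_succ, pow_zero, sub_self, mul_zero, sub_zero, sum_empty, ite_self]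
      field_simp
    | succ b ihb =>
      rw [U_rec q e s a _ he ha hb, if_neg (Nat.succ_ne_zero b), Nat.add_sub_cancel,
        U_second q e s a b he ha (by omega), ihb (by omega), iha (by omega) b (by omega)]
      have := hF a; have := hq a; have := hq (a+1); have := hF b; have := hq b
      rw [show a + 1 + (b + 1) = a + b + 1 + 1 by ring, show a + 1 + b = a + b + 1 by ring]
      by_cases c : b + 1 ≤ a
      · rw [iha (by omega) _ c, if_neg (show ¬ (e = 0 ∧ b = a) by omega),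
          show a + (b + 1) = a + b + 1 by ring]
        simp only [F_succ]
        split_ifs <;> field_simp <;> ring
      · obtain rfl : a = b := by omega
        unfold U
        rw [Q_empty (by omega)]
        simp only [F_succ, sum_empty, and_true]
        split_ifs <;> field_simp <;> ring

lemma sumQ (q : ℝ) (h1 : 1 < q) (e s : ℕ) :
    ∑ l ∈ Q e s s s, q ^ maj l = q ^ (2 * s * (2 * s - 1) / 2) * U q⁻¹ e s s s := by
  have h0 : q ≠ 0 := by positivity
  unfold U
  rw [mul_sum]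
  refine sum_congr rfl (fun l hl => ?_)
  have := maj_nmaj l
  rw [Q_len hl, ← two_mul] at this
  rw [← this, pow_add, inv_pow]; field_simp

lemma hq_inv (q : ℝ) (h1 : 1 < q) (n : ℕ) : 1 - q⁻¹ ^ (n+1) ≠ 0 := by
  have : q⁻¹ ^ (n+1) < 1 := pow_lt_one₀ (by positivity) (inv_lt_one_of_one_lt₀ h1) (Nat.succ_ne_zero n)
  linarith

theorem main0 (q : ℝ) (h1 : 1 < q) (s : ℕ) :
    ∑ l ∈ Q 0 s s s, q ^ maj l = q ^ (s ^ 2) * ∑ l ∈ W s s, q ^ maj l := by
  have := pal q h1 s
  rw [sumQ q h1, U_closed _ (hq_inv q h1) 0 s (by omega) s le_rfl s le_rfl, if_pos rfl,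
    ← T_closed _ (hq_inv q h1) s s le_rfl, this]
  rfl

theorem main1 (q : ℝ) (h1 : 1 < q) (s : ℕ) :
    ∑ l ∈ Q 1 s s s, q ^ maj l = q ^ (2 * s.choose 2) * ∑ l ∈ W s s, q ^ maj l := by
  have h0 : q ≠ 0 := by positivity
  have := pal q h1 s
  rw [T_closed _ (hq_inv q h1) s s le_rfl] at this
  rw [sumQ q h1, U_closed _ (hq_inv q h1) 1 s (by omega) s le_rfl s le_rfl, if_neg (by omega)]
  have e1 : s ^ 2 = 2 * s.choose 2 + s := by
    rw [Nat.choose_two_right]
    obtain ⟨m, hm⟩ : ∃ m, s * (s - 1) = 2 * m := (Nat.even_mul_pred_self s).two_dvd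
    have : s ^ 2 = s * (s - 1) + s := by
      rcases s with _ | s
      · simp
      · simp; ring
    omega
  have e2 : q⁻¹ ^ s - q⁻¹ ^ (s+1) = (1 - q⁻¹ ^ (s+1) - q⁻¹ * (1 - q⁻¹ ^ s)) * q⁻¹ ^ s := by ring
  rw [e2, ← mul_assoc _ _ (q⁻¹ ^ s), ← mul_assoc _ _ (q⁻¹ ^ s), this, e1, pow_add, inv_pow]
  unfold T
  field_simp

end Pool.Agent.H31.Cat
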