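import Mathlib

set_option autoImplicit false
set_option linter.unusedSectionVars false

namespace Pool.Agent.H31.Chrom

/-- polynomial addition on coefficient lists -/
def pAdd : List ℤ → List ℤ → List ℤ
  | [], q => q
  | a :: p, [] => a :: p
  | a :: p, b :: q => (a + b) :: pAdd p q

def pNeg (p : List ℤ) : List ℤ := p.map (fun a => -a)

def pEval (t : ℚ) : List ℤ → ℚ
  | [] => 0
  | a :: p => a + t * pEval t p

theorem pEval_add (t : ℚ) : ∀ p q : List ℤ, pEval t (pAdd p q) = pEval t p + pEval t q
  | [], q => by simp [pAdd, pEval]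
  | a :: p, [] => by simp [pAdd, pEval]
  | a :: p, b :: q => by
      simp only [pAdd, pEval, pEval_add t p q]; push_cast; ring

theorem pEval_neg (t : ℚ) : ∀ p : List ℤ, pEval t (pNeg p) = - pEval t p
  | [] => by simp [pNeg, pEval]
  | a :: p => by
      have := pEval_neg t p
      simp only [pNeg, List.map_cons, pEval] at this ⊢
      rw [this]; push_cast; ring

/-- p - t q -/
def pSubX (p q : List ℤ) : List ℤ := pAdd p (0 :: pNeg q)

theorem pEval_subX (t : ℚ) (p q : List ℤ) : pEval t (pSubX p q) = pEval t p - t * pEval t q := by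
  simp only [pSubX, pEval_add, pEval, pEval_neg]; push_cast; ring

variable {V : Type} [DecidableEq V]

def Proper {k : ℕ} (E : List (V × V)) (c : V → Fin k) : Prop := ∀ e ∈ E, c e.1 ≠ c e.2

def sub (u v w : V) : V := if w = v then u else w

def contr (u v : V) (E : List (V × V)) : List (V × V) := E.map (fun e => (sub u v e.1, sub u v e.2))

def occurs (v : V) (E : List (V × V)) : Bool := E.any (fun e => decide (e.1 = v) || decide (e.2 = v))

def hasEdge (u v : V) (E : List (V × V)) : Bool :=
  E.any (fun e => (decide (e.1 = u) && decide (e.2 = v)) || (decide (e.1 = v) && decide (e.2 = u)))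

def chrom : ℕ → List (V × V) → List ℤ
  | 0, _ => [1]
  | _ + 1, [] => [1]
  | f + 1, e :: E =>
    if e.1 = e.2 then [] else
    if hasEdge e.1 e.2 E then chrom f E else
    if occurs e.2 E then pSubX (chrom f E) (chrom f (contr e.1 e.2 E))
    else (fun p => pSubX p p) (chrom f E)

variable [Fintype V]

noncomputable def cnt (k : ℕ) (E : List (V × V)) : ℕ := Nat.card {c : V → Fin k // Proper E c}

theorem key {k : ℕ} (P : (V → Fin k) → Prop) (u v : V) (h : u ≠ v) :
    Nat.card {c : V → Fin k // P (Function.update c v (c u))} =
      Nat.card {c : V → Fin k // P c ∧ c u = c v} * k := by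
  have : Nat.card {c : V → Fin k // P c ∧ c u = c v} * k =
      Nat.card ({c : V → Fin k // P c ∧ c u = c v} × Fin k) := by
    simp [Nat.card_prod]
  rw [this]
  apply Nat.card_congr
  refine ⟨fun c => (⟨Function.update c.1 v (c.1 u), c.2, ?_⟩, c.1 v),
    fun p => ⟨Function.update p.1.1 v p.2, ?_⟩, ?_, ?_⟩
  · simp [Function.update_of_ne h]
  · have h2 := p.1.2
    have : Function.update (Function.update p.1.1 v p.2) v (Function.update p.1.1 v p.2 u) = p.1.1 := by
      rw [Function.update_idem, Function.update_of_ne h, h2.2, Function.update_eq_self]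
    rw [this]; exact h2.1
  · intro c
    ext w
    simp
  · intro p
    have h2 := p.1.2
    ext w
    · simp [Function.update_of_ne h, h2.2]
    · simp

omit [Fintype V] in
theorem proper_contr {k : ℕ} (u v : V) (E : List (V × V)) (c : V → Fin k) :
    Proper (contr u v E) c ↔ Proper E (Function.update c v (c u)) := by
  have hs : ∀ w, Function.update c v (c u) w = c (sub u v w) := by
    intro w
    by_cases hw : w = v
    · subst hw; simp [sub]
    · simp [sub, hw]
  simp only [Proper, contr, List.forall_mem_map, hs]

omit [Fintype V] in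
theorem contr_eq (u v : V) (E : List (V × V)) (h : occurs v E = false) : contr u v E = E := by
  unfold contr
  conv_rhs => rw [← List.map_id E]
  apply List.map_congr_left
  intro e he
  simp only [occurs, List.any_eq_false] at h
  have := h e he
  simp only [Bool.or_eq_true, decide_eq_true_eq, not_or] at this
  simp [sub, this.1, this.2]

theorem cnt_split {k : ℕ} (u v : V) (E : List (V × V)) :
    cnt k ((u, v) :: E) + Nat.card {c : V → Fin k // Proper E c ∧ c u = c v} = cnt k E := by
  classical
  unfold cnt
  rw [← Nat.card_sum]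
  apply Nat.card_congr
  have e1 : {c : V → Fin k // Proper ((u, v) :: E) c} ≃
      {c : {c : V → Fin k // Proper E c} // ¬ (c.1 u = c.1 v)} :=
    ⟨fun c => ⟨⟨c.1, fun e he => c.2 e (List.mem_cons_of_mem _ he)⟩, c.2 (u, v) List.mem_cons_self⟩,
     fun c => ⟨c.1.1, fun e he => by
        rcases List.mem_cons.1 he with rfl | he
        · exact c.2
        · exact c.1.2 e he⟩, fun _ => rfl, fun _ => rfl⟩
  have e2 : {c : V → Fin k // Proper E c ∧ c u = c v} ≃
      {c : {c : V → Fin k // Proper E c} // (c.1 u = c.1 v)} :=
    ⟨fun c => ⟨⟨c.1, c.2.1⟩, c.2.2⟩, fun c => ⟨c.1.1, c.1.2, c.2⟩, fun _ => rfl, fun _ => rfl⟩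
  exact ((Equiv.sumCongr e1 e2).trans (Equiv.sumComm _ _)).trans (Equiv.sumCompl _)

theorem delcon {k : ℕ} (hk : 0 < k) (u v : V) (h : u ≠ v) (E : List (V × V)) :
    (cnt k ((u, v) :: E) : ℚ) = cnt k E - (1 / (k : ℚ)) * cnt k (contr u v E) := by
  have h1 := cnt_split (k := k) u v E
  have h2 := key (k := k) (Proper E) u v h
  have h3 : cnt k (contr u v E) =
      Nat.card {c : V → Fin k // Proper E (Function.update c v (c u))} := by
    unfold cnt
    exact Nat.card_congr (Equiv.subtypeEquivRight (fun c => proper_contr u v E c))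
  have hk' : (k : ℚ) ≠ 0 := by positivity
  rw [h3, h2, ← h1]
  push_cast
  field_simp
  ring

theorem cnt_nil (k : ℕ) : cnt k ([] : List (V × V)) = k ^ Fintype.card V := by
  unfold cnt
  rw [Nat.card_congr (Equiv.subtypeUnivEquiv (fun c => by simp [Proper]))]
  simp

theorem chrom_correct {k : ℕ} (hk : 0 < k) :
    ∀ (f : ℕ) (E : List (V × V)), E.length ≤ f →
      (cnt k E : ℚ) = (k : ℚ) ^ Fintype.card V * pEval (1 / (k : ℚ)) (chrom f E) := by
  intro f
  induction f with
  | zero =>
    intro E hE
    have : E = [] := List.length_eq_zero_iff.1 (Nat.le_zero.1 hE)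
    subst this
    simp [cnt_nil, chrom, pEval]
  | succ f ih =>
    intro E hE
    match E, hE with
    | [], _ => simp [cnt_nil, chrom, pEval]
    | (u, v) :: E, hE =>
      have hE' : E.length ≤ f := by simpa using hE
      simp only [chrom]
      split_ifs with h1 h2 h3
      · have : cnt k ((u, v) :: E) = 0 := by
          unfold cnt
          have : IsEmpty {c : V → Fin k // Proper ((u, v) :: E) c} :=
            ⟨fun c => c.2 (u, v) List.mem_cons_self (congrArg c.1 h1)⟩
          simp
        simp [this, pEval]
      · rw [← ih E hE']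
        congr 1
        unfold cnt
        apply Nat.card_congr
        apply Equiv.subtypeEquivRight
        intro c
        constructor
        · intro hc e he; exact hc e (List.mem_cons_of_mem _ he)
        · intro hc e he
          rcases List.mem_cons.1 he with rfl | he
          · simp only [hasEdge, List.any_eq_true, Bool.or_eq_true, Bool.and_eq_true,
              decide_eq_true_eq] at h2
            obtain ⟨e, he, h | h⟩ := h2
            · have := hc e he; rwa [h.1, h.2] at this
            · have := hc e he; rw [h.1, h.2] at this; exact this.symm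
          · exact hc e he
      · rw [delcon hk u v h1, pEval_subX, ih E hE', ih (contr u v E) (by simpa [contr] using hE')]
        ring
      · have h4 : contr u v E = E := contr_eq u v E (by simpa using h3)
        rw [delcon hk u v h1, h4, pEval_subX, ih E hE']
        ring

/-- the graph with edge list E -/
def gr (E : List (V × V)) : SimpleGraph V where
  Adj a b := a ≠ b ∧ ((a, b) ∈ E ∨ (b, a) ∈ E)
  symm := ⟨fun _ _ h => ⟨h.1.symm, h.2.symm⟩⟩
  loopless := ⟨fun _ h => h.1 rfl⟩

def colEquiv (k : ℕ) (E : List (V × V)) (hE : ∀ e ∈ E, e.1 ≠ e.2) :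
    (gr E).Coloring (Fin k) ≃ {c : V → Fin k // Proper E c} where
  toFun c := ⟨c, fun e he => c.valid ⟨hE e he, Or.inl he⟩⟩
  invFun c := SimpleGraph.Coloring.mk c.1 (by
    rintro a b ⟨_, h | h⟩
    · exact c.2 _ h
    · exact (c.2 _ h).symm)
  left_inv _ := rfl
  right_inv _ := rfl

theorem card_col (k : ℕ) (E : List (V × V)) (hE : ∀ e ∈ E, e.1 ≠ e.2) :
    Nat.card ((gr E).Coloring (Fin k)) = cnt k E := Nat.card_congr (colEquiv k E hE)

def tw (v w : V) : Option V := if w = v then none else some w

def twin (E : List (V × V)) (v : V) : List (Option V × Option V) :=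
  E.flatMap (fun e => [(some e.1, some e.2), (tw v e.1, tw v e.2)]) ++ [(none, some v)]

omit [Fintype V] in
theorem proper_twin {k : ℕ} (E : List (V × V)) (v : V) (d : Option V → Fin k) :
    Proper (twin E v) d ↔ Proper E (fun w => d (some w)) ∧
      Proper E (Function.update (fun w => d (some w)) v (d none)) ∧ d none ≠ d (some v) := by
  have hs : ∀ w, Function.update (fun w => d (some w)) v (d none) w = d (tw v w) := by
    intro w
    by_cases hw : w = v
    · subst hw; simp [tw]
    · simp [tw, hw]
  simp only [Proper, twin, hs, List.mem_append, List.mem_flatMap, List.mem_cons, List.not_mem_nil,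
    or_false]
  constructor
  · intro h
    exact ⟨fun e he => h _ (Or.inl ⟨e, he, Or.inl rfl⟩),
      fun e he => h _ (Or.inl ⟨e, he, Or.inr rfl⟩), h _ (Or.inr rfl)⟩
  · rintro ⟨h1, h2, h3⟩ e (⟨e', he', rfl | rfl⟩ | rfl)
    · exact h1 e' he'
    · exact h2 e' he'
    · exact h3

theorem card_pairs (k : ℕ) (E : List (V × V)) (hE : ∀ e ∈ E, e.1 ≠ e.2) :
    Nat.card {p : (gr E).Coloring (Fin k) × (gr E).Coloring (Fin k) //
        Nat.card {v : V // p.1 v ≠ p.2 v} = 1} = ∑ v : V, cnt k (twin E v) := by
  classical
  have : ∑ v : V, cnt k (twin E v) =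
      Nat.card (Σ v : V, {d : Option V → Fin k // Proper (twin E v) d}) := by
    rw [Nat.card_sigma]; rfl
  rw [this]
  symm
  let F : (Σ v : V, {d : Option V → Fin k // Proper (twin E v) d}) →
      {p : (gr E).Coloring (Fin k) × (gr E).Coloring (Fin k) //
        Nat.card {v : V // p.1 v ≠ p.2 v} = 1} := fun x =>
    ⟨((colEquiv k E hE).symm ⟨fun w => x.2.1 (some w), ((proper_twin E x.1 x.2.1).1 x.2.2).1⟩,
      (colEquiv k E hE).symm ⟨Function.update (fun w => x.2.1 (some w)) x.1 (x.2.1 none),
        ((proper_twin E x.1 x.2.1).1 x.2.2).2.1⟩), by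
      have h3 := ((proper_twin E x.1 x.2.1).1 x.2.2).2.2
      rw [Nat.card_eq_one_iff_exists]
      refine ⟨⟨x.1, ?_⟩, ?_⟩
      · change x.2.1 (some x.1) ≠ Function.update (fun w => x.2.1 (some w)) x.1 (x.2.1 none) x.1
        rw [Function.update_self]; exact h3.symm
      · rintro ⟨w, hw⟩
        apply Subtype.ext
        by_contra hne
        apply hw
        change x.2.1 (some w) = Function.update (fun w => x.2.1 (some w)) x.1 (x.2.1 none) w
        rw [Function.update_of_ne hne]⟩
  apply Nat.card_eq_of_bijective F
  constructor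
  · rintro ⟨v, d, hd⟩ ⟨v', d', hd'⟩ h
    have h1 : (fun w => d (some w)) = fun w => d' (some w) := by
      have := congrArg (fun p => (p.1.1 : V → Fin k)) h
      exact this
    have h2 : Function.update (fun w => d (some w)) v (d none) =
        Function.update (fun w => d' (some w)) v' (d' none) := by
      have := congrArg (fun p => (p.1.2 : V → Fin k)) h
      exact this
    have h3 := ((proper_twin E v d).1 hd).2.2
    have hv : v = v' := by
      by_contra hne
      have := congrFun h2 v
      rw [Function.update_self, Function.update_of_ne hne, ← congrFun h1 v] at this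
      exact h3 this
    subst hv
    have hn : d none = d' none := by
      have := congrFun h2 v
      rwa [Function.update_self, Function.update_self] at this
    have : d = d' := by
      funext o
      cases o with
      | none => exact hn
      | some w => exact congrFun h1 w
    subst this
    rfl
  · rintro ⟨⟨c, c'⟩, h⟩
    rw [Nat.card_eq_one_iff_exists] at h
    obtain ⟨⟨v, hv⟩, hu⟩ := h
    have hupd : Function.update (fun w => c w) v (c' v) = c' := by
      funext w
      by_cases hw : w = v
      · subst hw; simp
      · rw [Function.update_of_ne hw]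
        by_contra hne
        exact hw (congrArg Subtype.val (hu ⟨w, hne⟩))
    refine ⟨⟨v, fun o => o.elim (c' v) (fun w => c w), ?_⟩, ?_⟩
    · rw [proper_twin]
      refine ⟨(colEquiv k E hE c).2, ?_, fun h => hv h.symm⟩
      change Proper E (Function.update (fun w => c w) v (c' v))
      rw [hupd]; exact (colEquiv k E hE c').2
    · apply Subtype.ext
      apply Prod.ext
      · rfl
      · apply DFunLike.ext
        intro w
        exact congrFun hupd w

def pSum (l : List (List ℤ)) : List ℤ := l.foldr pAdd []

theorem pEval_sum (t : ℚ) (l : List (List ℤ)) : pEval t (pSum l) = (l.map (pEval t)).sum := by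
  induction l with
  | nil => simp [pSum, pEval]
  | cons a l ih =>
    simp only [pSum, List.foldr_cons, List.map_cons, List.sum_cons, pEval_add] at ih ⊢
    rw [ih]

end Pool.Agent.H31.Chrom
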