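import Pool.Agent.H31.CoarseLLL

set_option autoImplicit false

namespace Pool.Agent.H31.Coarse
open Finset Classical

lemma z2_add_self (a : ZMod 2) : a + a = 0 := by revert a; decide

/-- coboundary -/
def δ (G : Sch) (h : G.V → ZMod 2) (e : G.E) : ZMod 2 := h e.1 + h (G.tgt e)

/-- every set of at most `R` edges is a forest -/
def Q (G : Sch) (R : ℕ) : Prop :=
  ∀ F : Finset G.E, F.card ≤ R → ∀ e ∈ F, ∃ h : G.V → ZMod 2, ∀ f ∈ F,
    δ G h f = if f = e then 1 else 0

lemma Q.mono {G : Sch} {R R' : ℕ} (h : Q G R) (hR : R' ≤ R) : Q G R' :=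
  fun F hF => h F (hF.trans hR)

noncomputable def covPerm (G : Sch) (i : I) : Equiv.Perm (G.V × (G.E → ZMod 2)) where
  toFun x := (G.π i x.1, x.2 + Pi.single (x.1, i) 1)
  invFun x := ((G.π i).symm x.1, x.2 - Pi.single ((G.π i).symm x.1, i) 1)
  left_inv x := by simp
  right_inv x := by simp

noncomputable def cov (G : Sch) : Sch where
  V := G.V × (G.E → ZMod 2)
  π := covPerm G

def proj (G : Sch) (e : (cov G).E) : G.E := (e.1.1, e.2)

lemma cov_tgt (G : Sch) (e : (cov G).E) :
    (cov G).tgt e = (G.tgt (proj G e), e.1.2 + Pi.single (proj G e) 1) := rfl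

lemma δ_coord (G : Sch) (f : G.E) (e : (cov G).E) :
    δ (cov G) (fun x => x.2 f) e = if proj G e = f then 1 else 0 := by
  rw [δ, cov_tgt]
  simp only [Pi.add_apply]
  rw [← add_assoc, z2_add_self, zero_add, Pi.single_apply]
  simp only [eq_comm]

lemma Q.cov {G : Sch} {R : ℕ} (hQ : Q G R) : Q (cov G) (2 * R + 1) := by
  intro F hF e0 he0
  set F2 : Finset G.E := univ.filter fun f => 2 ≤ (F.filter fun e => proj G e = f).card with hF2
  have hcard : F2.card ≤ R := by
    have h1 : ∑ f ∈ F2, (F.filter fun e => proj G e = f).card ≤ F.card := by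
      rw [sum_card_fiberwise_eq_card_filter]; exact card_filter_le _ _
    have h2 : F2.card * 2 ≤ ∑ f ∈ F2, (F.filter fun e => proj G e = f).card := by
      rw [← smul_eq_mul]
      exact card_nsmul_le_sum _ _ _ fun f hf => (mem_filter.1 hf).2
    omega
  have uniq : ∀ e ∈ F, ∀ e' ∈ F, proj G e = proj G e' → proj G e' ∉ F2 → e = e' := by
    intro e he e' he' h hn
    by_contra hne
    refine hn (mem_filter.2 ⟨mem_univ _, ?_⟩)
    exact one_lt_card.2 ⟨e, mem_filter.2 ⟨he, h⟩, e', mem_filter.2 ⟨he', rfl⟩, hne⟩
  by_cases h0 : proj G e0 ∈ F2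
  · choose! h hh using hQ F2 hcard
    let κ : (Coarse.cov G).V → G.E → ZMod 2 := fun x f => x.2 f + if f ∈ F2 then h f x.1 else 0
    have hκ : ∀ e : (Coarse.cov G).E, proj G e ∈ F2 → κ ((Coarse.cov G).tgt e) = κ e.1 := by
      intro e he
      funext f
      simp only [κ, cov_tgt, Pi.add_apply, Pi.single_apply]
      by_cases hf : f ∈ F2
      · have := hh f hf _ he
        simp only [δ] at this
        simp only [if_pos hf]
        have e1 : (if f = proj G e then (1 : ZMod 2) else 0) = if proj G e = f then 1 else 0 := by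
          simp only [eq_comm]
        rw [e1, ← this]
        change _ + (h f e.1.1 + _) + _ = _
        rw [add_assoc, add_assoc, z2_add_self, add_zero]
      · have : f ≠ proj G e := fun h' => hf (h' ▸ he)
        simp [hf, this]
    let H0 : (Coarse.cov G).V → ZMod 2 := fun x => if κ x = κ e0.1 then h (proj G e0) x.1 else 0
    have hH0 : ∀ e : (Coarse.cov G).E, proj G e ∈ F2 →
        δ (Coarse.cov G) H0 e = if e = e0 then 1 else 0 := by
      intro e he
      have h1 := hh _ h0 _ he
      simp only [δ, H0, hκ e he]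
      by_cases hk : κ e.1 = κ e0.1
      · simp only [if_pos hk]
        have : h (proj G e0) e.1.1 + h (proj G e0) ((Coarse.cov G).tgt e).1
            = if proj G e = proj G e0 then 1 else 0 := h1
        rw [this]
        by_cases hp : proj G e = proj G e0
        · have a1 : e.1.1 = e0.1.1 := (Prod.ext_iff.1 hp).1
          have a2 : e.2 = e0.2 := (Prod.ext_iff.1 hp).2
          have a3 : e.1.2 = e0.1.2 := by
            funext f
            have := congrFun hk f
            simp only [κ, a1] at this
            exact add_right_cancel this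
          have : e = e0 := Prod.ext (Prod.ext a1 a3) a2
          simp [this]
        · have : e ≠ e0 := fun h' => hp (h' ▸ rfl)
          simp [hp, this]
      · have : e ≠ e0 := fun h' => hk (h' ▸ rfl)
        simp [hk, this]
    let F1 := F.filter fun e => proj G e ∉ F2
    refine ⟨fun x => H0 x + ∑ f ∈ F1, δ (Coarse.cov G) H0 f * x.2 (proj G f), fun e he => ?_⟩
    have hsplit : δ (Coarse.cov G)
        (fun x => H0 x + ∑ f ∈ F1, δ (Coarse.cov G) H0 f * x.2 (proj G f)) e
        = δ (Coarse.cov G) H0 e
          + ∑ f ∈ F1, δ (Coarse.cov G) H0 f * if proj G e = proj G f then 1 else 0 := by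
      simp_rw [← δ_coord]
      simp only [δ, mul_add, sum_add_distrib]
      ring
    rw [hsplit]
    by_cases h2 : proj G e ∈ F2
    · rw [hH0 e h2, sum_eq_zero, add_zero]
      intro f hf
      have : proj G e ≠ proj G f := fun h' => (mem_filter.1 hf).2 (h' ▸ h2)
      simp [this]
    · have hne : e ≠ e0 := fun h' => h2 (h' ▸ h0)
      rw [sum_eq_single e, if_pos rfl, mul_one, z2_add_self, if_neg hne]
      · intro f hf hfe
        have : proj G e ≠ proj G f := fun h' =>
          hfe (uniq e he f (mem_filter.1 hf).1 h' (mem_filter.1 hf).2).symm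
        simp [this]
      · intro h'; exact absurd (mem_filter.2 ⟨he, h2⟩) h'
  · refine ⟨fun x => x.2 (proj G e0), fun e he => ?_⟩
    rw [δ_coord]
    by_cases hp : proj G e = proj G e0
    · rw [if_pos hp, if_pos (uniq e he e0 he0 hp h0)]
    · have : e ≠ e0 := fun h' => hp (h' ▸ rfl)
      simp [hp, this]

noncomputable def Gn : ℕ → Sch
  | 0 => { V := Unit, π := fun _ => 1 }
  | n + 1 => cov (Gn n)

lemma QGn : ∀ n, Q (Gn n) n
  | 0 => fun F hF e he => by simp [card_eq_zero.1 (Nat.le_zero.1 hF)] at he
  | n + 1 => (QGn n).cov.mono (by omega)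

/-- the invariant of the connected components of the cover -/
noncomputable def cls (G : Sch) (x : (cov G).V) (h : G.V → ZMod 2) : ZMod 2 :=
  ∑ e, x.2 e * δ G h e + h x.1

lemma cls_tgt (G : Sch) (e : (cov G).E) : cls G ((cov G).tgt e) = cls G e.1 := by
  funext h
  simp only [cls, cov_tgt, Pi.add_apply, add_mul, sum_add_distrib, Pi.single_apply, ite_mul,
    one_mul, zero_mul, sum_ite_eq', mem_univ, if_true]
  rw [δ, add_assoc, add_assoc, z2_add_self, add_zero]; rfl

lemma step_edge (G : Sch) (a : I × Bool) (x : G.V) :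
    ∃ e : G.E, (e.1 = x ∧ G.tgt e = step G.π a x ∧ a = (e.2, true))
      ∨ (G.tgt e = x ∧ e.1 = step G.π a x ∧ a = (e.2, false)) := by
  obtain ⟨i, b⟩ := a
  cases b
  · exact ⟨((G.π i).symm x, i), Or.inr ⟨by simp [Sch.tgt], by simp [step], rfl⟩⟩
  · exact ⟨(x, i), Or.inl ⟨rfl, by simp [step, Sch.tgt], rfl⟩⟩

lemma cls_step (G : Sch) (a : I × Bool) (x : (cov G).V) :
    cls G (step (cov G).π a x) = cls G x := by
  obtain ⟨e, ⟨h1, h2, -⟩ | ⟨h1, h2, -⟩⟩ := step_edge (cov G) a x
  · rw [← h2, cls_tgt, h1]
  · rw [← h2, ← h1, cls_tgt]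

noncomputable def ham (G : Sch) (x y : (cov G).V) : Finset G.E := univ.filter fun e => x.2 e ≠ y.2 e

lemma ham_step (G : Sch) (a : I × Bool) (x : (cov G).V) :
    (ham G (step (cov G).π a x) x).card ≤ 1 := by
  obtain ⟨e, ⟨h1, h2, -⟩ | ⟨h1, h2, -⟩⟩ := step_edge (cov G) a x
  · rw [← h2, ← h1]
    refine card_le_one_iff_subset_singleton.2 ⟨proj G e, fun f hf => ?_⟩
    simp only [ham, cov_tgt, mem_filter, mem_univ, true_and, Pi.add_apply, Pi.single_apply] at hf
    by_contra hn
    rw [mem_singleton] at hn
    simp [hn] at hf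
  · rw [← h2, ← h1]
    refine card_le_one_iff_subset_singleton.2 ⟨proj G e, fun f hf => ?_⟩
    simp only [ham, cov_tgt, mem_filter, mem_univ, true_and, Pi.add_apply, Pi.single_apply] at hf
    by_contra hn
    rw [mem_singleton] at hn
    simp [hn] at hf

lemma z2_ne {a b : ZMod 2} (h : a ≠ b) : a + 1 = b := by revert a b; decide
lemma z2_ne' {a b : ZMod 2} (h : a ≠ b) : a - 1 = b := by revert a b; decide
lemma z2_sum {a b : ZMod 2} : a + b = if a ≠ b then 1 else 0 := by revert a b; decide

lemma path (G : Sch) {R : ℕ} (hQ : Q G R) (y : (cov G).V) :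
    ∀ m, m ≤ R → ∀ x : (cov G).V, cls G x = cls G y → (ham G x y).card = m →
      ∃ l : List (I × Bool), l.length = m ∧ walk (cov G).π x l = y := by
  intro m
  induction m with
  | zero =>
    intro _ x hc h0
    have hz : x.2 = y.2 := by
      funext e
      by_contra hn
      have : e ∈ ham G x y := mem_filter.2 ⟨mem_univ _, hn⟩
      simp [card_eq_zero.1 h0] at this
    have hv : x.1 = y.1 := by
      have := congrFun hc (fun v => if v = x.1 then 1 else 0)
      simp only [cls, hz, add_right_inj, if_true] at this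
      by_contra hn
      rw [if_neg (Ne.symm hn)] at this
      exact one_ne_zero this
    exact ⟨[], rfl, Prod.ext hv hz⟩
  | succ m ih =>
    intro hm x hc hcard
    have key : ∀ h : G.V → ZMod 2, ∑ e ∈ ham G x y, δ G h e = h x.1 + h y.1 := by
      intro h
      have h1 := congrFun hc h
      simp only [cls] at h1
      have h2 : ∑ e ∈ ham G x y, δ G h e = ∑ e, x.2 e * δ G h e + ∑ e, y.2 e * δ G h e := by
        rw [← sum_add_distrib, ham, sum_filter]
        refine sum_congr rfl fun e _ => ?_
        rw [← add_mul, z2_sum]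
        split_ifs <;> simp
      rw [h2]
      have := z2_add_self (h x.1)
      have := z2_add_self (∑ e, y.2 e * δ G h e)
      linear_combination h1 + z2_add_self (∑ e, y.2 e * δ G h e) - z2_add_self (h x.1)
    have inc : ∃ e ∈ ham G x y, e.1 = x.1 ∨ G.tgt e = x.1 := by
      by_cases hv : x.1 = y.1
      · exfalso
        obtain ⟨e, he⟩ : (ham G x y).Nonempty := card_pos.1 (by omega)
        obtain ⟨h, hh⟩ := hQ (ham G x y) (by omega) e he
        have := key h
        rw [sum_congr rfl hh, sum_ite_eq', if_pos he, hv, z2_add_self] at this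
        exact one_ne_zero this
      · by_contra hn
        push Not at hn
        have := key (fun v => if v = x.1 then 1 else 0)
        rw [sum_eq_zero, if_pos rfl, if_neg (Ne.symm hv), add_zero] at this
        · exact zero_ne_one this
        · intro e he
          simp [δ, (hn e he).1, (hn e he).2]
    obtain ⟨e, he, hinc⟩ := inc
    have hne : x.2 e ≠ y.2 e := (mem_filter.1 he).2
    have fin : ∀ a : I × Bool, ham G (step (cov G).π a x) y = (ham G x y).erase e →
        ∃ l : List (I × Bool), l.length = m + 1 ∧ walk (cov G).π x l = y := by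
      intro a ha
      obtain ⟨l, h1, h2⟩ := ih (by omega) (step (cov G).π a x) ((cls_step G a x).trans hc)
        (by rw [ha, card_erase_of_mem he]; omega)
      exact ⟨a :: l, by simp [h1], h2⟩
    rcases hinc with h | h
    · refine fin (e.2, true) ?_
      have : (step (cov G).π (e.2, true) x).2 = x.2 + Pi.single e 1 := by
        change x.2 + Pi.single (x.1, e.2) 1 = _
        rw [← h]
      ext f
      simp only [ham, this, mem_filter, mem_univ, true_and, mem_erase, Pi.add_apply,
        Pi.single_apply]
      by_cases hf : f = e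
      · simp [hf, z2_ne hne]
      · simp [hf]
    · refine fin (e.2, false) ?_
      have : (step (cov G).π (e.2, false) x).2 = x.2 - Pi.single e 1 := by
        change x.2 - Pi.single ((G.π e.2).symm x.1, e.2) 1 = _
        rw [← h]; simp [Sch.tgt]
      ext f
      simp only [ham, this, mem_filter, mem_univ, true_and, mem_erase, Pi.sub_apply,
        Pi.single_apply]
      by_cases hf : f = e
      · simp [hf, z2_ne' hne]
      · simp [hf]

/-- the double cover given by a signing -/
def liftPerm (G : Sch) (s : G.E → ZMod 2) (i : I) : Equiv.Perm (G.V × ZMod 2) where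
  toFun x := (G.π i x.1, x.2 + s (x.1, i))
  invFun x := ((G.π i).symm x.1, x.2 - s ((G.π i).symm x.1, i))
  left_inv x := by simp
  right_inv x := by simp

lemma lift_step_fst (G : Sch) (s : G.E → ZMod 2) (a : I × Bool) (x : G.V × ZMod 2) :
    (step (liftPerm G s) a x).1 = step G.π a x.1 := by
  obtain ⟨i, b⟩ := a; cases b <;> rfl

lemma lift_walk_fst (G : Sch) (s : G.E → ZMod 2) (l : List (I × Bool)) :
    ∀ x : G.V × ZMod 2, (walk (liftPerm G s) x l).1 = walk G.π x.1 l := by
  induction l with
  | nil => intro x; rfl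
  | cons a l ih => intro x; simp only [walk]; rw [ih, lift_step_fst]

lemma lift_inv (G : Sch) (s : G.E → ZMod 2) (l : List (I × Bool)) :
    ∀ x : G.V × ZMod 2, ∃ F : Finset G.E, F.card ≤ l.length ∧ ∀ h : G.V → ZMod 2,
      (∀ e ∈ F, δ G h e = s e) →
        (walk (liftPerm G s) x l).2 + h (walk (liftPerm G s) x l).1 = x.2 + h x.1 := by
  induction l with
  | nil => intro x; exact ⟨∅, le_rfl, fun _ _ => rfl⟩
  | cons a l ih =>
    intro x
    obtain ⟨F, h1, h2⟩ := ih (step (liftPerm G s) a x)
    obtain ⟨i, b⟩ := a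
    cases b
    · refine ⟨insert ((G.π i).symm x.1, i) F, (card_insert_le _ _).trans (by simpa using h1),
        fun h hh => ?_⟩
      have e1 := h2 h fun e he => hh e (mem_insert_of_mem he)
      have e2 := hh _ (mem_insert_self _ _)
      simp only [δ, Sch.tgt, Equiv.apply_symm_apply] at e2
      refine e1.trans ?_
      change x.2 - s ((G.π i).symm x.1, i) + h ((G.π i).symm x.1) = _
      linear_combination e2 - z2_add_self (h x.1)
    · refine ⟨insert (x.1, i) F, (card_insert_le _ _).trans (by simpa using h1),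
        fun h hh => ?_⟩
      have e1 := h2 h fun e he => hh e (mem_insert_of_mem he)
      have e2 := hh _ (mem_insert_self _ _)
      simp only [δ, Sch.tgt] at e2
      refine e1.trans ?_
      change x.2 + s (x.1, i) + h (G.π i x.1) = _
      linear_combination z2_add_self (h (G.π i x.1)) - e2

lemma displace (G : Sch) {R : ℕ} (hQ : Q G R) (s : G.E → ZMod 2) (v : G.V) (l : List (I × Bool))
    (hl : walk (liftPerm G s) (v, 0) l = (v, 1)) : R < l.length := by
  by_contra hn
  obtain ⟨F, h1, h2⟩ := lift_inv G s l (v, 0)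
  choose! h hh using hQ F (by omega)
  have := h2 (fun u => ∑ e ∈ F, s e * h e u) (fun f hf => by
    have : δ G (fun u => ∑ e ∈ F, s e * h e u) f = ∑ e ∈ F, s e * δ G (h e) f := by
      simp only [δ, mul_add, sum_add_distrib]
    rw [this, sum_congr rfl fun e he => by rw [hh e he f hf]]
    simp [hf])
  rw [hl] at this
  exact one_ne_zero (add_right_cancel this)

end Pool.Agent.H31.Coarse
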