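import Mathlib

set_option autoImplicit false

namespace Pool.Agent.H31.Coarse
open Finset

lemma z2 (a : ZMod 2) : a = 0 ∨ a = 1 := by revert a; decide

section LLL
open Classical
variable {E ι : Type} [Fintype E] [Fintype ι]

noncomputable def pat (F : Finset E) (B : (E → ZMod 2) → Prop) : Finset (E → ZMod 2) :=
  univ.filter fun p => (∀ e, e ∉ F → p e = 0) ∧ B p

lemma mem_pat {F : Finset E} {B : (E → ZMod 2) → Prop} {p : E → ZMod 2} :
    p ∈ pat F B ↔ (∀ e, e ∉ F → p e = 0) ∧ B p := by simp only [pat, mem_filter, mem_univ, true_and]

noncomputable def val (F : ι → Finset E) (Bad : ι → (E → ZMod 2) → Prop) (A A' : Finset E) :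
    Finset (E → ZMod 2) :=
  univ.filter fun s => (∀ e, e ∉ A' → s e = 0) ∧ ∀ i, F i ⊆ A → ¬ Bad i s

theorem lll (F : ι → Finset E) (Bad : ι → (E → ZMod 2) → Prop) (c : ι → ℝ)
    (hdep : ∀ i s s', (∀ e ∈ F i, s e = s' e) → Bad i s → Bad i s')
    (hne : ∀ i s, Bad i s → (F i).Nonempty)
    (hc : ∀ i, ((pat (F i) (Bad i)).card : ℝ) * (2 / 3) ^ ((F i).card - 1) ≤ c i)
    (hsum : ∀ e (T : Finset ι), (∀ i ∈ T, e ∈ F i) → ∑ i ∈ T, c i ≤ 1 / 2) :
    ∃ s, ∀ i, ¬ Bad i s := by
  set N : Finset E → ℝ := fun A => ((val F Bad A A).card : ℝ) with hN
  have main : ∀ n, ∀ A : Finset E, A.card = n → ∀ e, e ∉ A → 3 / 2 * N A ≤ N (insert e A) := by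
    intro n
    induction n using Nat.strong_induction_on with
    | _ n ih =>
    intro A hA e he
    have sub : ∀ B : Finset E, B ⊆ A → N (A \ B) ≤ (2 / 3) ^ B.card * N A := by
      intro B
      induction B using Finset.induction_on with
      | empty => intro _; simp
      | insert b B hb ihB =>
        intro hB
        have hbA : b ∈ A := hB (mem_insert_self _ _)
        have h1 := ihB ((subset_insert _ _).trans hB)
        have h2 : insert b (A \ insert b B) = A \ B := by
          ext x; simp only [mem_insert, mem_sdiff]
          constructor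
          · rintro (rfl | ⟨h, h'⟩)
            · exact ⟨hbA, hb⟩
            · exact ⟨h, fun h'' => h' (Or.inr h'')⟩
          · rintro ⟨h, h'⟩
            by_cases hx : x = b
            · exact Or.inl hx
            · exact Or.inr ⟨h, fun h'' => h''.elim hx h'⟩
        have h3 : (A \ insert b B).card < n := by
          rw [← hA]
          exact card_lt_card ⟨sdiff_subset, fun h => by simpa using h hbA⟩
        have h4 := ih _ h3 _ rfl b (by simp)
        rw [h2] at h4
        rw [card_insert_of_notMem hb, pow_succ]
        linarith
    have ext1 : 2 * N A ≤ ((val F Bad A (insert e A)).card : ℝ) := by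
      have : (val F Bad A A ×ˢ (univ : Finset (ZMod 2))).card
          ≤ (val F Bad A (insert e A)).card := by
        refine card_le_card_of_injOn (fun p => Function.update p.1 e p.2) ?_ ?_
        · rintro ⟨s, b⟩ hp
          simp only [val, coe_filter, mem_univ, true_and, Set.mem_ofPred_eq, coe_product,
            Set.mem_prod, coe_univ, Set.mem_univ, and_true] at hp ⊢
          refine ⟨fun e' he' => ?_, fun i hi hb => hp.2 i hi (hdep i _ _ (fun e' he' => ?_) hb)⟩
          · rw [mem_insert, not_or] at he'
            rw [Function.update_of_ne he'.1]; exact hp.1 _ he'.2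
          · exact Function.update_of_ne (fun h : e' = e => he (h ▸ hi he')) _ _
        · rintro ⟨s, b⟩ hp ⟨s', b'⟩ hp' h
          simp only [val, coe_filter, mem_univ, true_and, Set.mem_ofPred_eq, coe_product,
            Set.mem_prod, coe_univ, Set.mem_univ, and_true] at hp hp'
          have hb : b = b' := by simpa using congrFun h e
          have hs : s = s' := by
            funext x
            by_cases hx : x = e
            · rw [hx, hp.1 e he, hp'.1 e he]
            · simpa [Function.update_of_ne hx] using congrFun h x
          rw [hb, hs]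
      rw [card_product, card_univ, ZMod.card] at this
      have h' : ((val F Bad A A).card * 2 : ℝ) ≤ (val F Bad A (insert e A)).card := by
        exact_mod_cast this
      simp only [hN]; linarith
    let T := univ.filter (fun i => e ∈ F i ∧ F i ⊆ insert e A)
    have ext2 : val F Bad A (insert e A) ⊆ val F Bad (insert e A) (insert e A) ∪
        T.biUnion (fun i => (val F Bad A (insert e A)).filter (Bad i)) := by
      intro s hs
      rw [mem_union]
      by_cases h : ∀ i, F i ⊆ insert e A → ¬ Bad i s
      · left
        simp only [val, mem_filter, mem_univ, true_and] at hs ⊢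
        exact ⟨hs.1, h⟩
      · right
        push Not at h
        obtain ⟨i, hi, hb⟩ := h
        refine mem_biUnion.2 ⟨i, ?_, mem_filter.2 ⟨hs, hb⟩⟩
        simp only [T, mem_filter, mem_univ, true_and]
        refine ⟨?_, hi⟩
        by_contra hne'
        simp only [val, mem_filter, mem_univ, true_and] at hs
        exact hs.2 i ((subset_insert_iff_of_notMem hne').1 hi) hb
    have ext3 : ∀ i ∈ T, (((val F Bad A (insert e A)).filter (Bad i)).card : ℝ) ≤ c i * N A := by
      intro i hi
      simp only [T, mem_filter, mem_univ, true_and] at hi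
      have hsub : (F i).erase e ⊆ A := subset_insert_iff.1 hi.2
      have h1 := sub _ hsub
      rw [card_erase_of_mem hi.1] at h1
      have h2 : ((val F Bad A (insert e A)).filter (Bad i)).card
          ≤ (pat (F i) (Bad i) ×ˢ val F Bad (A \ (F i).erase e) (A \ (F i).erase e)).card := by
        refine card_le_card_of_injOn
          (fun s => (fun x => if x ∈ F i then s x else 0, fun x => if x ∈ F i then 0 else s x)) ?_ ?_
        · intro s hs
          simp only [val, pat, coe_filter, mem_filter, mem_univ, true_and, Set.mem_ofPred_eq,
            coe_product, Set.mem_prod] at hs ⊢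
          refine ⟨⟨fun x hx => if_neg hx, hdep i _ _ (fun x hx => (if_pos hx).symm) hs.2⟩,
            fun x hx => ?_, fun j hj hb => hs.1.2 j (hj.trans sdiff_subset)
              (hdep j _ _ (fun x hx => ?_) hb)⟩
          · by_cases hx' : x ∈ F i
            · exact if_pos hx'
            · rw [if_neg hx']
              refine hs.1.1 x fun h => ?_
              rcases mem_insert.1 h with rfl | h
              · exact hx' hi.1
              · exact hx (mem_sdiff.2 ⟨h, fun h' => hx' (mem_of_mem_erase h')⟩)
          · have h' := mem_sdiff.1 (hj hx)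
            refine if_neg fun h'' => h'.2 (mem_erase.2 ⟨fun h => he (h ▸ h'.1), h''⟩)
        · intro s _ s' _ h
          funext x
          have h1 := congrFun (congrArg Prod.fst h) x
          have h2 := congrFun (congrArg Prod.snd h) x
          by_cases hx : x ∈ F i
          · simpa [hx] using h1
          · simpa [hx] using h2
      rw [card_product] at h2
      have h3 : (((val F Bad A (insert e A)).filter (Bad i)).card : ℝ)
          ≤ (pat (F i) (Bad i)).card * N (A \ (F i).erase e) := by
        simp only [hN]; exact_mod_cast h2
      have h4 : (0 : ℝ) ≤ N A := Nat.cast_nonneg _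
      calc _ ≤ _ := h3
        _ ≤ (pat (F i) (Bad i)).card * ((2 / 3) ^ ((F i).card - 1) * N A) := by gcongr
        _ = ((pat (F i) (Bad i)).card * (2 / 3) ^ ((F i).card - 1)) * N A := by ring
        _ ≤ c i * N A := by gcongr; exact hc i
    have h5 : ((val F Bad A (insert e A)).card : ℝ) ≤ N (insert e A)
        + ∑ i ∈ T, (((val F Bad A (insert e A)).filter (Bad i)).card : ℝ) := by
      have := (card_le_card ext2).trans ((card_union_le _ _).trans
        (Nat.add_le_add_left card_biUnion_le _))
      simp only [hN]; exact_mod_cast this
    have h4 : (0 : ℝ) ≤ N A := Nat.cast_nonneg _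
    have h6 : ∑ i ∈ T, c i ≤ 1 / 2 := hsum e T fun i hi => (mem_filter.1 hi).2.1
    have h7 := sum_le_sum ext3
    rw [← sum_mul] at h7
    nlinarith
  have pos : ∀ A : Finset E, 0 < N A := by
    intro A
    induction A using Finset.induction_on with
    | empty =>
      simp only [hN, Nat.cast_pos, card_pos]
      refine ⟨0, ?_⟩
      simp only [val, mem_filter, mem_univ, true_and]
      refine ⟨fun _ _ => rfl, fun i hi hb => ?_⟩
      obtain ⟨x, hx⟩ := hne i _ hb
      simpa using hi hx
    | insert e A he ih => have := main _ A rfl e he; linarith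
  have := pos univ
  simp only [hN, Nat.cast_pos, card_pos] at this
  obtain ⟨s, hs⟩ := this
  simp only [val, mem_filter, mem_univ, true_and] at hs
  exact ⟨s, fun i => hs.2 i (subset_univ _)⟩

end LLL

/-- colours -/
abbrev I := Fin 100

/-- a finite set with 100 permutations (a Schreier graph of degree 200) -/
structure Sch where
  V : Type
  [fin : Fintype V]
  [ne : Nonempty V]
  π : I → Equiv.Perm V

attribute [instance] Sch.fin Sch.ne

namespace Sch
variable (G : Sch)
abbrev E := G.V × I
def tgt (e : G.E) : G.V := G.π e.2 e.1
end Sch

section Walk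
variable {V : Type} (π : I → Equiv.Perm V)
def step (a : I × Bool) (v : V) : V := if a.2 then π a.1 v else (π a.1).symm v
def walk : V → List (I × Bool) → V
  | v, [] => v
  | v, a :: l => walk (step π a v) l

lemma step_inv (a : I × Bool) (v : V) : step π (a.1, !a.2) (step π a v) = v := by
  obtain ⟨i, b⟩ := a; cases b <;> simp [step]

lemma walk_append (l l' : List (I × Bool)) : ∀ v, walk π v (l ++ l') = walk π (walk π v l) l' := by
  induction l with
  | nil => intro v; rfl
  | cons a l ih => intro v; exact ih _

lemma walk_rev (l : List (I × Bool)) :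
    ∀ v, ∃ l' : List (I × Bool), l'.length = l.length ∧ walk π (walk π v l) l' = v := by
  induction l with
  | nil => intro v; exact ⟨[], rfl, rfl⟩
  | cons a l ih =>
    intro v
    obtain ⟨l', h1, h2⟩ := ih (step π a v)
    refine ⟨l' ++ [(a.1, !a.2)], by simp [h1], ?_⟩
    rw [walk_append]
    change walk π (walk π (walk π (step π a v) l) l') _ = v
    rw [h2]; exact step_inv π a v
end Walk

end Pool.Agent.H31.Coarse
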