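import Pool.Agent.H31.CoarseCover

set_option autoImplicit false

namespace Pool.Agent.H31.Coarse
open Finset Classical

def sg (a : ZMod 2) : ℝ := if a = 0 then 1 else -1
lemma sg_cases (a : ZMod 2) : sg a = 1 ∨ sg a = -1 := by unfold sg; split_ifs <;> simp

variable (G : Sch)

noncomputable def term (s : G.E → ZMod 2) (y : G.V → ℝ) (e : G.E) : ℝ :=
  |y (G.tgt e) - sg (s e) * y e.1|
noncomputable def cost (s : G.E → ZMod 2) (y : G.V → ℝ) : ℝ := ∑ e, term G s y e
def Tri (y : G.V → ℝ) : Prop := ∀ v, y v = 0 ∨ y v = 1 ∨ y v = -1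
noncomputable def supp (y : G.V → ℝ) : Finset G.V := univ.filter fun v => y v ≠ 0
noncomputable def In (S : Finset G.V) : Finset G.E := univ.filter fun e => e.1 ∈ S ∧ G.tgt e ∈ S
def Conn (S : Finset G.V) : Prop :=
  ∀ T ⊆ S, T.Nonempty → T ≠ S → ∃ a, ∃ u ∈ T, step G.π a u ∈ S \ T
def Bad (S : Finset G.V) (s : G.E → ZMod 2) : Prop :=
  Conn G S ∧ ∃ y, Tri G y ∧ supp G y = S ∧ cost G s y < S.card

lemma mem_supp {y : G.V → ℝ} {v : G.V} : v ∈ supp G y ↔ y v ≠ 0 := by simp [supp]
lemma mem_In {S : Finset G.V} {e : G.E} : e ∈ In G S ↔ e.1 ∈ S ∧ G.tgt e ∈ S := by simp [In]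
lemma term_nonneg (s : G.E → ZMod 2) (y : G.V → ℝ) (e : G.E) : 0 ≤ term G s y e := abs_nonneg _

noncomputable def wset : G.V → List (I × Bool) → Finset G.V
  | v, [] => {v}
  | v, a :: l => insert v (wset (step G.π a v) l)

lemma self_mem_wset (v : G.V) (l : List (I × Bool)) : v ∈ wset G v l := by
  cases l <;> simp [wset]

lemma wset_detour (a : I × Bool) (u : G.V) (l : List (I × Bool)) : ∀ v, u ∈ wset G v l →
    ∃ l' : List (I × Bool), l'.length = l.length + 2 ∧
      wset G v l' = insert (step G.π a u) (wset G v l) := by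
  have base : ∀ l : List (I × Bool), ∃ l' : List (I × Bool), l'.length = l.length + 2 ∧
      wset G u l' = insert (step G.π a u) (wset G u l) := by
    intro l
    refine ⟨a :: (a.1, !a.2) :: l, rfl, ?_⟩
    simp only [wset, step_inv]
    rw [insert_comm, insert_eq_of_mem (self_mem_wset G u l)]
  induction l with
  | nil =>
    intro v hv
    have : u = v := by simpa [wset] using hv
    subst this; exact base []
  | cons b l ih =>
    intro v hv
    by_cases huv : u = v
    · subst huv; exact base _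
    · simp only [wset, mem_insert, huv, false_or] at hv
      obtain ⟨l', h1, h2⟩ := ih _ hv
      refine ⟨b :: l', by simp [h1], ?_⟩
      simp only [wset, h2]
      exact insert_comm _ _ _

lemma conn_walk {S : Finset G.V} (hS : Conn G S) {v : G.V} (hv : v ∈ S) :
    ∃ l : List (I × Bool), l.length = 2 * (S.card - 1) ∧ wset G v l = S := by
  have : ∀ j, j + 1 ≤ S.card → ∃ l : List (I × Bool), l.length = 2 * j ∧ wset G v l ⊆ S ∧
      (wset G v l).card = j + 1 := by
    intro j
    induction j with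
    | zero => intro _; exact ⟨[], rfl, by simpa [wset] using hv, by simp [wset]⟩
    | succ j ih =>
      intro hj
      obtain ⟨l, h1, h2, h3⟩ := ih (by omega)
      obtain ⟨a, u, hu, hs⟩ := hS _ h2 ⟨v, self_mem_wset G v l⟩ (fun h => by rw [h] at h3; omega)
      obtain ⟨l', h4, h5⟩ := wset_detour G a u l v hu
      rw [mem_sdiff] at hs
      refine ⟨l', by omega, ?_, ?_⟩
      · rw [h5]; exact insert_subset hs.1 h2
      · rw [h5, card_insert_of_notMem hs.2, h3]
  have hpos : 0 < S.card := card_pos.2 ⟨v, hv⟩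
  obtain ⟨l, h1, h2, h3⟩ := this (S.card - 1) (by omega)
  exact ⟨l, h1, eq_of_subset_of_card_le h2 (by omega)⟩

lemma count_conn (v : G.V) (k : ℕ) :
    (univ.filter fun S : Finset G.V => Conn G S ∧ v ∈ S ∧ S.card = k).card ≤ 200 ^ (2 * k) := by
  have h1 : (univ.filter fun S : Finset G.V => Conn G S ∧ v ∈ S ∧ S.card = k) ⊆
      univ.image (fun l : List.Vector (I × Bool) (2 * (k - 1)) => wset G v l.1) := by
    intro S hS
    obtain ⟨h1, h2, h3⟩ := (mem_filter.1 hS).2
    obtain ⟨l, h4, h5⟩ := conn_walk G h1 h2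
    exact mem_image.2 ⟨⟨l, h3 ▸ h4⟩, mem_univ _, h5⟩
  refine (card_le_card h1).trans (card_image_le.trans ?_)
  rw [card_univ, card_vector]
  have : Fintype.card (I × Bool) = 200 := by simp
  rw [this]
  exact Nat.pow_le_pow_right (by norm_num) (by omega)

lemma bad_dep (S : Finset G.V) (s s' : G.E → ZMod 2) (h : ∀ e ∈ In G S, s e = s' e)
    (hb : Bad G S s) : Bad G S s' := by
  obtain ⟨hc, y, h1, h2, h3⟩ := hb
  refine ⟨hc, y, h1, h2, lt_of_eq_of_lt ?_ h3⟩
  refine sum_congr rfl fun e _ => ?_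
  by_cases he : e ∈ In G S
  · rw [term, term, h e he]
  · rw [mem_In, ← h2, mem_supp, mem_supp, not_and_or, not_not, not_not] at he
    rcases he with he | he
    · simp [term, he]
    · rcases sg_cases (s e) with a | a <;> rcases sg_cases (s' e) with b | b <;>
        simp [term, he, a, b]

lemma bad_in {S : Finset G.V} {s : G.E → ZMod 2} (hb : Bad G S s) :
    99 * S.card ≤ (In G S).card ∧ 0 < S.card := by
  obtain ⟨-, y, h1, h2, h3⟩ := hb
  have h0 : 0 ≤ cost G s y := sum_nonneg fun e _ => term_nonneg G s y e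
  have hA : ((S ×ˢ (univ : Finset I)) \ In G S).card ≤ cost G s y := by
    rw [card_eq_sum_ones, Nat.cast_sum]
    refine le_trans (sum_le_sum fun e he => ?_)
      (sum_le_sum_of_subset_of_nonneg (subset_univ _) fun e _ _ => term_nonneg G s y e)
    rw [mem_sdiff, mem_In, mem_product] at he
    have a1 : y e.1 ≠ 0 := (mem_supp G).1 (h2 ▸ he.1.1)
    have a2 : y (G.tgt e) = 0 := by
      by_contra hn
      exact he.2 ⟨he.1.1, h2 ▸ (mem_supp G).2 hn⟩
    rcases h1 e.1 with b | b | b
    · exact absurd b a1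
    · rcases sg_cases (s e) with a | a <;> simp [term, a2, a, b]
    · rcases sg_cases (s e) with a | a <;> simp [term, a2, a, b]
  have hB : (S ×ˢ (univ : Finset I)).card ≤ ((S ×ˢ (univ : Finset I)) \ In G S).card
      + (In G S).card := card_le_card_sdiff_add_card
  rw [card_product, card_univ, Fintype.card_fin] at hB
  have hC : ((S ×ˢ (univ : Finset I)) \ In G S).card < S.card := by
    exact_mod_cast hA.trans_lt h3
  omega

noncomputable def recon (S : Finset G.V) (q : Finset G.V × Finset G.E) (e : G.E) : ZMod 2 :=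
  if e ∈ In G S then (if e.1 ∈ q.1 then 1 else 0) + (if G.tgt e ∈ q.1 then 1 else 0)
    + (if e ∈ q.2 then 1 else 0) else 0

lemma recon_aux (a b : ℝ) (c : ZMod 2) (ha : a = 1 ∨ a = -1) (hb : b = 1 ∨ b = -1) :
    ((if a = -1 then (1 : ZMod 2) else 0) + (if b = -1 then 1 else 0)
      + (if |b - sg c * a| ≠ 0 then 1 else 0) = c) ∧ (|b - sg c * a| ≠ 0 → 2 ≤ |b - sg c * a|) := by
  have h2 : (1 : ZMod 2) + 1 = 0 := by decide
  rcases ha with rfl | rfl <;> rcases hb with rfl | rfl <;> rcases z2 c with rfl | rfl <;>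
    norm_num [sg, h2]

lemma pat_card (S : Finset G.V) : (pat (In G S) (Bad G S)).card ≤
    2 ^ S.card * ((In G S).powerset.filter fun J => 2 * J.card ≤ S.card).card := by
  have h1 : pat (In G S) (Bad G S) ⊆
      (S.powerset ×ˢ ((In G S).powerset.filter fun J => 2 * J.card ≤ S.card)).image (recon G S) := by
    intro p hp
    obtain ⟨hp0, -, y, h1, h2, h3⟩ := mem_pat.1 hp
    have pm : ∀ v ∈ S, y v = 1 ∨ y v = -1 := fun v hv =>
      (h1 v).resolve_left ((mem_supp G).1 (h2 ▸ hv))
    refine mem_image.2 ⟨(S.filter fun v => y v = -1, (In G S).filter fun e => term G p y e ≠ 0),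
      ?_, ?_⟩
    · simp only [mem_product, mem_powerset, mem_filter, filter_subset, true_and]
      have : ((2 * ((In G S).filter fun e => term G p y e ≠ 0).card : ℕ) : ℝ) ≤ cost G p y := by
        rw [mul_comm, ← smul_eq_mul, ← sum_const, Nat.cast_sum]
        refine le_trans (sum_le_sum fun e he => ?_)
          (sum_le_sum_of_subset_of_nonneg (subset_univ _) fun e _ _ => term_nonneg G p y e)
        rw [mem_filter, mem_In] at he
        exact_mod_cast (recon_aux _ _ (p e) (pm _ he.1.1) (pm _ he.1.2)).2 he.2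
      exact_mod_cast (this.trans h3.le)
    · funext e
      by_cases he : e ∈ In G S
      · have he' := (mem_In G).1 he
        have := (recon_aux _ _ (p e) (pm _ he'.1) (pm _ he'.2)).1
        simp only [recon, mem_filter, he, he'.1, he'.2, true_and]
        exact this
      · rw [recon, if_neg he, hp0 e he]
  refine (card_le_card h1).trans (card_image_le.trans ?_)
  rw [card_product, card_powerset]

lemma small_sets {α : Type} (A : Finset α) (k : ℕ) :
    ((A.powerset.filter fun J => 2 * J.card ≤ k).card : ℝ) ≤ 2 ^ k * (5 / 4) ^ A.card := by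
  have h1 : ((5 / 4 : ℝ)) ^ A.card = ∑ J ∈ A.powerset, (1 / 4 : ℝ) ^ J.card := by
    have := prod_one_add (f := fun _ : α => (1 / 4 : ℝ)) A
    simp only [prod_const] at this
    rw [← this]; norm_num
  rw [h1, mul_sum, card_eq_sum_ones, Nat.cast_sum]
  refine le_trans (sum_le_sum fun J hJ => ?_)
    (sum_le_sum_of_subset_of_nonneg (filter_subset _ _) fun J _ _ => by positivity)
  have h2 : (4 : ℝ) ^ J.card ≤ 2 ^ k := by
    rw [show (4 : ℝ) = 2 ^ 2 by norm_num, ← pow_mul]
    exact pow_le_pow_right₀ (by norm_num) (mem_filter.1 hJ).2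
  rw [one_div, inv_pow, ← div_eq_mul_inv, le_div_iff₀ (by positivity)]
  simpa using h2

noncomputable def q0 : ℝ := 4 * (5 / 6) ^ 99
lemma q0_le : 200 ^ 2 * q0 ≤ 1 / 8 := by norm_num [q0]
lemma q0_pos : 0 < q0 := by unfold q0; positivity

theorem exists_sign : ∃ s : G.E → ZMod 2, ∀ S, ¬ Bad G S s := by
  refine lll (In G) (Bad G) (fun S => if Conn G S then 3 / 2 * q0 ^ S.card else 0) (bad_dep G)
    (fun S s hb => card_pos.1 (by have := bad_in G hb; omega)) (fun S => ?_) (fun e T' hT' => ?_)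
  · rcases (pat (In G S) (Bad G S)).eq_empty_or_nonempty with h | ⟨p, hp⟩
    · rw [h]
      have := q0_pos
      simp only [card_empty, Nat.cast_zero, zero_mul]
      split_ifs
      · positivity
      · exact le_rfl
    · have hb : Bad G S p := (mem_pat.1 hp).2
      obtain ⟨h1, h2⟩ := bad_in G hb
      rw [if_pos hb.1]
      have h3 : ((pat (In G S) (Bad G S)).card : ℝ)
          ≤ 2 ^ S.card * (2 ^ S.card * (5 / 4) ^ (In G S).card) := by
        refine le_trans ?_ (mul_le_mul_of_nonneg_left (small_sets (In G S) S.card) (by positivity))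
        exact_mod_cast pat_card G S
      obtain ⟨m, hm⟩ : ∃ m, (In G S).card = m + 1 := ⟨(In G S).card - 1, by omega⟩
      rw [hm] at h3 h1 ⊢
      have h4 : ((5 / 6 : ℝ)) ^ (m + 1) ≤ (5 / 6) ^ (99 * S.card) :=
        pow_le_pow_of_le_one (by norm_num) (by norm_num) h1
      calc _ ≤ 2 ^ S.card * (2 ^ S.card * (5 / 4) ^ (m + 1)) * (2 / 3 : ℝ) ^ (m + 1 - 1) := by gcongr
        _ = 3 / 2 * (4 ^ S.card * (5 / 6) ^ (m + 1)) := by
          rw [Nat.add_sub_cancel, show (4 : ℝ) = 2 * 2 by norm_num,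
            show (5 / 6 : ℝ) = 5 / 4 * (2 / 3) by norm_num, mul_pow, mul_pow, pow_succ (2 / 3 : ℝ)]
          norm_num; ring
        _ ≤ 3 / 2 * (4 ^ S.card * (5 / 6) ^ (99 * S.card)) := by gcongr
        _ = _ := by rw [q0, mul_pow, ← pow_mul]
  · let T := univ.filter fun S : Finset G.V => Conn G S ∧ e.1 ∈ S
    have q := q0_pos
    have h1 : ∑ S ∈ T',
        (if Conn G S then 3 / 2 * q0 ^ S.card else 0) ≤ ∑ S ∈ T, 3 / 2 * q0 ^ S.card := by
      rw [← sum_filter]
      refine sum_le_sum_of_subset_of_nonneg (fun S hS => ?_) fun S _ _ => by positivity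
      simp only [T, mem_filter, mem_univ, true_and] at hS ⊢
      exact ⟨hS.2, ((mem_In G).1 (hT' S hS.1)).1⟩
    have h2 : ∀ S ∈ T, S.card ∈ Ico 1 (Fintype.card G.V + 1) := fun S hS =>
      mem_Ico.2 ⟨card_pos.2 ⟨_, (mem_filter.1 hS).2.2⟩, Nat.lt_succ_of_le (card_le_univ S)⟩
    rw [← sum_fiberwise_of_maps_to h2] at h1
    refine h1.trans ?_
    have h3 : ∀ k ∈ Ico 1 (Fintype.card G.V + 1),
        ∑ S ∈ T with S.card = k, 3 / 2 * q0 ^ S.card ≤ 3 / 2 * (1 / 8 : ℝ) ^ k := by
      intro k _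
      rw [sum_congr rfl (g := fun _ => 3 / 2 * q0 ^ k) (fun S hS => by rw [(mem_filter.1 hS).2]),
        sum_const, nsmul_eq_mul]
      have h4 : ((T.filter fun S => S.card = k).card : ℝ) ≤ 200 ^ (2 * k) := by
        have := count_conn G e.1 k
        simp only [T, filter_filter, and_assoc]
        exact_mod_cast this
      calc _ ≤ (200 : ℝ) ^ (2 * k) * (3 / 2 * q0 ^ k) := by gcongr
        _ = 3 / 2 * (200 ^ 2 * q0) ^ k := by rw [mul_pow, ← pow_mul]; ring
        _ ≤ _ := by gcongr; exact q0_le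
    refine (sum_le_sum h3).trans ?_
    rw [← mul_sum]
    have := geom_sum_Ico_le_of_lt_one (x := (1 / 8 : ℝ)) (m := 1) (n := Fintype.card G.V + 1)
      (by norm_num) (by norm_num)
    linarith [show (1 / 8 : ℝ) ^ 1 / (1 - 1 / 8) = 1 / 7 by norm_num]

lemma tri_good {s : G.E → ZMod 2} (hs : ∀ S, ¬ Bad G S s) :
    ∀ n, ∀ y, Tri G y → (supp G y).card = n → (n : ℝ) ≤ cost G s y := by
  intro n
  induction n using Nat.strong_induction_on with
  | _ n ih =>
  intro y hy hn
  by_cases hc : Conn G (supp G y)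
  · by_contra hlt
    exact hs _ ⟨hc, y, hy, rfl, by rw [hn]; exact not_le.1 hlt⟩
  · unfold Conn at hc
    push Not at hc
    obtain ⟨T, hT, hne, hTS, hno⟩ := hc
    let y1 : G.V → ℝ := fun v => if v ∈ T then y v else 0
    let y2 : G.V → ℝ := fun v => if v ∈ T then 0 else y v
    have t1 : Tri G y1 := fun v => by
      simp only [y1]; split_ifs
      · exact hy v
      · exact Or.inl rfl
    have t2 : Tri G y2 := fun v => by
      simp only [y2]; split_ifs
      · exact Or.inl rfl
      · exact hy v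
    have s1 : supp G y1 = T := by
      ext v; rw [mem_supp]
      by_cases hv : v ∈ T
      · simpa [y1, hv] using (mem_supp G).1 (hT hv)
      · simp [y1, hv]
    have s2 : supp G y2 = supp G y \ T := by
      ext v; rw [mem_sdiff, mem_supp, mem_supp]
      by_cases hv : v ∈ T <;> simp [y2, hv]
    have c1 : T.card < n := hn ▸ card_lt_card (Finset.ssubset_iff_subset_ne.2 ⟨hT, hTS⟩)
    have c2 : (supp G y \ T).card + T.card = n := hn ▸ card_sdiff_add_card_eq_card hT
    have c3 : 0 < T.card := card_pos.2 hne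
    have i1 := ih _ c1 y1 t1 (by rw [s1])
    have i2 := ih (supp G y \ T).card (by omega) y2 t2 (by rw [s2])
    have split : cost G s y = cost G s y1 + cost G s y2 := by
      simp only [cost, ← sum_add_distrib]
      refine sum_congr rfl fun e _ => ?_
      by_cases h1 : e.1 ∈ T <;> by_cases h2 : G.tgt e ∈ T
      · simp [term, y1, y2, h1, h2]
      · have : y (G.tgt e) = 0 := by
          by_contra h
          exact hno (e.2, true) e.1 h1 (mem_sdiff.2 ⟨(mem_supp G).2 h, h2⟩)
        simp [term, y1, y2, h1, h2, this]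
      · have : y e.1 = 0 := by
          by_contra h
          have e1 : step G.π (e.2, false) (G.tgt e) = e.1 := by simp [step, Sch.tgt]
          exact hno (e.2, false) _ h2 (e1 ▸ mem_sdiff.2 ⟨(mem_supp G).2 h, h1⟩)
        simp [term, y1, y2, h1, h2, this]
      · simp [term, y1, y2, h1, h2]
    have : (n : ℝ) = (supp G y \ T).card + T.card := by exact_mod_cast c2.symm
    linarith

lemma pw {m a b : ℝ} (hm : 0 < m) (ha : a = 0 ∨ m ≤ |a|) (hb : b = 0 ∨ m ≤ |b|) :
    m * |Real.sign a - Real.sign b| + |(a - m * Real.sign a) - (b - m * Real.sign b)| ≤ |a - b| := by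
  have ca : a = 0 ∨ (m ≤ a ∧ Real.sign a = 1) ∨ (a ≤ -m ∧ Real.sign a = -1) := by
    rcases ha with h | h
    · exact Or.inl h
    · rcases le_abs.1 h with h | h
      · exact Or.inr (Or.inl ⟨h, Real.sign_of_pos (by linarith)⟩)
      · exact Or.inr (Or.inr ⟨by linarith, Real.sign_of_neg (by linarith)⟩)
  have cb : b = 0 ∨ (m ≤ b ∧ Real.sign b = 1) ∨ (b ≤ -m ∧ Real.sign b = -1) := by
    rcases hb with h | h
    · exact Or.inl h
    · rcases le_abs.1 h with h | h
      · exact Or.inr (Or.inl ⟨h, Real.sign_of_pos (by linarith)⟩)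
      · exact Or.inr (Or.inr ⟨by linarith, Real.sign_of_neg (by linarith)⟩)
  have l1 := le_abs_self (a - b)
  have l2 := neg_le_abs (a - b)
  rcases ca with rfl | ⟨h1, e1⟩ | ⟨h1, e1⟩ <;> rcases cb with rfl | ⟨h2, e2⟩ | ⟨h2, e2⟩ <;>
    simp only [Real.sign_zero, *] <;> norm_num <;>
    (rw [← le_sub_iff_add_le', abs_le]; constructor <;> norm_num at * <;> linarith)

lemma all_good {s : G.E → ZMod 2} (hs : ∀ S, ¬ Bad G S s) :
    ∀ n, ∀ y : G.V → ℝ, (supp G y).card = n → ∑ v, |y v| ≤ cost G s y := by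
  intro n
  induction n using Nat.strong_induction_on with
  | _ n ih =>
  intro y hn
  rcases (supp G y).eq_empty_or_nonempty with h0 | hne
  · have : ∀ v, y v = 0 := fun v => by
      by_contra h; have := (mem_supp G).2 h; simp [h0] at this
    simp only [this, abs_zero, sum_const_zero]
    exact sum_nonneg fun e _ => term_nonneg G s y e
  · obtain ⟨v0, hv0, hmin⟩ := exists_min_image _ (fun v => |y v|) hne
    set m := |y v0| with hm
    have mpos : 0 < m := abs_pos.2 ((mem_supp G).1 hv0)
    have hy : ∀ v, y v = 0 ∨ m ≤ |y v| := fun v => by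
      by_cases h : y v = 0
      · exact Or.inl h
      · exact Or.inr (hmin v ((mem_supp G).2 h))
    let t : G.V → ℝ := fun v => Real.sign (y v)
    let y' : G.V → ℝ := fun v => y v - m * Real.sign (y v)
    have tri : Tri G t := fun v => by
      rcases Real.sign_apply_eq (y v) with h | h | h <;> simp [t, h]
    have st : supp G t = supp G y := by
      ext v; simp [mem_supp, t]
    have sy : (supp G y').card < n := by
      rw [← hn]
      refine card_lt_card ⟨fun v hv => ?_, fun h => ?_⟩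
      · rw [mem_supp] at hv ⊢
        intro h; simp [y', h] at hv
      · have := (mem_supp G).1 (h hv0)
        apply this
        simp only [y', hm]
        rcases lt_trichotomy (y v0) 0 with h | h | h
        · rw [Real.sign_of_neg h, abs_of_neg h]; ring
        · simp [h]
        · rw [Real.sign_of_pos h, abs_of_pos h]; ring
    have i1 := tri_good G hs _ t tri (by rw [st, hn])
    have i2 := ih _ sy y' rfl
    have e1 : ∑ v, |y v| ≤ m * n + ∑ v, |y' v| := by
      rw [← hn, card_eq_sum_ones, supp, sum_filter, Nat.cast_sum, mul_sum, ← sum_add_distrib]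
      refine sum_le_sum fun v _ => ?_
      rcases lt_trichotomy (y v) 0 with h | h | h
      · simp only [y', Real.sign_of_neg h, h.ne, ne_eq, not_false_eq_true, if_true, abs_of_neg h]
        have := neg_le_abs (y v - m * -1); push_cast; linarith
      · simp [y', h]
      · simp only [y', Real.sign_of_pos h, h.ne', ne_eq, not_false_eq_true, if_true, abs_of_pos h]
        have := le_abs_self (y v - m * 1); push_cast; linarith
    have e2 : m * cost G s t + cost G s y' ≤ cost G s y := by
      simp only [cost, mul_sum, ← sum_add_distrib]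
      refine sum_le_sum fun e _ => ?_
      rcases sg_cases (s e) with a | a
      · simpa [term, a, t, y'] using pw mpos (hy (G.tgt e)) (hy e.1)
      · have := pw (b := -y e.1) mpos (hy (G.tgt e)) (by simpa using hy e.1)
        rw [Real.sign_neg] at this
        simp only [term, a, t, y']
        refine le_trans (le_of_eq ?_) (this.trans (le_of_eq ?_))
        · congr 2
          · congr 1; ring
          · ring
        · congr 1; ring
    have := mul_le_mul_of_nonneg_left i1 mpos.le
    linarith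

lemma sqabs (a b : ℝ) : abs (a * abs a - b * abs b) ≤ 200 * (a - b) ^ 2 + (a ^ 2 + b ^ 2) / 400 := by
  have h1 : a * abs a - b * abs b = (a - b) * abs a + b * (abs a - abs b) := by ring
  have h2 : abs (b * (abs a - abs b)) ≤ abs b * abs (a - b) := by
    rw [abs_mul]; exact mul_le_mul_of_nonneg_left (abs_abs_sub_abs_le_abs_sub a b) (abs_nonneg b)
  have h3 : abs ((a - b) * abs a) = abs (a - b) * abs a := by rw [abs_mul, abs_abs]
  have h4 := abs_add_le ((a - b) * abs a) (b * (abs a - abs b))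
  rw [h1, ← sq_abs (a - b), ← sq_abs a, ← sq_abs b]
  nlinarith [sq_nonneg (400 * abs (a - b) - (abs a + abs b)), sq_nonneg (abs a - abs b)]

lemma gap_real {s : G.E → ZMod 2} (hs : ∀ S, ¬ Bad G S s) (ψ : G.V → ℝ) :
    ∑ v, ψ v ^ 2 ≤ 400 * ∑ e : G.E, (ψ (G.tgt e) - sg (s e) * ψ e.1) ^ 2 := by
  have h1 := all_good G hs _ (fun v => ψ v * |ψ v|) rfl
  have h2 : ∑ v, abs (ψ v * abs (ψ v)) = ∑ v, ψ v ^ 2 :=
    sum_congr rfl fun v _ => by rw [abs_mul, abs_abs, abs_mul_abs_self, sq]
  have h3 : cost G s (fun v => ψ v * |ψ v|) ≤ ∑ e : G.E,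
      (200 * (ψ (G.tgt e) - sg (s e) * ψ e.1) ^ 2 + (ψ (G.tgt e) ^ 2 + ψ e.1 ^ 2) / 400) := by
    refine sum_le_sum fun e _ => ?_
    have := sqabs (ψ (G.tgt e)) (sg (s e) * ψ e.1)
    rcases sg_cases (s e) with a | a <;> simpa [term, a] using this
  have h4 : ∑ e : G.E, ψ e.1 ^ 2 = 100 * ∑ v, ψ v ^ 2 := by
    rw [Fintype.sum_prod_type_right]; simp
  have h5 : ∑ e : G.E, ψ (G.tgt e) ^ 2 = 100 * ∑ v, ψ v ^ 2 := by
    rw [Fintype.sum_prod_type_right]
    simp only [Sch.tgt]
    rw [sum_congr rfl fun i _ => Equiv.sum_comp (G.π i) fun v => ψ v ^ 2]; simp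
  rw [sum_add_distrib, ← mul_sum, ← sum_div, sum_add_distrib, h4, h5] at h3
  linarith

lemma gap_hilbert {s : G.E → ZMod 2} (hs : ∀ S, ¬ Bad G S s) {H : Type*} [NormedAddCommGroup H]
    [InnerProductSpace ℝ H] (ψ : G.V → H) :
    ∑ v, ‖ψ v‖ ^ 2 ≤ 400 * ∑ e : G.E, ‖ψ (G.tgt e) - sg (s e) • ψ e.1‖ ^ 2 := by
  let K := Submodule.span ℝ (Set.range ψ)
  have : FiniteDimensional ℝ K := FiniteDimensional.span_of_finite ℝ (Set.finite_range ψ)
  let b := stdOrthonormalBasis ℝ K
  let φ : G.V → K := fun v => ⟨ψ v, Submodule.subset_span ⟨v, rfl⟩⟩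
  have h1 : ∀ v, ‖ψ v‖ ^ 2 = ∑ j, (inner ℝ (b j) (φ v)) ^ 2 := fun v =>
    (b.sum_sq_inner_right (φ v)).symm
  have h2 : ∀ e : G.E, ‖ψ (G.tgt e) - sg (s e) • ψ e.1‖ ^ 2
      = ∑ j, (inner ℝ (b j) (φ (G.tgt e)) - sg (s e) * inner ℝ (b j) (φ e.1)) ^ 2 := fun e => by
    have := (b.sum_sq_inner_right (φ (G.tgt e) - sg (s e) • φ e.1)).symm
    simp only [inner_sub_right, real_inner_smul_right] at this
    exact this
  simp_rw [h1, h2]
  rw [sum_comm, sum_comm (s := (univ : Finset G.E)), mul_sum]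
  exact sum_le_sum fun j _ => gap_real G hs fun v => inner ℝ (b j) (φ v)

end Pool.Agent.H31.Coarse
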