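import Pool.Agent.H31.CoarseSign

set_option autoImplicit false

namespace Pool.Agent.H31.CoarseX
open Filter Pool.Agent.H31.Coarse MeasureTheory
open scoped NNReal Classical

noncomputable def sn (n : ℕ) : (cov (Gn n)).E → ZMod 2 := (exists_sign (cov (Gn n))).choose
lemma sn_spec (n : ℕ) : ∀ S, ¬ Bad (cov (Gn n)) S (sn n) := (exists_sign (cov (Gn n))).choose_spec

def XX : Type := Σ n : ℕ, (cov (Gn n)).V × ZMod 2
noncomputable def wk (x : XX) (l : List (I × Bool)) : XX :=
  ⟨x.1, walk (liftPerm _ (sn x.1)) x.2 l⟩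
def L (x : XX) : ℕ := x.1 + 1
def Near (x y : XX) (k : ℕ) : Prop :=
  (∃ l : List (I × Bool), l.length ≤ k ∧ wk x l = y) ∨ L x + L y ≤ k
noncomputable def D (x y : XX) : ℕ := sInf {k | Near x y k}

lemma near_D (x y : XX) : Near x y (D x y) :=
  Nat.sInf_mem (s := {k | Near x y k}) ⟨L x + L y, Or.inr le_rfl⟩
lemma D_le {x y : XX} {k : ℕ} (h : Near x y k) : D x y ≤ k := Nat.sInf_le h
lemma Near.mono {x y : XX} {k k' : ℕ} (h : Near x y k) (hk : k ≤ k') : Near x y k' := by
  rcases h with ⟨l, h1, h2⟩ | h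
  · exact Or.inl ⟨l, h1.trans hk, h2⟩
  · exact Or.inr (h.trans hk)

lemma Near.symm {x y : XX} {k : ℕ} (h : Near x y k) : Near y x k := by
  rcases h with ⟨l, h1, rfl⟩ | h
  · obtain ⟨l', h2, h3⟩ := walk_rev (liftPerm _ (sn x.1)) l x.2
    refine Or.inl ⟨l', h2 ▸ h1, ?_⟩
    exact congrArg (fun z => (⟨x.1, z⟩ : XX)) h3
  · exact Or.inr (by omega)

lemma Near.trans {x y z : XX} {k k' : ℕ} (h : Near x y k) (h' : Near y z k') :
    Near x z (k + k') := by
  rcases h with ⟨l, h1, rfl⟩ | h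
  · rcases h' with ⟨l', h2, rfl⟩ | h'
    · refine Or.inl ⟨l ++ l', by simp; omega, ?_⟩
      exact congrArg (fun z => (⟨x.1, z⟩ : XX)) (walk_append _ l l' x.2)
    · have : L (wk x l) = L x := rfl
      exact Or.inr (by omega)
  · rcases h' with ⟨l', h2, rfl⟩ | h'
    · have : L (wk y l') = L y := rfl
      exact Or.inr (by omega)
    · exact Or.inr (by omega)

noncomputable instance : MetricSpace XX where
  dist x y := D x y
  dist_self x := by
    have : D x x ≤ 0 := D_le (Or.inl ⟨[], le_rfl, rfl⟩)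
    simp [Nat.le_zero.1 this]
  dist_comm x y := by
    have : D x y = D y x := le_antisymm (D_le (near_D y x).symm) (D_le (near_D x y).symm)
    simp [this]
  dist_triangle x y z := by exact_mod_cast D_le ((near_D x y).trans (near_D y z))
  eq_of_dist_eq_zero := by
    intro x y h
    have h0 : D x y = 0 := by exact_mod_cast h
    rcases h0 ▸ near_D x y with ⟨l, h1, h2⟩ | h
    · rw [List.length_eq_zero_iff.1 (Nat.le_zero.1 h1)] at h2; exact h2
    · simp [L] at h

lemma dist_def (x y : XX) : dist x y = D x y := rfl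

lemma fin_level (k : ℕ) : {x : XX | L x ≤ k}.Finite := by
  refine ((Set.finite_lt_nat k).biUnion fun n _ =>
    Set.finite_range (fun x : (cov (Gn n)).V × ZMod 2 => (⟨n, x⟩ : XX))).subset fun x hx => ?_
  exact Set.mem_biUnion (x := x.1) hx ⟨x.2, rfl⟩

lemma bnd {α β : Type} {A : Set α} (hA : A.Finite) {B : Set β} (hB : B.Finite) :
    ∃ N : ℕ, ∀ (f : β → α) (S : Set α), S ⊆ A ∪ f '' B → S.encard ≤ N := by
  refine ⟨A.ncard + B.ncard, fun f S hS => (Set.encard_le_encard hS).trans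
    ((Set.encard_union_le _ _).trans ?_)⟩
  rw [Nat.cast_add, hA.cast_ncard_eq, hB.cast_ncard_eq]
  exact add_le_add le_rfl (Set.encard_image_le _ _)

lemma near_of_dist {x y : XX} {r : ℝ} {k : ℕ} (hk : r ≤ k) (h : dist x y ≤ r) : Near x y k :=
  (near_D x y).mono (by exact_mod_cast (dist_def x y ▸ h).trans hk)

lemma ulfX (r : ℝ) : ∃ N : ℕ, ∀ x : XX, (Metric.closedBall x r).encard ≤ N := by
  obtain ⟨k, hk⟩ := exists_nat_ge r
  obtain ⟨N, hN⟩ := bnd (fin_level k) (List.finite_length_le (I × Bool) k)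
  refine ⟨N, fun x => hN (wk x) _ fun y hy => ?_⟩
  rcases near_of_dist hk (Metric.mem_closedBall'.1 hy) with ⟨l, h1, h2⟩ | h
  · exact Or.inr ⟨l, h1, h2⟩
  · exact Or.inl (show L y ≤ k by omega)

lemma far (n : ℕ) (v : (cov (Gn n)).V) : n + 1 ≤ D ⟨n, (v, 0)⟩ ⟨n, (v, 1)⟩ := by
  rcases near_D ⟨n, (v, 0)⟩ ⟨n, (v, 1)⟩ with ⟨l, h1, h2⟩ | h
  · have h3 : walk (liftPerm _ (sn n)) (v, 0) l = (v, 1) := eq_of_heq (Sigma.mk.inj h2).2
    have := displace (cov (Gn n)) (QGn (n + 1)) (sn n) v l h3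
    omega
  · simp only [L] at h; omega

lemma l1ind {α : Type} [DecidableEq α] (A B W : Finset α) (hA : A ⊆ W) (hB : B ⊆ W) (a0 : A.Nonempty)
    (b0 : B.Nonempty) :
    ∑ w ∈ W, |(if w ∈ A then 1 / (A.card : ℝ) else 0) - (if w ∈ B then 1 / (B.card : ℝ) else 0)|
      ≤ 2 * (symmDiff A B).card / A.card := by
  have a1 : (0 : ℝ) < A.card := by exact_mod_cast a0.card_pos
  have b1 : (0 : ℝ) < B.card := by exact_mod_cast b0.card_pos
  have hS : symmDiff A B ⊆ W := fun w hw => by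
    rcases Finset.mem_symmDiff.1 hw with h | h
    · exact hA h.1
    · exact hB h.1
  have h1 : ∀ w ∈ W, |(if w ∈ A then 1 / (A.card : ℝ) else 0)
      - (if w ∈ B then 1 / (B.card : ℝ) else 0)| ≤ (if w ∈ symmDiff A B then 1 / (A.card : ℝ) else 0)
        + (if w ∈ B then |1 / (A.card : ℝ) - 1 / B.card| else 0) := by
    intro w _
    have p1 : (0 : ℝ) < 1 / A.card := by positivity
    have p2 : (0 : ℝ) < 1 / B.card := by positivity
    by_cases ha : w ∈ A <;> by_cases hb : w ∈ B <;>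
      simp only [Finset.mem_symmDiff, ha, hb, if_true, if_false, not_true, not_false_iff, and_true,
        and_false, or_false, sub_zero, zero_sub, add_zero, zero_add,
        le_refl, abs_neg, abs_zero, abs_of_pos p1, abs_of_pos p2, or_self, or_true]
    linarith [neg_abs_le (1 / (A.card : ℝ) - 1 / B.card)]
  refine (Finset.sum_le_sum h1).trans ?_
  rw [Finset.sum_add_distrib, Finset.sum_ite_mem, Finset.sum_ite_mem,
    Finset.inter_eq_right.2 hS, Finset.inter_eq_right.2 hB, Finset.sum_const, Finset.sum_const,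
    nsmul_eq_mul, nsmul_eq_mul]
  have c1 : (A.card : ℝ) ≤ B.card + (symmDiff A B).card := by
    exact_mod_cast (Finset.card_le_card (fun w hw => by
      by_cases h : w ∈ B <;> simp [Finset.mem_symmDiff, h, hw])).trans (Finset.card_union_le _ _)
  have c2 : (B.card : ℝ) ≤ A.card + (symmDiff A B).card := by
    exact_mod_cast (Finset.card_le_card (fun w hw => by
      by_cases h : w ∈ A <;> simp [Finset.mem_symmDiff, h, hw])).trans (Finset.card_union_le _ _)
  have e : (B.card : ℝ) * |1 / (A.card : ℝ) - 1 / B.card| = |(B.card : ℝ) - A.card| / A.card := by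
    rw [← abs_of_pos b1, ← abs_mul, ← abs_of_pos a1, ← abs_div, abs_of_pos a1, abs_of_pos b1]
    congr 1; field_simp
  have c3 : |(B.card : ℝ) - A.card| ≤ (symmDiff A B).card := abs_le.2 ⟨by linarith, by linarith⟩
  rw [e, mul_one_div, ← add_div]
  gcongr; linarith

lemma notA_gen (G : Sch) (s : G.E → ZMod 2) (hs : ∀ S, ¬ Bad G S s) {α : Type} [DecidableEq α]
    (B : G.V × ZMod 2 → Finset α) (Bne : ∀ z, (B z).Nonempty)
    (hd : ∀ v w, w ∈ B (v, 0) → w ∉ B (v, 1))
    (hl : ∀ z i, ((symmDiff (B (liftPerm G s i z)) (B z)).card : ℝ)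
      < 1 / 1000 * (B (liftPerm G s i z)).card) : False := by
  let W : Finset α := Finset.univ.biUnion B
  have BW : ∀ z, B z ⊆ W := fun z => Finset.subset_biUnion_of_mem B (Finset.mem_univ z)
  let a : G.V × ZMod 2 → α → ℝ := fun z w => if w ∈ B z then 1 / ((B z).card : ℝ) else 0
  have lip : ∀ (z : G.V × ZMod 2) (i : I),
      ∑ w ∈ W, |a (liftPerm G s i z) w - a z w| ≤ 1 / 500 := by
    intro z i
    refine (l1ind (B (liftPerm G s i z)) (B z) W (BW _) (BW _) (Bne _) (Bne _)).trans ?_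
    rw [div_le_iff₀ (by exact_mod_cast (Bne _).card_pos)]
    linarith [hl z i]
  have low : ∀ v : G.V, 1 ≤ ∑ w ∈ W, |a (v, 0) w - a (v, 1) w| := by
    intro v
    have h1 : ∑ w ∈ W, a (v, 0) w = 1 := by
      have : ((B (v, 0)).card : ℝ) ≠ 0 := by exact_mod_cast (Bne _).card_pos.ne'
      rw [Finset.sum_ite_mem, Finset.inter_eq_right.2 (BW _), Finset.sum_const, nsmul_eq_mul]
      field_simp
    refine h1.ge.trans (Finset.sum_le_sum fun w _ => ?_)
    by_cases hw : w ∈ B (v, 0)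
    · simp only [a, if_neg (hd v w hw), sub_zero]
      exact le_abs_self _
    · simp only [a, if_neg hw]
      exact abs_nonneg _
  have up : ∀ e : G.E, ∑ w ∈ W, term G s (fun v => a (v, 0) w - a (v, 1) w) e ≤ 1 / 250 := by
    intro e
    have h0 : ∑ w ∈ W, |a (G.tgt e, 0 + s e) w - a (e.1, 0) w| ≤ 1 / 500 := lip (e.1, 0) e.2
    have h1 : ∑ w ∈ W, |a (G.tgt e, 1 + s e) w - a (e.1, 1) w| ≤ 1 / 500 := lip (e.1, 1) e.2
    refine le_trans ?_ ((add_le_add h0 h1).trans (by norm_num))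
    rw [← Finset.sum_add_distrib]
    refine Finset.sum_le_sum fun w _ => le_trans (le_of_eq ?_) (abs_sub _ _)
    rcases z2 (s e) with c | c
    · simp only [term, c, add_zero, sg, if_true]; congr 1; ring
    · simp only [term, c, zero_add, z2_add_self, sg, if_neg (one_ne_zero (α := ZMod 2))]
      rw [← abs_neg]; congr 1; ring
  have g1 : ∑ w ∈ W, ∑ v, |a (v, 0) w - a (v, 1) w|
      ≤ ∑ w ∈ W, cost G s (fun v => a (v, 0) w - a (v, 1) w) :=
    Finset.sum_le_sum fun w _ => all_good G hs _ _ rfl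
  simp only [cost] at g1
  rw [Finset.sum_comm, Finset.sum_comm (s := W)] at g1
  have a1 := (Finset.sum_le_sum fun v (_ : v ∈ Finset.univ) => low v).trans
    (g1.trans (Finset.sum_le_sum fun e _ => up e))
  simp only [Finset.sum_const, Finset.card_univ, Fintype.card_prod, Fintype.card_fin,
    nsmul_eq_mul, Nat.cast_mul, Nat.cast_ofNat] at a1
  have : (0 : ℝ) < Fintype.card G.V := by exact_mod_cast Fintype.card_pos
  linarith

def pt (n : ℕ) (z : (cov (Gn n)).V × ZMod 2) : XX := ⟨n, z⟩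

lemma notA : ¬ ∃ S : ℝ, ∃ A : XX → Set (XX × ℕ),
    (∀ x, (A x).Finite) ∧ (∀ x, (x, 0) ∈ A x) ∧ (∀ x, ∀ w ∈ A x, dist w.1 x ≤ S) ∧
    ∀ x y, dist x y < 2 →
      ((symmDiff (A x) (A y)).ncard : ℝ) < (1 / 1000) * ((A x ∩ A y).ncard : ℝ) := by
  rintro ⟨S, A, hf, h0, hS, hA⟩
  obtain ⟨n, hn⟩ := exists_nat_ge (2 * S)
  refine notA_gen (cov (Gn n)) (sn n) (sn_spec n) (fun z => (hf (pt n z)).toFinset)
    (fun z => ⟨(pt n z, 0), (hf _).mem_toFinset.2 (h0 _)⟩) (fun v w hw hw' => ?_) fun z i => ?_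
  · have d0 := hS _ w ((hf _).mem_toFinset.1 hw)
    have d1 := hS _ w ((hf _).mem_toFinset.1 hw')
    have d2 := dist_triangle_left (pt n (v, 0)) (pt n (v, 1)) w.1
    have d3 : ((n + 1 : ℕ) : ℝ) ≤ dist (pt n (v, 0)) (pt n (v, 1)) := by
      rw [dist_def]; exact Nat.cast_le.2 (far n v)
    push_cast at d3
    linarith
  · have h1 : D (pt n (liftPerm _ (sn n) i z)) (pt n z) ≤ 1 :=
      D_le (Near.symm (Or.inl ⟨[(i, true)], le_rfl, rfl⟩))
    have h2 := hA (pt n (liftPerm _ (sn n) i z)) (pt n z) (by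
      rw [dist_def]; exact_mod_cast Nat.lt_succ_of_le h1)
    generalize pt n (liftPerm _ (sn n) i z) = x at h2 ⊢
    generalize pt n z = y at h2 ⊢
    have h3 : ((A x ∩ A y).ncard : ℝ) ≤ (hf x).toFinset.card := by
      rw [← Set.ncard_eq_toFinset_card _ (hf _)]
      exact_mod_cast Set.ncard_le_ncard Set.inter_subset_left (hf _)
    rw [← Set.ncard_coe_finset, Finset.coe_symmDiff, Set.Finite.coe_toFinset,
      Set.Finite.coe_toFinset]
    linarith

lemma onl {X : Type} [MeasurableSpace X] [MeasurableSingletonClass X] (ν : Measure X)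
    (Fn : ℕ → Set X) (hF : ∀ n, (Fn n).Finite) (hm : Monotone Fn) (hU : ∀ x, ∃ n, x ∈ Fn n)
    {E F : Type} [NormedAddCommGroup E] [NormedSpace ℝ E] [NormedAddCommGroup F] [NormedSpace ℝ F]
    (T : Lp E 1 ν →L[ℝ] F) (K : ℝ) (hK : 0 ≤ K)
    (h : ∀ x : X, ∀ ξ : Lp E 1 ν, (∀ᵐ z ∂ν, z ∉ ({x} : Set X) → ξ z = 0) → ‖T ξ‖ ≤ K * ‖ξ‖)
    (g : Lp E 1 ν) : ‖T g‖ ≤ K * ‖g‖ := by
  let R : (s : Set X) → MeasurableSet s → Lp E 1 ν := fun s hs =>
    ((Lp.memLp g).indicator hs).toLp (s.indicator g)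
  have Rc : ∀ s hs, R s hs =ᵐ[ν] s.indicator g := fun s hs => MemLp.coeFn_toLp _
  have Rn : ∀ s hs, ‖R s hs‖ = ∫ z in s, ‖g z‖ ∂ν := by
    intro s hs
    rw [L1.norm_eq_integral_norm, ← integral_indicator hs]
    refine integral_congr_ae ?_
    filter_upwards [Rc s hs] with z hz
    rw [hz, norm_indicator_eq_indicator_norm]
  have gi : Integrable (fun z => ‖g z‖) ν := (L1.integrable_coeFn g).norm
  have Ru : ∀ s t hs ht, Disjoint s t → R (s ∪ t) (hs.union ht) = R s hs + R t ht := by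
    intro s t hs ht hd
    refine Lp.ext ?_
    filter_upwards [Rc s hs, Rc t ht, Rc _ (hs.union ht), Lp.coeFn_add (R s hs) (R t ht)]
      with z h1 h2 h3 h4
    rw [h4, Pi.add_apply, h1, h2, h3, Set.indicator_union_of_disjoint hd]
  have fin : ∀ s : Set X, (hs : s.Finite) → ‖T (R s hs.measurableSet)‖ ≤ K * ∫ z in s, ‖g z‖ ∂ν := by
    intro s hs
    induction s, hs using Set.Finite.induction_on with
    | empty =>
      have : R ∅ Set.finite_empty.measurableSet = 0 := 
        norm_eq_zero.1 ((Rn ∅ Set.finite_empty.measurableSet).trans (by simp))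
      rw [this]; simp
    | @insert x s hx hs ih =>
      have hd : Disjoint {x} s := Set.disjoint_singleton_left.2 hx
      have e1 := Ru {x} s (measurableSet_singleton x) hs.measurableSet hd
      have e2 := setIntegral_union hd hs.measurableSet gi.integrableOn gi.integrableOn
      have e3 := h x (R {x} (measurableSet_singleton x)) (by
        filter_upwards [Rc {x} (measurableSet_singleton x)] with z h1 h2
        rw [h1, Set.indicator_of_notMem h2])
      rw [Rn _ (measurableSet_singleton x)] at e3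
      change ‖T (R ({x} ∪ s) ((measurableSet_singleton x).union hs.measurableSet))‖
        ≤ K * ∫ z in {x} ∪ s, ‖g z‖ ∂ν
      rw [e1, e2, map_add, mul_add]
      exact (norm_add_le _ _).trans (add_le_add e3 ih)
  have step : ∀ n, ‖T g‖ ≤ K * ‖g‖ + ‖T‖ * ∫ z in (Fn n)ᶜ, ‖g z‖ ∂ν := by
    intro n
    have hs := (hF n).measurableSet
    have e1 : g = R (Fn n) hs + R (Fn n)ᶜ hs.compl := by
      rw [← Ru _ _ hs hs.compl disjoint_compl_right]
      refine Lp.ext ?_
      filter_upwards [Rc _ (hs.union hs.compl)] with z h1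
      rw [h1, Set.union_compl_self, Set.indicator_univ]
    have e2 : ∫ z in Fn n, ‖g z‖ ∂ν ≤ ‖g‖ := by
      rw [L1.norm_eq_integral_norm]
      exact setIntegral_le_integral gi (ae_of_all _ fun z => norm_nonneg _)
    have e3 := T.le_opNorm (R (Fn n)ᶜ hs.compl)
    rw [Rn _ hs.compl] at e3
    have e4 : ‖T g‖ ≤ ‖T (R (Fn n) hs)‖ + ‖T (R (Fn n)ᶜ hs.compl)‖ := by
      conv_lhs => rw [e1, map_add]
      exact norm_add_le _ _
    have e5 := (fin _ (hF n)).trans (mul_le_mul_of_nonneg_left e2 hK)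
    linarith
  have lim := tendsto_setIntegral_of_antitone (μ := ν) (f := fun z => ‖g z‖)
    (s := fun n => (Fn n)ᶜ) (fun n => (hF n).measurableSet.compl)
    (fun a b hab => Set.compl_subset_compl.2 (hm hab)) ⟨0, gi.integrableOn⟩
  have e0 : ⋂ n, (Fn n)ᶜ = ∅ := by
    ext x; simpa using hU x
  rw [e0, setIntegral_empty] at lim
  have l2 := (lim.const_mul ‖T‖).const_add (K * ‖g‖)
  rw [mul_zero, add_zero] at l2
  exact ge_of_tendsto' l2 step

end Pool.Agent.H31.CoarseX
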