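import Mathlib

set_option autoImplicit false

namespace Pool.Agent.H31.DeltaSys

open Cardinal Set

universe u

/-- An element of `I(κ)`: an injection from an ordinal below `κ⁺` into `κ`.  The ordinals below
`κ⁺` are the elements of the well-order `(succ κ).ord.ToType`, each identified with the set of its
predecessors; `κ.ord.ToType` is `κ` as a set. -/
structure Inj (κ : Cardinal.{u}) : Type u where
  dom : (Order.succ κ).ord.ToType
  toFun : Iio dom → κ.ord.ToType
  inj : Function.Injective toFun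

/-- the principle `Δ(κ)` -/
def Delta (κ : Cardinal.{u}) : Prop :=
  ∀ D : (f : Inj κ) → Set (Iio f.dom), (∀ f, #(D f) < κ) →
    ∃ F : (Order.succ κ).ord.ToType → Inj κ, (∀ a b, a < b → (F a).dom < (F b).dom) ∧
      ∀ a b x (ha : x ∈ Iio (F a).dom) (hb : x ∈ Iio (F b).dom),
        ⟨x, ha⟩ ∈ D (F a) → ⟨x, hb⟩ ∈ D (F b) → (F a).toFun ⟨x, ha⟩ = (F b).toFun ⟨x, hb⟩

lemma rec_exists {T X : Type u} [LinearOrder T] [WellFoundedLT T] (x0 : X)
    (nxt : T → (T → X) → X) :
    ∃ β : T → X, ∀ ξ, β ξ = nxt ξ (fun ζ => if ζ < ξ then β ζ else x0) := by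
  let β : T → X := (wellFounded_lt (α := T)).fix fun ξ ih =>
    nxt ξ (fun ζ => if h : ζ < ξ then ih ζ h else x0)
  refine ⟨β, fun ξ => ?_⟩
  have : β ξ = nxt ξ (fun ζ => if _ : ζ < ξ then β ζ else x0) := WellFounded.fix_eq _ _ _
  simpa using this

lemma bounded {κ : Cardinal.{u}} (hκ : ℵ₀ ≤ κ) {ι : Type u} (hι : #ι ≤ κ)
    (g g' : ι → (Order.succ κ).ord.ToType) : ∃ b, ∀ i, g i < b ∧ g' i < b := by
  by_contra hc
  push Not at hc
  have h1 : IsCofinal (range g ∪ range g') := by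
    intro b
    obtain ⟨i, hi⟩ := hc b
    by_cases h : g i < b
    · exact ⟨g' i, Or.inr ⟨i, rfl⟩, hi h⟩
    · exact ⟨g i, Or.inl ⟨i, rfl⟩, not_lt.1 h⟩
  have h2 := Order.cof_le h1
  rw [Ordinal.cof_toType, (isRegular_succ hκ).cof_ord] at h2
  have h3 : #(range g ∪ range g' : Set _) ≤ κ :=
    (mk_union_le _ _).trans ((add_le_add (mk_range_le.trans hι) (mk_range_le.trans hι)).trans
      (add_eq_self hκ).le)
  exact absurd (h2.trans h3) (not_le.2 (Order.lt_succ κ))

theorem delta (κ : Cardinal.{u}) (hκ : ℵ₀ ≤ κ) : Delta κ := by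
  classical
  intro D hD
  have hI : ∀ a : (Order.succ κ).ord.ToType, #(Iio a) ≤ κ := fun a =>
    Order.lt_succ_iff.1 (mk_Iio_toType_ord_lt a)
  have hK : #κ.ord.ToType = κ := mk_ord_toType κ
  obtain ⟨w0, -⟩ := bounded hκ (ι := PEmpty) (by simp) PEmpty.elim PEmpty.elim
  have key : ∃ (γ : (Order.succ κ).ord.ToType) (h : Iio γ → κ.ord.ToType), ∀ δ, ∃ f : Inj κ,
      δ < f.dom ∧ (∀ x (h1 : x ∈ Iio γ) (h2 : x ∈ Iio f.dom), f.toFun ⟨x, h2⟩ = h ⟨x, h1⟩) ∧
      ∀ x ∈ D f, x.1 < γ ∨ δ ≤ x.1 := by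
    by_contra hc
    push Not at hc
    choose δ hδ using hc
    have hj : ∀ a : (Order.succ κ).ord.ToType, Nonempty (Iio a ↪ κ.ord.ToType) := fun a =>
      (Cardinal.le_def _ _).1 (by rw [hK]; exact hI a)
    let j := fun a => (hj a).some
    obtain ⟨e⟩ : Nonempty (Option κ.ord.ToType × κ.ord.ToType ↪ κ.ord.ToType) := by
      rw [← Cardinal.le_def]
      simp only [mk_prod, mk_option, lift_id, hK]
      rw [add_one_eq hκ, mul_eq_self hκ]
    let p : (β : κ.ord.ToType → (Order.succ κ).ord.ToType) → ∀ x, (∃ ζ, x < β ζ) → κ.ord.ToType :=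
      fun β x h => (wellFounded_lt (α := κ.ord.ToType)).min {ζ | x < β ζ} h
    have p1 : ∀ (β : κ.ord.ToType → (Order.succ κ).ord.ToType) x h, x < β (p β x h) :=
      fun β x h => WellFounded.min_mem _ {ζ | x < β ζ} h
    have p2 : ∀ (β : κ.ord.ToType → (Order.succ κ).ord.ToType) x h ζ, x < β ζ → p β x h ≤ ζ :=
      fun β x h ζ hζ =>
      not_lt.1 (WellFounded.not_lt_min _ {ζ | x < β ζ} hζ)
    let H : (β : κ.ord.ToType → (Order.succ κ).ord.ToType) → ∀ η, Iio (β η) → κ.ord.ToType :=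
      fun β η x => e (some (p β x ⟨η, x.2⟩), j _ ⟨x, p1 β x ⟨η, x.2⟩⟩)
    have hb : ∀ β : κ.ord.ToType → (Order.succ κ).ord.ToType,
        ∃ b, ∀ η, β η < b ∧ δ (β η) (H β η) < b := fun β => bounded hκ hK.le _ _
    choose bd hbd using hb
    obtain ⟨β, hβ⟩ := rec_exists w0 (fun _ β => bd β)
    have main : ∀ η ξ, η < ξ → δ (β η) (H β η) < β ξ := by
      intro η ξ h
      rw [hβ ξ]
      set β' : κ.ord.ToType → (Order.succ κ).ord.ToType := fun ζ => if ζ < ξ then β ζ else w0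
      have e1 : ∀ ζ, ζ ≤ η → β' ζ = β ζ := fun ζ hζ => if_pos (hζ.trans_lt h)
      have e2 : ∀ x (h1 : x < β η) (h2 : x < β' η), p β x ⟨η, h1⟩ = p β' x ⟨η, h2⟩ := by
        intro x h1 h2
        apply le_antisymm
        · apply p2; rw [← e1 _ (p2 _ _ _ _ h2)]; exact p1 _ _ _
        · apply p2; rw [e1 _ (p2 _ _ _ _ h1)]; exact p1 _ _ _
      have e3 : ∀ (a a' : (Order.succ κ).ord.ToType) (g : Iio a → κ.ord.ToType)
          (g' : Iio a' → κ.ord.ToType), a = a' → (∀ x h1 h2, g ⟨x, h1⟩ = g' ⟨x, h2⟩) →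
          δ a g = δ a' g' := by
        rintro a _ g g' rfl hg
        congr 1; funext x; exact hg x.1 x.2 x.2
      have e4 : ∀ (a a' : (Order.succ κ).ord.ToType) x h1 h2, a = a' →
          j a ⟨x, h1⟩ = j a' ⟨x, h2⟩ := by
        rintro a _ x h1 h2 rfl; rfl
      rw [e3 (β η) (β' η) (H β η) (H β' η) (e1 η le_rfl).symm]
      · exact (hbd β' η).2
      · intro x h1 h2
        simp only [H]
        congr 2
        · rw [e2 x h1 h2]
        · apply e4
          rw [← e2 x h1 h2, e1 _ (p2 _ _ _ _ h1)]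
    let f : Inj κ := ⟨bd β, fun x => if h : ∃ ζ, x.1 < β ζ then
        e (some (p β x h), j _ ⟨x, p1 β x h⟩) else e (none, j _ x), by
      intro x y hxy
      simp only at hxy
      split_ifs at hxy with h1 h2 h2
      · have h3 := e.injective hxy
        simp only [Prod.mk.injEq, Option.some.injEq] at h3
        have h4 : ∀ (a a' : (Order.succ κ).ord.ToType) h1 h2, a = a' →
            j a ⟨x.1, h1⟩ = j a' ⟨y.1, h2⟩ → x.1 = y.1 := by
          rintro a _ h1 h2 rfl h
          exact Subtype.mk.inj ((j a).injective h)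
        exact Subtype.ext (h4 _ _ _ _ (by rw [h3.1]) h3.2)
      · simpa using e.injective hxy
      · simpa using e.injective hxy
      · have h3 := e.injective hxy
        simp only [Prod.mk.injEq, true_and] at h3
        exact (j _).injective h3⟩
    have hx : ∀ η, ∃ x ∈ D f, β η ≤ x.1 ∧ x.1 < δ (β η) (H β η) := fun η =>
      hδ (β η) (H β η) f (hbd β η).2 fun x h1 h2 => dif_pos ⟨η, h1⟩
    choose x hx1 hx2 hx3 using hx
    have hm : StrictMono fun η => (x η).1 := fun η ξ h =>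
      (hx3 η).trans ((main η ξ h).trans_le (hx2 ξ))
    have : #κ.ord.ToType ≤ #(D f) := mk_le_of_injective (f := fun η => ⟨x η, hx1 η⟩)
      fun a b hab => hm.injective (congrArg (fun z : D f => z.1.1) hab)
    rw [hK] at this
    exact absurd (hD f) (not_lt.2 this)
  obtain ⟨γ, h, hh⟩ := key
  choose G hG1 hG2 hG3 using hh
  have hb : ∀ (ξ : (Order.succ κ).ord.ToType) (β : (Order.succ κ).ord.ToType →
      (Order.succ κ).ord.ToType), ∃ b, ∀ η < ξ, (G (β η)).dom < b := by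
    intro ξ β
    obtain ⟨b, hb⟩ := bounded hκ (hI ξ) (fun η => (G (β η)).dom) (fun η => (G (β η)).dom)
    exact ⟨b, fun η hη => (hb ⟨η, hη⟩).1⟩
  choose bd hbd using hb
  obtain ⟨β, hβ⟩ := rec_exists w0 bd
  have main : ∀ η ξ, η < ξ → (G (β η)).dom < β ξ := by
    intro η ξ h
    rw [hβ ξ]
    have := hbd ξ (fun ζ => if ζ < ξ then β ζ else w0) η h
    simpa only [if_pos h] using this
  have aux : ∀ a b x (ha : x ∈ Iio (G (β a)).dom) (hb : x ∈ Iio (G (β b)).dom), a < b →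
      ⟨x, hb⟩ ∈ D (G (β b)) → (G (β a)).toFun ⟨x, ha⟩ = (G (β b)).toFun ⟨x, hb⟩ := by
    intro a b x ha hb hab hx
    rcases hG3 _ _ hx with h1 | h1
    · rw [hG2 _ x h1 ha, hG2 _ x h1 hb]
    · exact absurd (lt_trans ha (main a b hab)) (not_lt.2 h1)
  refine ⟨fun ξ => G (β ξ), fun a b hab => (main a b hab).trans (hG1 _), ?_⟩
  intro a b x ha hb h1 h2
  rcases lt_trichotomy a b with h | rfl | h
  · exact aux a b x ha hb h h2
  · rfl
  · exact (aux b a x hb ha h h1).symm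

end Pool.Agent.H31.DeltaSys
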