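import Mathlib

set_option autoImplicit false

namespace Pool.Agent.H31.EntLC
open MeasureTheory ProbabilityTheory Real

noncomputable abbrev γ : Measure ℝ := gaussianReal 0 1
noncomputable abbrev g (x : ℝ) : ℝ := gaussianPDFReal 0 1 x
noncomputable def E (y : ℝ) : ℝ := Real.exp (-y ^ 2 / 2)
noncomputable def W (r : ℝ → ℝ) : Measure ℝ :=
  volume.withDensity (fun x => ENNReal.ofReal (g x * r x))

lemma g_pos (x : ℝ) : 0 < g x := gaussianPDFReal_pos 0 1 x one_ne_zero

lemma g_eq (x : ℝ) : g x = Real.exp (-(x ^ 2 / 2 + Real.log (√(2 * π)))) := by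
  have h : 0 < √(2 * π) := Real.sqrt_pos.2 (by have := pi_pos; linarith)
  simp only [g, gaussianPDFReal, NNReal.coe_one, mul_one, sub_zero]
  rw [neg_add, Real.exp_add, Real.exp_neg (Real.log _), Real.exp_log h, mul_comm]
  congr 2; ring

lemma g_cont : Continuous g := by
  have : g = fun x => Real.exp (-(x ^ 2 / 2 + Real.log (√(2 * π)))) := funext g_eq
  rw [this]; fun_prop

lemma meas_gr {r : ℝ → ℝ} (hc : Continuous r) :
    Measurable (fun x => ENNReal.ofReal (g x * r x)) :=
  (g_cont.mul hc).measurable.ennreal_ofReal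

lemma iadd {Ω F : Type} [MeasurableSpace Ω] {μ : Measure Ω} [NormedAddCommGroup F] {f k : Ω → F}
    (hf : Integrable f μ) (hk : Integrable k μ) : Integrable (fun x => f x + k x) μ := hf.add hk

lemma isub {Ω F : Type} [MeasurableSpace Ω] {μ : Measure Ω} [NormedAddCommGroup F] {f k : Ω → F}
    (hf : Integrable f μ) (hk : Integrable k μ) : Integrable (fun x => f x - k x) μ := hf.sub hk

lemma intW {F : Type} [NormedAddCommGroup F] [NormedSpace ℝ F] (r : ℝ → ℝ) (hc : Continuous r)
    (h0 : ∀ x, 0 ≤ r x) (φ : ℝ → F) : ∫ x, φ x ∂(W r) = ∫ x, r x • φ x ∂γ := by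
  rw [integral_gaussianReal_eq_integral_smul one_ne_zero, W,
    integral_withDensity_eq_integral_toReal_smul
      (meas_gr hc) (ae_of_all _ fun _ => ENNReal.ofReal_lt_top)]
  refine integral_congr_ae (ae_of_all _ fun x => ?_)
  simp only
  rw [ENNReal.toReal_ofReal (mul_nonneg (g_pos x).le (h0 x)), mul_smul]

lemma integrable_vol {φ : ℝ → ℝ} (h : Integrable φ γ) : Integrable (fun x => φ x * g x) := by
  rw [γ, gaussianReal_of_var_ne_zero _ one_ne_zero,
    integrable_withDensity_iff (measurable_gaussianPDF _ _)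
      (ae_of_all _ fun _ => gaussianPDF_lt_top)] at h
  simpa [toReal_gaussianPDF] using h

lemma integrableW (r : ℝ → ℝ) (hc : Continuous r) (h0 : ∀ x, 0 ≤ r x) (h2 : ∀ x, r x ≤ 2)
    {φ : ℝ → ℝ} (h : Integrable φ γ) : Integrable φ (W r) := by
  rw [W, integrable_withDensity_iff (meas_gr hc)
    (ae_of_all _ fun _ => ENNReal.ofReal_lt_top)]
  have := (integrable_vol h).mul_bdd (c := 2) hc.aestronglyMeasurable
    (ae_of_all _ fun x => by rw [Real.norm_of_nonneg (h0 x)]; exact h2 x)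
  refine this.congr (ae_of_all _ fun x => ?_)
  simp only
  rw [ENNReal.toReal_ofReal (mul_nonneg (g_pos x).le (h0 x)), mul_assoc]

lemma integrable_gr (r : ℝ → ℝ) (hc : Continuous r) (h0 : ∀ x, 0 ≤ r x) (h2 : ∀ x, r x ≤ 2) :
    Integrable (fun x => g x * r x) :=
  (integrable_gaussianPDFReal 0 1).mul_bdd (c := 2) hc.aestronglyMeasurable
    (ae_of_all _ fun x => by rw [Real.norm_of_nonneg (h0 x)]; exact h2 x)

lemma finiteW (r : ℝ → ℝ) (hc : Continuous r) (h0 : ∀ x, 0 ≤ r x) (h2 : ∀ x, r x ≤ 2) :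
    IsFiniteMeasure (W r) :=
  isFiniteMeasure_withDensity_ofReal (integrable_gr r hc h0 h2).2

lemma int_exp (s : ℝ) : ∫ x : ℝ, Complex.exp (s * x * Complex.I) ∂γ = (E s : ℂ) := by
  rw [← charFun_apply_real, charFun_gaussianReal]
  simp [E]
  congr 1; ring

lemma integrable_exp (s : ℝ) : Integrable (fun x : ℝ => Complex.exp (s * x * Complex.I)) γ := by
  refine Integrable.of_bound (by fun_prop) 1 (ae_of_all _ fun x => ?_)
  have : (s * x * Complex.I : ℂ) = ((s * x : ℝ) : ℂ) * Complex.I := by push_cast; ring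
  rw [this, Complex.norm_exp_ofReal_mul_I]

noncomputable def C (κ t : ℝ) : ℝ := (E (t + κ) + E (t - κ)) / 2

lemma cos_exp (κ t x : ℝ) : Real.cos (κ * x) • Complex.exp (t * x * Complex.I)
    = (1 / 2 : ℂ) * (Complex.exp ((t + κ : ℝ) * x * Complex.I)
      + Complex.exp ((t - κ : ℝ) * x * Complex.I)) := by
  rw [Complex.real_smul, Complex.ofReal_cos, Complex.cos]
  push_cast
  have h1 : Complex.exp ((t + κ) * x * Complex.I)
      = Complex.exp (κ * x * Complex.I) * Complex.exp (t * x * Complex.I) := by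
    rw [← Complex.exp_add]; congr 1; ring
  have h2 : Complex.exp ((t - κ) * x * Complex.I)
      = Complex.exp (-(κ * x) * Complex.I) * Complex.exp (t * x * Complex.I) := by
    rw [← Complex.exp_add]; congr 1; ring
  rw [h1, h2]; ring

lemma integrable_cos_exp (κ t : ℝ) :
    Integrable (fun x : ℝ => Real.cos (κ * x) • Complex.exp (t * x * Complex.I)) γ := by
  simp_rw [cos_exp]
  exact ((integrable_exp _).add (integrable_exp _)).const_mul _

lemma int_cos_exp (κ t : ℝ) :
    ∫ x : ℝ, Real.cos (κ * x) • Complex.exp (t * x * Complex.I) ∂γ = (C κ t : ℂ) := by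
  simp_rw [cos_exp]
  rw [integral_const_mul, integral_add (integrable_exp _) (integrable_exp _), int_exp, int_exp, C]
  push_cast; ring

lemma E_neg (y : ℝ) : E (-y) = E y := by simp [E]
lemma E_zero : E 0 = 1 := by simp [E]
lemma E_pos (y : ℝ) : 0 < E y := Real.exp_pos _

lemma integrable_cos (κ : ℝ) : Integrable (fun x : ℝ => Real.cos (κ * x)) γ :=
  Integrable.of_bound (by fun_prop) 1 (ae_of_all _ fun x => Real.abs_cos_le_one _)

lemma int_cos (κ : ℝ) : ∫ x : ℝ, Real.cos (κ * x) ∂γ = E κ := by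
  have h := int_cos_exp κ 0
  simp only [Complex.ofReal_zero, zero_mul, Complex.exp_zero, Complex.real_smul, mul_one] at h
  rw [integral_complex_ofReal] at h
  have h' := Complex.ofReal_injective h
  rw [h', C, zero_add, zero_sub, E_neg]; ring

/-- characteristic function of a trigonometric tilt of the Gaussian -/
lemma charW (c0 c1 c2 c3 c4 k1 k2 k3 k4 : ℝ) (r : ℝ → ℝ)
    (hr : r = fun x => c0 + c1 * Real.cos (k1 * x) + c2 * Real.cos (k2 * x)
      + c3 * Real.cos (k3 * x) + c4 * Real.cos (k4 * x)) (h0 : ∀ x, 0 ≤ r x) (t : ℝ) :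
    charFun (W r) t = ((c0 * E t + c1 * C k1 t + c2 * C k2 t + c3 * C k3 t + c4 * C k4 t : ℝ) : ℂ) := by
  have hc : Continuous r := by rw [hr]; fun_prop
  rw [charFun_apply_real, intW r hc h0]
  have : ∀ x : ℝ, r x • Complex.exp (t * x * Complex.I)
      = (c0 : ℂ) * Complex.exp (t * x * Complex.I)
        + (c1 : ℂ) * (Real.cos (k1 * x) • Complex.exp (t * x * Complex.I))
        + (c2 : ℂ) * (Real.cos (k2 * x) • Complex.exp (t * x * Complex.I))
        + (c3 : ℂ) * (Real.cos (k3 * x) • Complex.exp (t * x * Complex.I))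
        + (c4 : ℂ) * (Real.cos (k4 * x) • Complex.exp (t * x * Complex.I)) := by
    intro x; rw [hr]; simp only [Complex.real_smul]; push_cast; ring
  simp_rw [this]
  have i0 := (integrable_exp t).const_mul (c0 : ℂ)
  have i1 := (integrable_cos_exp k1 t).const_mul (c1 : ℂ)
  have i2 := (integrable_cos_exp k2 t).const_mul (c2 : ℂ)
  have i3 := (integrable_cos_exp k3 t).const_mul (c3 : ℂ)
  have i4 := (integrable_cos_exp k4 t).const_mul (c4 : ℂ)
  rw [integral_add (iadd (iadd (iadd i0 i1) i2) i3) i4, integral_add (iadd (iadd i0 i1) i2) i3,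
    integral_add (iadd i0 i1) i2, integral_add i0 i1]
  simp only [integral_const_mul, int_cos_exp, int_exp]
  push_cast; ring

lemma EE {x y u v : ℝ} (h : x ^ 2 + y ^ 2 = u ^ 2 + v ^ 2) : E x * E y = E u * E v := by
  simp only [E, ← Real.exp_add]; congr 1; linarith

lemma E_small {y : ℝ} (h : 144 ≤ y ^ 2) : E y ≤ 1 / 1000000 := by
  have h1 := Real.pow_div_factorial_le_exp (x := 72) (by norm_num) 4
  have h2 : E y ≤ Real.exp (-72) := Real.exp_le_exp.2 (by linarith)
  rw [Real.exp_neg] at h2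
  refine h2.trans ?_
  rw [one_div]
  refine inv_anti₀ (by norm_num) (le_trans ?_ h1)
  norm_num [Nat.factorial]

lemma E_four : E 4 ≤ 1 / 9 := by
  have h1 := Real.add_one_le_exp (8 : ℝ)
  have : E 4 = (Real.exp 8)⁻¹ := by rw [E, ← Real.exp_neg]; congr 1; norm_num
  rw [this, one_div]
  exact inv_anti₀ (by norm_num) (by linarith)

noncomputable def α : ℝ := 1 - E 20 / 500
noncomputable def r0 (x : ℝ) : ℝ := α + 1 / 500 * Real.cos (20 * x)
noncomputable def rr (a b : ℝ) (x : ℝ) : ℝ :=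
  α ^ 2 + (α / 500 * E (20 * b)) * Real.cos ((20 * a) * x)
    + (α / 500 * E (20 * a)) * Real.cos ((20 * b) * x)
    + (1 / 500000 * E (20 * (a - b))) * Real.cos ((20 * (a + b)) * x)
    + (1 / 500000 * E (20 * (a + b))) * Real.cos ((20 * (a - b)) * x)

lemma α_le : α ≤ 1 := by have := E_pos 20; rw [α]; linarith
lemma α_ge : 1 - 1 / 500000000 ≤ α := by
  have := E_small (y := 20) (by norm_num); rw [α]; linarith

lemma r0_ge (x : ℝ) : 99 / 100 ≤ r0 x := by
  have := Real.neg_one_le_cos (20 * x); have := α_ge; rw [r0]; linarith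
lemma r0_le (x : ℝ) : r0 x ≤ 2 := by
  have := Real.cos_le_one (20 * x); have := α_le; rw [r0]; linarith
lemma r0_nonneg (x : ℝ) : 0 ≤ r0 x := by have := r0_ge x; linarith
lemma r0_cont : Continuous r0 := by unfold r0; fun_prop
lemma rr_cont (a b : ℝ) : Continuous (rr a b) := by unfold rr; fun_prop

lemma char_r0 (t : ℝ) : charFun (W r0) t = ((α * E t + 1 / 500 * C 20 t : ℝ) : ℂ) := by
  rw [charW α (1 / 500) 0 0 0 20 0 0 0 r0 (by funext x; simp [r0]) r0_nonneg]
  simp

lemma char_rr (a b : ℝ) (hab : a ^ 2 + b ^ 2 = 1) (h0 : ∀ x, 0 ≤ rr a b x) (t : ℝ) :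
    charFun (W (rr a b)) t = charFun (W r0) (a * t) * charFun (W r0) (b * t) := by
  rw [charW _ _ _ _ _ _ _ _ _ (rr a b) rfl h0, char_r0, char_r0, ← Complex.ofReal_mul]
  congr 1
  have e1 : E (a * t) * E (b * t) = E t * E 0 := EE (by linear_combination t ^ 2 * hab)
  have e2 : E (a * t + 20) * E (b * t) = E (t + 20 * a) * E (20 * b) :=
    EE (by linear_combination (t ^ 2 - 400) * hab)
  have e3 : E (a * t - 20) * E (b * t) = E (t - 20 * a) * E (20 * b) :=
    EE (by linear_combination (t ^ 2 - 400) * hab)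
  have e4 : E (a * t) * E (b * t + 20) = E (t + 20 * b) * E (20 * a) :=
    EE (by linear_combination (t ^ 2 - 400) * hab)
  have e5 : E (a * t) * E (b * t - 20) = E (t - 20 * b) * E (20 * a) :=
    EE (by linear_combination (t ^ 2 - 400) * hab)
  have e6 : E (a * t + 20) * E (b * t + 20) = E (t + 20 * (a + b)) * E (20 * (a - b)) :=
    EE (by linear_combination (t ^ 2 - 800) * hab)
  have e7 : E (a * t - 20) * E (b * t - 20) = E (t - 20 * (a + b)) * E (20 * (a - b)) :=
    EE (by linear_combination (t ^ 2 - 800) * hab)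
  have e8 : E (a * t + 20) * E (b * t - 20) = E (t + 20 * (a - b)) * E (20 * (a + b)) :=
    EE (by linear_combination (t ^ 2 - 800) * hab)
  have e9 : E (a * t - 20) * E (b * t + 20) = E (t - 20 * (a - b)) * E (20 * (a + b)) :=
    EE (by linear_combination (t ^ 2 - 800) * hab)
  rw [E_zero] at e1
  simp only [C]
  linear_combination (-α ^ 2) * e1 - α / 1000 * (e2 + e3 + e4 + e5)
    - 1 / 1000000 * (e6 + e7 + e8 + e9)

lemma int_r0 : ∫ x, r0 x ∂γ = 1 := by
  unfold r0
  rw [integral_add (integrable_const _) ((integrable_cos _).const_mul _), integral_const_mul,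
    int_cos]
  simp [α]; ring

lemma int_gr0 : ∫ x, g x * r0 x = 1 := by
  rw [← int_r0, integral_gaussianReal_eq_integral_smul one_ne_zero]; rfl

instance probW : IsProbabilityMeasure (W r0) := by
  constructor
  rw [W, withDensity_apply _ MeasurableSet.univ, Measure.restrict_univ,
    ← ofReal_integral_eq_lintegral_ofReal (integrable_gr r0 r0_cont r0_nonneg r0_le)
      (ae_of_all _ fun x => mul_nonneg (g_pos x).le (r0_nonneg x)), int_gr0]
  simp

lemma f_even (x : ℝ) : g (-x) * r0 (-x) = g x * r0 x := by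
  rw [g_eq, g_eq, r0, r0]; simp

lemma mean_zero : ∫ x, x ∂(W r0) = 0 := by
  rw [intW r0 r0_cont r0_nonneg, integral_gaussianReal_eq_integral_smul one_ne_zero]
  have h := integral_neg_eq_self (fun x : ℝ => g x • r0 x • x) volume
  have h2 : ∀ x : ℝ, g (-x) • r0 (-x) • (-x) = -(g x • r0 x • x) := by
    intro x; simp only [smul_eq_mul]; rw [← mul_assoc, f_even]; ring
  simp_rw [h2, integral_neg] at h
  change ∫ x, g x • r0 x • x = 0
  linarith

lemma integrable_sq : Integrable (fun x : ℝ => x ^ 2) γ :=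
  (memLp_id_gaussianReal (μ := 0) (v := 1) 2).integrable_sq
lemma integrable_id : Integrable (fun x : ℝ => x) γ :=
  (memLp_id_gaussianReal (μ := 0) (v := 1) 1).integrable le_rfl

section Law
variable {Ω : Type} [MeasurableSpace Ω] {P : Measure Ω} [IsProbabilityMeasure P] {X Y : Ω → ℝ}

lemma law (hX : Measurable X) (hY : Measurable Y) (hi : IndepFun X Y P)
    (lX : P.map X = W r0) (lY : P.map Y = W r0) (a b : ℝ) (hab : a ^ 2 + b ^ 2 = 1)
    (h0 : ∀ x, 0 ≤ rr a b x) (h2 : ∀ x, rr a b x ≤ 2) :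
    P.map (fun ω => a * X ω + b * Y ω) = W (rr a b) := by
  have := finiteW _ (rr_cont a b) h0 h2
  refine Measure.ext_of_charFun (funext fun t => ?_)
  have hi' : IndepFun (fun ω => a * X ω) (fun ω => b * Y ω) P :=
    hi.comp (φ := fun x => a * x) (ψ := fun x => b * x) (by fun_prop) (by fun_prop)
  rw [hi'.charFun_map_fun_add_eq_mul (by fun_prop) (by fun_prop), Pi.mul_apply,
    charFun_map_mul_comp hX.aemeasurable, charFun_map_mul_comp hY.aemeasurable, lX, lY,
    char_rr a b hab h0]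

omit [IsProbabilityMeasure P] in
lemma moment (hX : Measurable X) (hY : Measurable Y) (hi : IndepFun X Y P)
    (lX : P.map X = W r0) (lY : P.map Y = W r0) (a b : ℝ) (hab : a ^ 2 + b ^ 2 = 1) :
    ∫ s, s ^ 2 ∂(P.map (fun ω => a * X ω + b * Y ω)) = ∫ s, s ^ 2 ∂(W r0) := by
  have j2 := integrableW r0 r0_cont r0_nonneg r0_le integrable_sq
  have j1 := integrableW r0 r0_cont r0_nonneg r0_le integrable_id
  have iX2 : Integrable (fun ω => X ω ^ 2) P := by
    rw [← lX] at j2; exact (integrable_map_measure (by fun_prop) hX.aemeasurable).1 j2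
  have iY2 : Integrable (fun ω => Y ω ^ 2) P := by
    rw [← lY] at j2; exact (integrable_map_measure (by fun_prop) hY.aemeasurable).1 j2
  have iX1 : Integrable X P := by
    rw [← lX] at j1; exact (integrable_map_measure (by fun_prop) hX.aemeasurable).1 j1
  have iY1 : Integrable Y P := by
    rw [← lY] at j1; exact (integrable_map_measure (by fun_prop) hY.aemeasurable).1 j1
  have iXY : Integrable (fun ω => X ω * Y ω) P := hi.integrable_mul iX1 iY1
  have mX2 : ∫ ω, X ω ^ 2 ∂P = ∫ s, s ^ 2 ∂(W r0) := by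
    rw [← lX, integral_map hX.aemeasurable (by fun_prop)]
  have mY2 : ∫ ω, Y ω ^ 2 ∂P = ∫ s, s ^ 2 ∂(W r0) := by
    rw [← lY, integral_map hY.aemeasurable (by fun_prop)]
  have mX1 : ∫ ω, X ω ∂P = 0 := by
    rw [← mean_zero, ← lX, integral_map hX.aemeasurable (by fun_prop)]
  have mXY : ∫ ω, X ω * Y ω ∂P = 0 := by
    rw [hi.integral_fun_mul_eq_mul_integral hX.aestronglyMeasurable hY.aestronglyMeasurable, mX1,
      zero_mul]
  rw [integral_map (by fun_prop) (by fun_prop)]
  have : ∀ ω, (a * X ω + b * Y ω) ^ 2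
      = a ^ 2 * X ω ^ 2 + (2 * a * b) * (X ω * Y ω) + b ^ 2 * Y ω ^ 2 := fun ω => by ring
  simp_rw [this]
  rw [integral_add (iadd (iX2.const_mul _) (iXY.const_mul _)) (iY2.const_mul _),
    integral_add (iX2.const_mul _) (iXY.const_mul _)]
  simp only [integral_const_mul, mX2, mY2, mXY]
  linear_combination (∫ s, s ^ 2 ∂(W r0)) * hab

end Law

lemma integrable_nml (r : ℝ → ℝ) (hc : Continuous r) (h0 : ∀ x, 0 ≤ r x) (h2 : ∀ x, r x ≤ 2) :
    Integrable (fun x => negMulLog (r x)) γ := by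
  obtain ⟨M, hM⟩ := (isCompact_Icc (a := (0 : ℝ)) (b := 2)).exists_bound_of_continuousOn
    continuous_negMulLog.continuousOn
  exact Integrable.of_bound (continuous_negMulLog.comp hc).aestronglyMeasurable M
    (ae_of_all _ fun x => hM _ ⟨h0 x, h2 x⟩)

lemma integrable_r (r : ℝ → ℝ) (hc : Continuous r) (h0 : ∀ x, 0 ≤ r x) (h2 : ∀ x, r x ≤ 2) :
    Integrable r γ :=
  Integrable.of_bound hc.aestronglyMeasurable 2
    (ae_of_all _ fun x => by rw [Real.norm_of_nonneg (h0 x)]; exact h2 x)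

lemma entropy (r : ℝ → ℝ) (hc : Continuous r) (h0 : ∀ x, 0 ≤ r x) (h2 : ∀ x, r x ≤ 2) :
    ∫ x, negMulLog (((W r).rnDeriv volume x).toReal)
      = (∫ s, s ^ 2 ∂(W r)) / 2 + Real.log (√(2 * π)) * ∫ x, r x ∂γ
        + ∫ x, negMulLog (r x) ∂γ := by
  have h1 : (W r).rnDeriv volume =ᵐ[volume] fun x => ENNReal.ofReal (g x * r x) :=
    Measure.rnDeriv_withDensity _ (meas_gr hc)
  have h3 : ∫ x, negMulLog (((W r).rnDeriv volume x).toReal)
      = ∫ x, (1 / 2 * (r x * x ^ 2) + Real.log (√(2 * π)) * r x + negMulLog (r x)) ∂γ := by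
    rw [integral_gaussianReal_eq_integral_smul one_ne_zero]
    refine integral_congr_ae (h1.mono fun x hx => ?_)
    simp only
    rw [hx, ENNReal.toReal_ofReal (mul_nonneg (g_pos x).le (h0 x)), negMulLog_mul]
    have : negMulLog (g x) = g x * (x ^ 2 / 2 + Real.log (√(2 * π))) := by
      rw [negMulLog]; nth_rewrite 2 [g_eq]; rw [Real.log_exp]; ring
    rw [this, smul_eq_mul]; change _ = g x * _; ring
  have i1 : Integrable (fun x => r x * x ^ 2) γ :=
    integrable_sq.bdd_mul (c := 2) hc.aestronglyMeasurable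
      (ae_of_all _ fun x => by rw [Real.norm_of_nonneg (h0 x)]; exact h2 x)
  have i2 := integrable_r r hc h0 h2
  rw [h3, integral_add (iadd (i1.const_mul _) (i2.const_mul _)) (integrable_nml r hc h0 h2),
    integral_add (i1.const_mul _) (i2.const_mul _), integral_const_mul, integral_const_mul,
    intW r hc h0]
  simp only [smul_eq_mul]; ring

lemma nml_lower {y η : ℝ} (hy : 0 < y) (h : |y - 1| ≤ η) : (1 - y) - η ^ 2 ≤ negMulLog y := by
  have h1 := Real.log_le_sub_one_of_pos hy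
  have h2 : (y - 1) ^ 2 ≤ η ^ 2 := by rw [← sq_abs]; gcongr
  rw [negMulLog]; nlinarith

lemma nml_upper {y ψ : ℝ} (hy : 0 < y) (h : |ψ| ≤ 1) :
    negMulLog y ≤ (1 - y) + (1 - y) * ψ + ψ ^ 2 := by
  have h1 := Real.log_le_sub_one_of_pos (div_pos (Real.exp_pos ψ) hy)
  rw [Real.log_div (Real.exp_pos ψ).ne' hy.ne', Real.log_exp] at h1
  have h2 := (abs_le.1 (Real.abs_exp_sub_one_sub_id_le h)).2
  have h3 : y * (ψ - Real.log y) ≤ y * (Real.exp ψ / y - 1) := by gcongr
  have h4 : y * (Real.exp ψ / y - 1) = Real.exp ψ - y := by field_simp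
  rw [negMulLog]; nlinarith

lemma abs_term {c e κ : ℝ} (hc0 : 0 ≤ c) (hc : c ≤ e) : |c * Real.cos κ| ≤ e := by
  rw [abs_mul, abs_of_nonneg hc0]
  have := Real.abs_cos_le_one κ
  nlinarith [abs_nonneg (Real.cos κ)]

lemma αE {y : ℝ} (h : 144 ≤ y ^ 2) : 0 ≤ α / 500 * E y ∧ α / 500 * E y ≤ 1 / 500000000 := by
  have := E_small h; have := E_pos y; have := α_le; have := α_ge
  constructor
  · positivity
  · nlinarith

lemma αsq : |α ^ 2 - 1| ≤ 1 / 250000000 := by
  have := α_le; have := α_ge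
  rw [abs_le]; constructor <;> nlinarith

lemma rr_d (x : ℝ) : |rr (4 / 5) (3 / 5) x - 1| ≤ 1 / 4000000 := by
  have h1 := αE (y := 20 * (3 / 5)) (by norm_num)
  have h2 := αE (y := 20 * (4 / 5)) (by norm_num)
  have h3 : E (20 * (4 / 5 - 3 / 5)) ≤ 1 / 9 := by convert E_four using 2; norm_num
  have h4 := E_small (y := 20 * (4 / 5 + 3 / 5)) (by norm_num)
  have p3 := E_pos (20 * (4 / 5 - 3 / 5))
  have p4 := E_pos (20 * (4 / 5 + 3 / 5))
  have a1 := abs_le.1 (abs_term (κ := (20 * (4 / 5)) * x) h1.1 h1.2)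
  have a2 := abs_le.1 (abs_term (κ := (20 * (3 / 5)) * x) h2.1 h2.2)
  have a3 := abs_le.1 (abs_term (κ := (20 * (4 / 5 + 3 / 5)) * x)
    (c := 1 / 500000 * E (20 * (4 / 5 - 3 / 5))) (e := 1 / 4500000) (by linarith) (by linarith))
  have a4 := abs_le.1 (abs_term (κ := (20 * (4 / 5 - 3 / 5)) * x)
    (c := 1 / 500000 * E (20 * (4 / 5 + 3 / 5))) (e := 1 / 500000000) (by linarith) (by linarith))
  have a0 := abs_le.1 αsq
  rw [rr, abs_le]; constructor <;> linarith [a0.1, a0.2, a1.1, a1.2, a2.1, a2.2, a3.1, a3.2, a4.1, a4.2]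

lemma rr_s (c : ℝ) (hc : c ^ 2 = 1 / 2) (x : ℝ) :
    |rr c c x - 1 - 1 / 500000 * Real.cos ((20 * (c + c)) * x)| ≤ 1 / 100000000 := by
  have h1 := αE (y := 20 * c) (by nlinarith)
  have h4 := E_small (y := 20 * (c + c)) (by nlinarith)
  have p4 := E_pos (20 * (c + c))
  have a1 := abs_le.1 (abs_term (κ := (20 * c) * x) h1.1 h1.2)
  have a4 := abs_le.1 (abs_term (κ := (20 * (c - c)) * x)
    (c := 1 / 500000 * E (20 * (c + c))) (e := 1 / 500000000) (by linarith) (by linarith))
  have a0 := abs_le.1 αsq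
  have h3 : E (20 * (c - c)) = 1 := by rw [sub_self, mul_zero, E_zero]
  rw [rr, h3, abs_le]; constructor <;> linarith [a0.1, a0.2, a1.1, a1.2, a4.1, a4.2]

lemma ent_d (h1 : ∫ x, rr (4 / 5) (3 / 5) x ∂γ = 1) :
    -(1 / 4000000) ^ 2 ≤ ∫ x, negMulLog (rr (4 / 5) (3 / 5) x) ∂γ := by
  have b := fun x => abs_le.1 (rr_d x)
  have h0 : ∀ x, 0 < rr (4 / 5) (3 / 5) x := fun x => by linarith [(b x).1]
  have h2 : ∀ x, rr (4 / 5) (3 / 5) x ≤ 2 := fun x => by linarith [(b x).2]
  have ir := integrable_r _ (rr_cont _ _) (fun x => (h0 x).le) h2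
  have := integral_mono
    (isub (isub (integrable_const (1 : ℝ)) ir) (integrable_const ((1 / 4000000 : ℝ) ^ 2)))
    (integrable_nml _ (rr_cont _ _) (fun x => (h0 x).le) h2) (fun x => nml_lower (h0 x) (rr_d x))
  refine le_trans (le_of_eq ?_) this
  rw [integral_sub (isub (integrable_const _) ir) (integrable_const _),
    integral_sub (integrable_const _) ir, h1]
  simp

lemma ent_s (c : ℝ) (hc : c ^ 2 = 1 / 2) (h1 : ∫ x, rr c c x ∂γ = 1) :
    ∫ x, negMulLog (rr c c x) ∂γ ≤ -(1 / 1000000) ^ 2 / 2 + 1 / 100000000 * (1 / 1000000) := by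
  have b := fun x => abs_le.1 (rr_s c hc x)
  have h0 : ∀ x, 0 < rr c c x := fun x => by
    linarith [(b x).1, Real.neg_one_le_cos ((20 * (c + c)) * x)]
  have h2 : ∀ x, rr c c x ≤ 2 := fun x => by
    linarith [(b x).2, Real.cos_le_one ((20 * (c + c)) * x)]
  have ir := integrable_r _ (rr_cont c c) (fun x => (h0 x).le) h2
  have ic := integrable_cos (2 * (20 * (c + c)))
  have key : ∀ x, negMulLog (rr c c x) ≤ (1 - rr c c x)
      + (-(1 / 1000000) ^ 2 / 2) * Real.cos (2 * (20 * (c + c)) * x)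
      + (-(1 / 1000000) ^ 2 / 2 + 1 / 100000000 * (1 / 1000000)) := by
    intro x
    have hu := Real.abs_cos_le_one ((20 * (c + c)) * x)
    have hcos : Real.cos (2 * (20 * (c + c)) * x) = 2 * Real.cos ((20 * (c + c)) * x) ^ 2 - 1 := by
      rw [mul_assoc, Real.cos_two_mul]
    have hb := b x
    generalize Real.cos ((20 * (c + c)) * x) = u at hu hcos hb
    have hu' := abs_le.1 hu
    have := nml_upper (ψ := 1 / 1000000 * u) (h0 x) (by rw [abs_le]; constructor <;> linarith)
    rw [hcos]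
    generalize rr c c x = y at this hb ⊢
    obtain ⟨δ, rfl⟩ : ∃ δ, y = 1 + 1 / 500000 * u + δ := ⟨y - 1 - 1 / 500000 * u, by ring⟩
    have hδ : -(δ * u) ≤ 1 / 100000000 := by nlinarith [hb.1, hb.2, hu'.1, hu'.2]
    nlinarith
  have := integral_mono (integrable_nml _ (rr_cont _ _) (fun x => (h0 x).le) h2)
    (iadd (iadd (isub (integrable_const (1 : ℝ)) ir) (ic.const_mul _)) (integrable_const _)) key
  refine this.trans ?_
  rw [integral_add (iadd (isub (integrable_const _) ir) (ic.const_mul _)) (integrable_const _),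
    integral_add (isub (integrable_const _) ir) (ic.const_mul _),
    integral_sub (integrable_const _) ir, h1, integral_const_mul, int_cos]
  have := E_pos (2 * (20 * (c + c)))
  simp only [integral_const, probReal_univ, smul_eq_mul, one_mul]
  nlinarith

lemma concave_log : ConcaveOn ℝ Set.univ (fun x => Real.log (g x * r0 x)) := by
  have hpos : ∀ x, 0 < r0 x := fun x => by linarith [r0_ge x]
  have heq : (fun x => Real.log (g x * r0 x))
      = fun x => -(x ^ 2 / 2 + Real.log (√(2 * π))) + Real.log (r0 x) := by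
    funext x; rw [Real.log_mul (g_pos x).ne' (hpos x).ne', g_eq, Real.log_exp]
  have d0 : ∀ x, HasDerivAt r0 (-(1 / 25) * Real.sin (20 * x)) x := by
    intro x
    have := ((((hasDerivAt_id' x).const_mul (20 : ℝ)).cos).const_mul (1 / 500 : ℝ)).const_add α
    exact this.congr_deriv (by ring)
  have d1 : ∀ x, HasDerivAt (fun x => -(x ^ 2 / 2 + Real.log (√(2 * π))) + Real.log (r0 x))
      (-x + (-(1 / 25) * Real.sin (20 * x)) / r0 x) x := by
    intro x
    have := (((((hasDerivAt_id' x).fun_pow 2).div_const 2).add_const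
      (Real.log (√(2 * π)))).fun_neg).fun_add ((d0 x).log (hpos x).ne')
    exact this.congr_deriv (by simp)
  have d2 : ∀ x, HasDerivAt (fun x => -x + (-(1 / 25) * Real.sin (20 * x)) / r0 x)
      (-1 + ((-(4 / 5) * Real.cos (20 * x)) * r0 x
        - (-(1 / 25) * Real.sin (20 * x)) * (-(1 / 25) * Real.sin (20 * x))) / r0 x ^ 2) x := by
    intro x
    have h1 : HasDerivAt (fun x => -(1 / 25) * Real.sin (20 * x)) (-(4 / 5) * Real.cos (20 * x)) x := by
      have := (((hasDerivAt_id' x).const_mul (20 : ℝ)).sin).const_mul (-(1 / 25) : ℝ)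
      exact this.congr_deriv (by ring)
    exact (hasDerivAt_id x).neg.add (h1.div (d0 x) (hpos x).ne')
  rw [heq]
  have e1 : deriv (fun x => -(x ^ 2 / 2 + Real.log (√(2 * π))) + Real.log (r0 x))
      = fun x => -x + (-(1 / 25) * Real.sin (20 * x)) / r0 x := funext fun x => (d1 x).deriv
  refine Antitone.concaveOn_univ_of_deriv (fun x => (d1 x).differentiableAt) ?_
  rw [e1]
  refine antitone_of_deriv_nonpos (fun x => (d2 x).differentiableAt) fun x => ?_
  rw [(d2 x).deriv]
  have h1 := r0_ge x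
  have h2 := Real.neg_one_le_cos (20 * x)
  have : ((-(4 / 5) * Real.cos (20 * x)) * r0 x
        - (-(1 / 25) * Real.sin (20 * x)) * (-(1 / 25) * Real.sin (20 * x))) / r0 x ^ 2 ≤ 1 := by
    rw [div_le_one (pow_pos (hpos x) 2)]
    nlinarith [mul_self_nonneg (-(1 / 25) * Real.sin (20 * x))]
  linarith

lemma logconcave (x y t : ℝ) (h0 : 0 ≤ t) (h1 : t ≤ 1) :
    (g x * r0 x) ^ t * (g y * r0 y) ^ (1 - t)
      ≤ g (t * x + (1 - t) * y) * r0 (t * x + (1 - t) * y) := by
  have hpos : ∀ x, 0 < g x * r0 x := fun x => mul_pos (g_pos x) (by linarith [r0_ge x])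
  have := concave_log.2 (Set.mem_univ x) (Set.mem_univ y) h0 (sub_nonneg.2 h1) (by ring)
  simp only [smul_eq_mul] at this
  rw [Real.rpow_def_of_pos (hpos x), Real.rpow_def_of_pos (hpos y), ← Real.exp_add,
    ← Real.exp_log (hpos (t * x + (1 - t) * y))]
  exact Real.exp_le_exp.2 (by linarith)

/-- main comparison -/
theorem main {Ω : Type} [MeasurableSpace Ω] {P : Measure Ω} [IsProbabilityMeasure P] {X Y : Ω → ℝ}
    (hX : Measurable X) (hY : Measurable Y) (hi : IndepFun X Y P)
    (lX : P.map X = W r0) (lY : P.map Y = W r0) (c : ℝ) (hc : c ^ 2 = 1 / 2) :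
    ∫ x, negMulLog (((P.map (fun ω => c * X ω + c * Y ω)).rnDeriv volume x).toReal)
      < ∫ x, negMulLog (((P.map (fun ω => 4 / 5 * X ω + 3 / 5 * Y ω)).rnDeriv volume x).toReal) := by
  have bs := fun x => abs_le.1 (rr_s c hc x)
  have s0 : ∀ x, 0 ≤ rr c c x := fun x => by
    linarith [(bs x).1, Real.neg_one_le_cos ((20 * (c + c)) * x)]
  have s2 : ∀ x, rr c c x ≤ 2 := fun x => by
    linarith [(bs x).2, Real.cos_le_one ((20 * (c + c)) * x)]
  have bd := fun x => abs_le.1 (rr_d x)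
  have d0 : ∀ x, 0 ≤ rr (4 / 5) (3 / 5) x := fun x => by linarith [(bd x).1]
  have d2 : ∀ x, rr (4 / 5) (3 / 5) x ≤ 2 := fun x => by linarith [(bd x).2]
  have ls := law hX hY hi lX lY c c (by linarith) s0 s2
  have ld := law hX hY hi lX lY (4 / 5) (3 / 5) (by norm_num) d0 d2
  have ms := moment hX hY hi lX lY c c (by linarith)
  have md := moment hX hY hi lX lY (4 / 5) (3 / 5) (by norm_num)
  have one : ∀ a b : ℝ, (∀ x, 0 ≤ rr a b x) →
      P.map (fun ω => a * X ω + b * Y ω) = W (rr a b) → ∫ x, rr a b x ∂γ = 1 := by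
    intro a b h0 h
    have h1 := intW (rr a b) (rr_cont a b) h0 (fun _ => (1 : ℝ))
    have : IsProbabilityMeasure (W (rr a b)) := by
      rw [← h]; exact Measure.isProbabilityMeasure_map (by fun_prop)
    simpa using h1.symm
  have os := one c c s0 ls
  have od := one _ _ d0 ld
  rw [ls] at ms; rw [ld] at md
  rw [ls, ld, entropy _ (rr_cont _ _) s0 s2, entropy _ (rr_cont _ _) d0 d2, ms, md, os, od]
  have := ent_s c hc os
  have := ent_d od
  linarith

end Pool.Agent.H31.EntLC
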