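import Mathlib

set_option autoImplicit false
open Matrix

namespace Pool.Agent.H31.HW

variable {n : ℕ}

abbrev M (n : ℕ) := Matrix (Fin n) (Fin n) ℂ

/-- Real Hilbert-Schmidt pairing. -/
noncomputable def ip (X Y : M n) : ℝ := (trace (Xᴴ * Y)).re

/-- Squared Frobenius norm. -/
noncomputable def q (X : M n) : ℝ := ip X X

lemma ip_comm (X Y : M n) : ip X Y = ip Y X := by
  unfold ip
  have h : trace (Yᴴ * X) = star (trace (Xᴴ * Y)) := by
    rw [← trace_conjTranspose, conjTranspose_mul, conjTranspose_conjTranspose]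
  rw [h]; simp

lemma ip_add_left (X Y Z : M n) : ip (X + Y) Z = ip X Z + ip Y Z := by
  simp [ip, conjTranspose_add, add_mul, trace_add]

lemma ip_add_right (X Y Z : M n) : ip X (Y + Z) = ip X Y + ip X Z := by
  simp [ip, mul_add, trace_add]

lemma ip_sub_left (X Y Z : M n) : ip (X - Y) Z = ip X Z - ip Y Z := by
  simp [ip, conjTranspose_sub, sub_mul, trace_sub]

lemma ip_sub_right (X Y Z : M n) : ip X (Y - Z) = ip X Y - ip X Z := by
  simp [ip, mul_sub, trace_sub]

lemma ip_neg_left (X Y : M n) : ip (-X) Y = - ip X Y := by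
  simp [ip, conjTranspose_neg, trace_neg]

lemma ip_neg_right (X Y : M n) : ip X (-Y) = - ip X Y := by
  simp [ip, trace_neg]

lemma ip_smul_left (c : ℝ) (X Y : M n) : ip (c • X) Y = c * ip X Y := by
  simp [ip, conjTranspose_smul, trace_smul]

lemma ip_smul_right (c : ℝ) (X Y : M n) : ip X (c • Y) = c * ip X Y := by
  simp [ip, trace_smul]

lemma ip_zero_left (Y : M n) : ip 0 Y = 0 := by simp [ip]

lemma ip_mul_left (X A Y : M n) : ip (X * A) Y = ip A (Xᴴ * Y) := by
  simp [ip, conjTranspose_mul, mul_assoc]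

lemma ip_mul_right (X A Y : M n) : ip (A * X) Y = ip A (Y * Xᴴ) := by
  unfold ip
  rw [conjTranspose_mul, mul_assoc, trace_mul_comm, mul_assoc]

lemma ip_ct (X Y : M n) : ip Xᴴ Yᴴ = ip X Y := by
  rw [ip_comm X Y]
  unfold ip
  rw [conjTranspose_conjTranspose, trace_mul_comm]

lemma ip_ct_left (X Y : M n) : ip Xᴴ Y = ip X Yᴴ := by
  rw [← ip_ct X Yᴴ, conjTranspose_conjTranspose]

lemma q_eq (X : M n) : q X = ∑ i, ∑ j, ‖X i j‖ ^ 2 := by
  unfold q ip
  simp only [trace, diag_apply, mul_apply, conjTranspose_apply, Complex.re_sum]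
  rw [Finset.sum_comm]
  refine Finset.sum_congr rfl fun i _ => Finset.sum_congr rfl fun j _ => ?_
  rw [Complex.sq_norm, Complex.normSq_apply]
  simp

lemma q_nonneg (X : M n) : 0 ≤ q X := by
  rw [q_eq]; positivity

lemma q_eq_zero {X : M n} (h : q X = 0) : X = 0 := by
  rw [q_eq] at h
  ext i j
  have h1 := (Finset.sum_eq_zero_iff_of_nonneg (fun i _ => by positivity)).1 h i (Finset.mem_univ _)
  have h2 := (Finset.sum_eq_zero_iff_of_nonneg (fun j _ => by positivity)).1 h1 j (Finset.mem_univ _)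
  simpa using h2

lemma q_add (X Y : M n) : q (X + Y) = q X + q Y + 2 * ip X Y := by
  unfold q
  rw [ip_add_left, ip_add_right, ip_add_right, ip_comm Y X]; ring

lemma q_sub (X Y : M n) : q (X - Y) = q X + q Y - 2 * ip X Y := by
  unfold q
  rw [ip_sub_left, ip_sub_right, ip_sub_right, ip_comm Y X]; ring

lemma q_smul (c : ℝ) (X : M n) : q (c • X) = c ^ 2 * q X := by
  unfold q
  rw [ip_smul_left, ip_smul_right]; ring

lemma q_ct (X : M n) : q Xᴴ = q X := ip_ct X X

lemma ip_herm_skew {H S : M n} (hH : Hᴴ = H) (hS : Sᴴ = -S) : ip H S = 0 := by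
  have h := ip_ct H S
  rw [hH, hS, ip_neg_right] at h
  linarith

/-- Frobenius form of Fuglede-Putnam. -/
lemma q_comm_normal {a : M n} (ha : aᴴ * a = a * aᴴ) (z : M n) :
    q (a * z - z * a) = q (aᴴ * z - z * aᴴ) := by
  rw [q_sub, q_sub]
  have h1 : q (a * z) = q (aᴴ * z) := by
    unfold q
    rw [ip_mul_left, ip_mul_left, conjTranspose_conjTranspose, ← mul_assoc, ← mul_assoc, ha]
  have h2 : q (z * a) = q (z * aᴴ) := by
    unfold q
    rw [ip_mul_right, ip_mul_right, conjTranspose_conjTranspose, mul_assoc, mul_assoc, ha]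
  have h3 : ip (a * z) (z * a) = ip (aᴴ * z) (z * aᴴ) := by
    rw [ip_mul_left, ip_comm (aᴴ * z), ip_mul_right, conjTranspose_conjTranspose, mul_assoc]
  rw [h1, h2, h3]

lemma pos_L (z K : M n) : 0 ≤ ip ((zᴴ * z + z * zᴴ) * K + K * (zᴴ * z + z * zᴴ)) K := by
  have h1 : ip (zᴴ * z * K) K = q (z * K) := by
    unfold q
    rw [mul_assoc, ip_mul_left, conjTranspose_conjTranspose]
  have h2 : ip (z * zᴴ * K) K = q (zᴴ * K) := by
    unfold q
    rw [mul_assoc, ip_mul_left]
  have h3 : ip (K * (zᴴ * z)) K = q (K * zᴴ) := by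
    unfold q
    rw [← mul_assoc, ip_mul_right]
  have h4 : ip (K * (z * zᴴ)) K = q (K * z) := by
    unfold q
    rw [← mul_assoc, ip_mul_right, conjTranspose_conjTranspose]
  rw [add_mul, mul_add, ip_add_left, ip_add_left, ip_add_left, h1, h2, h3, h4]
  have := q_nonneg (z * K)
  have := q_nonneg (zᴴ * K)
  have := q_nonneg (K * zᴴ)
  have := q_nonneg (K * z)
  linarith

lemma solve_L (z : M n) {ε : ℝ} (hε : 0 < ε) (S : M n) (hS : Sᴴ = -S) :
    ∃ K : M n, Kᴴ = -K ∧
      (zᴴ * z + z * zᴴ) * K + K * (zᴴ * z + z * zᴴ) + ε • K = S := by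
  set J := zᴴ * z + z * zᴴ with hJ
  have hJh : Jᴴ = J := by
    rw [hJ]; simp [conjTranspose_add, conjTranspose_mul]
  let L : M n →ₗ[ℝ] M n :=
    { toFun := fun K => J * K + K * J + ε • K
      map_add' := fun x y => by simp only [mul_add, add_mul, smul_add]; abel
      map_smul' := fun c x => by
        simp only [Matrix.mul_smul, Matrix.smul_mul, RingHom.id_apply, smul_add, smul_comm ε c] }
  have hL : ∀ K, L K = J * K + K * J + ε • K := fun K => rfl
  have hinj : Function.Injective L := by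
    rw [injective_iff_map_eq_zero]
    intro K hK
    have h0 : ip (L K) K = 0 := by rw [hK, ip_zero_left]
    rw [hL, ip_add_left, ip_smul_left] at h0
    have h1 := pos_L z K
    rw [← hJ] at h1
    have h2 := q_nonneg K
    apply q_eq_zero
    unfold q at *
    nlinarith
  obtain ⟨K, hK⟩ := (LinearMap.injective_iff_surjective.1 hinj) S
  refine ⟨K, ?_, by rw [← hL, hK]⟩
  apply hinj
  have h1 : (L K)ᴴ = L Kᴴ := by
    rw [hL, hL]
    simp only [conjTranspose_add, conjTranspose_mul, hJh, conjTranspose_smul, star_trivial]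
    abel
  rw [← h1, map_neg, hK, hS]

lemma zKz_bound (z K : M n) (hK : Kᴴ = -K) :
    8 * q (z * K * z) ≤ q ((zᴴ * z + z * zᴴ) * K + K * (zᴴ * z + z * zᴴ)) := by
  set J := zᴴ * z + z * zᴴ with hJ
  have h1 : 4 * ip (J * K) (K * J) ≤ q (J * K + K * J) := by
    have := q_nonneg (J * K - K * J)
    rw [q_sub] at this
    rw [q_add]; linarith
  have e1 : ip (zᴴ * z * K) (K * (zᴴ * z)) = q (z * K * zᴴ) := by
    unfold q
    rw [mul_assoc zᴴ, ip_mul_left zᴴ, ip_mul_right zᴴ (z * K)]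
    simp only [conjTranspose_conjTranspose, mul_assoc]
  have e2 : ip (zᴴ * z * K) (K * (z * zᴴ)) = q (z * K * z) := by
    unfold q
    rw [mul_assoc zᴴ, ip_mul_left zᴴ, ip_mul_right z (z * K)]
    simp only [conjTranspose_conjTranspose, mul_assoc]
  have e3 : ip (z * zᴴ * K) (K * (zᴴ * z)) = q (zᴴ * K * zᴴ) := by
    unfold q
    rw [mul_assoc z, ip_mul_left z, ip_mul_right zᴴ (zᴴ * K)]
    simp only [conjTranspose_conjTranspose, mul_assoc]
  have e4 : ip (z * zᴴ * K) (K * (z * zᴴ)) = q (zᴴ * K * z) := by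
    unfold q
    rw [mul_assoc z, ip_mul_left z, ip_mul_right z (zᴴ * K)]
    simp only [mul_assoc]
  have e5 : q (zᴴ * K * zᴴ) = q (z * K * z) := by
    rw [← q_ct]
    simp only [conjTranspose_mul, conjTranspose_conjTranspose, hK]
    have : z * (-K * z) = -(z * K * z) := by noncomm_ring
    rw [this]
    unfold q
    rw [ip_neg_left, ip_neg_right, neg_neg]
  have h2 : ip (J * K) (K * J) = q (z * K * zᴴ) + q (z * K * z) + q (zᴴ * K * zᴴ) + q (zᴴ * K * z) := by
    rw [← e1, ← e2, ← e3, ← e4, hJ, add_mul, mul_add, ip_add_left, ip_add_right, ip_add_right]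
    ring
  have := q_nonneg (z * K * zᴴ)
  have := q_nonneg (zᴴ * K * z)
  linarith

/-- The key inequality at a critical point. -/
lemma key (a z : M n) (ha : aᴴ * a = a * aᴴ) (hb : (a - z)ᴴ * (a - z) = (a - z) * (a - z)ᴴ)
    {ε : ℝ} (hε : 0 < ε)
    (hst : ∀ K : M n, Kᴴ = -K → ip (K * a - a * K) ((2 : ℝ) • (z * zᴴ * z) + ε • z) = 0) :
    q (aᴴ * z - z * (a - z)ᴴ) ≤ q (zᴴ * z) := by
  set P := zᴴ * z with hP
  set Q := z * zᴴ with hQ
  set W := aᴴ * z - z * aᴴ with hW
  set Y := a * z - z * a with hY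
  have hWh : Wᴴ = zᴴ * a - a * zᴴ := by
    rw [hW]; simp [conjTranspose_sub, conjTranspose_mul]
  have hYh : Yᴴ = zᴴ * aᴴ - aᴴ * zᴴ := by
    rw [hY]; simp [conjTranspose_sub, conjTranspose_mul]
  have hPh : Pᴴ = P := by rw [hP]; simp [conjTranspose_mul]
  have hQh : Qᴴ = Q := by rw [hQ]; simp [conjTranspose_mul]
  have hR : W + Wᴴ = P - Q := by
    rw [hWh, hW, hP, hQ]
    simp only [conjTranspose_sub] at hb
    have h1 : (aᴴ - zᴴ) * (a - z) - (a - z) * (aᴴ - zᴴ) = 0 := by rw [hb, sub_self]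
    have h2 : aᴴ * a - a * aᴴ = 0 := by rw [ha, sub_self]
    have h3 : aᴴ * z - z * aᴴ + (zᴴ * a - a * zᴴ) - (zᴴ * z - z * zᴴ)
        = (aᴴ * a - a * aᴴ) - ((aᴴ - zᴴ) * (a - z) - (a - z) * (aᴴ - zᴴ)) := by noncomm_ring
    rw [h1, h2, sub_zero] at h3
    exact sub_eq_zero.1 h3
  set S := W - Wᴴ with hS
  set R := P - Q with hRd
  set J := P + Q with hJ
  have hSh : Sᴴ = -S := by rw [hS]; simp [conjTranspose_sub]
  have hRh : Rᴴ = R := by rw [hRd]; simp [conjTranspose_sub, hPh, hQh]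
  have hJh : Jᴴ = J := by rw [hJ]; simp [conjTranspose_add, hPh, hQh]
  have hqW : 4 * q W = q R + q S := by
    have h1 : R + S = (2 : ℝ) • W := by rw [← hR, hS, two_smul]; abel
    have h2 := q_add R S
    rw [ip_herm_skew hRh hSh, h1, q_smul] at h2
    linarith
  have hqY : q Y = q W := q_comm_normal ha z
  have hqPQ : q Q = q P := by
    unfold q
    rw [hQ, hP, ip_mul_left z zᴴ, ip_mul_right z zᴴ]
    simp only [mul_assoc]
  have hF : 4 * q P = q J + q R := by
    rw [hJ, hRd, q_add, q_sub, hqPQ]; ring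
  have hT : 4 * q (aᴴ * z - z * (a - z)ᴴ) = q J + q S := by
    have h1 : J + S = (2 : ℝ) • (aᴴ * z - z * (a - z)ᴴ) := by
      have h3 : J + S = (P - Q) + S + Q + Q := by rw [hJ]; abel
      rw [h3, ← hRd, ← hR, hS, two_smul, conjTranspose_sub a z, hQ]
      have h4 : aᴴ * z - z * (aᴴ - zᴴ) = W + z * zᴴ := by rw [hW]; noncomm_ring
      rw [h4]; abel
    have h2 := q_add J S
    rw [ip_herm_skew hJh hSh, h1, q_smul] at h2
    linarith
  obtain ⟨K, hK, hKS⟩ := solve_L z hε S hSh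
  rw [← hP, ← hQ, ← hJ] at hKS
  have hbound := zKz_bound z K hK
  rw [← hP, ← hQ, ← hJ] at hbound
  have hpos := pos_L z K
  rw [← hP, ← hQ, ← hJ] at hpos
  have hσ1 : q (J * K + K * J) ≤ q S := by
    rw [← hKS, q_add (J * K + K * J), ip_smul_right]
    have := q_nonneg (ε • K)
    nlinarith
  -- skew pairing
  have hsk : ∀ X : M n, ip K (X - Xᴴ) = 2 * ip K X := by
    intro X
    rw [ip_sub_right, ← ip_ct_left, hK, ip_neg_left]; ring
  have hcomm : ∀ H : M n, ip (K * a - a * K) H = - ip K (aᴴ * H - H * aᴴ) := by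
    intro H
    rw [ip_sub_left, ip_mul_right, ip_mul_left, ip_sub_right]; ring
  have h0 := hst K hK
  rw [hcomm] at h0
  have hG : aᴴ * (z * zᴴ * z) - (z * zᴴ * z) * aᴴ = W * P + Q * W - z * Yᴴ * z := by
    rw [hYh, hW, hP, hQ]; noncomm_ring
  have hH : aᴴ * ((2 : ℝ) • (Q * z) + ε • z) - ((2 : ℝ) • (Q * z) + ε • z) * aᴴ
      = (2 : ℝ) • (W * P + Q * W - z * Yᴴ * z) + ε • W := by
    rw [← hG, hW, hQ]
    simp only [mul_add, add_mul, Matrix.mul_smul, Matrix.smul_mul, smul_sub]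
    abel
  rw [hH, ip_add_right, ip_smul_right, ip_smul_right, ip_sub_right] at h0
  have hWS : ip K S = 2 * ip K W := hsk W
  have hX : 2 * ip K (W * P + Q * W) = ip K (W * P + Q * W - (W * P + Q * W)ᴴ) := (hsk _).symm
  have hid : (2 : ℝ) • (W * P + Q * W - (W * P + Q * W)ᴴ) = S * J + J * S := by
    have h1 : (W + Wᴴ) * R - R * (W + Wᴴ) = 0 := by rw [hR, sub_self]
    have h2 : (W * P + Q * W - (P * Wᴴ + Wᴴ * Q)) + (W * P + Q * W - (P * Wᴴ + Wᴴ * Q))
        = (W - Wᴴ) * (P + Q) + (P + Q) * (W - Wᴴ) + ((W + Wᴴ) * (P - Q) - (P - Q) * (W + Wᴴ)) := by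
      noncomm_ring
    rw [← hRd, h1, add_zero] at h2
    rw [two_smul, conjTranspose_add, conjTranspose_mul W P, conjTranspose_mul Q W, hPh, hQh, h2]
  have hX2 : 4 * ip K (W * P + Q * W) = ip K (S * J + J * S) := by
    rw [← hid, ip_smul_right, ← hX]; ring
  have hSS : q S = ip K (S * J + J * S) + ε * ip K S := by
    have : q S = ip (J * K + K * J + ε • K) S := by rw [hKS]; rfl
    rw [this, ip_add_left, ip_add_left, ip_mul_left, ip_mul_right, hJh, ip_smul_left, ip_add_right]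
    ring
  have hM : ip K (z * Yᴴ * z) = - ip (z * K * z) Y := by
    rw [← ip_ct K, hK, ip_neg_left, ip_mul_right z (z * K), ip_mul_left z K]
    simp only [conjTranspose_mul, conjTranspose_conjTranspose, mul_assoc]
  have hσ : q S = -4 * ip (z * K * z) Y := by
    rw [hSS, ← hX2, hWS]; linarith
  have hAM := q_nonneg ((2 : ℝ) • (z * K * z) + Y)
  rw [q_add, q_smul, ip_smul_left] at hAM
  have hfin : q S ≤ q R := by linarith
  linarith

end Pool.Agent.H31.HW
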