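import Pool.Agent.H31.HW1

set_option autoImplicit false
open Matrix

namespace Pool.Agent.H31.HW

variable {n : ℕ}

lemma ip_entries (X Y : M n) : ip X Y = ∑ i, ∑ j, (star (X i j) * Y i j).re := by
  unfold ip
  simp only [trace, diag_apply, mul_apply, conjTranspose_apply, Complex.re_sum]
  rw [Finset.sum_comm]

/-- entrywise differentiability -/
def HD (f : ℝ → M n) (f' : M n) : Prop := ∀ i j, HasDerivAt (fun t => f t i j) (f' i j) 0

lemma HD.const (A : M n) : HD (fun _ => A) 0 := fun _ _ => hasDerivAt_const _ _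

lemma HD.sub {f g : ℝ → M n} {f' g' : M n} (hf : HD f f') (hg : HD g g') :
    HD (fun t => f t - g t) (f' - g') := fun i j => (hf i j).sub (hg i j)

lemma HD.mul {f g : ℝ → M n} {f' g' : M n} (hf : HD f f') (hg : HD g g') :
    HD (fun t => f t * g t) (f' * g 0 + f 0 * g') := by
  intro i j
  simp only [mul_apply, Matrix.add_apply, ← Finset.sum_add_distrib]
  exact HasDerivAt.fun_sum fun k _ => (hf i k).mul (hg k j)

lemma HD.ct {f : ℝ → M n} {f' : M n} (hf : HD f f') : HD (fun t => (f t)ᴴ) f'ᴴ := by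
  intro i j
  simp only [conjTranspose_apply]
  exact (hf j i).star

lemma HD.ip {f g : ℝ → M n} {f' g' : M n} (hf : HD f f') (hg : HD g g') :
    HasDerivAt (fun t => ip (f t) (g t)) (ip f' (g 0) + ip (f 0) g') 0 := by
  simp only [ip_entries, ← Finset.sum_add_distrib]
  refine HasDerivAt.fun_sum fun i _ => HasDerivAt.fun_sum fun j _ => ?_
  have h := ((hf i j).star).mul (hg i j)
  have h2 := Complex.reCLM.hasFDerivAt.comp_hasDerivAt (0 : ℝ) h
  simpa [Function.comp_def] using h2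

set_option backward.isDefEq.respectTransparency false in
lemma HD.exp (K : M n) : HD (fun t : ℝ => NormedSpace.exp (t • K)) K := by
  intro i j
  open scoped Matrix.Norms.Operator in
  have h := hasDerivAt_exp_smul_const (𝕂 := ℝ) K 0
  open scoped Matrix.Norms.Operator in
  have h2 := ((LinearMap.toContinuousLinearMap (Matrix.entryLinearMap ℝ ℂ i j)).hasFDerivAt).comp_hasDerivAt (0 : ℝ) h
  simpa [Function.comp_def] using h2

lemma exp_unitary (K : M n) (hK : Kᴴ = -K) (t : ℝ) :
    NormedSpace.exp (t • K) ∈ Matrix.unitaryGroup (Fin n) ℂ := by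
  have h1 : star (NormedSpace.exp (t • K)) = NormedSpace.exp (-(t • K)) := by
    rw [star_eq_conjTranspose, ← Matrix.exp_conjTranspose, conjTranspose_smul, hK]
    simp
  rw [Matrix.mem_unitaryGroup_iff, h1, ← Matrix.exp_add_of_commute _ _ (Commute.refl (t • K)).neg_right]
  simp

lemma isCompact_unitary : IsCompact (Matrix.unitaryGroup (Fin n) ℂ : Set (M n)) := by
  have hc : IsCompact (Set.pi Set.univ (fun _ : Fin n => Set.pi Set.univ
      (fun _ : Fin n => Metric.closedBall (0 : ℂ) 1))) :=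
    isCompact_univ_pi fun _ => isCompact_univ_pi fun _ => isCompact_closedBall _ _
  refine IsCompact.of_isClosed_subset (s := (Set.pi Set.univ (fun _ : Fin n => Set.pi Set.univ
      (fun _ : Fin n => Metric.closedBall (0 : ℂ) 1)) : Set (M n))) hc ?_ ?_
  · have : (Matrix.unitaryGroup (Fin n) ℂ : Set (M n)) = {U | U * Uᴴ = 1} := by
      ext U
      simp [Matrix.mem_unitaryGroup_iff, star_eq_conjTranspose]
    rw [this]
    exact isClosed_eq (by fun_prop) continuous_const
  · intro U hU i _ j _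
    simpa using entry_norm_bound_of_unitary hU i j

lemma continuous_q : Continuous (q : M n → ℝ) := by
  have : (q : M n → ℝ) = fun X => ∑ i, ∑ j, ‖X i j‖ ^ 2 := funext q_eq
  rw [this]
  fun_prop

lemma q_unitary_left {U : M n} (hU : U * Uᴴ = 1) (X : M n) : q (Uᴴ * X) = q X := by
  unfold q
  rw [ip_mul_left, conjTranspose_conjTranspose, ← mul_assoc, hU, one_mul]

lemma q_unitary_right {U : M n} (hU : U * Uᴴ = 1) (X : M n) : q (X * U) = q X := by
  unfold q
  rw [ip_mul_right, mul_assoc, hU, mul_one]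

lemma normal_conj (α : Fin n → ℂ) {U : M n} (hU : Uᴴ * U = 1) :
    (U * diagonal α * Uᴴ)ᴴ * (U * diagonal α * Uᴴ) = (U * diagonal α * Uᴴ) * (U * diagonal α * Uᴴ)ᴴ := by
  simp only [conjTranspose_mul, conjTranspose_conjTranspose]
  have h1 : U * ((diagonal α)ᴴ * Uᴴ) * (U * diagonal α * Uᴴ)
      = U * ((diagonal α)ᴴ * (Uᴴ * U) * diagonal α) * Uᴴ := by noncomm_ring
  have h2 : U * diagonal α * Uᴴ * (U * ((diagonal α)ᴴ * Uᴴ))
      = U * (diagonal α * (Uᴴ * U) * (diagonal α)ᴴ) * Uᴴ := by noncomm_ring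
  rw [h1, h2, hU, mul_one, mul_one, diagonal_conjTranspose, diagonal_mul_diagonal, diagonal_mul_diagonal]
  simp only [mul_comm]

lemma qT_eq (α β : Fin n → ℂ) {U V : M n} (hU : U * Uᴴ = 1) (hU' : Uᴴ * U = 1)
    (hV : V * Vᴴ = 1) (hV' : Vᴴ * V = 1) :
    q ((U * diagonal α * Uᴴ)ᴴ * (U * diagonal α * Uᴴ - V * diagonal β * Vᴴ)
        - (U * diagonal α * Uᴴ - V * diagonal β * Vᴴ) * (V * diagonal β * Vᴴ)ᴴ)
      = ∑ i, ∑ j, ‖(Uᴴ * V) i j‖ ^ 2 * ‖α i - β j‖ ^ 4 := by
  rw [← q_unitary_left hU, ← q_unitary_right hV]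
  have h1 : Uᴴ * ((U * diagonal α * Uᴴ)ᴴ * (U * diagonal α * Uᴴ - V * diagonal β * Vᴴ)
        - (U * diagonal α * Uᴴ - V * diagonal β * Vᴴ) * (V * diagonal β * Vᴴ)ᴴ) * V
      = (Uᴴ * U) * (diagonal α)ᴴ * ((Uᴴ * U) * diagonal α * (Uᴴ * V) - (Uᴴ * V) * diagonal β * (Vᴴ * V))
        - ((Uᴴ * U) * diagonal α * (Uᴴ * V) - (Uᴴ * V) * diagonal β * (Vᴴ * V)) * (diagonal β)ᴴ * (Vᴴ * V) := by
    simp only [conjTranspose_mul, conjTranspose_conjTranspose]
    noncomm_ring
  rw [h1, hU', hV', q_eq]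
  simp only [one_mul, mul_one, diagonal_conjTranspose]
  refine Finset.sum_congr rfl fun i _ => Finset.sum_congr rfl fun j _ => ?_
  simp only [Matrix.sub_apply, diagonal_mul, mul_diagonal, Pi.star_apply]
  have : star (α i) * (α i * (Uᴴ * V) i j - (Uᴴ * V) i j * β j)
      - (α i * (Uᴴ * V) i j - (Uᴴ * V) i j * β j) * star (β j)
      = (Uᴴ * V) i j * (star (α i - β j) * (α i - β j)) := by
    rw [star_sub]; ring
  rw [this, norm_mul, norm_mul, norm_star]; ring

lemma birkhoff (c : Fin n → Fin n → ℝ) (σ : Equiv.Perm (Fin n))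
    (hσ : ∀ τ : Equiv.Perm (Fin n), ∑ i, c i (σ i) ≤ ∑ i, c i (τ i))
    {U : M n} (hU : U * Uᴴ = 1) (hU' : Uᴴ * U = 1) :
    ∑ i, c i (σ i) ≤ ∑ i, ∑ j, ‖U i j‖ ^ 2 * c i j := by
  let D : Matrix (Fin n) (Fin n) ℝ := Matrix.of fun i j => ‖U i j‖ ^ 2
  have hD : D ∈ doublyStochastic ℝ (Fin n) := by
    rw [mem_doublyStochastic_iff_sum]
    refine ⟨fun i j => by simp [D], fun i => ?_, fun j => ?_⟩
    · have h := congrFun (congrFun hU i) i
      simp only [mul_apply, conjTranspose_apply, one_apply_eq] at h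
      have h2 := congrArg Complex.re h
      simp only [Complex.re_sum, Complex.one_re] at h2
      rw [← h2]
      refine Finset.sum_congr rfl fun j _ => ?_
      simp [D, Complex.sq_norm, Complex.normSq_apply]
    · have h := congrFun (congrFun hU' j) j
      simp only [mul_apply, conjTranspose_apply, one_apply_eq] at h
      have h2 := congrArg Complex.re h
      simp only [Complex.re_sum, Complex.one_re] at h2
      rw [← h2]
      refine Finset.sum_congr rfl fun i _ => ?_
      simp [D, Complex.sq_norm, Complex.normSq_apply]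
  obtain ⟨w, hw0, hw1, hw⟩ := exists_eq_sum_perm_of_mem_doublyStochastic hD
  have hDe : ∀ i j, ‖U i j‖ ^ 2 = ∑ τ, w τ * (if τ i = j then 1 else 0) := by
    intro i j
    have h := congrFun (congrFun hw i) j
    simp only [D, of_apply] at h
    rw [← h, Matrix.sum_apply]
    refine Finset.sum_congr rfl fun τ _ => ?_
    simp [Equiv.toPEquiv_apply]
  have h2 : ∑ i, ∑ j, ‖U i j‖ ^ 2 * c i j = ∑ τ, w τ * ∑ i, c i (τ i) := by
    have h3 : ∀ i, ∑ j, ‖U i j‖ ^ 2 * c i j = ∑ τ, w τ * c i (τ i) := by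
      intro i
      simp only [hDe, Finset.sum_mul]
      rw [Finset.sum_comm]
      refine Finset.sum_congr rfl fun τ _ => ?_
      simp
    simp only [h3, Finset.mul_sum]
    rw [Finset.sum_comm]
  rw [h2]
  calc ∑ i, c i (σ i) = ∑ τ, w τ * ∑ i, c i (σ i) := by rw [← Finset.sum_mul, hw1, one_mul]
    _ ≤ _ := Finset.sum_le_sum fun τ _ => mul_le_mul_of_nonneg_left (hσ τ) (hw0 τ)

lemma main4 (α β : Fin n → ℂ) {U V : M n} (hU : U ∈ Matrix.unitaryGroup (Fin n) ℂ)
    (hV : V ∈ Matrix.unitaryGroup (Fin n) ℂ) :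
    ∃ σ : Equiv.Perm (Fin n), ∑ i, ‖α i - β (σ i)‖ ^ 4 ≤
      q ((U * diagonal α * Uᴴ - V * diagonal β * Vᴴ)ᴴ * (U * diagonal α * Uᴴ - V * diagonal β * Vᴴ)) := by
  obtain ⟨σ, -, hσ⟩ := Finset.exists_min_image (Finset.univ : Finset (Equiv.Perm (Fin n)))
    (fun τ => ∑ i, ‖α i - β (τ i)‖ ^ 4) Finset.univ_nonempty
  refine ⟨σ, ?_⟩
  have hu : ∀ X ∈ Matrix.unitaryGroup (Fin n) ℂ, X * Xᴴ = 1 ∧ Xᴴ * X = 1 := fun X hX =>
    ⟨Matrix.mem_unitaryGroup_iff.1 hX, Matrix.mem_unitaryGroup_iff'.1 hX⟩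
  set B := V * diagonal β * Vᴴ with hB
  let Z : M n → M n := fun X => X * diagonal α * Xᴴ - B
  have hZc : Continuous Z := by
    simp only [Z]
    fun_prop
  have hall : ∀ ε : ℝ, 0 < ε → ∑ i, ‖α i - β (σ i)‖ ^ 4 ≤ q ((Z U)ᴴ * Z U) + ε * q (Z U) := by
    intro ε hε
    let G : M n → ℝ := fun X => q ((Z X)ᴴ * Z X) + ε * q (Z X)
    have hGc : Continuous G := by
      have := @continuous_q n
      simp only [G]
      fun_prop
    obtain ⟨U0, hU0, hmin⟩ := isCompact_unitary.exists_isMinOn ⟨U, hU⟩ hGc.continuousOn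
    have hle : G U0 ≤ G U := hmin hU
    obtain ⟨h01, h02⟩ := hu U0 hU0
    obtain ⟨hV1, hV2⟩ := hu V hV
    set a := U0 * diagonal α * U0ᴴ with ha
    have hz : Z U0 = a - B := rfl
    have hb : a - Z U0 = B := by rw [hz]; abel
    have hkey := key a (Z U0) (normal_conj α h02) (by rw [hb]; exact normal_conj β hV2) hε ?_
    · rw [hb, hz, ha, hB, qT_eq α β h01 h02 hV1 hV2] at hkey
      have hM1 : (U0ᴴ * V) * (U0ᴴ * V)ᴴ = 1 := by
        rw [conjTranspose_mul, conjTranspose_conjTranspose, mul_assoc, ← mul_assoc V, hV1, one_mul, h02]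
      have hM2 : (U0ᴴ * V)ᴴ * (U0ᴴ * V) = 1 := by
        rw [conjTranspose_mul, conjTranspose_conjTranspose, mul_assoc, ← mul_assoc U0, h01, one_mul, hV2]
      have hbk := birkhoff (fun i j => ‖α i - β j‖ ^ 4) σ (fun τ => hσ τ (Finset.mem_univ _)) hM1 hM2
      have h3 := q_nonneg (Z U0)
      have h4 : q ((Z U0)ᴴ * Z U0) ≤ G U0 := by
        simp only [G]
        nlinarith
      calc _ ≤ _ := hbk
        _ ≤ q ((Z U0)ᴴ * Z U0) := hkey
        _ ≤ G U0 := h4
        _ ≤ G U := hle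
    · intro K hK
      let E : ℝ → M n := fun t => NormedSpace.exp (t • K)
      have hE0 : E 0 = 1 := by simp [E]
      have hE : HD E K := HD.exp K
      have hloc : IsLocalMin (fun t => G (E t * U0)) 0 := by
        refine Filter.Eventually.of_forall fun t => ?_
        simp only [hE0, one_mul]
        exact hmin (Submonoid.mul_mem _ (exp_unitary K hK t) hU0)
      let zf : ℝ → M n := fun t => Z (E t * U0)
      have hzf0 : zf 0 = Z U0 := by simp only [zf, hE0, one_mul]
      have hzf : HD zf (K * a - a * K) := by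
        have h1 := ((hE.mul (HD.const a)).mul hE.ct).sub (HD.const B)
        have h2 : zf = fun t => E t * a * (E t)ᴴ - B := by
          funext t
          simp only [zf, Z, ha, conjTranspose_mul, mul_assoc]
        rw [h2]
        convert h1 using 1
        simp only [hE0, hK]
        simp [sub_eq_add_neg]
      have hP := hzf.ct.mul hzf
      have hd := (hP.ip hP).add ((hzf.ip hzf).const_mul ε)
      have hd0 := hloc.hasDerivAt_eq_zero hd
      rw [hzf0] at hd0
      set δ := K * a - a * K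
      set z := Z U0
      have e1 : ip (δᴴ * z) (zᴴ * z) = ip δ (z * zᴴ * z) := by
        rw [← ip_ct, conjTranspose_mul, conjTranspose_mul, conjTranspose_conjTranspose,
          conjTranspose_conjTranspose, ip_mul_left, conjTranspose_conjTranspose, mul_assoc]
      have e2 : ip (zᴴ * δ) (zᴴ * z) = ip δ (z * zᴴ * z) := by
        rw [ip_mul_left, conjTranspose_conjTranspose, mul_assoc]
      rw [ip_comm (zᴴ * z), ip_add_left, e1, e2, ip_comm z δ] at hd0
      rw [ip_add_right, ip_smul_right, ip_smul_right]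
      linarith
  refine le_of_forall_pos_le_add fun η hη => ?_
  have h0 := q_nonneg (Z U)
  have h1 := hall (η / (q (Z U) + 1)) (by positivity)
  have h2 : η / (q (Z U) + 1) * q (Z U) ≤ η := by
    rw [div_mul_eq_mul_div, div_le_iff₀ (by positivity)]
    nlinarith
  calc _ ≤ _ := h1
    _ ≤ _ := by simp only [Z]; simp only [Z] at h2; linarith

open scoped ComplexOrder in
lemma eig_sum (Z : M n) :
    ∑ i, Real.sqrt ((Matrix.isHermitian_conjTranspose_mul_self Z).eigenvalues i) ^ 4 = q (Zᴴ * Z) := by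
  have hA := Matrix.isHermitian_conjTranspose_mul_self Z
  have hpos : ∀ i, 0 ≤ hA.eigenvalues i := fun i =>
    (Matrix.posSemidef_conjTranspose_mul_self Z).eigenvalues_nonneg i
  have h1 := hA.conjStarAlgAut_star_eigenvectorUnitary
  have hW := Matrix.mem_unitaryGroup_iff.1 hA.eigenvectorUnitary.2
  rw [star_eq_conjTranspose] at hW
  rw [← q_unitary_left hW, ← q_unitary_right hW]
  have h2 : (hA.eigenvectorUnitary : M n)ᴴ * (Zᴴ * Z) * (hA.eigenvectorUnitary : M n)
      = diagonal (RCLike.ofReal ∘ hA.eigenvalues) := by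
    rw [← h1]
    simp [star_eq_conjTranspose]
  rw [h2, q_eq]
  refine Finset.sum_congr rfl fun i _ => ?_
  rw [Finset.sum_eq_single i]
  · have h3 : Real.sqrt (hA.eigenvalues i) ^ 4 = (hA.eigenvalues i) ^ 2 := by
      have := Real.sq_sqrt (hpos i)
      calc _ = (Real.sqrt (hA.eigenvalues i) ^ 2) ^ 2 := by ring
        _ = _ := by rw [this]
    rw [h3]
    simp
  · intro j _ hj
    simp [diagonal_apply_ne _ (Ne.symm hj)]
  · simp

end Pool.Agent.H31.HW
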