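import Mathlib

set_option autoImplicit false

namespace H31.HalfRel

/-- the bilinear half-plane relation -/
def S (z a b : ℂ) : Prop :=
  0 ≤ (b * (starRingEnd ℂ) a).im ∧ 0 ≤ (z * a * (starRingEnd ℂ) b).im

lemma S_refl {z : ℂ} (hz : 0 < z.im) (a : ℂ) : S z a a := by
  constructor
  · simp [Complex.mul_conj]
  · rw [mul_assoc, Complex.mul_conj]
    simp only [Complex.mul_im, Complex.ofReal_re, Complex.ofReal_im, mul_zero, zero_add]
    exact mul_nonneg hz.le (Complex.normSq_nonneg a)

lemma S_zl (z b : ℂ) : S z 0 b := by simp [S]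
lemma S_zr (z a : ℂ) : S z a 0 := by simp [S]

lemma S_addl {z a a' b : ℂ} (h : S z a b) (h' : S z a' b) : S z (a + a') b := by
  constructor
  · rw [map_add, mul_add, Complex.add_im]; exact add_nonneg h.1 h'.1
  · rw [mul_add, add_mul, Complex.add_im]; exact add_nonneg h.2 h'.2

lemma S_addr {z a b b' : ℂ} (h : S z a b) (h' : S z a b') : S z a (b + b') := by
  constructor
  · rw [add_mul, Complex.add_im]; exact add_nonneg h.1 h'.1
  · rw [map_add, mul_add, Complex.add_im]; exact add_nonneg h.2 h'.2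

lemma S_sum {ι κ : Type} (z : ℂ) (s : Finset ι) (t : Finset κ) (f : ι → ℂ) (g : κ → ℂ)
    (h : ∀ i j, S z (f i) (g j)) : S z (∑ i ∈ s, f i) (∑ j ∈ t, g j) := by
  refine Finset.sum_induction f (fun a => S z a (∑ j ∈ t, g j)) (fun _ _ => S_addl)
    (S_zl _ _) (fun i _ => ?_)
  exact Finset.sum_induction g (fun b => S z (f i) b) (fun _ _ => S_addr) (S_zr _ _)
    (fun j _ => h i j)

lemma S_mul {z a b : ℂ} (l : ℝ) (hl : 0 ≤ l) (h : S z a b) : S z b (a * ((l : ℂ) * z)) := by
  constructor
  · have e1 : (a * ((l : ℂ) * z) * (starRingEnd ℂ) b).im =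
        l * (z * a * (starRingEnd ℂ) b).im := by
      simp only [Complex.mul_im, Complex.mul_re, Complex.ofReal_re, Complex.ofReal_im,
        Complex.conj_re, Complex.conj_im]
      ring
    rw [e1]
    exact mul_nonneg hl h.2
  · have e1 : (z * b * (starRingEnd ℂ) (a * ((l : ℂ) * z))).im =
        l * (z.re ^ 2 + z.im ^ 2) * (b * (starRingEnd ℂ) a).im := by
      simp only [map_mul, Complex.mul_im, Complex.mul_re, Complex.ofReal_re, Complex.ofReal_im,
        Complex.conj_re, Complex.conj_im]
      ring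
    rw [e1]
    exact mul_nonneg (by positivity) h.1

end H31.HalfRel
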