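import Mathlib

set_option autoImplicit false

open Polynomial Filter Topology

namespace H31.Interl

/-- angle of `a + i / s`. -/
noncomputable def ang (a s : ℝ) : ℝ := Real.pi / 2 - Real.arctan (a * s)

lemma polar (a s : ℝ) (hs : 0 < s) :
    ∃ ρ : ℝ, 0 < ρ ∧ ((a : ℂ) + Complex.I * ((s⁻¹ : ℝ) : ℂ)) =
      (ρ : ℂ) * Complex.exp ((ang a s : ℝ) * Complex.I) := by
  have hq : 0 < √(1 + (a * s) ^ 2) := Real.sqrt_pos.mpr (by positivity)
  refine ⟨s⁻¹ * √(1 + (a * s) ^ 2), by positivity, ?_⟩
  apply Complex.ext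
  · simp only [Complex.add_re, Complex.ofReal_re, Complex.mul_re, Complex.I_re, Complex.I_im,
      Complex.ofReal_im, Complex.exp_ofReal_mul_I_re, Complex.exp_ofReal_mul_I_im, ang,
      Real.cos_pi_div_two_sub, Real.sin_arctan]
    field_simp
    ring
  · simp only [Complex.add_im, Complex.ofReal_re, Complex.mul_im, Complex.I_re, Complex.I_im,
      Complex.ofReal_im, Complex.exp_ofReal_mul_I_re, Complex.exp_ofReal_mul_I_im, ang,
      Real.sin_pi_div_two_sub, Real.cos_arctan]
    field_simp
    ring

lemma polar_prod (F : Multiset ℝ) (x s : ℝ) (hs : 0 < s) :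
    ∃ ρ : ℝ, 0 < ρ ∧ (F.map (fun r : ℝ => ((x : ℂ) + Complex.I * ((s⁻¹ : ℝ) : ℂ)) - (r : ℂ))).prod =
      (ρ : ℂ) * Complex.exp (((F.map (fun r => ang (x - r) s)).sum : ℝ) * Complex.I) := by
  induction F using Multiset.induction_on with
  | empty => exact ⟨1, one_pos, by simp⟩
  | cons a F ih =>
    obtain ⟨ρ, hρ, h⟩ := ih
    obtain ⟨ρ', hρ', h'⟩ := polar (x - a) s hs
    refine ⟨ρ' * ρ, by positivity, ?_⟩
    rw [Multiset.map_cons, Multiset.prod_cons, h, Multiset.map_cons, Multiset.sum_cons]
    have : ((x : ℂ) + Complex.I * ((s⁻¹ : ℝ) : ℂ)) - (a : ℂ) =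
        (((x - a : ℝ) : ℂ) + Complex.I * ((s⁻¹ : ℝ) : ℂ)) := by push_cast; ring
    rw [this, h']
    push_cast
    rw [add_mul, Complex.exp_add]
    ring

lemma ang_cont (a : ℝ) : Continuous (ang a) := by
  unfold ang
  have := Real.continuous_arctan
  fun_prop

lemma ang_lim (x r : ℝ) (h : x ≠ r) :
    Tendsto (ang (x - r)) atTop (𝓝 (if x < r then Real.pi else 0)) := by
  unfold ang
  by_cases hx : x < r
  · rw [if_pos hx]
    have h1 : Tendsto (fun s : ℝ => (x - r) * s) atTop atBot :=
      tendsto_id.const_mul_atTop_of_neg (by linarith)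
    have h2 := (Real.tendsto_arctan_atBot.mono_right nhdsWithin_le_nhds).comp h1
    have h3 := h2.const_sub (Real.pi / 2)
    rw [show Real.pi / 2 - -(Real.pi / 2) = Real.pi by ring] at h3
    exact h3
  · rw [if_neg hx]
    have hx' : 0 < x - r := by
      rcases lt_or_gt_of_ne h with h | h
      · exact absurd h hx
      · linarith
    have h1 : Tendsto (fun s : ℝ => (x - r) * s) atTop atTop :=
      tendsto_id.const_mul_atTop hx'
    have h2 := (Real.tendsto_arctan_atTop.mono_right nhdsWithin_le_nhds).comp h1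
    have h3 := h2.const_sub (Real.pi / 2)
    rw [sub_self] at h3
    exact h3

lemma sum_ite_pi (F : Multiset ℝ) (x : ℝ) :
    (F.map (fun r => if x < r then Real.pi else 0)).sum =
      Real.pi * (F.countP (fun r => x < r) : ℝ) := by
  induction F using Multiset.induction_on with
  | empty => simp
  | cons a F ih =>
    rw [Multiset.map_cons, Multiset.sum_cons, ih, Multiset.countP_cons]
    by_cases h : x < a
    · simp [h]; ring
    · simp [h]

lemma count_bound (F G : Multiset ℝ) (hcard : G.card = F.card + 1)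
    (h : ∀ z : ℂ, 0 < z.im → 0 < ((G.map (fun r : ℝ => z - (r : ℂ))).prod *
      (starRingEnd ℂ) (F.map (fun r : ℝ => z - (r : ℂ))).prod).im)
    (x : ℝ) (hxF : x ∉ F) (hxG : x ∉ G) :
    F.countP (fun r => x < r) ≤ G.countP (fun r => x < r) ∧
      G.countP (fun r => x < r) ≤ F.countP (fun r => x < r) + 1 := by
  set φ : ℝ → ℝ := fun s => (G.map (fun r => ang (x - r) s)).sum -
    (F.map (fun r => ang (x - r) s)).sum with hφ
  have hc : Continuous φ :=
    (continuous_multiset_sum G (fun r _ => ang_cont (x - r))).sub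
      (continuous_multiset_sum F (fun r _ => ang_cont (x - r)))
  have h0 : φ 0 = Real.pi / 2 := by
    simp only [hφ, ang, mul_zero, Real.arctan_zero, sub_zero, Multiset.map_const',
      Multiset.sum_replicate, hcard, nsmul_eq_mul]
    push_cast
    ring
  have hsin : ∀ s, 0 ≤ s → 0 < Real.sin (φ s) := by
    intro s hs
    rcases hs.eq_or_lt with rfl | hs
    · rw [h0]; simp
    obtain ⟨ρ, hρ, e1⟩ := polar_prod G x s hs
    obtain ⟨ρ', hρ', e2⟩ := polar_prod F x s hs
    have := h ((x : ℂ) + Complex.I * ((s⁻¹ : ℝ) : ℂ)) (by simpa using hs)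
    rw [e1, e2] at this
    set A := (G.map (fun r => ang (x - r) s)).sum
    set B := (F.map (fun r => ang (x - r) s)).sum
    have e3 : ((ρ : ℂ) * Complex.exp ((A : ℝ) * Complex.I) *
        (starRingEnd ℂ) ((ρ' : ℂ) * Complex.exp ((B : ℝ) * Complex.I))).im =
        ρ * ρ' * Real.sin (A - B) := by
      simp only [map_mul, Complex.conj_ofReal, Complex.mul_im, Complex.mul_re, Complex.ofReal_re,
        Complex.ofReal_im, Complex.conj_re, Complex.conj_im, Complex.exp_ofReal_mul_I_re,
        Complex.exp_ofReal_mul_I_im, Real.sin_sub]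
      ring
    rw [e3] at this
    exact (pos_iff_pos_of_mul_pos this).mp (by positivity)
  have hin : ∀ s, 0 ≤ s → 0 ≤ φ s ∧ φ s ≤ Real.pi := by
    intro s hs
    have hpi := Real.pi_pos
    constructor
    · by_contra hneg
      push Not at hneg
      have : (0 : ℝ) ∈ Set.Icc (φ s) (φ 0) := ⟨hneg.le, by rw [h0]; positivity⟩
      obtain ⟨t, ht, e⟩ := intermediate_value_Icc' hs hc.continuousOn this
      have := hsin t ht.1
      rw [e] at this
      simp at this
    · by_contra hneg
      push Not at hneg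
      have : Real.pi ∈ Set.Icc (φ 0) (φ s) := ⟨by rw [h0]; linarith, hneg.le⟩
      obtain ⟨t, ht, e⟩ := intermediate_value_Icc hs hc.continuousOn this
      have := hsin t ht.1
      rw [e] at this
      simp at this
  have hlim : Tendsto φ atTop (𝓝 (Real.pi * (G.countP (fun r => x < r) : ℝ) -
      Real.pi * (F.countP (fun r => x < r) : ℝ))) := by
    rw [← sum_ite_pi, ← sum_ite_pi]
    refine Tendsto.sub ?_ ?_
    · exact tendsto_multiset_sum G (fun r hr => ang_lim x r (fun e => hxG (e ▸ hr)))
    · exact tendsto_multiset_sum F (fun r hr => ang_lim x r (fun e => hxF (e ▸ hr)))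
  have hev : ∀ᶠ s in atTop, 0 ≤ φ s ∧ φ s ≤ Real.pi :=
    (eventually_ge_atTop 0).mono hin
  have l1 := ge_of_tendsto hlim (hev.mono fun s hs => hs.1)
  have l2 := le_of_tendsto hlim (hev.mono fun s hs => hs.2)
  have hpi := Real.pi_pos
  constructor
  · have : (F.countP (fun r => x < r) : ℝ) ≤ G.countP (fun r => x < r) := by
      by_contra hh
      push Not at hh
      nlinarith
    exact_mod_cast this
  · have : (G.countP (fun r => x < r) : ℝ) ≤ F.countP (fun r => x < r) + 1 := by
      by_contra hh
      push Not at hh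
      nlinarith
    exact_mod_cast this

lemma count_ge (L : List ℝ) (hL : L.Pairwise (· ≥ ·)) (x : ℝ) (i : ℕ) (hi : i < L.length)
    (hx : x < L[i]) : i + 1 ≤ L.countP (fun r => decide (x < r)) := by
  have h1 : L.countP (fun r => decide (x < r)) =
      (L.take (i + 1)).countP (fun r => decide (x < r)) +
        (L.drop (i + 1)).countP (fun r => decide (x < r)) := by
    rw [← List.countP_append, List.take_append_drop]
  have h2 : (L.take (i + 1)).countP (fun r => decide (x < r)) = (L.take (i + 1)).length := by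
    rw [List.countP_eq_length]
    intro a ha
    obtain ⟨j, hj, rfl⟩ := List.getElem_of_mem ha
    rw [List.length_take] at hj
    rw [List.getElem_take]
    have hj1 : j ≤ i := by omega
    rcases hj1.eq_or_lt with rfl | hj1
    · simpa using hx
    · have := List.pairwise_iff_getElem.mp hL j i (by omega) hi hj1
      simp only [decide_eq_true_eq]
      exact lt_of_lt_of_le hx this
  rw [h1, h2, List.length_take]
  omega

lemma count_le (L : List ℝ) (hL : L.Pairwise (· ≥ ·)) (x : ℝ) (i : ℕ) (hi : i < L.length)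
    (hx : L[i] < x) : L.countP (fun r => decide (x < r)) ≤ i := by
  have h1 : L.countP (fun r => decide (x < r)) =
      (L.take i).countP (fun r => decide (x < r)) +
        (L.drop i).countP (fun r => decide (x < r)) := by
    rw [← List.countP_append, List.take_append_drop]
  have h2 : (L.drop i).countP (fun r => decide (x < r)) = 0 := by
    rw [List.countP_eq_zero]
    intro a ha
    obtain ⟨j, hj, rfl⟩ := List.getElem_of_mem ha
    rw [List.length_drop] at hj
    rw [List.getElem_drop]
    simp only [decide_eq_true_eq, not_lt]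
    rcases Nat.eq_zero_or_pos j with rfl | hj1
    · simpa using hx.le
    · have := List.pairwise_iff_getElem.mp hL i (i + j) hi (by omega) (by omega)
      exact le_trans this hx.le
  have h3 := List.countP_le_length (p := fun r => decide (x < r)) (l := L.take i)
  rw [List.length_take] at h3
  omega

lemma exists_between_avoid (F G : Multiset ℝ) (a b : ℝ) (hab : a < b) :
    ∃ x, a < x ∧ x < b ∧ x ∉ F ∧ x ∉ G := by
  obtain ⟨x, hx, hx'⟩ := (Set.Ioo_infinite hab).exists_notMem_finset (F + G).toFinset
  refine ⟨x, hx.1, hx.2, fun h => hx' ?_, fun h => hx' ?_⟩ <;> simp [h]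

lemma chain (F G : Multiset ℝ) (hcard : G.card = F.card + 1)
    (h : ∀ z : ℂ, 0 < z.im → 0 < ((G.map (fun r : ℝ => z - (r : ℂ))).prod *
      (starRingEnd ℂ) (F.map (fun r : ℝ => z - (r : ℂ))).prod).im)
    (i : ℕ) (hi : i < F.card) :
    (F.sort (· ≥ ·)).getD i 0 ≤ (G.sort (· ≥ ·)).getD i 0 ∧
      (G.sort (· ≥ ·)).getD (i + 1) 0 ≤ (F.sort (· ≥ ·)).getD i 0 := by
  have lF : (F.sort (· ≥ ·)).length = F.card := Multiset.length_sort _
  have lG : (G.sort (· ≥ ·)).length = G.card := Multiset.length_sort _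
  have pF : (F.sort (· ≥ ·)).Pairwise (· ≥ ·) := Multiset.pairwise_sort _ _
  have pG : (G.sort (· ≥ ·)).Pairwise (· ≥ ·) := Multiset.pairwise_sort _ _
  have cF : ∀ x : ℝ, F.countP (fun r => x < r) =
      (F.sort (· ≥ ·)).countP (fun r => decide (x < r)) := by
    intro x
    conv_lhs => rw [← Multiset.sort_eq F (· ≥ ·)]
    rw [Multiset.coe_countP]
  have cG : ∀ x : ℝ, G.countP (fun r => x < r) =
      (G.sort (· ≥ ·)).countP (fun r => decide (x < r)) := by
    intro x
    conv_lhs => rw [← Multiset.sort_eq G (· ≥ ·)]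
    rw [Multiset.coe_countP]
  rw [List.getD_eq_getElem _ _ (by omega : i < (F.sort (· ≥ ·)).length),
    List.getD_eq_getElem _ _ (by omega : i < (G.sort (· ≥ ·)).length),
    List.getD_eq_getElem _ _ (by omega : i + 1 < (G.sort (· ≥ ·)).length)]
  constructor
  · by_contra hh
    push Not at hh
    obtain ⟨x, h1, h2, h3, h4⟩ := exists_between_avoid F G _ _ hh
    have a1 := count_ge _ pF x i (by omega) h2
    have a2 := count_le _ pG x i (by omega) h1
    have a3 := (count_bound F G hcard h x h3 h4).1
    rw [cF, cG] at a3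
    omega
  · by_contra hh
    push Not at hh
    obtain ⟨x, h1, h2, h3, h4⟩ := exists_between_avoid F G _ _ hh
    have a1 := count_ge _ pG x (i + 1) (by omega) h2
    have a2 := count_le _ pF x i (by omega) h1
    have a3 := (count_bound F G hcard h x h3 h4).2
    rw [cF, cG] at a3
    omega

lemma card_roots (p : ℝ[X]) (h : ∀ z : ℂ, 0 < z.im → aeval z p ≠ 0) :
    p.roots.card = p.natDegree := by
  rw [← splits_iff_card_roots]
  refine Splits.of_splits_map (algebraMap ℝ ℂ) (IsAlgClosed.splits _) ?_
  intro a ha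
  have ha' : aeval a p = 0 := by
    have := (mem_roots'.mp ha).2
    rwa [IsRoot.def, eval_map_algebraMap] at this
  rcases lt_trichotomy a.im 0 with h1 | h1 | h1
  · exfalso
    apply h ((starRingEnd ℂ) a) (by simpa using h1)
    rw [Polynomial.aeval_conj, ha', map_zero]
  · exact ⟨a.re, Complex.ext (by simp) (by simp [h1])⟩
  · exact absurd ha' (h a h1)

lemma aeval_eq (p : ℝ[X]) (h : p.roots.card = p.natDegree) (z : ℂ) :
    aeval z p = (p.leadingCoeff : ℂ) * (p.roots.map (fun r : ℝ => z - (r : ℂ))).prod := by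
  conv_lhs => rw [← C_leadingCoeff_mul_prod_multiset_X_sub_C h]
  rw [map_mul, aeval_C, map_multiset_prod, Multiset.map_map]
  simp

theorem chain_poly (f g : ℝ[X]) (hf : 0 < f.leadingCoeff) (hg : 0 < g.leadingCoeff)
    (hd : g.natDegree = f.natDegree + 1)
    (h : ∀ z : ℂ, 0 < z.im → 0 < (aeval z g * (starRingEnd ℂ) (aeval z f)).im) :
    f.roots.card = f.natDegree ∧ g.roots.card = g.natDegree ∧ ∀ i < f.natDegree,
      (f.roots.sort (· ≥ ·)).getD i 0 ≤ (g.roots.sort (· ≥ ·)).getD i 0 ∧
      (g.roots.sort (· ≥ ·)).getD (i + 1) 0 ≤ (f.roots.sort (· ≥ ·)).getD i 0 := by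
  have h1 : f.roots.card = f.natDegree := card_roots f (fun z hz e => by
    have := h z hz
    rw [e] at this
    simp at this)
  have h2 : g.roots.card = g.natDegree := card_roots g (fun z hz e => by
    have := h z hz
    rw [e] at this
    simp at this)
  refine ⟨h1, h2, fun i hi => chain _ _ (by omega) ?_ i (by omega)⟩
  intro z hz
  have := h z hz
  rw [aeval_eq f h1, aeval_eq g h2] at this
  set P := (g.roots.map (fun r : ℝ => z - (r : ℂ))).prod
  set Q := (f.roots.map (fun r : ℝ => z - (r : ℂ))).prod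
  have e : ((g.leadingCoeff : ℂ) * P * (starRingEnd ℂ) ((f.leadingCoeff : ℂ) * Q)).im =
      g.leadingCoeff * f.leadingCoeff * (P * (starRingEnd ℂ) Q).im := by
    simp only [map_mul, Complex.conj_ofReal, Complex.mul_im, Complex.mul_re, Complex.ofReal_re,
      Complex.ofReal_im, Complex.conj_re, Complex.conj_im]
    ring
  rw [e] at this
  exact (pos_iff_pos_of_mul_pos this).mp (by positivity)

end H31.Interl
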