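import Mathlib

set_option autoImplicit false
open MeasureTheory Set
open scoped Pointwise

namespace Pool.Agent.H31.Iso

variable {n : ℕ}

/-- segment along coordinate `i` -/
def seg (i : Fin (n + 1)) (a b : ℝ) : Set (Fin (n + 1) → ℝ) :=
  (fun r : ℝ => (Pi.single i r : Fin (n + 1) → ℝ)) '' Icc a b

/-- forget coordinate `i` -/
def pr (i : Fin (n + 1)) (x : Fin (n + 1) → ℝ) : Fin n → ℝ := fun j => x (i.succAbove j)

/-- insert coordinate `i` -/
def ins (i : Fin (n + 1)) (r : ℝ) (y : Fin n → ℝ) : Fin (n + 1) → ℝ := Fin.insertNth i r y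

lemma pr_ins (i : Fin (n + 1)) (r : ℝ) (y : Fin n → ℝ) : pr i (ins i r y) = y := by
  funext j; simp [pr, ins]

lemma ins_self (i : Fin (n + 1)) (r : ℝ) (y : Fin n → ℝ) : ins i r y i = r := by simp [ins]

lemma ext_pr (i : Fin (n + 1)) {x y : Fin (n + 1) → ℝ} (h1 : x i = y i) (h2 : pr i x = pr i y) :
    x = y := by
  funext k
  rcases Fin.eq_self_or_eq_succAbove i k with rfl | ⟨j, rfl⟩
  · exact h1
  · exact congrFun h2 j

lemma ins_pr (i : Fin (n + 1)) (x : Fin (n + 1) → ℝ) : ins i (x i) (pr i x) = x :=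
  ext_pr i (ins_self _ _ _) (pr_ins _ _ _)

lemma pr_add (i : Fin (n + 1)) (x y : Fin (n + 1) → ℝ) : pr i (x + y) = pr i x + pr i y := rfl

lemma pr_single (i : Fin (n + 1)) (r : ℝ) : pr i (Pi.single i r) = 0 := by
  funext j; simp [pr]

lemma continuous_pr (i : Fin (n + 1)) : Continuous (pr i) := by
  unfold pr; fun_prop

lemma ins_eq (i : Fin (n + 1)) (r : ℝ) (y : Fin n → ℝ) : ins i r y = ins i 0 y + Pi.single i r := by
  apply ext_pr i
  · simp [ins_self]
  · rw [pr_add, pr_single, pr_ins, pr_ins, add_zero]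

lemma continuous_single (i : Fin (n + 1)) :
    Continuous (fun r : ℝ => (Pi.single i r : Fin (n + 1) → ℝ)) :=
  _root_.continuous_single (A := fun _ : Fin (n + 1) => ℝ) i

lemma isCompact_seg (i : Fin (n + 1)) (a b : ℝ) : IsCompact (seg i a b) :=
  isCompact_Icc.image (continuous_single i)

lemma convex_seg (i : Fin (n + 1)) (a b : ℝ) : Convex ℝ (seg i a b) :=
  (convex_Icc a b).linear_image (LinearMap.single ℝ (fun _ : Fin (n + 1) => ℝ) i)

lemma convex_pr (i : Fin (n + 1)) {K : Set (Fin (n + 1) → ℝ)} (hK : Convex ℝ K) :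
    Convex ℝ (pr i '' K) :=
  hK.linear_image (LinearMap.funLeft ℝ ℝ i.succAbove)

lemma vol_fiber (i : Fin (n + 1)) {S : Set (Fin (n + 1) → ℝ)} (hS : MeasurableSet S) :
    volume S = ∫⁻ y, volume {r | ins i r y ∈ S} := by
  have h := (volume_preserving_piFinSuccAbove (fun _ : Fin (n + 1) => ℝ) i).symm
  rw [← h.measure_preimage_equiv S, Measure.volume_eq_prod,
    Measure.prod_apply_symm ((MeasurableEquiv.measurable _) hS)]
  rfl

lemma vol_cyl (i : Fin (n + 1)) (s : ℝ) {Q : Set (Fin n → ℝ)} (hQ : MeasurableSet Q) :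
    volume {x : Fin (n + 1) → ℝ | |x i| ≤ s ∧ pr i x ∈ Q} = ENNReal.ofReal (2 * s) * volume Q := by
  have hm : MeasurableSet {x : Fin (n + 1) → ℝ | |x i| ≤ s ∧ pr i x ∈ Q} := by
    apply MeasurableSet.inter
    · exact (isClosed_le (continuous_apply i).abs continuous_const).measurableSet
    · exact (continuous_pr i).measurable hQ
  rw [vol_fiber i hm, ← lintegral_indicator_const hQ]
  congr 1
  funext y
  simp only [mem_ofPred_eq, ins_self, pr_ins]
  by_cases hy : y ∈ Q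
  · rw [indicator_of_mem hy]
    have : {r : ℝ | |r| ≤ s ∧ y ∈ Q} = Icc (-s) s := by
      ext r; simp [hy, abs_le]
    rw [this, Real.volume_Icc]
    congr 1; ring
  · rw [indicator_of_notMem hy]
    simp [hy]

lemma vol_add_seg (i : Fin (n + 1)) {K : Set (Fin (n + 1) → ℝ)} (hc : IsCompact K) (hv : Convex ℝ K)
    {a b : ℝ} (hab : a ≤ b) :
    volume (K + seg i a b) = volume K + ENNReal.ofReal (b - a) * volume (pr i '' K) := by
  have hQ : MeasurableSet (pr i '' K) := (hc.image (continuous_pr i)).measurableSet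
  rw [vol_fiber i (hc.add (isCompact_seg i a b)).measurableSet, vol_fiber i hc.measurableSet,
    ← lintegral_indicator_const hQ, ← lintegral_add_right _ (measurable_const.indicator hQ)]
  congr 1
  funext y
  have hfib : {r | ins i r y ∈ K + seg i a b} = {r | ins i r y ∈ K} + Icc a b := by
    ext r
    simp only [mem_ofPred_eq, mem_add, seg, mem_image]
    constructor
    · rintro ⟨k, hk, _, ⟨s, hs, rfl⟩, h⟩
      refine ⟨k i, ?_, s, hs, ?_⟩
      · have h2 := congrArg (pr i) h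
        rw [pr_add, pr_single, add_zero, pr_ins] at h2
        rw [← h2, ins_pr]; exact hk
      · have h2 := congrFun h i
        simpa [ins_self] using h2
    · rintro ⟨r0, h0, s, hs, rfl⟩
      refine ⟨_, h0, _, ⟨s, hs, rfl⟩, ?_⟩
      rw [ins_eq i r0, ins_eq i (r0 + s), Pi.single_add, add_assoc]
  rw [hfib]
  by_cases hy : y ∈ pr i '' K
  · rw [indicator_of_mem hy]
    obtain ⟨k, hk, rfl⟩ := hy
    have hne : ({r | ins i r (pr i k) ∈ K} : Set ℝ).Nonempty := ⟨k i, by simpa [ins_pr] using hk⟩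
    have hcont : Continuous fun r => ins i r (pr i k) := by
      have : (fun r => ins i r (pr i k)) = fun r => ins i 0 (pr i k) + Pi.single i r :=
        funext fun r => ins_eq i r _
      rw [this]
      exact continuous_const.add (continuous_single i)
    have hcomp : IsCompact {r | ins i r (pr i k) ∈ K} := by
      refine (hc.image (continuous_apply i)).of_isClosed_subset (hc.isClosed.preimage hcont) ?_
      intro r hr
      exact ⟨_, hr, ins_self _ _ _⟩
    have hconv : Convex ℝ {r | ins i r (pr i k) ∈ K} := by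
      intro r1 h1 r2 h2 c d hc0 hd0 hcd
      have h3 := hv h1 h2 hc0 hd0 hcd
      have : ins i (c • r1 + d • r2) (pr i k) = c • ins i r1 (pr i k) + d • ins i r2 (pr i k) := by
        apply ext_pr i
        · simp [ins_self]
        · rw [pr_ins]
          funext j
          have e1 := congrFun (pr_ins i r1 (pr i k)) j
          have e2 := congrFun (pr_ins i r2 (pr i k)) j
          simp only [pr] at e1 e2
          simp only [pr, Pi.add_apply, Pi.smul_apply, smul_eq_mul, e1, e2]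
          rw [← add_mul, hcd, one_mul]
      show ins i (c • r1 + d • r2) (pr i k) ∈ K
      rw [this]; exact h3
    have hI := eq_Icc_of_connected_compact (hconv.isConnected hne) hcomp
    set α := sInf {r | ins i r (pr i k) ∈ K}
    set β := sSup {r | ins i r (pr i k) ∈ K}
    have hαβ : α ≤ β := by rw [hI] at hne; exact nonempty_Icc.1 hne
    rw [hI, Icc_add_Icc hαβ hab, Real.volume_Icc, Real.volume_Icc,
      ← ENNReal.ofReal_add (by linarith) (by linarith)]
    congr 1; ring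
  · rw [indicator_of_notMem hy]
    have : {r | ins i r y ∈ K} = ∅ := by
      ext r
      simp only [mem_ofPred_eq, mem_empty_iff_false, iff_false]
      intro h
      exact hy ⟨_, h, pr_ins _ _ _⟩
    simp [this]

lemma vol_le_of_bound (i : Fin (n + 1)) {K : Set (Fin (n + 1) → ℝ)} (hc : IsCompact K) {R : ℝ}
    (hR : ∀ x ∈ K, |x i| ≤ R) : volume K ≤ ENNReal.ofReal (2 * R) * volume (pr i '' K) := by
  rw [← vol_cyl i R (hc.image (continuous_pr i)).measurableSet]
  exact measure_mono fun x hx => ⟨hR x hx, x, hx, rfl⟩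

lemma vol_one_dim {S : Set (Fin 1 → ℝ)} {R : ℝ} (hR : ∀ x ∈ S, |x 0| ≤ R) :
    volume S ≤ ENNReal.ofReal (2 * R) := by
  have h : S ⊆ Icc (fun _ => -R) (fun _ => R) := by
    intro x hx
    have := abs_le.1 (hR x hx)
    constructor <;> intro j <;> rw [Subsingleton.elim j 0]
    · exact this.1
    · exact this.2
  refine (measure_mono h).trans ?_
  rw [Real.volume_Icc_pi]
  simp only [Finset.univ_unique, Finset.prod_singleton]
  apply le_of_eq; congr 1; ring

/-- real-valued forms -/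
lemma real_add_seg (i : Fin (n + 1)) {K : Set (Fin (n + 1) → ℝ)} (hc : IsCompact K) (hv : Convex ℝ K)
    {a b : ℝ} (hab : a ≤ b) :
    (volume (K + seg i a b)).toReal = (volume K).toReal + (b - a) * (volume (pr i '' K)).toReal := by
  rw [vol_add_seg i hc hv hab, ENNReal.toReal_add hc.measure_lt_top.ne
    (ENNReal.mul_ne_top ENNReal.ofReal_ne_top (hc.image (continuous_pr i)).measure_lt_top.ne),
    ENNReal.toReal_mul, ENNReal.toReal_ofReal (by linarith)]

lemma real_cyl (i : Fin (n + 1)) {s : ℝ} (hs : 0 ≤ s) {Q : Set (Fin n → ℝ)} (hQ : MeasurableSet Q) :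
    (volume {x : Fin (n + 1) → ℝ | |x i| ≤ s ∧ pr i x ∈ Q}).toReal = 2 * s * (volume Q).toReal := by
  rw [vol_cyl i s hQ, ENNReal.toReal_mul, ENNReal.toReal_ofReal (by linarith)]

lemma cyl_ne_top (i : Fin (n + 1)) (s : ℝ) {Q : Set (Fin n → ℝ)} (hQ : IsCompact Q) :
    volume {x : Fin (n + 1) → ℝ | |x i| ≤ s ∧ pr i x ∈ Q} ≠ ⊤ := by
  rw [vol_cyl i s hQ.measurableSet]
  exact ENNReal.mul_ne_top ENNReal.ofReal_ne_top hQ.measure_lt_top.ne

lemma real_le_of_bound (i : Fin (n + 1)) {K : Set (Fin (n + 1) → ℝ)} (hc : IsCompact K) {R : ℝ}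
    (hR0 : 0 ≤ R) (hR : ∀ x ∈ K, |x i| ≤ R) :
    (volume K).toReal ≤ 2 * R * (volume (pr i '' K)).toReal := by
  have h := ENNReal.toReal_mono (ENNReal.mul_ne_top ENNReal.ofReal_ne_top
    (hc.image (continuous_pr i)).measure_lt_top.ne) (vol_le_of_bound i hc hR)
  rwa [ENNReal.toReal_mul, ENNReal.toReal_ofReal (by linarith)] at h

lemma real_one_dim {S : Set (Fin 1 → ℝ)} {R : ℝ} (hR0 : 0 ≤ R) (hR : ∀ x ∈ S, |x 0| ≤ R) :
    (volume S).toReal ≤ 2 * R := by
  have h := ENNReal.toReal_mono ENNReal.ofReal_ne_top (vol_one_dim hR)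
  rwa [ENNReal.toReal_ofReal (by linarith)] at h

/-- upper bound for the thickened planar set -/
lemma upper {Q : Set (Fin 2 → ℝ)} (hc : IsCompact Q) (hv : Convex ℝ Q)
    (hR : ∀ y ∈ Q, ∀ j, |y j| ≤ 2) {t : ℝ} (ht : 0 ≤ t) (ht1 : t ≤ 1)
    {S : Set (Fin 3 → ℝ)} (hS : ∀ x ∈ S, |x 0| ≤ t ∧ ∃ y ∈ Q, ∀ j, |pr 0 x j - y j| ≤ t) :
    (volume S).toReal ≤ 2 * t * (volume Q).toReal + 40 * t ^ 2 := by
  have hc1 := hc.add (isCompact_seg (0 : Fin 2) (-t) t)
  have hv1 := hv.add (convex_seg (0 : Fin 2) (-t) t)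
  have hc2 := hc1.add (isCompact_seg (1 : Fin 2) (-t) t)
  have hsub : S ⊆ {x : Fin 3 → ℝ | |x 0| ≤ t ∧ pr 0 x ∈ Q + seg 0 (-t) t + seg 1 (-t) t} := by
    intro x hx
    obtain ⟨h0, y, hy, h1⟩ := hS x hx
    refine ⟨h0, _, ⟨y, hy, _, ⟨pr 0 x 0 - y 0, abs_le.1 (h1 0), rfl⟩, rfl⟩, _,
      ⟨pr 0 x 1 - y 1, abs_le.1 (h1 1), rfl⟩, ?_⟩
    funext j
    fin_cases j <;> simp
  have h1 := ENNReal.toReal_mono (cyl_ne_top 0 t hc2) (measure_mono hsub)
  rw [real_cyl 0 ht hc2.measurableSet, real_add_seg 1 hc1 hv1 (by linarith),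
    real_add_seg 0 hc hv (by linarith)] at h1
  have h2 : (volume (pr 0 '' Q)).toReal ≤ 2 * 2 := by
    apply real_one_dim (by norm_num)
    rintro _ ⟨y, hy, rfl⟩
    exact hR y hy _
  have h3 : (volume (pr 1 '' (Q + seg 0 (-t) t))).toReal ≤ 2 * 3 := by
    apply real_one_dim (by norm_num)
    rintro _ ⟨_, ⟨y, hy, _, ⟨r, hr, rfl⟩, rfl⟩, rfl⟩
    have h4 := abs_le.1 (hR y hy 0)
    have : pr 1 (y + Pi.single 0 r) 0 = y 0 + r := by simp [pr]
    simp only [this, abs_le]
    constructor <;> linarith [hr.1, hr.2]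
  have h5 := mul_le_mul_of_nonneg_left h2 (sq_nonneg t)
  have h6 := mul_le_mul_of_nonneg_left h3 (sq_nonneg t)
  nlinarith

/-- lower bound for the thickened planar set -/
lemma lower {Q : Set (Fin 2 → ℝ)} (hc : IsCompact Q) (hv : Convex ℝ Q)
    (hR : ∀ y ∈ Q, ∀ j, |y j| ≤ 2) {t : ℝ} (ht : 0 ≤ t)
    {S : Set (Fin 3 → ℝ)} (hfin : volume S ≠ ⊤)
    (hS1 : ∀ x : Fin 3 → ℝ, |x 0| ≤ t → pr 0 x ∈ Q → x ∈ S)
    (hS2 : ∀ x : Fin 3 → ℝ, |x 0| ≤ t / 2 → pr 0 x ∈ Q + seg 0 0 (t / 2) → x ∈ S) :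
    2 * t * (volume Q).toReal + (volume Q).toReal / 8 * t ^ 2 ≤ (volume S).toReal := by
  have hc1 := hc.add (isCompact_seg (0 : Fin 2) 0 (t / 2))
  set C1 := {x : Fin 3 → ℝ | |x 0| ≤ t ∧ pr 0 x ∈ Q}
  set C2 := {x : Fin 3 → ℝ | |x 0| ≤ t / 2 ∧ pr 0 x ∈ Q + seg 0 0 (t / 2)}
  set C3 := {x : Fin 3 → ℝ | |x 0| ≤ t / 2 ∧ pr 0 x ∈ Q}
  have hm2 : MeasurableSet C2 := by
    apply MeasurableSet.inter
    · exact (isClosed_le (continuous_apply (0 : Fin 3)).abs continuous_const).measurableSet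
    · exact (continuous_pr 0).measurable hc1.measurableSet
  have h1 := measure_union_add_inter (μ := volume) C1 hm2
  have h2 : volume (C1 ∪ C2) ≤ volume S := by
    apply measure_mono
    rintro x (hx | hx)
    · exact hS1 x hx.1 hx.2
    · exact hS2 x hx.1 hx.2
  have h3 : volume (C1 ∩ C2) ≤ volume C3 := measure_mono fun x hx => ⟨hx.2.1, hx.1.2⟩
  have h4 : volume C1 + volume C2 ≤ volume S + volume C3 := by
    rw [← h1]; exact add_le_add h2 h3
  have f1 := cyl_ne_top (0 : Fin 3) t hc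
  have f2 := cyl_ne_top (0 : Fin 3) (t / 2) hc1
  have f3 := cyl_ne_top (0 : Fin 3) (t / 2) hc
  have h5 := ENNReal.toReal_mono (ENNReal.add_ne_top.2 ⟨hfin, f3⟩) h4
  rw [ENNReal.toReal_add f1 f2, ENNReal.toReal_add hfin f3, real_cyl 0 ht hc.measurableSet,
    real_cyl 0 (by linarith) hc1.measurableSet, real_cyl 0 (by linarith) hc.measurableSet,
    real_add_seg 0 hc hv (by linarith)] at h5
  have h6 := real_le_of_bound 0 hc (by norm_num : (0 : ℝ) ≤ 2) (fun y hy => hR y hy 0)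
  have h7 := mul_le_mul_of_nonneg_left h6 (sq_nonneg t)
  nlinarith

end Pool.Agent.H31.Iso
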