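import Mathlib

set_option autoImplicit false

namespace H31.KReg

/-- prefixes of elements of `D` after deleting `d` base-`k` digits -/
def Y (k : ℕ) (D : Set ℕ) (d : ℕ) : Set ℕ := {n | ∃ x ∈ D, x / k ^ d = n}

lemma bern (r : ℕ) : 3 ^ r * (3 + r) ≤ 3 * 4 ^ r := by
  induction r with
  | zero => simp
  | succ r ih =>
    rw [pow_succ, pow_succ]
    have : 0 < 3 ^ r := by positivity
    nlinarith

lemma big (C r : ℕ) (h : 3 * C ≤ r) : C * 3 ^ r < 4 ^ r := by
  have h1 := bern r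
  have : 0 < 3 ^ r := by positivity
  nlinarith

lemma Y_add (k : ℕ) (D : Set ℕ) (d e : ℕ) : Y k D (d + e) = (fun n => n / k ^ e) '' Y k D d := by
  ext n
  simp only [Y, Set.mem_ofPred_eq, Set.mem_image]
  constructor
  · rintro ⟨x, hx, rfl⟩
    exact ⟨x / k ^ d, ⟨x, hx, rfl⟩, by rw [Nat.div_div_eq_div_mul, pow_add]⟩
  · rintro ⟨_, ⟨x, hx, rfl⟩, rfl⟩
    exact ⟨x, hx, by rw [Nat.div_div_eq_div_mul, pow_add]⟩

lemma arith (L B A X e e' G G' Bm G0 T Tw Ta r : ℕ) (h1 : e + G + 1 = 12 * X)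
    (h2 : e' + G' + 1 = 12 * (A * X)) (h3 : e' < B * e + L * B) (h4 : B * e < e' + L * B)
    (hB : B ≤ Bm) (hG : G ≤ G0 * T) (hG' : G' ≤ Ta * G) (hTa : Ta ≤ Tw) (hTA : Ta + 1 ≤ A)
    (hT : 1 ≤ T) (hr : r ≤ G)
    (hC : (L * Bm + G0 * Tw + Bm * G0 + Bm + L + 1) * T < X)
    (hR : 3 * (L * Bm + G0 * Tw + Bm * G0 + Bm + L + 1) ≤ r) : False := by
  have a1 : L * B ≤ L * Bm := Nat.mul_le_mul_left _ hB
  have a2 : L * Bm ≤ L * Bm * T := Nat.le_mul_of_pos_right _ hT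
  have a3 : G' ≤ G0 * Tw * T := by
    calc G' ≤ Ta * G := hG'
      _ ≤ Tw * (G0 * T) := Nat.mul_le_mul hTa hG
      _ = G0 * Tw * T := by ring
  have a4 : B * G ≤ Bm * G0 * T := by
    calc B * G ≤ Bm * (G0 * T) := Nat.mul_le_mul hB hG
      _ = Bm * G0 * T := by ring
  have a5 : Bm ≤ Bm * T := Nat.le_mul_of_pos_right _ hT
  have a6 : (L * Bm + G0 * Tw + Bm * G0 + Bm + L + 1) * T =
      L * Bm * T + G0 * Tw * T + Bm * G0 * T + Bm * T + L * T + T := by ring
  have a7 : B * e + B * G + B = 12 * (B * X) := by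
    calc B * e + B * G + B = B * (e + G + 1) := by ring
      _ = 12 * (B * X) := by rw [h1]; ring
  rcases lt_trichotomy B A with h | h | h
  · have : (B + 1) * X ≤ A * X := Nat.mul_le_mul_right _ h
    have : (B + 1) * X = B * X + X := by ring
    omega
  · subst h
    have : (Ta + 1) * G ≤ B * G := Nat.mul_le_mul_right _ hTA
    have : (Ta + 1) * G = Ta * G + G := by ring
    omega
  · have : (A + 1) * X ≤ B * X := Nat.mul_le_mul_right _ h
    have : (A + 1) * X = A * X + X := by ring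
    omega

theorem main (k : ℕ) (hk : 2 ≤ k) (D : Set ℕ) (hfin : (Set.range (Y k D)).Finite)
    (e G : ℕ → ℕ) (he : ∀ r, e r ∈ D) (hgap : ∀ r n, e r ≤ n + 4 ^ r → n < e r → n ∉ D)
    (heG : ∀ r, e r + G r + 1 = 12 * 4 ^ r) (hG1 : ∀ r, G (r + 1) ≤ 3 * G r)
    (hG2 : ∀ r, r ≤ G r) : False := by
  obtain ⟨d0, d1, hd, hY⟩ : ∃ d0 d1, d0 < d1 ∧ Y k D d0 = Y k D d1 :=
    Set.Finite.exists_lt_map_eq_of_forall_mem (fun d => Set.mem_range_self d) hfin
  obtain ⟨p, rfl⟩ : ∃ p, d1 = d0 + (p + 1) := ⟨d1 - d0 - 1, by omega⟩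
  have hYj : ∀ j, Y k D (d0 + (p + 1) * j) = Y k D d0 := by
    intro j
    induction j with
    | zero => simp
    | succ j ih => rw [Nat.mul_succ, ← add_assoc, Y_add, ih, ← Y_add, ← hY]
  obtain ⟨K, hK⟩ : ∃ K, K = k ^ (p + 1) := ⟨_, rfl⟩
  obtain ⟨L, hL⟩ : ∃ L, L = k ^ d0 := ⟨_, rfl⟩
  have hK2 : 1 < K := by rw [hK]; exact Nat.one_lt_pow (by omega) (by omega)
  have hL1 : 0 < L := by rw [hL]; positivity
  have hiff : ∀ j n, (∃ x ∈ D, x / (L * K ^ j) = n) ↔ (∃ x ∈ D, x / L = n) := by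
    intro j n
    have := Set.ext_iff.mp (hYj j) n
    simp only [Y, Set.mem_ofPred_eq] at this
    rw [pow_add, pow_mul, ← hK, ← hL] at this
    exact this
  have hG3 : ∀ r a, G (r + a) ≤ 3 ^ a * G r := by
    intro r a
    induction a with
    | zero => simp
    | succ a ih =>
      have := hG1 (r + a)
      rw [← add_assoc, pow_succ]
      nlinarith
  obtain ⟨W, hW⟩ : ∃ W, W = 12 * K := ⟨_, rfl⟩
  obtain ⟨C, hC⟩ : ∃ C, C = L * (4 ^ W * K) + G 0 * 3 ^ W + (4 ^ W * K) * G 0 + (4 ^ W * K) +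
    L + 1 := ⟨_, rfl⟩
  have hLr : ∀ r, 3 * C ≤ r → L ≤ 4 ^ r := by
    intro r hr
    have h1 := big C r hr
    have h2 : C ≤ C * 3 ^ r := Nat.le_mul_of_pos_right _ (by positivity)
    omega
  set t : ℕ → ℕ := fun r => Nat.log K (4 ^ r / L) with ht
  have ht1 : ∀ r, 3 * C ≤ r → L * K ^ t r ≤ 4 ^ r := by
    intro r hr
    have h1 : K ^ t r ≤ 4 ^ r / L :=
      Nat.pow_log_le_self K (Nat.div_pos (hLr r hr) hL1).ne'
    rw [Nat.le_div_iff_mul_le hL1] at h1
    rwa [mul_comm]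
  have ht2 : ∀ r, 4 ^ r < L * K ^ (t r + 1) := by
    intro r
    have h1 : 4 ^ r / L < K ^ (t r + 1) := Nat.lt_pow_succ_log_self hK2 _
    rw [Nat.div_lt_iff_lt_mul hL1] at h1
    rwa [mul_comm]
  have hmin : ∀ r, 3 * C ≤ r → ∀ x ∈ D, x / (L * K ^ t r) = e r / (L * K ^ t r) → e r ≤ x := by
    intro r hr x hx h
    by_contra hlt
    push Not at hlt
    have hQ : 0 < L * K ^ t r := by positivity
    have h1 := Nat.lt_mul_div_succ (e r) hQ
    have h2 := Nat.mul_div_le x (L * K ^ t r)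
    have h3 := ht1 r hr
    rw [← h, mul_add, mul_one] at h1
    exact hgap r x (by omega) hlt hx
  have hu : ∀ r, e r / (L * K ^ t r) < W := by
    intro r
    have hQ : 0 < L * K ^ t r := by positivity
    rw [Nat.div_lt_iff_lt_mul hQ, hW]
    have h1 := ht2 r
    have h2 := heG r
    have h3 : 12 * K * (L * K ^ t r) = 12 * (L * K ^ (t r + 1)) := by ring
    omega
  have key : ∀ r a, 3 * C ≤ r → 1 ≤ a → a ≤ W →
      e r / (L * K ^ t r) = e (r + a) / (L * K ^ t (r + a)) → False := by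
    intro r a hr ha haW hu
    have hr' : 3 * C ≤ r + a := by omega
    have htt : t r ≤ t (r + a) := by
      have h1 := ht1 r hr
      have h2 := ht2 (r + a)
      have h3 : 4 ^ r ≤ 4 ^ (r + a) := Nat.pow_le_pow_right (by norm_num) (by omega)
      have h4 : L * K ^ t r < L * K ^ (t (r + a) + 1) := by omega
      have h5 := Nat.lt_of_mul_lt_mul_left h4
      have := (Nat.pow_lt_pow_iff_right hK2).mp h5
      omega
    obtain ⟨b, hb⟩ := Nat.exists_eq_add_of_le htt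
    have hB : K ^ b ≤ 4 ^ W * K := by
      have h1 := ht1 (r + a) hr'
      have h2 := ht2 r
      have h3 : 4 ^ a ≤ 4 ^ W := Nat.pow_le_pow_right (by norm_num) haW
      have hQ : 0 < L * K ^ t r := by positivity
      have h4 : (L * K ^ t r) * K ^ b ≤ (L * K ^ t r) * (4 ^ W * K) := by
        calc (L * K ^ t r) * K ^ b = L * K ^ t (r + a) := by rw [hb]; ring
          _ ≤ 4 ^ (r + a) := h1
          _ = 4 ^ r * 4 ^ a := pow_add _ _ _
          _ ≤ (L * K ^ (t r + 1)) * 4 ^ W := Nat.mul_le_mul h2.le h3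
          _ = (L * K ^ t r) * (4 ^ W * K) := by ring
      exact Nat.le_of_mul_le_mul_left h4 hQ
    have dd : ∀ x, x / (L * K ^ t r) = x / L / K ^ t r := fun x => by
      rw [Nat.div_div_eq_div_mul]
    have dd' : ∀ x, x / (L * K ^ t (r + a)) = x / (L * K ^ b) / K ^ t r := fun x => by
      rw [Nat.div_div_eq_div_mul, hb]
      congr 1
      ring
    have hz : e (r + a) / (L * K ^ b) = e r / L := by
      apply le_antisymm
      · obtain ⟨w, hw, hw'⟩ := (hiff b (e r / L)).mpr ⟨e r, he r, rfl⟩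
        have := hmin (r + a) hr' w hw (by rw [← hu, dd', hw', dd])
        rw [← hw']
        exact Nat.div_le_div_right this
      · obtain ⟨w, hw, hw'⟩ := (hiff b (e (r + a) / (L * K ^ b))).mp ⟨e (r + a), he _, rfl⟩
        have := hmin r hr w hw (by rw [hu, dd', ← hw', dd])
        rw [← hw']
        exact Nat.div_le_div_right this
    have hQ : 0 < L * K ^ b := by positivity
    have b1 := Nat.lt_mul_div_succ (e (r + a)) hQ
    have b2 := Nat.mul_div_le (e (r + a)) (L * K ^ b)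
    have b3 := Nat.lt_mul_div_succ (e r) hL1
    have b4 := Nat.mul_div_le (e r) L
    rw [hz] at b1 b2
    have hBpos : 0 < K ^ b := by positivity
    refine arith L (K ^ b) (4 ^ a) (4 ^ r) (e r) (e (r + a)) (G r) (G (r + a)) (4 ^ W * K) (G 0)
      (3 ^ r) (3 ^ W) (3 ^ a) r (heG r) (by rw [heG, pow_add, mul_comm (4 ^ r)]) ?_ ?_ hB ?_
      (hG3 r a) (Nat.pow_le_pow_right (by norm_num) haW)
      (Nat.pow_lt_pow_left (by norm_num) (by omega)) (Nat.one_le_pow _ _ (by norm_num)) (hG2 r)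
      (by rw [← hC]; exact big C r hr) (by rw [← hC]; exact hr)
    · have c1 : K ^ b * (L * (e r / L)) ≤ K ^ b * e r := Nat.mul_le_mul_left _ b4
      have c2 : L * K ^ b * (e r / L + 1) = K ^ b * (L * (e r / L)) + L * K ^ b := by ring
      omega
    · have c1 : K ^ b * e r < K ^ b * (L * (e r / L + 1)) := Nat.mul_lt_mul_of_pos_left b3 hBpos
      have c2 : K ^ b * (L * (e r / L + 1)) = L * K ^ b * (e r / L) + L * K ^ b := by ring
      omega
    · have := hG3 0 r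
      rw [zero_add, mul_comm] at this
      exact this
  obtain ⟨x, hx, y, hy, hxy, h⟩ := Finset.exists_ne_map_eq_of_card_lt_of_maps_to
    (s := Finset.range (W + 1)) (t := Finset.range W) (by simp)
    (f := fun i => e (3 * C + i) / (L * K ^ t (3 * C + i)))
    (fun i _ => by simpa using hu (3 * C + i))
  have hx' := Finset.mem_range.mp hx
  have hy' := Finset.mem_range.mp hy
  rcases lt_or_gt_of_ne hxy with hlt | hlt
  · refine key (3 * C + x) (y - x) (by omega) (by omega) (by omega) ?_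
    rw [show 3 * C + x + (y - x) = 3 * C + y by omega]
    exact h
  · refine key (3 * C + y) (x - y) (by omega) (by omega) (by omega) ?_
    rw [show 3 * C + y + (x - y) = 3 * C + x by omega]
    exact h.symm

/-- finite kernel modulo 5 -/
lemma ker_fin (k : ℕ) (a : ℕ → ℤ)
    (h : (Submodule.span ℤ {f : ℕ → ℤ | ∃ e r : ℕ, r < k ^ e ∧ f = fun n => a (k ^ e * n + r)}).FG) :
    {f : ℕ → ZMod 5 | ∃ e r : ℕ, r < k ^ e ∧ f = fun n => (a (k ^ e * n + r) : ZMod 5)}.Finite := by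
  let φ : (ℕ → ℤ) →ₗ[ℤ] (ℕ → ZMod 5) :=
    (AddMonoidHom.compLeft (Int.castAddHom (ZMod 5)) ℕ).toIntLinearMap
  have h1 := h.map φ
  set N := Submodule.map φ
    (Submodule.span ℤ {f : ℕ → ℤ | ∃ e r : ℕ, r < k ^ e ∧ f = fun n => a (k ^ e * n + r)})
  have : Module.Finite ℤ N := Module.Finite.iff_fg.mpr h1
  have hfin : Finite N := Module.finite_of_fg_torsion N (by
    intro x
    refine ⟨⟨5, mem_nonZeroDivisors_of_ne_zero (by norm_num)⟩, ?_⟩
    apply Subtype.ext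
    funext n
    show (5 : ℤ) • (x.1 n) = 0
    rw [zsmul_eq_mul]
    have : ((5 : ℤ) : ZMod 5) = 0 := by decide
    rw [this, zero_mul])
  refine (Set.toFinite (N : Set (ℕ → ZMod 5))).subset ?_
  rintro f ⟨e, r, hr, rfl⟩
  exact ⟨_, Submodule.subset_span ⟨e, r, hr, rfl⟩, rfl⟩

lemma Y_fin (k : ℕ) (hk : 2 ≤ k) (a : ℕ → ZMod 5)
    (h : {f : ℕ → ZMod 5 | ∃ e r : ℕ, r < k ^ e ∧ f = fun n => a (k ^ e * n + r)}.Finite) :
    (Set.range (Y k {n | a (n + 1) ≠ a n + 1})).Finite := by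
  set Kb := {f : ℕ → ZMod 5 | ∃ e r : ℕ, r < k ^ e ∧ f = fun n => a (k ^ e * n + r)} with hKb
  set F : Set (Set ℕ) := Set.image2 (fun u v : ℕ → ZMod 5 => {n | v n ≠ u n + 1}) Kb Kb ∪
    Set.image2 (fun u v : ℕ → ZMod 5 => {n | v (n + 1) ≠ u n + 1}) Kb Kb with hF
  have hFfin : F.Finite := (h.image2 _ h).union (h.image2 _ h)
  refine (hFfin.finite_subsets.image Set.sUnion).subset ?_
  rintro _ ⟨d, rfl⟩
  have hpos : 0 < k ^ d := by positivity
  refine ⟨{S | ∃ r < k ^ d, S = {n | a (k ^ d * n + r + 1) ≠ a (k ^ d * n + r) + 1}}, ?_, ?_⟩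
  · rintro S ⟨r, hr, rfl⟩
    by_cases h1 : r + 1 < k ^ d
    · left
      exact ⟨_, ⟨d, r, hr, rfl⟩, _, ⟨d, r + 1, h1, rfl⟩, rfl⟩
    · right
      refine ⟨_, ⟨d, r, hr, rfl⟩, _, ⟨d, 0, hpos, rfl⟩, ?_⟩
      ext n
      have : k ^ d * (n + 1) + 0 = k ^ d * n + r + 1 := by rw [mul_add]; omega
      simp only [Set.mem_ofPred_eq, this]
  · ext n
    simp only [Y, Set.mem_sUnion, Set.mem_ofPred_eq]
    constructor
    · rintro ⟨S, ⟨r, hr, rfl⟩, hn⟩
      refine ⟨k ^ d * n + r, hn, ?_⟩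
      rw [Nat.mul_add_div hpos, Nat.div_eq_of_lt hr, add_zero]
    · rintro ⟨x, hx, rfl⟩
      refine ⟨_, ⟨x % k ^ d, Nat.mod_lt _ hpos, rfl⟩, ?_⟩
      simp only [Set.mem_ofPred_eq, Nat.div_add_mod]
      exact hx

end H31.KReg
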