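import Mathlib
import Pool.Agent.H31.KReg

set_option autoImplicit false

namespace H31.KReg

lemma bern2 (g r : ℕ) : g ^ r * (g + r) ≤ g * (g + 1) ^ r := by
  induction r with
  | zero => simp
  | succ r ih =>
    calc g ^ (r + 1) * (g + (r + 1)) = g ^ r * (g * (g + r + 1)) := by ring
      _ ≤ g ^ r * ((g + 1) * (g + r)) := Nat.mul_le_mul_left _ (by nlinarith)
      _ = (g + 1) * (g ^ r * (g + r)) := by ring
      _ ≤ (g + 1) * (g * (g + 1) ^ r) := Nat.mul_le_mul_left _ ih
      _ = g * (g + 1) ^ (r + 1) := by ring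

lemma big2 (g C r : ℕ) (hg : 1 ≤ g) (h : g * C ≤ r) : C * g ^ r < (g + 1) ^ r := by
  have h1 := bern2 g r
  have h2 : 0 < g ^ r := by positivity
  have h3 : g * (C * g ^ r) < g * (g + 1) ^ r := by
    calc g * (C * g ^ r) = g ^ r * (g * C) := by ring
      _ < g ^ r * (g + r) := Nat.mul_lt_mul_of_pos_left (by omega) h2
      _ ≤ _ := h1
  exact Nat.lt_of_mul_lt_mul_left h3

lemma arith2 (L B A X e e' G G' Bm G0 T Tw Ta r : ℕ) (h1 : e + G + 1 = X)
    (h2 : e' + G' + 1 = A * X) (h3 : e' < B * e + L * B) (h4 : B * e < e' + L * B)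
    (hB : B ≤ Bm) (hG : G ≤ G0 * T) (hG' : G' ≤ Ta * G) (hTa : Ta ≤ Tw) (hTA : Ta + 1 ≤ A)
    (hT : 1 ≤ T) (hr : r ≤ G)
    (hC : (L * Bm + G0 * Tw + Bm * G0 + Bm + L + 1) * T < X)
    (hR : L * Bm + G0 * Tw + Bm * G0 + Bm + L + 1 ≤ r) : False := by
  have a1 : L * B ≤ L * Bm := Nat.mul_le_mul_left _ hB
  have a2 : L * Bm ≤ L * Bm * T := Nat.le_mul_of_pos_right _ hT
  have a3 : G' ≤ G0 * Tw * T := by
    calc G' ≤ Ta * G := hG'
      _ ≤ Tw * (G0 * T) := Nat.mul_le_mul hTa hG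
      _ = G0 * Tw * T := by ring
  have a4 : B * G ≤ Bm * G0 * T := by
    calc B * G ≤ Bm * (G0 * T) := Nat.mul_le_mul hB hG
      _ = Bm * G0 * T := by ring
  have a5 : Bm ≤ Bm * T := Nat.le_mul_of_pos_right _ hT
  have a6 : (L * Bm + G0 * Tw + Bm * G0 + Bm + L + 1) * T =
      L * Bm * T + G0 * Tw * T + Bm * G0 * T + Bm * T + L * T + T := by ring
  have a7 : B * e + B * G + B = B * X := by
    calc B * e + B * G + B = B * (e + G + 1) := by ring
      _ = B * X := by rw [h1]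
  rcases lt_trichotomy B A with h | h | h
  · have : (B + 1) * X ≤ A * X := Nat.mul_le_mul_right _ h
    have : (B + 1) * X = B * X + X := by ring
    omega
  · subst h
    have : (Ta + 1) * G ≤ B * G := Nat.mul_le_mul_right _ hTA
    have : (Ta + 1) * G = Ta * G + G := by ring
    omega
  · have : (A + 1) * X ≤ B * X := Nat.mul_le_mul_right _ h
    have : (A + 1) * X = A * X + X := by ring
    omega

theorem main2 (g c : ℕ) (hg : 1 ≤ g) (hc : 1 ≤ c) (k : ℕ) (hk : 2 ≤ k) (D : Set ℕ) (hfin : (Set.range (Y k D)).Finite)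
    (e G : ℕ → ℕ) (he : ∀ r, e r ∈ D) (hgap : ∀ r n, e r ≤ n + (g + 1) ^ r → n < e r → n ∉ D)
    (heG : ∀ r, e r + G r + 1 = c * (g + 1) ^ r) (hG1 : ∀ r, G (r + 1) ≤ g * G r)
    (hG2 : ∀ r, r ≤ G r) : False := by
  obtain ⟨d0, d1, hd, hY⟩ : ∃ d0 d1, d0 < d1 ∧ Y k D d0 = Y k D d1 :=
    Set.Finite.exists_lt_map_eq_of_forall_mem (fun d => Set.mem_range_self d) hfin
  obtain ⟨p, rfl⟩ : ∃ p, d1 = d0 + (p + 1) := ⟨d1 - d0 - 1, by omega⟩
  have hYj : ∀ j, Y k D (d0 + (p + 1) * j) = Y k D d0 := by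
    intro j
    induction j with
    | zero => simp
    | succ j ih => rw [Nat.mul_succ, ← add_assoc, Y_add, ih, ← Y_add, ← hY]
  obtain ⟨K, hK⟩ : ∃ K, K = k ^ (p + 1) := ⟨_, rfl⟩
  obtain ⟨L, hL⟩ : ∃ L, L = k ^ d0 := ⟨_, rfl⟩
  have hK2 : 1 < K := by rw [hK]; exact Nat.one_lt_pow (by omega) (by omega)
  have hL1 : 0 < L := by rw [hL]; positivity
  have hiff : ∀ j n, (∃ x ∈ D, x / (L * K ^ j) = n) ↔ (∃ x ∈ D, x / L = n) := by
    intro j n
    have := Set.ext_iff.mp (hYj j) n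
    simp only [Y, Set.mem_ofPred_eq] at this
    rw [pow_add, pow_mul, ← hK, ← hL] at this
    exact this
  have hG3 : ∀ r a, G (r + a) ≤ g ^ a * G r := by
    intro r a
    induction a with
    | zero => simp
    | succ a ih =>
      have := hG1 (r + a)
      rw [← add_assoc, pow_succ]
      calc G (r + a + 1) ≤ g * G (r + a) := this
        _ ≤ g * (g ^ a * G r) := Nat.mul_le_mul_left _ ih
        _ = g ^ a * g * G r := by ring
  obtain ⟨W, hW⟩ : ∃ W, W = c * K := ⟨_, rfl⟩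
  obtain ⟨C, hC⟩ : ∃ C, C = L * ((g + 1) ^ W * K) + G 0 * g ^ W + ((g + 1) ^ W * K) * G 0 + ((g + 1) ^ W * K) +
    L + 1 := ⟨_, rfl⟩
  have hLr : ∀ r, g * C ≤ r → L ≤ (g + 1) ^ r := by
    intro r hr
    have h1 := big2 g C r hg hr
    have h2 : C ≤ C * g ^ r := Nat.le_mul_of_pos_right _ (by positivity)
    omega
  set t : ℕ → ℕ := fun r => Nat.log K ((g + 1) ^ r / L) with ht
  have ht1 : ∀ r, g * C ≤ r → L * K ^ t r ≤ (g + 1) ^ r := by
    intro r hr
    have h1 : K ^ t r ≤ (g + 1) ^ r / L :=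
      Nat.pow_log_le_self K (Nat.div_pos (hLr r hr) hL1).ne'
    rw [Nat.le_div_iff_mul_le hL1] at h1
    rwa [mul_comm]
  have ht2 : ∀ r, (g + 1) ^ r < L * K ^ (t r + 1) := by
    intro r
    have h1 : (g + 1) ^ r / L < K ^ (t r + 1) := Nat.lt_pow_succ_log_self hK2 _
    rw [Nat.div_lt_iff_lt_mul hL1] at h1
    rwa [mul_comm]
  have hmin : ∀ r, g * C ≤ r → ∀ x ∈ D, x / (L * K ^ t r) = e r / (L * K ^ t r) → e r ≤ x := by
    intro r hr x hx h
    by_contra hlt
    push Not at hlt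
    have hQ : 0 < L * K ^ t r := by positivity
    have h1 := Nat.lt_mul_div_succ (e r) hQ
    have h2 := Nat.mul_div_le x (L * K ^ t r)
    have h3 := ht1 r hr
    rw [← h, mul_add, mul_one] at h1
    exact hgap r x (by omega) hlt hx
  have hu : ∀ r, e r / (L * K ^ t r) < W := by
    intro r
    have hQ : 0 < L * K ^ t r := by positivity
    rw [Nat.div_lt_iff_lt_mul hQ, hW]
    have h1 := ht2 r
    have h2 := heG r
    have h3 : c * K * (L * K ^ t r) = c * (L * K ^ (t r + 1)) := by ring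
    have h4 : c * (g + 1) ^ r ≤ c * (L * K ^ (t r + 1)) := Nat.mul_le_mul_left _ h1.le
    omega
  have key : ∀ r a, g * C ≤ r → 1 ≤ a → a ≤ W →
      e r / (L * K ^ t r) = e (r + a) / (L * K ^ t (r + a)) → False := by
    intro r a hr ha haW hu
    have hr' : g * C ≤ r + a := by omega
    have htt : t r ≤ t (r + a) := by
      have h1 := ht1 r hr
      have h2 := ht2 (r + a)
      have h3 : (g + 1) ^ r ≤ (g + 1) ^ (r + a) := Nat.pow_le_pow_right (by omega) (by omega)
      have h4 : L * K ^ t r < L * K ^ (t (r + a) + 1) := by omega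
      have h5 := Nat.lt_of_mul_lt_mul_left h4
      have := (Nat.pow_lt_pow_iff_right hK2).mp h5
      omega
    obtain ⟨b, hb⟩ := Nat.exists_eq_add_of_le htt
    have hB : K ^ b ≤ (g + 1) ^ W * K := by
      have h1 := ht1 (r + a) hr'
      have h2 := ht2 r
      have h3 : (g + 1) ^ a ≤ (g + 1) ^ W := Nat.pow_le_pow_right (by omega) haW
      have hQ : 0 < L * K ^ t r := by positivity
      have h4 : (L * K ^ t r) * K ^ b ≤ (L * K ^ t r) * ((g + 1) ^ W * K) := by
        calc (L * K ^ t r) * K ^ b = L * K ^ t (r + a) := by rw [hb]; ring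
          _ ≤ (g + 1) ^ (r + a) := h1
          _ = (g + 1) ^ r * (g + 1) ^ a := pow_add _ _ _
          _ ≤ (L * K ^ (t r + 1)) * (g + 1) ^ W := Nat.mul_le_mul h2.le h3
          _ = (L * K ^ t r) * ((g + 1) ^ W * K) := by ring
      exact Nat.le_of_mul_le_mul_left h4 hQ
    have dd : ∀ x, x / (L * K ^ t r) = x / L / K ^ t r := fun x => by
      rw [Nat.div_div_eq_div_mul]
    have dd' : ∀ x, x / (L * K ^ t (r + a)) = x / (L * K ^ b) / K ^ t r := fun x => by
      rw [Nat.div_div_eq_div_mul, hb]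
      congr 1
      ring
    have hz : e (r + a) / (L * K ^ b) = e r / L := by
      apply le_antisymm
      · obtain ⟨w, hw, hw'⟩ := (hiff b (e r / L)).mpr ⟨e r, he r, rfl⟩
        have := hmin (r + a) hr' w hw (by rw [← hu, dd', hw', dd])
        rw [← hw']
        exact Nat.div_le_div_right this
      · obtain ⟨w, hw, hw'⟩ := (hiff b (e (r + a) / (L * K ^ b))).mp ⟨e (r + a), he _, rfl⟩
        have := hmin r hr w hw (by rw [hu, dd', ← hw', dd])
        rw [← hw']
        exact Nat.div_le_div_right this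
    have hQ : 0 < L * K ^ b := by positivity
    have b1 := Nat.lt_mul_div_succ (e (r + a)) hQ
    have b2 := Nat.mul_div_le (e (r + a)) (L * K ^ b)
    have b3 := Nat.lt_mul_div_succ (e r) hL1
    have b4 := Nat.mul_div_le (e r) L
    rw [hz] at b1 b2
    have hBpos : 0 < K ^ b := by positivity
    refine arith2 L (K ^ b) ((g + 1) ^ a) (c * (g + 1) ^ r) (e r) (e (r + a)) (G r) (G (r + a)) ((g + 1) ^ W * K) (G 0)
      (g ^ r) (g ^ W) (g ^ a) r (heG r) (by rw [heG, pow_add]; ring) ?_ ?_ hB ?_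
      (hG3 r a) (Nat.pow_le_pow_right (by omega) haW)
      (Nat.pow_lt_pow_left (by omega) (by omega)) (Nat.one_le_pow _ _ (by omega)) (hG2 r)
      (by rw [← hC]; exact lt_of_lt_of_le (big2 g C r hg hr) (Nat.le_mul_of_pos_left _ hc))
      (by rw [← hC]; exact le_trans (Nat.le_mul_of_pos_left _ hg) hr)
    · have c1 : K ^ b * (L * (e r / L)) ≤ K ^ b * e r := Nat.mul_le_mul_left _ b4
      have c2 : L * K ^ b * (e r / L + 1) = K ^ b * (L * (e r / L)) + L * K ^ b := by ring
      omega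
    · have c1 : K ^ b * e r < K ^ b * (L * (e r / L + 1)) := Nat.mul_lt_mul_of_pos_left b3 hBpos
      have c2 : K ^ b * (L * (e r / L + 1)) = L * K ^ b * (e r / L) + L * K ^ b := by ring
      omega
    · have := hG3 0 r
      rw [zero_add, mul_comm] at this
      exact this
  obtain ⟨x, hx, y, hy, hxy, h⟩ := Finset.exists_ne_map_eq_of_card_lt_of_maps_to
    (s := Finset.range (W + 1)) (t := Finset.range W) (by simp)
    (f := fun i => e (g * C + i) / (L * K ^ t (g * C + i)))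
    (fun i _ => by simpa using hu (g * C + i))
  have hx' := Finset.mem_range.mp hx
  have hy' := Finset.mem_range.mp hy
  rcases lt_or_gt_of_ne hxy with hlt | hlt
  · refine key (g * C + x) (y - x) (by omega) (by omega) (by omega) ?_
    rw [show g * C + x + (y - x) = g * C + y by omega]
    exact h
  · refine key (g * C + y) (x - y) (by omega) (by omega) (by omega) ?_
    rw [show g * C + y + (x - y) = g * C + x by omega]
    exact h.symm

end H31.KReg
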