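import Mathlib

set_option autoImplicit false

namespace Pool.Agent.H31.Lac

open Finset

/-- `m` is bad for the multiplier `q` at level `t`. -/
def bad (q t m : ℕ) : Prop := (q * (m + 2)) % 4 ^ t < 3 * q

lemma bad_count (q s j A : ℕ) (hq : q < 4 ^ s) (F : Finset ℕ)
    (hF : ∀ m ∈ F, m / 4 ^ j = A ∧ bad q (s + j) m) : F.card ≤ 8 := by
  rcases Nat.eq_zero_or_pos q with rfl | hq0
  · have : F = ∅ := by
      rw [Finset.eq_empty_iff_forall_notMem]
      intro m hm
      have := (hF m hm).2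
      simp [bad] at this
    simp [this]
  set L := 4 ^ j with hL
  set T := 4 ^ (s + j) with hT
  have hL0 : 0 < L := by positivity
  have hT0 : 0 < T := by positivity
  have hqL : q * L ≤ T := by
    rw [hT, pow_add]
    exact Nat.mul_le_mul_right _ hq.le
  set r0 := q * (A * L + 2) / T with hr0
  have key : ∀ m ∈ F, ∀ r, q * (m + 2) / T = r → m + 2 ∈ Ico (r * T / q) (r * T / q + 4) := by
    intro m hm r hr
    have hb : (q * (m + 2)) % T < 3 * q := (hF m hm).2
    have h1 := Nat.div_add_mod (q * (m + 2)) T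
    rw [hr] at h1
    have h2 := Nat.div_add_mod (r * T) q
    have h3 := Nat.mod_lt (r * T) hq0
    rw [mem_Ico]
    constructor
    · apply Nat.div_le_of_le_mul
      calc r * T = T * r := mul_comm _ _
        _ ≤ _ := Nat.le.intro h1
    · by_contra hc
      push Not at hc
      have := Nat.mul_le_mul_left q hc
      nlinarith
  have hsub : F.image (· + 2) ⊆ Ico (r0 * T / q) (r0 * T / q + 4) ∪
      Ico ((r0 + 1) * T / q) ((r0 + 1) * T / q + 4) := by
    intro x hx
    obtain ⟨m, hm, rfl⟩ := mem_image.1 hx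
    have h1 := Nat.div_add_mod m L
    have h2 := Nat.mod_lt m hL0
    rw [(hF m hm).1] at h1
    have h3 : r0 ≤ q * (m + 2) / T := by
      apply Nat.div_le_div_right
      apply Nat.mul_le_mul_left
      have : A * L ≤ m := (mul_comm A L).trans_le (Nat.le.intro h1)
      omega
    have h4 : q * (m + 2) / T ≤ r0 + 1 := by
      rw [hr0, ← Nat.add_div_right _ hT0]
      apply Nat.div_le_div_right
      nlinarith
    rw [mem_union]
    rcases h3.eq_or_lt with h | h
    · exact Or.inl (key m hm r0 h.symm)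
    · exact Or.inr (key m hm (r0 + 1) (by omega))
  have h5 := card_le_card hsub
  rw [card_image_of_injective _ (add_left_injective 2)] at h5
  have h6 := card_union_le (Ico (r0 * T / q) (r0 * T / q + 4))
    (Ico ((r0 + 1) * T / q) ((r0 + 1) * T / q + 4))
  simp only [Nat.card_Ico] at h6
  omega

lemma good_real (q t m : ℕ) (hg : ¬ bad q t m) (θ : ℝ) (h1 : (m : ℝ) ≤ θ * 4 ^ t)
    (h2 : θ * 4 ^ t ≤ m + 1) (r : ℤ) : (q : ℝ) / 4 ^ t ≤ |q * θ - r| := by
  unfold bad at hg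
  push Not at hg
  have hT0 : 0 < 4 ^ t := by positivity
  have h3 := Nat.div_add_mod (q * (m + 2)) (4 ^ t)
  have h4 := Nat.mod_lt (q * (m + 2)) hT0
  set u := q * (m + 2) % 4 ^ t
  set v := q * (m + 2) / 4 ^ t
  have h3' : (4 : ℝ) ^ t * v + u = q * (m + 2) := by exact_mod_cast h3
  have h4' : (u : ℝ) < 4 ^ t := by exact_mod_cast h4
  have hg' : 3 * (q : ℝ) ≤ u := by exact_mod_cast hg
  have hT : (0 : ℝ) < 4 ^ t := by positivity
  have hq : (0 : ℝ) ≤ q := by positivity
  rw [div_le_iff₀ hT]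
  have e1 := mul_le_mul_of_nonneg_left h1 hq
  have e2 := mul_le_mul_of_nonneg_left h2 hq
  rcases le_or_gt r v with h | h
  · have h' : (r : ℝ) ≤ v := by exact_mod_cast h
    have := le_abs_self (q * θ - r)
    nlinarith
  · have h' : (v : ℝ) + 1 ≤ r := by exact_mod_cast h
    have := neg_abs_le (q * θ - r)
    nlinarith

lemma lac_count {D : Set ℕ} {δ : ℝ} (hδ : 0 < δ)
    (hD : ∀ a ∈ D, ∀ b ∈ D, a < b → (1 + δ) * (a : ℝ) < (b : ℝ)) (p s : ℕ) (hp : 0 < p)
    (F : Finset ℕ) (hF : ∀ d ∈ F, d ∈ D ∧ 4 ^ s ≤ 4 * (p * d) ∧ p * d < 4 ^ s) :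
    F.card ≤ ⌊4 / δ⌋₊ + 1 := by
  have hp' : (0 : ℝ) < p := by exact_mod_cast hp
  set x : ℝ := 4 ^ s / (4 * p) with hx
  have hx0 : 0 < x := by positivity
  have hlo : ∀ d ∈ F, x ≤ d := by
    intro d hd
    have : ((4 : ℝ)) ^ s ≤ 4 * (p * d) := by exact_mod_cast (hF d hd).2.1
    rw [hx, div_le_iff₀ (by positivity)]
    linarith
  have hhi : ∀ d ∈ F, (d : ℝ) ≤ 4 * x := by
    intro d hd
    have : (p * d : ℝ) < 4 ^ s := by exact_mod_cast (hF d hd).2.2
    have e : 4 * x = 4 ^ s / p := by rw [hx]; field_simp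
    rw [e, le_div_iff₀ hp']
    linarith
  have hlt : ∀ a ∈ F, ∀ b ∈ F, a < b → ⌊(a : ℝ) / (δ * x)⌋₊ < ⌊(b : ℝ) / (δ * x)⌋₊ := by
    intro a ha b hb hab
    have h1 := hD a (hF a ha).1 b (hF b hb).1 hab
    have h2 : (a : ℝ) / (δ * x) + 1 ≤ b / (δ * x) := by
      rw [div_add_one (by positivity), div_le_div_iff_of_pos_right (by positivity)]
      have := hlo a ha
      nlinarith
    have h3 := Nat.floor_le_floor h2
    rw [Nat.floor_add_one (by positivity)] at h3
    omega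
  rw [← card_range (⌊4 / δ⌋₊ + 1)]
  apply card_le_card_of_injOn (fun d : ℕ => ⌊(d : ℝ) / (δ * x)⌋₊)
  · intro d hd
    simp only [coe_range, Set.mem_Iio, Nat.lt_succ_iff]
    apply Nat.floor_le_floor
    rw [div_le_div_iff₀ (by positivity) hδ]
    have := hhi d hd
    nlinarith
  · intro a ha b hb hab
    rcases lt_trichotomy a b with h | h | h
    · exact absurd hab (hlt a ha b hb h).ne
    · exact h
    · exact absurd hab (hlt b hb a ha h).ne'

lemma geo (n : ℕ) : ∑ k ∈ range n, (2 / 3 : ℝ) ^ k ≤ 3 := by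
  have h : ∑ k ∈ range n, (2 / 3 : ℝ) ^ k = 3 - 3 * (2 / 3) ^ n := by
    induction n with
    | zero => simp
    | succ n ih => rw [sum_range_succ, ih]; ring
  rw [h]
  have : (0 : ℝ) ≤ (2 / 3) ^ n := by positivity
  linarith

/-- level of the constraint attached to `(p, d)` -/
def lev (j p d : ℕ) : ℕ := (Nat.log 4 (p * d) + 1) + (j + Nat.log 2 p)

open Classical in
/-- surviving intervals at level `l` -/
noncomputable def S (D : Set ℕ) (j l : ℕ) : Finset ℕ :=
  (range (4 ^ l)).filter fun m => ∀ p, 0 < p → ∀ d ∈ D, lev j p d ≤ l →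
    ¬ bad (p * d) (lev j p d) (m / 4 ^ (l - lev j p d))

lemma mem_S {D : Set ℕ} {j l m : ℕ} : m ∈ S D j l ↔ m < 4 ^ l ∧ ∀ p, 0 < p → ∀ d ∈ D, lev j p d ≤ l →
    ¬ bad (p * d) (lev j p d) (m / 4 ^ (l - lev j p d)) := by
  simp only [S, mem_filter, mem_range]

lemma anc {D : Set ℕ} {j l m s : ℕ} (hm : m ∈ S D j l) (hs : s ≤ l) : m / 4 ^ (l - s) ∈ S D j s := by
  rw [mem_S] at hm ⊢
  constructor
  · apply Nat.div_lt_of_lt_mul
    rw [← pow_add, Nat.sub_add_cancel hs]
    exact hm.1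
  · intro p hp d hd hl
    rw [Nat.div_div_eq_div_mul, ← pow_add]
    have e : l - s + (s - lev j p d) = l - lev j p d := by omega
    rw [e]
    exact hm.2 p hp d hd (hl.trans hs)

lemma step {D : Set ℕ} {δ : ℝ} (hδ : 0 < δ) (hD0 : ∀ d ∈ D, 0 < d)
    (hD : ∀ a ∈ D, ∀ b ∈ D, a < b → (1 + δ) * (a : ℝ) < (b : ℝ)) (j : ℕ)
    (hj : 24 * (⌊4 / δ⌋₊ + 1) ≤ 3 ^ j) (l : ℕ)
    (ih : ∀ i, i < l → 3 * (S D (j + 1) i).card ≤ (S D (j + 1) (i + 1)).card) :
    3 * (S D (j + 1) l).card ≤ (S D (j + 1) (l + 1)).card := by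
  classical
  set C := ⌊4 / δ⌋₊ + 1 with hC
  have hgrow : ∀ e s, s + e ≤ l → 3 ^ e * (S D (j + 1) s).card ≤ (S D (j + 1) (s + e)).card := by
    intro e
    induction e with
    | zero => intro s _; simp
    | succ e ihe =>
      intro s hs
      have h1 := ihe s (by omega)
      have h2 := ih (s + e) (by omega)
      calc 3 ^ (e + 1) * (S D (j + 1) s).card = 3 * (3 ^ e * (S D (j + 1) s).card) := by ring
        _ ≤ 3 * (S D (j + 1) (s + e)).card := Nat.mul_le_mul_left _ h1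
        _ ≤ _ := h2
  let E : Finset ℕ := ((S D (j + 1) l) ×ˢ range 4).image fun x => 4 * x.1 + x.2
  have hE : E.card = 4 * (S D (j + 1) l).card := by
    rw [card_image_of_injOn, card_product, card_range, mul_comm]
    rintro ⟨a, b⟩ hab ⟨c, d⟩ hcd h
    simp only [coe_product, Set.mem_prod, mem_coe, mem_range] at hab hcd
    simp only [Prod.mk.injEq] at h ⊢
    omega
  have hEm : ∀ m ∈ E, m / 4 ∈ S D (j + 1) l := by
    intro m hm
    obtain ⟨⟨a, b⟩, hab, rfl⟩ := mem_image.1 hm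
    simp only [mem_product, mem_range] at hab
    have : (4 * a + b) / 4 = a := by omega
    simp only [this]
    exact hab.1
  let Dd : ℕ → Finset ℕ := fun p =>
    (range (4 ^ (l + 1))).filter fun d => d ∈ D ∧ lev (j + 1) p d = l + 1
  let B : ℕ → ℕ → Finset ℕ := fun p d => E.filter fun m => bad (p * d) (l + 1) m
  let U : Finset ℕ := (range (l + 1)).biUnion fun k => (Ico (2 ^ k) (2 ^ (k + 1))).biUnion fun p =>
    (Dd p).biUnion fun d => B p d
  have hcover : E ⊆ S D (j + 1) (l + 1) ∪ U := by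
    intro m hm
    rw [mem_union]
    by_contra hc
    push Not at hc
    apply hc.1
    have h4 := hEm m hm
    rw [mem_S] at h4 ⊢
    refine ⟨by rw [pow_succ]; omega, fun p hp d hd hl => ?_⟩
    rcases hl.eq_or_lt with h | h
    · intro hb
      rw [h, Nat.sub_self, pow_zero, Nat.div_one] at hb
      apply hc.2
      simp only [U, mem_biUnion, mem_range, mem_Ico]
      refine ⟨Nat.log 2 p, by unfold lev at h; omega, p,
        ⟨Nat.pow_log_le_self 2 hp.ne', Nat.lt_pow_succ_log_self (by norm_num) p⟩, d, ?_, ?_⟩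
      · simp only [Dd, mem_filter, mem_range]
        refine ⟨?_, hd, h⟩
        have h1 : p * d < 4 ^ (Nat.log 4 (p * d) + 1) := Nat.lt_pow_succ_log_self (by norm_num) _
        have h2 : 4 ^ (Nat.log 4 (p * d) + 1) ≤ 4 ^ (l + 1) :=
          Nat.pow_le_pow_right (by norm_num) (by unfold lev at h; omega)
        have h3 : d ≤ p * d := Nat.le_mul_of_pos_left d hp
        omega
      · simp only [B, mem_filter]
        exact ⟨hm, hb⟩
    · have h5 := h4.2 p hp d hd (by omega)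
      rw [Nat.div_div_eq_div_mul, ← pow_succ'] at h5
      have e : l + 1 - lev (j + 1) p d = l - lev (j + 1) p d + 1 := by omega
      rw [e]
      exact h5
  have hB : ∀ k p, p ∈ Ico (2 ^ k) (2 ^ (k + 1)) → ∀ d ∈ Dd p,
      3 ^ (j + k) * (B p d).card ≤ 8 * (S D (j + 1) l).card := by
    intro k p hp d hd
    rw [mem_Ico] at hp
    have hk : Nat.log 2 p = k := Nat.log_eq_of_pow_le_of_lt_pow hp.1 hp.2
    simp only [Dd, mem_filter] at hd
    obtain ⟨-, -, hl⟩ := hd
    unfold lev at hl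
    rw [hk] at hl
    set s := Nat.log 4 (p * d) + 1 with hs
    have hq : p * d < 4 ^ s := Nat.lt_pow_succ_log_self (by norm_num) _
    have h1 : (B p d).card ≤ 8 * (S D (j + 1) s).card := by
      apply card_le_mul_card_image_of_maps_to (f := fun m => m / 4 ^ (j + 1 + k))
      · intro m hm
        simp only [B, mem_filter] at hm
        have h2 := anc (hEm m hm.1) (show s ≤ l by omega)
        rw [Nat.div_div_eq_div_mul, ← pow_succ'] at h2
        have e : j + 1 + k = l - s + 1 := by omega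
        rw [e]
        exact h2
      · intro A _
        apply bad_count (p * d) s (j + 1 + k) A hq
        intro m hm
        simp only [B, mem_filter] at hm
        refine ⟨hm.2, ?_⟩
        rw [hl]
        exact hm.1.2
    have h2 := hgrow (j + k) s (by omega)
    have e : s + (j + k) = l := by omega
    rw [e] at h2
    calc 3 ^ (j + k) * (B p d).card ≤ 3 ^ (j + k) * (8 * (S D (j + 1) s).card) :=
          Nat.mul_le_mul_left _ h1
      _ = 8 * (3 ^ (j + k) * (S D (j + 1) s).card) := by ring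
      _ ≤ _ := Nat.mul_le_mul_left _ h2
  have hDd : ∀ p, 0 < p → (Dd p).card ≤ C := by
    intro p hp
    apply lac_count hδ hD p (l + 1 - (j + 1 + Nat.log 2 p)) hp
    intro d hd
    simp only [Dd, mem_filter] at hd
    obtain ⟨-, hdD, hl⟩ := hd
    unfold lev at hl
    have e : l + 1 - (j + 1 + Nat.log 2 p) = Nat.log 4 (p * d) + 1 := by omega
    rw [e]
    refine ⟨hdD, ?_, Nat.lt_pow_succ_log_self (by norm_num) _⟩
    rw [pow_succ']
    exact Nat.mul_le_mul_left _ (Nat.pow_log_le_self 4 (Nat.mul_pos hp (hD0 d hdD)).ne')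
  set n := (S D (j + 1) l).card with hn
  have hk : ∀ k, (((Ico (2 ^ k) (2 ^ (k + 1))).biUnion fun p =>
      (Dd p).biUnion fun d => B p d).card : ℝ) ≤ (2 / 3) ^ k * (n / 3) := by
    intro k
    have h1 : 3 ^ (j + k) * ((Ico (2 ^ k) (2 ^ (k + 1))).biUnion fun p =>
        (Dd p).biUnion fun d => B p d).card ≤ 2 ^ k * (C * (8 * n)) := by
      calc _ ≤ 3 ^ (j + k) * ∑ p ∈ Ico (2 ^ k) (2 ^ (k + 1)), ∑ d ∈ Dd p, (B p d).card :=
            Nat.mul_le_mul_left _ (card_biUnion_le.trans (sum_le_sum fun p _ => card_biUnion_le))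
        _ = ∑ p ∈ Ico (2 ^ k) (2 ^ (k + 1)), ∑ d ∈ Dd p, 3 ^ (j + k) * (B p d).card := by
            simp only [mul_sum]
        _ ≤ ∑ p ∈ Ico (2 ^ k) (2 ^ (k + 1)), C * (8 * n) := by
            refine sum_le_sum fun p hp => ?_
            have hp0 : 0 < p := lt_of_lt_of_le (by positivity) (mem_Ico.1 hp).1
            calc _ ≤ (Dd p).card • (8 * n) := sum_le_card_nsmul _ _ _ (hB k p hp)
              _ ≤ _ := Nat.mul_le_mul_right _ (hDd p hp0)
        _ = _ := by
            rw [sum_const, Nat.card_Ico, smul_eq_mul, pow_succ]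
            congr 1
            omega
    have h2 : ((3 : ℝ)) ^ (j + k) * (((Ico (2 ^ k) (2 ^ (k + 1))).biUnion fun p =>
        (Dd p).biUnion fun d => B p d).card : ℝ) ≤ 2 ^ k * (C * (8 * n)) := by exact_mod_cast h1
    have h3 : 24 * (C : ℝ) ≤ 3 ^ j := by exact_mod_cast hj
    have h4 : (2 : ℝ) ^ k * (C * (8 * n)) ≤ 3 ^ (j + k) * ((2 / 3) ^ k * (n / 3)) := by
      have e : (3 : ℝ) ^ (j + k) * ((2 / 3) ^ k * (n / 3)) = 2 ^ k * (3 ^ j * (n / 3)) := by
        rw [pow_add, div_pow]; field_simp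
      rw [e]
      apply mul_le_mul_of_nonneg_left _ (by positivity)
      have : (0 : ℝ) ≤ n := by positivity
      nlinarith
    exact le_of_mul_le_mul_left (h2.trans h4) (by positivity)
  have hU : U.card ≤ n := by
    have h1 : (U.card : ℝ) ≤ ∑ k ∈ range (l + 1), (2 / 3 : ℝ) ^ k * ((n : ℝ) / 3) := by
      refine le_trans ?_ (sum_le_sum fun k _ => hk k)
      exact_mod_cast card_biUnion_le
    rw [← sum_mul] at h1
    have h2 := geo (l + 1)
    have h3 : (0 : ℝ) ≤ n := by positivity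
    have : (U.card : ℝ) ≤ n := by nlinarith
    exact_mod_cast this
  have h7 := (card_le_card hcover).trans (card_union_le _ _)
  omega

lemma exists_theta {D : Set ℕ} {δ : ℝ} (hδ : 0 < δ) (hD0 : ∀ d ∈ D, 0 < d)
    (hD : ∀ a ∈ D, ∀ b ∈ D, a < b → (1 + δ) * (a : ℝ) < (b : ℝ)) :
    ∃ θ ε : ℝ, 0 < ε ∧ ∀ p : ℕ, 0 < p → ∀ d ∈ D, ∀ r : ℤ, ε ≤ (p : ℝ) ^ 2 * |p * d * θ - r| := by
  obtain ⟨j, hj⟩ : ∃ j, 24 * (⌊4 / δ⌋₊ + 1) ≤ 3 ^ j := ⟨_, (Nat.lt_pow_self (by norm_num)).le⟩
  have hall : ∀ l, 3 * (S D (j + 1) l).card ≤ (S D (j + 1) (l + 1)).card := fun l =>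
    Nat.strong_induction_on l fun l ih => step hδ hD0 hD j hj l ih
  have hpos : ∀ l, 0 < (S D (j + 1) l).card := by
    intro l
    induction l with
    | zero =>
      refine card_pos.2 ⟨0, mem_S.2 ⟨by simp, fun p _ d _ h => ?_⟩⟩
      unfold lev at h
      omega
    | succ l ih => have := hall l; omega
  choose m hm using fun l => card_pos.1 (hpos l)
  let x : ℕ → ℝ := fun l => m l / 4 ^ l
  have hx : ∀ l, x l ∈ Set.Icc (0 : ℝ) 1 := by
    intro l
    have h1 : (m l : ℝ) < 4 ^ l := by exact_mod_cast (mem_S.1 (hm l)).1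
    exact ⟨by positivity, (div_le_one (by positivity)).2 h1.le⟩
  obtain ⟨θ, -, φ, hφ, hlim⟩ := isCompact_Icc.tendsto_subseq hx
  refine ⟨θ, 1 / 4 ^ (j + 2), by positivity, fun p hp d hd r => ?_⟩
  set t := lev (j + 1) p d with ht
  have h1 : ((p * d : ℕ) : ℝ) / 4 ^ t ≤ |((p * d : ℕ) : ℝ) * θ - r| := by
    have hl2 : Filter.Tendsto (fun n => |((p * d : ℕ) : ℝ) * (x ∘ φ) n - r|) Filter.atTop
        (nhds |((p * d : ℕ) : ℝ) * θ - r|) := ((hlim.const_mul _).sub_const _).abs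
    refine ge_of_tendsto hl2 (Filter.eventually_atTop.2 ⟨t, fun n hn => ?_⟩)
    have htl : t ≤ φ n := hn.trans (hφ.id_le n)
    set l := φ n
    have hg := (mem_S.1 (hm l)).2 p hp d hd htl
    rw [← ht] at hg
    have e : (4 : ℝ) ^ l = 4 ^ (l - t) * 4 ^ t := by rw [← pow_add, Nat.sub_add_cancel htl]
    have e2 : x l * 4 ^ t = m l / 4 ^ (l - t) := by
      simp only [x]
      rw [e]; field_simp
    have h3 := Nat.div_add_mod (m l) (4 ^ (l - t))
    have h4 := Nat.mod_lt (m l) (show 0 < 4 ^ (l - t) by positivity)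
    have h3' : (4 : ℝ) ^ (l - t) * (m l / 4 ^ (l - t) : ℕ) + (m l % 4 ^ (l - t) : ℕ) = m l := by
      exact_mod_cast h3
    have h4' : ((m l % 4 ^ (l - t) : ℕ) : ℝ) < 4 ^ (l - t) := by exact_mod_cast h4
    have h5 : (0 : ℝ) ≤ (m l % 4 ^ (l - t) : ℕ) := by positivity
    apply good_real _ _ _ hg
    · show _ ≤ x l * 4 ^ t
      rw [e2, le_div_iff₀ (by positivity)]
      linarith
    · show x l * 4 ^ t ≤ _
      rw [e2, div_le_iff₀ (by positivity)]
      linarith
  have h2 : ((4 : ℝ)) ^ Nat.log 4 (p * d) ≤ ((p * d : ℕ) : ℝ) := by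
    exact_mod_cast Nat.pow_log_le_self 4 (Nat.mul_pos hp (hD0 d hd)).ne'
  have h3 : ((2 : ℝ)) ^ Nat.log 2 p ≤ p := by exact_mod_cast Nat.pow_log_le_self 2 hp.ne'
  have h4 : ((4 : ℝ)) ^ Nat.log 2 p ≤ (p : ℝ) ^ 2 := by
    have : ((4 : ℝ)) ^ Nat.log 2 p = (2 ^ Nat.log 2 p) ^ 2 := by
      rw [← pow_mul, mul_comm, pow_mul]; norm_num
    rw [this]
    exact pow_le_pow_left₀ (by positivity) h3 2
  have h5 : (1 : ℝ) / 4 ^ (j + 2) ≤ (p : ℝ) ^ 2 * (((p * d : ℕ) : ℝ) / 4 ^ t) := by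
    have e : (4 : ℝ) ^ t = 4 ^ Nat.log 4 (p * d) * 4 ^ Nat.log 2 p * 4 ^ (j + 2) := by
      rw [ht]; unfold lev; ring
    rw [← mul_div_assoc, div_le_div_iff₀ (by positivity) (by positivity), e, one_mul]
    apply mul_le_mul_of_nonneg_right _ (by positivity)
    rw [mul_comm]
    exact mul_le_mul h4 h2 (by positivity) (by positivity)
  push_cast at h1 h5
  exact h5.trans (mul_le_mul_of_nonneg_left h1 (by positivity))

end Pool.Agent.H31.Lac
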