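import Mathlib
import Pool.Agent.H31.Ach

namespace Pool.Agent.H31.Levy
open Filter Topology Finset

lemma G (z c C : ℕ → ℝ) (κ : ℝ) (hκ : 0 < κ) (hc : ∀ j : ℕ, κ * (1 / ((j:ℝ)+1)) ≤ c j)
    (hC : Tendsto C atTop (𝓝 0)) (hz : ∀ j, |z (j+1)| ≤ |z j| - c j ∨ |z (j+1)| ≤ C j) :
    Tendsto z atTop (𝓝 0) := by
  rw [Metric.tendsto_atTop] at hC ⊢
  intro δ hδ
  obtain ⟨N0, hN0⟩ := hC (δ/2) (by linarith)
  have hb : ∀ n, N0 ≤ n → C n < δ/2 := fun n hn => by
    have := hN0 n hn; rw [Real.dist_eq, sub_zero] at this; exact (abs_lt.1 this).2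
  have h1 : ∃ N, N0 ≤ N ∧ |z N| ≤ δ / 2 := by
    by_contra hc'
    push Not at hc'
    refine Ach.L0 (fun j => 1 / ((j:ℝ)+1)) (fun n => |z n|) κ hκ N0
      Real.tendsto_sum_range_one_div_nat_succ_atTop (fun n _ => abs_nonneg _) (fun n hn => ?_)
    have a1 := hc' (n+1) (by omega); have a2 := hb n hn; have a3 := hc n
    show |z (n+1)| ≤ |z n| - κ * (1 / ((n:ℝ)+1))
    rcases hz n with a | a <;> linarith
  obtain ⟨N, hN, hN2⟩ := h1
  refine ⟨N, fun n hn => ?_⟩
  rw [Real.dist_eq, sub_zero]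
  have : |z n| ≤ δ / 2 := by
    induction n, hn using Nat.le_induction with
    | base => exact hN2
    | succ n hn ih =>
      have a2 := hb n (by omega); have a3 := hc n
      have a4 : 0 < κ * (1 / ((n:ℝ)+1)) := by positivity
      rcases hz n with a | a <;> linarith
  linarith

noncomputable def a (k : ℕ) : ℝ := 1 / 4 ^ (k * k)
noncomputable def b (k : ℕ) : ℝ := 1 / 2 ^ k
def kk (j : ℕ) : ℕ := Nat.sqrt (Nat.log 4 (j + 1))
def lev (n : ℕ) : ℕ := if n % 8 = 0 ∨ n % 8 = 3 then kk (n / 8) else kk (n / 8) + 1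
noncomputable def sg (n : ℕ) : ℝ := if n % 8 = 0 ∨ n % 8 = 4 ∨ n % 8 = 5 ∨ n % 8 = 6 then 1 else -1

lemma a_pos (k : ℕ) : 0 < a k := by unfold a; positivity
lemma b_pos (k : ℕ) : 0 < b k := by unfold b; positivity
lemma b_succ (k : ℕ) : b k = 2 * b (k+1) := by unfold b; rw [pow_succ]; field_simp
lemma a_succ (k : ℕ) : a (k+1) = a k * (b k * b k) ^ 2 / 4 := by
  unfold a b
  rw [show (k+1) * (k+1) = k * k + k + k + 1 by ring, show (4:ℝ) = 2 * 2 by norm_num]
  simp only [pow_add, mul_pow, pow_one]; field_simp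
lemma b_le (k : ℕ) : b k ≤ 1 := by
  unfold b; rw [div_le_one (by positivity)]; exact one_le_pow₀ (by norm_num)
lemma a_succ_le (k : ℕ) : a (k+1) ≤ a k / 4 := by
  rw [a_succ]
  have h1 := b_le k; have h2 := b_pos k; have h3 := a_pos k
  have : (b k * b k) ^ 2 ≤ 1 := pow_le_one₀ (by positivity) (by nlinarith)
  nlinarith
lemma a_le (k : ℕ) : a k ≤ b k * b k := by
  unfold a b
  rw [div_mul_div_comm, one_mul, ← mul_pow, show (2:ℝ) * 2 = 4 by norm_num]
  exact one_div_le_one_div_of_le (by positivity) (pow_le_pow_right₀ (by norm_num) (Nat.le_mul_self k))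
lemma a_le_b (k : ℕ) : a k ≤ b k := by
  have := a_le k; have := b_le k; have := b_pos k; nlinarith
lemma b_lim : Tendsto b atTop (𝓝 0) := by
  have := tendsto_pow_atTop_nhds_zero_of_lt_one (show (0:ℝ) ≤ 1/2 by norm_num) (by norm_num)
  refine this.congr (fun k => ?_); unfold b; rw [one_div_pow]
lemma a_kk (j : ℕ) : 1 / ((j:ℝ)+1) ≤ a (kk j) := by
  unfold a
  apply one_div_le_one_div_of_le (by positivity)
  have h1 : 4 ^ (kk j * kk j) ≤ j + 1 :=
    (Nat.pow_le_pow_right (by norm_num) (Nat.sqrt_le _)).trans (Nat.pow_log_le_self 4 (by omega))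
  exact_mod_cast h1
lemma kk_ge (K j : ℕ) (h : 4 ^ (K * K) ≤ j) : K ≤ kk j := by
  unfold kk
  rw [Nat.le_sqrt]
  exact Nat.le_log_of_pow_le (by norm_num) (by omega)
lemma kk_top : Tendsto kk atTop atTop :=
  tendsto_atTop_atTop.2 (fun K => ⟨4 ^ (K * K), fun j hj => kk_ge K j hj⟩)
lemma lev_ge (n : ℕ) : kk (n / 8) ≤ lev n := by unfold lev; split_ifs <;> omega
lemma div_top : Tendsto (fun n : ℕ => n / 8) atTop atTop :=
  tendsto_atTop_atTop.2 (fun K => ⟨8 * K, fun j hj => by omega⟩)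
lemma lev_top : Tendsto lev atTop atTop := tendsto_atTop_mono lev_ge (kk_top.comp div_top)
lemma sg_cases (n : ℕ) : sg n = 1 ∨ sg n = -1 := by unfold sg; split_ifs <;> simp
lemma b_anti {i j : ℕ} (h : i ≤ j) : b j ≤ b i :=
  one_div_le_one_div_of_le (by positivity) (pow_le_pow_right₀ (by norm_num) h)

lemma grp (t : ℕ → ℝ) (p : ℝ) (ht : ∀ n, |t n| ≤ b (lev n))
    (h : Tendsto (fun j => ∑ n ∈ range (8 * j), t n) atTop (𝓝 p)) :
    Tendsto (fun N => ∑ n ∈ range N, t n) atTop (𝓝 p) := by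
  have h1 := h.comp div_top
  have h2 : Tendsto (fun N => ∑ n ∈ range N, t n - ∑ n ∈ range (8 * (N / 8)), t n) atTop (𝓝 0) := by
    have b0 : Tendsto (fun N : ℕ => 8 * b (kk (N / 8))) atTop (𝓝 0) := by
      simpa using ((b_lim.comp kk_top).comp div_top).const_mul 8
    refine squeeze_zero_norm (fun N => ?_) b0
    rw [← sum_Ico_eq_sub _ (by omega), Real.norm_eq_abs]
    refine (abs_sum_le_sum_abs _ _).trans ?_
    have : ∀ n ∈ Ico (8 * (N / 8)) N, |t n| ≤ b (kk (N / 8)) := by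
      intro n hn
      rw [mem_Ico] at hn
      have e : n / 8 = N / 8 := by omega
      exact (ht n).trans (b_anti (e ▸ lev_ge n))
    refine (sum_le_card_nsmul _ _ _ this).trans ?_
    rw [Nat.card_Ico, nsmul_eq_mul]
    have h8 : ((N - 8 * (N / 8) : ℕ) : ℝ) ≤ 8 := by exact_mod_cast (by omega : N - 8 * (N / 8) ≤ 8)
    exact mul_le_mul_of_nonneg_right h8 (b_pos _).le
  simpa using h2.add h1

lemma blk (t : ℕ → ℝ) (j : ℕ) : ∑ n ∈ range (8 * (j+1)), t n = ∑ n ∈ range (8 * j), t n +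
    (t (8*j) + t (8*j+1) + t (8*j+2) + t (8*j+3) + t (8*j+4) + t (8*j+5) + t (8*j+6) + t (8*j+7)) := by
  rw [show 8 * (j+1) = 8 * j + 7 + 1 by ring]
  simp only [sum_range_succ]; ring

noncomputable def sn (z : ℝ) : ℝ := if 0 < z then 1 else -1

noncomputable def st (p q : ℝ) : ℕ → ℝ × ℝ
  | 0 => (p, q)
  | j+1 => ((st p q j).1 - sn (st p q j).1 * (a (kk j) - 2 * a (kk j + 1)) - sn (st p q j).2 * a (kk j + 1),
      (st p q j).2 - sn (st p q j).2 * b (kk j + 1))

noncomputable def ep (p q : ℝ) (n : ℕ) : ℝ :=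
  if n % 8 < 3 then (if 0 < (st p q (n / 8)).1 then 1 else 0)
  else if n % 8 < 6 then (if 0 < (st p q (n / 8)).1 then 0 else 1)
  else if n % 8 = 6 then (if 0 < (st p q (n / 8)).2 then 1 else 0)
  else (if 0 < (st p q (n / 8)).2 then 0 else 1)

lemma ep01 (p q : ℝ) (n : ℕ) : ep p q n = 0 ∨ ep p q n = 1 := by
  unfold ep; split_ifs <;> simp

lemma md (j r : ℕ) (hr : r < 8) : (8 * j + r) % 8 = r ∧ (8 * j + r) / 8 = j := by omega

lemma term_le (e : ℝ) (he : e = 0 ∨ e = 1) (n : ℕ) (c : ℝ) (h0 : 0 < c) (h1 : c ≤ b (lev n)) :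
    |e * (sg n * c)| ≤ b (lev n) := by
  rcases he with h | h <;> rcases sg_cases n with h' | h' <;> rw [h, h'] <;>
    simp [abs_of_pos h0, h1, (b_pos _).le]

theorem full (p q : ℝ) : ∃ ε : ℕ → ℝ, (∀ n, ε n = 0 ∨ ε n = 1) ∧
    Tendsto (fun N => ∑ n ∈ range N, ε n * (sg n * a (lev n))) atTop (𝓝 p) ∧
    Tendsto (fun N => ∑ n ∈ range N, ε n * (sg n * b (lev n))) atTop (𝓝 q) := by
  have bk : Tendsto (fun j => b (kk j)) atTop (𝓝 0) := b_lim.comp kk_top
  have m0 : ∀ j, 8 * j % 8 = 0 ∧ 8 * j / 8 = j := fun j => by omega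
  have hx : Tendsto (fun j => (st p q j).1) atTop (𝓝 0) := by
    refine G _ (fun j => a (kk j) / 4) (fun j => b (kk j)) (1/4) (by norm_num)
      (fun j => by have := a_kk j; linarith) bk (fun j => ?_)
    have h1 := a_succ_le (kk j); have h2 := a_pos (kk j + 1); have h3 := a_le_b (kk j)
    simp only [st, sn]
    rcases abs_cases (st p q j).1 with h | h <;> split_ifs <;> simp only [abs_le] <;>
      by_contra hc <;> push Not at hc <;> obtain ⟨c1, c2⟩ := hc <;>
      (by_cases d1 : -b (kk j) ≤ (st p q (j+1)).1 <;> simp only [st, sn] at d1 <;>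
        simp only [*, if_true, if_false] at d1 <;>
        first | (have := c2 d1; have := c1 (by linarith); linarith) | (have := c1 (by linarith); linarith) | linarith)
  have hy : Tendsto (fun j => (st p q j).2) atTop (𝓝 0) := by
    refine G _ (fun j => b (kk j + 1)) (fun j => b (kk j)) (1/2) (by norm_num)
      (fun j => by have := a_kk j; have := a_le_b (kk j); have := b_succ (kk j); linarith) bk (fun j => ?_)
    have h1 := b_succ (kk j); have h2 := b_pos (kk j + 1)
    simp only [st, sn]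
    by_cases c : |(st p q j).2| ≤ b (kk j + 1)
    · right; rw [abs_le] at c ⊢; split_ifs <;> constructor <;> linarith [c.1, c.2]
    · left; rcases abs_cases (st p q j).2 with h | h <;> rw [abs_le] <;> split_ifs <;>
        constructor <;> linarith [h.1, h.2]
  refine ⟨ep p q, ep01 p q, grp _ _ (fun n => term_le _ (ep01 p q n) n _ (a_pos _) (a_le_b _)) ?_,
    grp _ _ (fun n => term_le _ (ep01 p q n) n _ (b_pos _) le_rfl) ?_⟩
  · have b1 : Tendsto (fun j => p - (st p q j).1) atTop (𝓝 p) := by simpa using hx.const_sub p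
    refine b1.congr (fun j => ?_)
    induction j with
    | zero => simp [st]
    | succ j ih =>
      rw [blk, ← ih]
      simp only [ep, sg, lev, m0, md j 1, md j 2, md j 3, md j 4, md j 5, md j 6, md j 7, st, sn,
        Nat.reduceLT, Nat.reduceEqDiff, Nat.ofNat_pos, Nat.one_lt_ofNat]
      norm_num
      split_ifs <;> ring
  · have b1 : Tendsto (fun j => q - (st p q j).2) atTop (𝓝 q) := by simpa using hy.const_sub q
    refine b1.congr (fun j => ?_)
    induction j with
    | zero => simp [st]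
    | succ j ih =>
      rw [blk, ← ih]
      simp only [ep, sg, lev, m0, md j 1, md j 2, md j 3, md j 4, md j 5, md j 6, md j 7, st, sn,
        Nat.reduceLT, Nat.reduceEqDiff, Nat.ofNat_pos, Nat.one_lt_ofNat]
      norm_num
      rw [b_succ (kk j)]
      split_ifs <;> ring

theorem conv0 (c : ℕ → ℝ) (h0 : ∀ k, 0 < c k) (h1 : ∀ k, c k ≤ b k) :
    Tendsto (fun N => ∑ n ∈ range N, sg n * c (lev n)) atTop (𝓝 0) := by
  have m0 : ∀ j, 8 * j % 8 = 0 ∧ 8 * j / 8 = j := fun j => by omega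
  refine grp _ _ (fun n => by simpa using term_le 1 (Or.inr rfl) n _ (h0 _) (h1 _)) ?_
  refine tendsto_const_nhds.congr (fun j => ?_)
  induction j with
  | zero => simp
  | succ j ih =>
    rw [blk, ← ih]
    simp only [sg, lev, m0, md j 1, md j 2, md j 3, md j 4, md j 5, md j 6, md j 7,
      Nat.reduceLT, Nat.reduceEqDiff, Nat.ofNat_pos, Nat.one_lt_ofNat]
    norm_num
    ring

theorem sorted : ∃ σ : ℕ ≃ ℕ, Monotone (fun n => lev (σ n)) := by
  have bd : ∀ n, n < 8 * 4 ^ ((lev n + 1) * (lev n + 1)) := by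
    intro n
    by_contra hc
    have := kk_ge (lev n + 1) (n / 8) (by omega)
    have := lev_ge n
    omega
  set φ : ℕ → ℕ := fun n => 8 * 4 ^ ((lev n + 1) * (lev n + 1)) + n with hφ
  have hlt : ∀ n m, lev n < lev m → φ n < φ m := by
    intro n m h
    have h1 := bd n
    have h2 : 4 ^ ((lev n + 1) * (lev n + 1) + 1) ≤ 4 ^ ((lev m + 1) * (lev m + 1)) :=
      Nat.pow_le_pow_right (by norm_num) (by nlinarith)
    rw [pow_succ] at h2
    simp only [hφ]; omega
  have inj : Function.Injective φ := by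
    intro n m h
    rcases lt_trichotomy (lev n) (lev m) with c | c | c
    · have := hlt n m c; omega
    · simp only [hφ, c] at h; omega
    · have := hlt m n c; omega
  haveI : Infinite (Set.range φ) := (Set.infinite_range_of_injective inj).to_subtype
  classical
  let e := Nat.Subtype.orderIsoOfNat (Set.range φ)
  refine ⟨e.toEquiv.trans (Equiv.ofInjective φ inj).symm, fun n m h => ?_⟩
  by_contra hc
  have h1 := hlt _ _ (not_le.1 hc)
  simp only [Equiv.trans_apply, Equiv.apply_ofInjective_symm] at h1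
  have h2 : e n ≤ e m := e.monotone h
  exact absurd h1 (not_lt.2 h2)


theorem miss (σ : ℕ ≃ ℕ) (hσ : Monotone (fun n => lev (σ n))) (ε : ℕ → ℝ)
    (h01 : ∀ n, ε n = 0 ∨ ε n = 1) (y : ℝ)
    (hX : Tendsto (fun N => ∑ n ∈ range N, ε n * (sg (σ n) * a (lev (σ n)))) atTop (𝓝 (1/3)))
    (hY : Tendsto (fun N => ∑ n ∈ range N, ε n * (sg (σ n) * b (lev (σ n)))) atTop (𝓝 y)) : False := by
  set X : ℕ → ℝ := fun N => ∑ n ∈ range N, ε n * (sg (σ n) * a (lev (σ n))) with hXd
  set Y : ℕ → ℝ := fun N => ∑ n ∈ range N, ε n * (sg (σ n) * b (lev (σ n))) with hYd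
  have ex : ∀ k, ∃ n, k ≤ lev (σ n) := by
    intro k
    obtain ⟨n, hn⟩ := (lev_top.eventually_ge_atTop k).exists
    exact ⟨σ.symm n, by simpa using hn⟩
  classical
  set T : ℕ → ℕ := fun k => Nat.find (ex k) with hT
  have T1 : ∀ k n, n < T k → lev (σ n) < k := fun k n h => not_le.1 (Nat.find_min (ex k) h)
  have T2 : ∀ k n, T k ≤ n → k ≤ lev (σ n) := fun k n h => (Nat.find_spec (ex k)).trans (hσ h)
  have T3 : ∀ k, T k ≤ T (k+1) := fun k => by
    by_contra hc
    have := T1 k _ (not_le.1 hc); have := T2 (k+1) _ le_rfl; omega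
  have T4 : Tendsto T atTop atTop := tendsto_atTop_atTop.2 (fun m => ⟨lev (σ m) + 1, fun k hk => by
    by_contra hc
    have h1 := T2 k (T k) le_rfl
    have h2 : lev (σ (T k)) ≤ lev (σ m) := hσ (not_le.1 hc).le
    omega⟩)
  have lat : ∀ k N, N ≤ T (k+1) → ∃ z : ℤ, X N = z * a k := by
    intro k N
    induction N with
    | zero => intro _; exact ⟨0, by simp [hXd]⟩
    | succ N ih =>
      intro h
      obtain ⟨z, hz⟩ := ih (by omega)
      have h1 := T1 (k+1) N (by omega)
      obtain ⟨d, hd⟩ : ∃ d, k * k = lev (σ N) * lev (σ N) + d :=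
        Nat.exists_eq_add_of_le (Nat.mul_self_le_mul_self (by omega))
      have e : a (lev (σ N)) = 4 ^ d * a k := by unfold a; rw [hd, pow_add]; field_simp
      have e2 : X (N+1) = X N + ε N * (sg (σ N) * a (lev (σ N))) := sum_range_succ _ _
      rw [e2, hz, e]
      rcases h01 N with h | h <;> rcases sg_cases (σ N) with h' | h' <;> rw [h, h']
      · exact ⟨z, by ring⟩
      · exact ⟨z, by ring⟩
      · exact ⟨z + 4 ^ d, by push_cast; ring⟩
      · exact ⟨z - 4 ^ d, by push_cast; ring⟩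
  have blo : ∀ k N, T k ≤ N → N ≤ T (k+1) → b k * (X N - X (T k)) = a k * (Y N - Y (T k)) := by
    intro k N h
    induction N, h using Nat.le_induction with
    | base => intro _; ring
    | succ N h ih =>
      intro h2
      have e : lev (σ N) = k := by have := T1 (k+1) N (by omega); have := T2 k N h; omega
      have e2 : X (N+1) = X N + ε N * (sg (σ N) * a (lev (σ N))) := sum_range_succ _ _
      have e3 : Y (N+1) = Y N + ε N * (sg (σ N) * b (lev (σ N))) := sum_range_succ _ _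
      rw [e2, e3, e]
      linear_combination ih (by omega)
  obtain ⟨B, hB⟩ : ∃ B, ∀ N, |Y N| ≤ B := by
    obtain ⟨B, hB⟩ := hY.abs.bddAbove_range
    exact ⟨B, fun N => hB ⟨N, rfl⟩⟩
  have B0 : 0 ≤ B := (abs_nonneg _).trans (hB 0)
  obtain ⟨K, hK⟩ := eventually_atTop.1 ((b_lim.const_mul B).eventually
    (gt_mem_nhds (show B * 0 < 1/12 by norm_num)))
  have stp : ∀ k, K ≤ k → |X (T (k+2)) - X (T (k+1))| ≤ a k / 12 := by
    intro k hk
    have h1 := blo (k+1) _ (T3 (k+1)) le_rfl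
    have h2 := hK k hk
    have h3 := b_succ k; have h4 := b_pos (k+1); have h5 := a_pos k; have h6 := b_le k
    have h7 := b_pos k; have h8 := a_pos (k+1)
    have h9 : |Y (T (k+1+1)) - Y (T (k+1))| ≤ 2 * B := by
      have := abs_sub (Y (T (k+1+1))) (Y (T (k+1))); have := hB (T (k+1+1)); have := hB (T (k+1)); linarith
    have h10 : b (k+1) * |X (T (k+2)) - X (T (k+1))| ≤ a (k+1) * (2 * B) := by
      rw [← abs_of_pos h4, ← abs_mul, h1, abs_mul, abs_of_pos h8]
      exact mul_le_mul_of_nonneg_left h9 h8.le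
    have h11 : a (k+1) ≤ a k * (b k * b k) / 4 := by
      rw [a_succ]
      have : (b k * b k) ^ 2 ≤ b k * b k := by
        have : b k * b k ≤ 1 := by nlinarith
        have : 0 < b k * b k := by positivity
        nlinarith
      nlinarith
    refine le_of_mul_le_mul_left (h10.trans ?_) h4
    have h12 : a (k+1) * (2 * B) ≤ a k * (b k * b k) / 4 * (2 * B) := by gcongr
    have h13 : a k * (b k * b k) / 4 * (2 * B) = b (k+1) * (a k * (B * b k)) := by rw [h3]; ring
    have h14 : a k * (B * b k) ≤ a k / 12 := by nlinarith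
    have h15 := mul_le_mul_of_nonneg_left h14 h4.le
    linarith
  have acc : ∀ k, K ≤ k → |X (T (k+1)) - X (T (K+1))| ≤ (a K - a k) / 9 := by
    intro k hk
    induction k, hk using Nat.le_induction with
    | base => simp
    | succ k hk ih =>
      have h1 := stp k hk; have h2 := a_succ_le k
      have := abs_sub_le (X (T (k+2))) (X (T (k+1))) (X (T (K+1)))
      linarith
  have lim : |1/3 - X (T (K+1))| ≤ a K / 9 := by
    have h1 : Tendsto (fun k => |X (T (k+1)) - X (T (K+1))|) atTop (𝓝 |1/3 - X (T (K+1))|) :=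
      (((hX.comp T4).comp (tendsto_add_atTop_nat 1)).sub_const _).abs
    refine le_of_tendsto h1 (eventually_atTop.2 ⟨K, fun k hk => ?_⟩)
    have := acc k hk; have := a_pos k; linarith
  obtain ⟨z, hz⟩ := lat K _ le_rfl
  rw [hz, abs_le] at lim
  have hp : (0:ℝ) < 4 ^ (K * K) := by positivity
  have ea : a K * 4 ^ (K * K) = 1 := by unfold a; field_simp
  have l1 : (-1:ℝ) ≤ 3 * 4 ^ (K * K) - 9 * z := by
    have := mul_le_mul_of_nonneg_right lim.1 hp.le
    nlinarith
  have l2 : 3 * 4 ^ (K * K) - 9 * z ≤ (1:ℝ) := by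
    have := mul_le_mul_of_nonneg_right lim.2 hp.le
    nlinarith
  have l3 : (-1:ℤ) ≤ 3 * 4 ^ (K * K) - 9 * z := by exact_mod_cast l1
  have l4 : 3 * 4 ^ (K * K) - 9 * z ≤ (1:ℤ) := by exact_mod_cast l2
  have l5 : ∀ m : ℕ, (4:ℤ) ^ m % 3 = 1 := fun m => by
    induction m with
    | zero => simp
    | succ m ih => rw [pow_succ]; omega
  have := l5 (K * K)
  omega

lemma not_summ (f : ℕ → ℝ) (h0 : ∀ n, 0 ≤ f n) (r : ℕ) (J : ℕ)
    (h : ∀ j, J ≤ j → a (kk j) ≤ f (8 * j + r)) : ¬ Summable f := by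
  intro hs
  have h1 : Summable (fun j => f (8 * (j + J) + r)) :=
    hs.comp_injective (i := fun j => 8 * (j + J) + r) (fun x y hxy => by simp only at hxy; omega)
  have h2 : Summable (fun j : ℕ => 1 / (((j + (J + 1) : ℕ)) : ℝ)) := by
    refine Summable.of_nonneg_of_le (fun j => by positivity) (fun j => ?_) h1
    refine le_trans (le_of_eq ?_) ((a_kk (j + J)).trans (h _ (by omega)))
    push_cast; ring
  exact Real.not_summable_one_div_natCast ((summable_nat_add_iff (J + 1)).1 h2)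

end Pool.Agent.H31.Levy
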