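import Mathlib
import Pool.Agent.H31.Levy

namespace Pool.Agent.H31.Levy
open Filter Topology Finset

noncomputable def EE (l : ℕ) : ℝ := b (kk (l - 1))
noncomputable def psi (i : ℕ) : ℝ := EE (Nat.log 2 i) * (2 ^ (Nat.log 2 i + 1) - i) / 2 ^ Nat.log 2 i
lemma log_top : Tendsto (Nat.log 2) atTop atTop :=
  tendsto_atTop_atTop.2 (fun K => ⟨2 ^ K, fun _ hj => Nat.le_log_of_pow_le (by norm_num) hj⟩)
lemma EE_lim : Tendsto EE atTop (𝓝 0) := (b_lim.comp kk_top).comp (tendsto_sub_atTop_nat 1)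
lemma log_succ (i : ℕ) (hi : 1 ≤ i) : (Nat.log 2 (i+1) = Nat.log 2 i) ∨
    (Nat.log 2 (i+1) = Nat.log 2 i + 1 ∧ i + 1 = 2 ^ (Nat.log 2 i + 1)) := by
  have h1 := Nat.lt_pow_succ_log_self (b := 2) (by norm_num) i
  rcases Nat.lt_or_ge (i+1) (2 ^ (Nat.log 2 i + 1)) with h | h
  · left
    exact Nat.log_eq_of_pow_le_of_lt_pow ((Nat.pow_log_le_self 2 (by omega)).trans (by omega)) h
  · have e : i + 1 = 2 ^ (Nat.log 2 i + 1) := by simp only [Nat.succ_eq_add_one] at h1; omega
    right; exact ⟨by rw [e, Nat.log_pow (by norm_num)], e⟩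

lemma G2 (z c C e : ℕ → ℝ) (κ : ℝ) (hκ : 0 < κ) (hc : ∀ j : ℕ, κ * (1 / ((j:ℝ)+1)) ≤ c j)
    (hC : Tendsto C atTop (𝓝 0))
    (he : ∀ i, 1 ≤ i → e i ≤ if Nat.log 2 (i+1) = Nat.log 2 i then 0 else EE (Nat.log 2 i + 1))
    (hz : ∀ j, |z (j+1)| ≤ |z j| - c j + e j ∨ |z (j+1)| ≤ C j + e j) :
    Tendsto z atTop (𝓝 0) := by
  rw [Metric.tendsto_atTop]
  intro δ hδ
  have E0 : ∀ l, 0 < EE l := fun l => b_pos _
  obtain ⟨N0, hN0⟩ := eventually_atTop.1 (((hC.eventually (gt_mem_nhds (show 0 < δ/8 by linarith))).and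
    ((EE_lim.comp log_top).eventually (gt_mem_nhds (show 0 < min (δ/8) (κ/4) by positivity)))).and
    ((((EE_lim.comp (tendsto_add_atTop_nat 1)).comp log_top).eventually
      (gt_mem_nhds (show 0 < δ/8 by linarith))).and (eventually_ge_atTop 1)))
  have pb : ∀ i, 1 ≤ i → 0 ≤ psi i ∧ psi i ≤ EE (Nat.log 2 i) := by
    intro i hi
    have h1 : (i:ℝ) ≤ 2 ^ (Nat.log 2 i + 1) := by
      exact_mod_cast (Nat.lt_pow_succ_log_self (b := 2) (by norm_num) i).le
    have h2 : (2:ℝ) ^ (Nat.log 2 i) ≤ i := by exact_mod_cast Nat.pow_log_le_self 2 (by omega : i ≠ 0)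
    have h3 := E0 (Nat.log 2 i)
    unfold psi
    refine ⟨div_nonneg (mul_nonneg h3.le (by linarith)) (by positivity), ?_⟩
    rw [div_le_iff₀ (by positivity), pow_succ]
    nlinarith
  have key : ∀ i, N0 ≤ i → (|z (i+1)| - psi (i+1) ≤ |z i| - psi i - κ / 2 * (1 / ((i:ℝ)+1)) ∨
      |z (i+1)| - psi (i+1) ≤ δ / 4) := by
    intro i hi
    obtain ⟨⟨a1, a2⟩, a3, a4⟩ := hN0 i hi
    have a2' : EE (Nat.log 2 i) < κ / 4 := lt_of_lt_of_le a2 (min_le_right _ _)
    have a3' : EE (Nat.log 2 i + 1) < δ / 8 := a3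
    have a5 := he i a4; have a6 := hc i; have a7 := (pb (i+1) (by omega)).1
    have hp : (0:ℝ) < 2 ^ Nat.log 2 i := by positivity
    have h1 : (i:ℝ) + 1 ≤ 2 ^ (Nat.log 2 i + 1) := by
      exact_mod_cast (Nat.lt_pow_succ_log_self (b := 2) (by norm_num) i)
    have a8 : EE (Nat.log 2 i) / 2 ^ Nat.log 2 i ≤ κ / 2 * (1 / ((i:ℝ)+1)) := by
      rw [mul_one_div, div_le_div_iff₀ hp (by positivity)]
      rw [pow_succ] at h1
      have := E0 (Nat.log 2 i)
      nlinarith
    have a9 : e i ≤ EE (Nat.log 2 i) / 2 ^ Nat.log 2 i + psi (i+1) - psi i ∧ e i ≤ δ / 8 := by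
      rcases log_succ i a4 with h | ⟨h, h'⟩
      · rw [if_pos h] at a5
        refine ⟨a5.trans (le_of_eq ?_), by linarith⟩
        unfold psi; rw [h]; push_cast; field_simp; ring
      · rw [if_neg (by omega)] at a5
        refine ⟨a5.trans (le_of_eq ?_), by linarith⟩
        have h'' : (i:ℝ) = 2 ^ (Nat.log 2 i + 1) - 1 := by
          have : ((i + 1 : ℕ) : ℝ) = 2 ^ (Nat.log 2 i + 1) := by exact_mod_cast h'
          push_cast at this; linarith
        unfold psi; rw [h]; push_cast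
        generalize Nat.log 2 i = l at *
        rw [h'']; field_simp; ring
    rcases hz i with a | a
    · left; linarith [a9.1]
    · right; linarith [a9.2]
  have h1 : ∃ N, N0 ≤ N ∧ |z N| - psi N ≤ δ / 4 := by
    by_contra hc'
    push Not at hc'
    refine Ach.L0 (fun j => 1 / ((j:ℝ)+1)) (fun n => |z n| - psi n) (κ/2) (by linarith) N0
      Real.tendsto_sum_range_one_div_nat_succ_atTop (fun n hn => by have := hc' n hn; linarith) (fun n hn => ?_)
    have a1 := hc' (n+1) (by omega)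
    show |z (n+1)| - psi (n+1) ≤ |z n| - psi n - κ / 2 * (1 / ((n:ℝ)+1))
    rcases key n hn with a | a <;> linarith
  obtain ⟨N, hN, hN2⟩ := h1
  refine ⟨N, fun n hn => ?_⟩
  rw [Real.dist_eq, sub_zero]
  have : |z n| - psi n ≤ δ / 4 := by
    induction n, hn using Nat.le_induction with
    | base => exact hN2
    | succ n hn ih =>
      have a4 : 0 < κ / 2 * (1 / ((n:ℝ)+1)) := by positivity
      rcases key n (by omega) with a | a <;> linarith
  obtain ⟨⟨_, a2⟩, _, a4⟩ := hN0 n (by omega)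
  have a2' : EE (Nat.log 2 n) < δ / 8 := lt_of_lt_of_le a2 (min_le_left _ _)
  have := (pb n a4).2
  linarith

noncomputable def DD (k : ℕ) (z : ℝ × ℝ) : ℝ × ℝ :=
  (sn z.1 * (a k - 2 * a (k + 1)) + sn z.2 * a (k + 1), sn z.2 * b (k + 1))

noncomputable def Fs (p : ℝ × ℝ) : ℕ → ℝ × ℝ
  | 0 => 0
  | i+1 => Fs p i + DD (kk i) (p - Fs p i + Fs p (Nat.log 2 i))
decreasing_by all_goals (have := Nat.log_le_self 2 i; omega)

noncomputable def zz (p : ℝ × ℝ) (i : ℕ) : ℝ × ℝ := p - Fs p i + Fs p (Nat.log 2 i)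

lemma Fs_succ (p : ℝ × ℝ) (i : ℕ) : Fs p (i+1) = Fs p i + DD (kk i) (zz p i) := by rw [Fs]; rfl

lemma DD_le (k : ℕ) (z : ℝ × ℝ) : |(DD k z).1| ≤ b k ∧ |(DD k z).2| ≤ b k := by
  have h1 := a_succ_le k; have h2 := a_pos (k + 1); have h3 := a_le_b k
  have h4 := b_succ k; have h5 := b_pos (k+1)
  simp only [DD, sn, abs_le]
  split_ifs <;> refine ⟨⟨?_, ?_⟩, ?_, ?_⟩ <;> linarith

lemma zz_lim (p : ℝ × ℝ) : Tendsto (fun i => (zz p i).1) atTop (𝓝 0) ∧
    Tendsto (fun i => (zz p i).2) atTop (𝓝 0) := by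
  have bk : Tendsto (fun j => b (kk j)) atTop (𝓝 0) := b_lim.comp kk_top
  have zs : ∀ i, zz p (i+1) = zz p i - DD (kk i) (zz p i) +
      (Fs p (Nat.log 2 (i+1)) - Fs p (Nat.log 2 i)) := by
    intro i
    have e1 : zz p (i+1) = p - Fs p (i+1) + Fs p (Nat.log 2 (i+1)) := rfl
    have e2 : zz p i = p - Fs p i + Fs p (Nat.log 2 i) := rfl
    rw [e1, Fs_succ]
    generalize DD (kk i) (zz p i) = D
    rw [e2]; abel
  have he : ∀ i, 1 ≤ i → |(Fs p (Nat.log 2 (i+1)) - Fs p (Nat.log 2 i)).1| ≤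
      (if Nat.log 2 (i+1) = Nat.log 2 i then 0 else EE (Nat.log 2 i + 1)) ∧
      |(Fs p (Nat.log 2 (i+1)) - Fs p (Nat.log 2 i)).2| ≤
      (if Nat.log 2 (i+1) = Nat.log 2 i then 0 else EE (Nat.log 2 i + 1)) := by
    intro i hi
    rcases log_succ i hi with h | ⟨h, _⟩
    · rw [if_pos h, h]; simp
    · rw [if_neg (by omega), h, Fs_succ, add_sub_cancel_left]; exact DD_le _ _
  constructor
  · refine G2 _ (fun j => a (kk j) / 4) (fun j => b (kk j)) _ (1/4) (by norm_num)
      (fun j => by have := a_kk j; linarith) bk (fun i hi => (he i hi).1) (fun j => ?_)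
    have h1 := a_succ_le (kk j); have h2 := a_pos (kk j + 1); have h3 := a_le_b (kk j)
    rw [zs j, Prod.fst_add]
    have h4 := abs_add_le (zz p j - DD (kk j) (zz p j)).1 (Fs p (Nat.log 2 (j+1)) - Fs p (Nat.log 2 j)).1
    have h5 : |(zz p j - DD (kk j) (zz p j)).1| ≤ |(zz p j).1| - a (kk j) / 4 ∨
        |(zz p j - DD (kk j) (zz p j)).1| ≤ b (kk j) := by
      simp only [DD, sn, Prod.fst_sub]
      by_cases c : |(zz p j).1| ≤ 3 * a (kk j) / 4
      · right; rw [abs_le] at c ⊢; split_ifs <;> constructor <;> linarith [c.1, c.2]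
      · left; rcases abs_cases (zz p j).1 with h | h <;> rw [abs_le] <;> split_ifs <;>
          constructor <;> linarith [h.1, h.2]
    rcases h5 with h | h
    · left; linarith
    · right; linarith
  · refine G2 _ (fun j => b (kk j + 1)) (fun j => b (kk j)) _ (1/2) (by norm_num)
      (fun j => by have := a_kk j; have := a_le_b (kk j); have := b_succ (kk j); linarith) bk
      (fun i hi => (he i hi).2) (fun j => ?_)
    have h1 := b_succ (kk j); have h2 := b_pos (kk j + 1)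
    rw [zs j, Prod.snd_add]
    have h4 := abs_add_le (zz p j - DD (kk j) (zz p j)).2 (Fs p (Nat.log 2 (j+1)) - Fs p (Nat.log 2 j)).2
    have h5 : |(zz p j - DD (kk j) (zz p j)).2| ≤ |(zz p j).2| - b (kk j + 1) ∨
        |(zz p j - DD (kk j) (zz p j)).2| ≤ b (kk j) := by
      simp only [DD, sn, Prod.snd_sub]
      by_cases c : |(zz p j).2| ≤ b (kk j + 1)
      · right; rw [abs_le] at c ⊢; split_ifs <;> constructor <;> linarith [c.1, c.2]
      · left; rcases abs_cases (zz p j).2 with h | h <;> rw [abs_le] <;> split_ifs <;>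
          constructor <;> linarith [h.1, h.2]
    rcases h5 with h | h
    · left; linarith
    · right; linarith

noncomputable def eq2 (p : ℝ × ℝ) (n : ℕ) : ℝ :=
  if n % 8 < 3 then (if 0 < (zz p (n / 8)).1 then 1 else 0)
  else if n % 8 < 6 then (if 0 < (zz p (n / 8)).1 then 0 else 1)
  else if n % 8 = 6 then (if 0 < (zz p (n / 8)).2 then 1 else 0)
  else (if 0 < (zz p (n / 8)).2 then 0 else 1)

lemma eq01 (p : ℝ × ℝ) (n : ℕ) : eq2 p n = 0 ∨ eq2 p n = 1 := by
  unfold eq2; split_ifs <;> simp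

lemma F_sum (p : ℝ × ℝ) (j : ℕ) :
    ∑ n ∈ range (8 * j), eq2 p n * (sg n * a (lev n)) = (Fs p j).1 ∧
    ∑ n ∈ range (8 * j), eq2 p n * (sg n * b (lev n)) = (Fs p j).2 := by
  have m0 : ∀ j, 8 * j % 8 = 0 ∧ 8 * j / 8 = j := fun j => by omega
  induction j with
  | zero => simp [Fs]
  | succ j ih =>
    rw [blk, blk, ih.1, ih.2, Fs_succ]
    simp only [eq2, sg, lev, m0, md j 1, md j 2, md j 3, md j 4, md j 5, md j 6, md j 7, DD, sn,
      Nat.reduceLT, Nat.reduceEqDiff, Nat.ofNat_pos, Nat.one_lt_ofNat, Prod.fst_add, Prod.snd_add]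
    norm_num
    rw [b_succ (kk j)]
    constructor <;> split_ifs <;> ring

lemma zero_sum (c : ℕ → ℝ) (j : ℕ) : ∑ n ∈ range (8 * j), sg n * c (lev n) = 0 := by
  have m0 : ∀ j, 8 * j % 8 = 0 ∧ 8 * j / 8 = j := fun j => by omega
  induction j with
  | zero => simp
  | succ j ih =>
    rw [blk, ih]
    simp only [sg, lev, m0, md j 1, md j 2, md j 3, md j 4, md j 5, md j 6, md j 7,
      Nat.reduceLT, Nat.reduceEqDiff, Nat.one_lt_ofNat]
    norm_num
    ring

noncomputable def tm (p : ℝ × ℝ) (n : ℕ) : ℕ := if eq2 p n = 1 then n / 8 else 2 ^ (n / 8 + 1) - 1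

lemma tm_ge (p : ℝ × ℝ) (n : ℕ) : n / 8 ≤ tm p n := by
  unfold tm; have := Nat.lt_two_pow_self (n := n / 8 + 1); split_ifs <;> omega

lemma tm_log (p : ℝ × ℝ) (n : ℕ) : n / 8 = tm p n ∨ n / 8 = Nat.log 2 (tm p n + 1) - 1 := by
  unfold tm
  split_ifs
  · left; rfl
  · right
    rw [Nat.sub_add_cancel Nat.one_le_two_pow, Nat.log_pow (by norm_num)]; omega

theorem sorted2 (f : ℕ → ℕ) (hf : ∀ n, n / 8 ≤ f n) : ∃ σ : ℕ ≃ ℕ, Monotone (fun n => f (σ n)) := by
  set φ : ℕ → ℕ := fun n => 8 * ((f n + 1) * (f n + 1)) + n with hφ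
  have hlt : ∀ n m, f n < f m → φ n < φ m := by
    intro n m h
    have h1 : n < 8 * (f n + 1) := by have := hf n; omega
    have h2 : (f n + 1) * (f n + 1) + (f n + 1) ≤ (f m + 1) * (f m + 1) := by nlinarith
    simp only [hφ]; omega
  have inj : Function.Injective φ := by
    intro n m h
    rcases lt_trichotomy (f n) (f m) with c | c | c
    · have := hlt n m c; omega
    · simp only [hφ, c] at h; omega
    · have := hlt m n c; omega
  have : Infinite (Set.range φ) := (Set.infinite_range_of_injective inj).to_subtype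
  classical
  let e := Nat.Subtype.orderIsoOfNat (Set.range φ)
  refine ⟨e.toEquiv.trans (Equiv.ofInjective φ inj).symm, fun n m h => ?_⟩
  by_contra hc
  have h1 := hlt _ _ (not_le.1 hc)
  simp only [Equiv.trans_apply, Equiv.apply_ofInjective_symm] at h1
  have h2 : e n ≤ e m := e.monotone h
  exact absurd h1 (not_lt.2 h2)

lemma perm_conv (p : ℝ × ℝ) (σ : ℕ ≃ ℕ) (hσ : Monotone (fun n => tm p (σ n))) (c : ℕ → ℝ)
    (h0 : ∀ k, 0 < c k) (h1 : ∀ k, c k ≤ b k) (F : ℕ → ℝ) (r : ℝ)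
    (hF : ∀ j, ∑ n ∈ range (8 * j), eq2 p n * (sg n * c (lev n)) = F j)
    (hl : Tendsto (fun i => r - F i + F (Nat.log 2 i)) atTop (𝓝 0)) :
    Tendsto (fun N => ∑ m ∈ range N, sg (σ m) * c (lev (σ m))) atTop (𝓝 r) := by
  set t : ℕ → ℝ := fun n => sg n * c (lev n) with ht
  have hS : ∀ i, ∑ n ∈ (range (8 * i)).filter (fun n => tm p n < i), t n = F i - F (Nat.log 2 i) := by
    intro i
    have hle := Nat.log_le_self 2 i
    have e1 : ∀ n ∈ range (8 * i), (if tm p n < i then t n else 0) =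
        eq2 p n * t n + if n < 8 * Nat.log 2 i then (t n - eq2 p n * t n) else 0 := by
      intro n hn
      rw [mem_range] at hn
      unfold tm
      rcases eq01 p n with h | h
      · rw [h, if_neg (show ¬ (0:ℝ) = 1 by norm_num)]
        have : 2 ^ (n / 8 + 1) - 1 < i ↔ n < 8 * Nat.log 2 i := by
          have := Nat.le_log_iff_pow_le (b := 2) (x := n / 8 + 1) (y := i) (by norm_num) (by omega)
          have := Nat.one_le_two_pow (n := n / 8 + 1)
          omega
        simp [this]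
      · rw [h, if_pos rfl, if_pos (by omega)]; simp
    have e2 : (range (8 * i)).filter (fun n => n < 8 * Nat.log 2 i) = range (8 * Nat.log 2 i) := by
      ext n; simp only [mem_filter, mem_range]; omega
    rw [sum_filter, sum_congr rfl e1, sum_add_distrib, ← sum_filter, e2, sum_sub_distrib, hF, hF, zero_sum]
    ring
  have it : Tendsto (fun N => tm p (σ N)) atTop atTop :=
    tendsto_atTop_mono (fun N => tm_ge p (σ N)) (div_top.comp σ.injective.nat_tendsto_atTop)
  have l1 : Tendsto (fun N => F (tm p (σ N)) - F (Nat.log 2 (tm p (σ N)))) atTop (𝓝 r) := by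
    have := (hl.comp it).const_sub r
    rw [sub_zero] at this
    exact this.congr (fun N => by simp only [Function.comp]; ring)
  have b0 : Tendsto (fun N => 16 * EE (Nat.log 2 (tm p (σ N) + 1))) atTop (𝓝 0) := by
    simpa using (((EE_lim.comp log_top).comp (tendsto_add_atTop_nat 1)).comp it).const_mul 16
  have l2 : Tendsto (fun N => ∑ m ∈ range N, t (σ m) -
      (F (tm p (σ N)) - F (Nat.log 2 (tm p (σ N))))) atTop (𝓝 0) := by
    refine squeeze_zero_norm (fun N => ?_) b0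
    set i := tm p (σ N) with hi
    have sub : (range (8 * i)).filter (fun n => tm p n < i) ⊆ (range N).map σ.toEmbedding := by
      intro n hn
      rw [mem_filter] at hn
      rw [mem_map_equiv, mem_range]
      by_contra hc
      have : tm p (σ N) ≤ tm p (σ (σ.symm n)) := hσ (not_lt.1 hc)
      rw [σ.apply_symm_apply] at this; omega
    have e3 : ∑ m ∈ range N, t (σ m) = ∑ n ∈ (range N).map σ.toEmbedding, t n := by rw [sum_map]; rfl
    rw [← hS, e3, ← sum_sdiff sub, add_sub_cancel_right, Real.norm_eq_abs]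
    refine (abs_sum_le_sum_abs _ _).trans ?_
    have tme : ∀ n ∈ (range N).map σ.toEmbedding \ (range (8 * i)).filter (fun n => tm p n < i),
        tm p n = i := by
      intro n hn
      rw [Finset.mem_sdiff, mem_map_equiv, mem_range, mem_filter, mem_range] at hn
      have h2 : tm p (σ (σ.symm n)) ≤ tm p (σ N) := hσ hn.1.le
      rw [σ.apply_symm_apply] at h2
      have := tm_ge p n
      omega
    have bnd : ∀ n ∈ (range N).map σ.toEmbedding \ (range (8 * i)).filter (fun n => tm p n < i),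
        |t n| ≤ EE (Nat.log 2 (i + 1)) := by
      intro n hn
      have h2 := tme n hn
      have h3 : Nat.log 2 (i + 1) - 1 ≤ n / 8 := by
        have := tm_log p n; have := Nat.log_le_self 2 (i+1); rw [h2] at *; omega
      have h4 : kk (Nat.log 2 (i + 1) - 1) ≤ kk (n / 8) :=
        Nat.sqrt_le_sqrt (Nat.log_mono_right (by omega))
      have h5 : |t n| ≤ b (lev n) := by
        have := term_le 1 (Or.inr rfl) n _ (h0 (lev n)) (h1 (lev n))
        rwa [one_mul] at this
      exact h5.trans (b_anti (h4.trans (lev_ge n)))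
    refine (sum_le_card_nsmul _ _ _ bnd).trans ?_
    rw [nsmul_eq_mul]
    refine mul_le_mul_of_nonneg_right ?_ (b_pos _).le
    have cs : (range N).map σ.toEmbedding \ (range (8 * i)).filter (fun n => tm p n < i) ⊆
        Ico (8 * i) (8 * i + 8) ∪ Ico (8 * (Nat.log 2 (i+1) - 1)) (8 * (Nat.log 2 (i+1) - 1) + 8) := by
      intro n hn
      have h2 := tme n hn
      have := tm_log p n
      rw [h2] at this
      rw [mem_union, mem_Ico, mem_Ico]; omega
    have := (card_le_card cs).trans (card_union_le _ _)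
    simp only [Nat.card_Ico, Nat.add_sub_cancel_left] at this
    exact_mod_cast this
  simpa using l2.add l1

theorem sr (p q : ℝ) : ∃ σ : ℕ ≃ ℕ,
    Tendsto (fun N => ∑ m ∈ range N, sg (σ m) * a (lev (σ m))) atTop (𝓝 p) ∧
    Tendsto (fun N => ∑ m ∈ range N, sg (σ m) * b (lev (σ m))) atTop (𝓝 q) := by
  obtain ⟨σ, hσ⟩ := sorted2 (tm (p, q)) (tm_ge (p, q))
  exact ⟨σ, perm_conv (p, q) σ hσ a a_pos a_le_b (fun j => (Fs (p, q) j).1) p
      (fun j => (F_sum _ j).1) (zz_lim (p, q)).1,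
    perm_conv (p, q) σ hσ b b_pos (fun _ => le_rfl) (fun j => (Fs (p, q) j).2) q
      (fun j => (F_sum _ j).2) (zz_lim (p, q)).2⟩

end Pool.Agent.H31.Levy
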