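import Pool.Agent.H31.Schur

set_option autoImplicit false

namespace Pool.Agent.H31.Mono
open Finset

def ℓ (j : ℕ) : ℕ := 64 ^ (10 ^ j)
lemma ℓ_succ (j : ℕ) : ℓ (j + 1) = ℓ j ^ 10 := by rw [ℓ, ℓ, pow_succ, pow_mul]
lemma ℓ_dvd {i j : ℕ} (h : i ≤ j) : ℓ i ∣ ℓ j :=
  pow_dvd_pow _ (Nat.pow_le_pow_right (by norm_num) h)
lemma ℓ_ge (j : ℕ) : 64 ≤ ℓ j := Nat.le_self_pow (by positivity) _
lemma ℓ_mono {i j : ℕ} (h : i ≤ j) : ℓ i ≤ ℓ j :=
  Nat.le_of_dvd (lt_of_lt_of_le (by norm_num) (ℓ_ge j)) (ℓ_dvd h)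
lemma lt_ℓ (j : ℕ) : j ≤ ℓ j :=
  ((Nat.lt_pow_self (by norm_num)).trans (Nat.lt_pow_self (by norm_num))).le

def Lq (n : ℕ) : ℤ := ℓ ((2 * n + 1) ^ 2)
def pu (j : ℕ) : ℤ := (((Nat.unpair j).2 : ℤ) - (Nat.unpair j).1) * Lq (Nat.unpair j).1
def pv (j : ℕ) : ℤ :=
  ((Nat.unpair j).1 - |((Nat.unpair j).2 : ℤ) - (Nat.unpair j).1|) * Lq (Nat.unpair j).1
def InG (j : ℕ) (p : ℤ × ℤ × ℤ) : Prop :=
  (ℓ j : ℤ) ∣ p.1 ∧ pu j ≤ p.1 ∧ p.1 < pu j + (ℓ j : ℤ) ^ 6 ∧ pv j ≤ p.2.1 ∧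
    p.2.1 < pv j + (ℓ j : ℤ) ^ 6 ∧ p.2.2 < (ℓ j : ℤ) ^ 6

def XX : Type := {p : ℤ × ℤ × ℤ // 0 ≤ p.2.1 ∧ 0 ≤ p.2.2 ∧ (p.2.2 = 0 ∨ ∃ j, InG j p)}

def ng (p : ℤ × ℤ × ℤ) : ℤ × ℤ × ℤ := (-p.1, -1 - p.2.1, p.2.2)
def co (y : XX × Bool) : ℤ × ℤ × ℤ := if y.2 then y.1.1 else ng y.1.1
lemma co_t (x : XX) : co (x, true) = x.1 := rfl
lemma co_f (x : XX) : co (x, false) = ng x.1 := rfl

lemma co_inj : Function.Injective co := by
  rintro ⟨⟨⟨u, v, b⟩, h, h'⟩, s⟩ ⟨⟨⟨u', v', b'⟩, k, k'⟩, s'⟩ e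
  dsimp only at h k
  cases s <;> cases s' <;> simp only [co_t, co_f, ng, Prod.mk.injEq] at e
  · obtain rfl : u = u' := by omega
    obtain rfl : v = v' := by omega
    obtain rfl : b = b' := e.2.2
    rfl
  · omega
  · omega
  · obtain ⟨rfl, rfl, rfl⟩ := e
    rfl

noncomputable def z (y : XX × Bool) : ℂ := ⟨(co y).1, (co y).2.1 + 1 / 2⟩
noncomputable def em (y : XX × Bool) : ℂ × ℝ := (z y, (co y).2.2)
noncomputable def dY (y y' : XX × Bool) : ℝ := dist (em y) (em y')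

lemma dY_eq (y y' : XX × Bool) :
    dY y y' = max ‖z y - z y'‖ |((co y).2.2 : ℝ) - (co y').2.2| := by
  rw [dY, Prod.dist_eq, dist_eq_norm, Real.dist_eq]; rfl

lemma dY_le {y y' : XX × Bool} {a : ℤ}
    (h : |(co y).1 - (co y').1| + |(co y).2.1 - (co y').2.1| + |(co y).2.2 - (co y').2.2| ≤ a) :
    dY y y' ≤ a := by
  have h' : |((co y).1 : ℝ) - (co y').1| + |((co y).2.1 : ℝ) - (co y').2.1|
      + |((co y).2.2 : ℝ) - (co y').2.2| ≤ a := by exact_mod_cast h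
  have h1 := Complex.norm_le_abs_re_add_abs_im (z y - z y')
  simp only [z, Complex.sub_re, Complex.sub_im, add_sub_add_right_eq_sub] at h1
  rw [dY_eq]
  refine max_le ?_ ?_
  · exact h1.trans (by linarith [abs_nonneg (((co y).2.2 : ℝ) - (co y').2.2)])
  · linarith [abs_nonneg (((co y).1 : ℝ) - (co y').1), abs_nonneg (((co y).2.1 : ℝ) - (co y').2.1)]

lemma le_dY {y y' : XX × Bool} {a : ℤ} (h : dY y y' ≤ a) :
    |(co y).1 - (co y').1| ≤ a ∧ |(co y).2.1 - (co y').2.1| ≤ a ∧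
      |(co y).2.2 - (co y').2.2| ≤ a := by
  rw [dY_eq, max_le_iff] at h
  have h1 := (Complex.abs_re_le_norm (z y - z y')).trans h.1
  have h2 := (Complex.abs_im_le_norm (z y - z y')).trans h.1
  simp only [z, Complex.sub_re, Complex.sub_im, add_sub_add_right_eq_sub] at h1 h2
  exact ⟨by exact_mod_cast h1, by exact_mod_cast h2, by exact_mod_cast h.2⟩

lemma em_inj : Function.Injective em := fun y y' h => by
  have h0 : dY y y' ≤ (0 : ℤ) := by rw [dY, h]; simp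
  obtain ⟨h1, h2, h3⟩ := le_dY h0
  rw [abs_nonpos_iff, sub_eq_zero] at h1 h2 h3
  exact co_inj (Prod.ext h1 (Prod.ext h2 h3))

lemma z_f (x : XX) : z (x, false) = - z (x, true) := by
  refine Complex.ext ?_ ?_
  · simp [z, co_t, co_f, ng]
  · simp only [z, co_t, co_f, ng, Complex.neg_im]; push_cast; ring

lemma z_not (x : XX) (s : Bool) : z (x, !s) = - z (x, s) := by
  cases s
  · rw [z_f, neg_neg]; rfl
  · exact z_f x
lemma b_not (x : XX) (s : Bool) : (co (x, !s)).2.2 = (co (x, s)).2.2 := by cases s <;> rfl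

lemma dY_not (x x' : XX) (s s' : Bool) : dY (x, !s) (x', !s') = dY (x, s) (x', s') := by
  rw [dY_eq, dY_eq, z_not, z_not, b_not, b_not, ← norm_neg]
  congr 2; ring

lemma dY_comm (y y' : XX × Bool) : dY y y' = dY y' y := dist_comm _ _
lemma dY_tri (y y' y'' : XX × Bool) : dY y y'' ≤ dY y y' + dY y' y'' := dist_triangle _ _ _
lemma dY_nn (y y' : XX × Bool) : 0 ≤ dY y y' := dist_nonneg

noncomputable def dX (x x' : XX) : ℝ := min (dY (x, true) (x', true)) (dY (x, true) (x', false))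

lemma dX_le (x x' : XX) (s s' : Bool) : dX x x' ≤ dY (x, s) (x', s') := by
  cases s <;> cases s'
  · exact (min_le_left _ _).trans (dY_not x x' false false).le
  · exact (min_le_right _ _).trans (dY_not x x' false true).le
  · exact min_le_right _ _
  · exact min_le_left _ _

lemma dX_ex (x x' : XX) (s : Bool) : ∃ s', dY (x, s) (x', s') = dX x x' := by
  rcases min_choice (dY (x, true) (x', true)) (dY (x, true) (x', false)) with h | h <;> cases s
  · exact ⟨false, (dY_not x x' true true).trans h.symm⟩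
  · exact ⟨true, h.symm⟩
  · exact ⟨true, (dY_not x x' true false).trans h.symm⟩
  · exact ⟨false, h.symm⟩

lemma dX_comm (x x' : XX) : dX x x' = dX x' x := by
  obtain ⟨s, h⟩ := dX_ex x x' true
  obtain ⟨s', h'⟩ := dX_ex x' x true
  exact le_antisymm (h' ▸ (dX_le x x' s' true).trans (dY_comm _ _).le)
    (h ▸ (dX_le x' x s true).trans (dY_comm _ _).le)

@[reducible] noncomputable def mY : MetricSpace (XX × Bool) :=
  MetricSpace.induced em em_inj inferInstance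

@[reducible] noncomputable def mX : MetricSpace XX where
  dist := dX
  dist_self x := le_antisymm ((dX_le x x true true).trans (dist_self _).le)
    (le_min (dY_nn _ _) (dY_nn _ _))
  dist_comm := dX_comm
  dist_triangle x y w := by
    obtain ⟨s, h⟩ := dX_ex x y true
    obtain ⟨s', h'⟩ := dX_ex y w s
    exact (dX_le x w true s').trans ((dY_tri _ (y, s) _).trans (add_le_add h.le h'.le))
  eq_of_dist_eq_zero := by
    intro x y h
    obtain ⟨s, h'⟩ := dX_ex x y true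
    exact congrArg Prod.fst (em_inj (eq_of_dist_eq_zero (h'.trans h)))

noncomputable def I (a : ℤ) (k : ℕ) : Finset ℤ := Icc (a - k) (a + k)
lemma card_I (a : ℤ) (k : ℕ) : (I a k).card = 2 * k + 1 := by
  rw [I, Int.card_Icc]; omega
lemma mem_I {a x : ℤ} {k : ℕ} : x ∈ I a k ↔ |a - x| ≤ k := by
  rw [I, mem_Icc, abs_le]; omega

lemma ulfY (r : ℝ) : ∃ N : ℕ, ∀ y0, {y | dY y y0 ≤ r}.encard ≤ N := by
  obtain ⟨k, hk⟩ := exists_nat_ge r
  refine ⟨(2 * k + 1) * ((2 * k + 1) * (2 * k + 1)), fun y0 => ?_⟩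
  have h := Set.encard_le_encard_of_injOn (f := co) (s := {y | dY y y0 ≤ r})
    (t := ↑(I (co y0).1 k ×ˢ I (co y0).2.1 k ×ˢ I (co y0).2.2 k)) (fun y hy => by
      obtain ⟨h1, h2, h3⟩ := le_dY (y := y0) (y' := y) (a := k)
        ((dY_comm _ _).trans_le (le_trans hy (by exact_mod_cast hk)))
      exact mem_coe.2 (mem_product.2 ⟨mem_I.2 h1, mem_product.2 ⟨mem_I.2 h2, mem_I.2 h3⟩⟩))
    co_inj.injOn
  rwa [Set.encard_coe_eq_coe_finsetCard, card_product, card_product, card_I, card_I, card_I] at h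

lemma ulfP (r : ℝ) : ∃ N : ℕ, ∀ x, {y : XX × Bool | dX y.1 x ≤ r}.encard ≤ N := by
  obtain ⟨N, hN⟩ := ulfY r
  refine ⟨N + N, fun x => ?_⟩
  refine (Set.encard_le_encard (t := {y | dY y (x, true) ≤ r} ∪ {y | dY y (x, false) ≤ r})
    fun y hy => ?_).trans ((Set.encard_union_le _ _).trans ?_)
  · obtain ⟨s, h⟩ := dX_ex y.1 x y.2
    cases s
    · exact Or.inr (h.trans_le hy)
    · exact Or.inl (h.trans_le hy)
  · rw [Nat.cast_add]; exact add_le_add (hN _) (hN _)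

lemma ulfX (r : ℝ) : ∃ N : ℕ, ∀ x0, {x | dX x x0 ≤ r}.encard ≤ N := by
  obtain ⟨N, hN⟩ := ulfP r
  exact ⟨N, fun x0 => (Set.encard_le_encard_of_injOn (f := fun x => (x, true)) (fun x hx => hx)
    fun a _ b _ h => congrArg Prod.fst h).trans (hN x0)⟩

lemma z_ne (y : XX × Bool) : z y ≠ 0 := fun h => by
  have h1 : ((co y).2.1 : ℝ) + 1 / 2 = 0 := congrArg Complex.im h
  have h2 : ((2 * (co y).2.1 + 1 : ℤ) : ℝ) = 0 := by push_cast; linarith
  have h3 : 2 * (co y).2.1 + 1 = 0 := by exact_mod_cast h2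
  omega

noncomputable def θ (y : XX × Bool) : ℂ := z y / ‖z y‖

lemma θ_norm (y : XX × Bool) : ‖θ y‖ = 1 := by
  rw [θ, norm_div, Complex.norm_real, norm_norm, div_self (norm_ne_zero_iff.2 (z_ne y))]
lemma θ_f (x : XX) : θ (x, false) = - θ (x, true) := by rw [θ, θ, z_f, norm_neg, neg_div]

lemma nrm (a w : ℂ) (ha : a ≠ 0) (hw : w ≠ 0) :
    ‖a / ‖a‖ + w / ‖w‖‖ * ‖w‖ ≤ 2 * ‖a + w‖ := by
  have a0 : (‖a‖ : ℂ) ≠ 0 := by exact_mod_cast norm_ne_zero_iff.2 ha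
  have w0 : (‖w‖ : ℂ) ≠ 0 := by exact_mod_cast norm_ne_zero_iff.2 hw
  have e : (a / ‖a‖ + w / ‖w‖) * ‖w‖ = (a + w) + a / ‖a‖ * ((‖w‖ - ‖a‖ : ℝ) : ℂ) := by
    push_cast; field_simp; ring
  have h1 := congrArg norm e
  rw [norm_mul, Complex.norm_real, norm_norm] at h1
  have h2 := norm_add_le (a + w) (a / ‖a‖ * ((‖w‖ - ‖a‖ : ℝ) : ℂ))
  rw [norm_mul, norm_div, Complex.norm_real, Complex.norm_real, norm_norm,
    div_self (norm_ne_zero_iff.2 ha), one_mul, Real.norm_eq_abs] at h2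
  have h3 := abs_norm_sub_norm_le w (-a)
  rw [norm_neg, sub_neg_eq_add, add_comm] at h3
  linarith

lemma slow (r ε : ℝ) (hε : 0 < ε) : ∃ R : ℝ, ∀ y y' : XX × Bool, dX y.1 y'.1 ≤ r → R < dY y y' →
    ‖θ y + θ y'‖ ≤ ε := by
  refine ⟨r + 4 * r / ε, ?_⟩
  rintro ⟨x, s⟩ ⟨x', s'⟩ h1 h2
  obtain ⟨t, h⟩ := dX_ex x x' s
  have h3 : dY (x, s) (x', t) ≤ r := h.trans_le h1
  have r0 : 0 ≤ r := (dY_nn _ _).trans h3
  have r1 : 0 ≤ 4 * r / ε := by positivity
  obtain rfl : t = !s' := by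
    by_contra e
    obtain rfl : t = s' := by revert e; cases t <;> cases s' <;> simp
    linarith
  have h4 := dY_tri (x, s) (x', !s') (x', s')
  have h5 : dY (x', !s') (x', s') ≤ 2 * ‖z (x', s')‖ := by
    rw [dY_eq, z_not, b_not, sub_self, abs_zero]
    refine max_le ((norm_sub_le _ _).trans ?_) (by positivity)
    rw [norm_neg]; linarith
  have h6 : ‖z (x, s) + z (x', s')‖ ≤ r := by
    rw [dY_eq, z_not, sub_neg_eq_add] at h3
    exact (le_max_left _ _).trans h3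
  have h7 := nrm _ _ (z_ne (x, s)) (z_ne (x', s'))
  have h8 : 4 * r < 2 * ‖z (x', s')‖ * ε := (div_lt_iff₀ hε).1 (by linarith)
  have h9 : 0 < ‖z (x', s')‖ := norm_pos_iff.2 (z_ne _)
  refine le_of_mul_le_mul_right ?_ h9
  change ‖θ (x, s) + θ (x', s')‖ * _ ≤ _ at h7
  linarith

def bs (u v : ℤ) : XX := ⟨(u, |v|, 0), abs_nonneg v, le_rfl, Or.inl rfl⟩

lemma dX_one {x x' : XX} (h : |x.1.1 - x'.1.1| + |x.1.2.1 - x'.1.2.1| + |x.1.2.2 - x'.1.2.2| ≤ 1) :
    dX x x' ≤ 1 := by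
  have := dY_le (y := (x, true)) (y' := (x', true)) h
  exact (dX_le x x' true true).trans (by exact_mod_cast this)

section
variable (f : XX → XX × Bool) (s : ℕ) (hf : ∀ x x', dX x x' ≤ 1 → dY (f x) (f x') ≤ s)
include hf

lemma chain (g : ℕ → XX) (h : ∀ i, dX (g i) (g (i + 1)) ≤ 1) (n : ℕ) :
    dY (f (g 0)) (f (g n)) ≤ s * n := by
  induction n with
  | zero => simp [dY]
  | succ n ih =>
    have := dY_tri (f (g 0)) (f (g n)) (f (g (n + 1)))
    have := hf _ _ (h n)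
    push_cast; linarith

lemma moveU (u v : ℤ) (n : ℕ) : dY (f (bs u v)) (f (bs (u + n) v)) ≤ s * n := by
  have := chain f s hf (fun i => bs (u + i) v) (fun i => dX_one (by simp [bs])) n
  simpa using this

lemma moveV (u v : ℤ) (n : ℕ) : dY (f (bs u v)) (f (bs u (v + n))) ≤ s * n := by
  have := chain f s hf (fun i => bs u (v + i)) (fun i => dX_one (by
    have := abs_abs_sub_abs_le_abs_sub (v + i) (v + (i + 1 : ℕ))
    simpa [bs] using this)) n
  simpa using this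

lemma moveB (u v : ℤ) (b : ℕ) (h : 0 ≤ v ∧ (0 : ℤ) ≤ b ∧ ((b : ℤ) = 0 ∨ ∃ j, InG j (u, v, b))) :
    dY (f (bs u v)) (f ⟨(u, v, b), h⟩) ≤ s * b := by
  have := chain f s hf (fun i => ⟨(u, v, min (i : ℤ) b), h.1, by positivity, by
    rcases h.2.2 with h0 | ⟨j, h1, h2, h3, h4, h5, h6⟩
    · exact Or.inl (by dsimp only; omega)
    · exact Or.inr ⟨j, h1, h2, h3, h4, h5, (min_le_right _ _).trans_lt h6⟩⟩)
    (fun i => dX_one (by
      simp only [sub_self, abs_zero, zero_add, abs_le]; push_cast; omega)) b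
  convert this using 3
  · exact Subtype.ext (by simp [bs, abs_of_nonneg h.1])
  · simp

lemma hit (N j : ℕ) (hN : ∀ y, (f ⁻¹' {y}).encard ≤ N) (h1 : s ≤ ℓ j) (h2 : N ≤ ℓ j)
    (h3 : (ℓ j : ℤ) ∣ pu j) (h4 : 0 ≤ pv j) :
    ∃ y, dY (f (bs (pu j) (pv j))) y ≤ (3 * ℓ j ^ 7 : ℕ) ∧ InG j y.1.1 := by
  classical
  by_contra hc
  push Not at hc
  have m0 := ℓ_ge j
  have hj := lt_ℓ j
  have hs := ℓ_succ j
  have mem : ∀ q : Fin (ℓ j ^ 5) × Fin (ℓ j ^ 6) × Fin (ℓ j ^ 6),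
      InG j (pu j + (ℓ j * q.1 : ℕ), pv j + (q.2.1 : ℕ), (q.2.2 : ℕ)) := by
    rintro ⟨a, b, c⟩
    have a1 : ℓ j * a < ℓ j ^ 6 := by
      rw [pow_succ' _ 5]; exact Nat.mul_lt_mul_of_pos_left a.2 (by omega)
    refine ⟨h3.add (by push_cast; exact dvd_mul_right _ _), le_add_of_nonneg_right (by positivity),
      add_lt_add_right (by exact_mod_cast a1) _, le_add_of_nonneg_right (by positivity),
      add_lt_add_right (by exact_mod_cast b.2) _, by dsimp only; exact_mod_cast c.2⟩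
  let φ : Fin (ℓ j ^ 5) × Fin (ℓ j ^ 6) × Fin (ℓ j ^ 6) → XX := fun q =>
    ⟨_, add_nonneg h4 (by positivity), by positivity, Or.inr ⟨j, mem q⟩⟩
  have φi : Function.Injective φ := by
    rintro ⟨a, b, c⟩ ⟨a', b', c'⟩ e
    have e1 := congrArg Subtype.val e
    simp only [φ, Prod.mk.injEq, add_right_inj, Nat.cast_inj] at e1
    obtain rfl := Fin.ext (Nat.eq_of_mul_eq_mul_left (by omega) e1.1)
    obtain rfl := Fin.ext e1.2.1
    obtain rfl := Fin.ext e1.2.2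
    rfl
  have near : ∀ q, dY (f (bs (pu j) (pv j))) (f (φ q)) ≤ (3 * ℓ j ^ 7 : ℕ) := by
    rintro ⟨a, b, c⟩
    have a1 : ℓ j * a ≤ ℓ j ^ 6 := by
      rw [pow_succ' _ 5]; exact Nat.mul_le_mul_left _ a.2.le
    have d1 := moveU f s hf (pu j) (pv j) (ℓ j * a)
    have d2 := moveV f s hf (pu j + (ℓ j * a : ℕ)) (pv j) b
    have d3 := moveB f s hf _ _ c (φ (a, b, c)).2
    have d4 : s * (ℓ j * a) + s * b + s * c ≤ 3 * ℓ j ^ 7 := by
      have := Nat.mul_le_mul h1 a1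
      have := Nat.mul_le_mul h1 b.2.le
      have := Nat.mul_le_mul h1 c.2.le
      rw [pow_succ' _ 6]; omega
    refine ((dY_tri _ _ _).trans (add_le_add ((dY_tri _ _ _).trans (add_le_add d1 d2)) d3)).trans ?_
    exact_mod_cast d4
  generalize f (bs (pu j) (pv j)) = y0 at hc near
  generalize hρ : 3 * ℓ j ^ 7 = ρ at hc near
  let bx : ℕ → Finset (ℤ × ℤ × ℤ) := fun i =>
    Ico (pu i) (pu i + ℓ j) ×ˢ Ico (pv i) (pv i + ℓ j) ×ˢ Ico (0 : ℤ) (ℓ j)
  let T1 : Finset (ℤ × ℤ × ℤ) := I (co y0).1 ρ ×ˢ I (co y0).2.1 ρ ×ˢ {0}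
  let T2 : Finset (ℤ × ℤ × ℤ) :=
    (I (co y0).1 ρ).filter ((ℓ (j + 1) : ℤ) ∣ ·) ×ˢ I (co y0).2.1 ρ ×ˢ I (co y0).2.2 ρ
  let T3 : Finset (ℤ × ℤ × ℤ) := (range j).biUnion fun i => bx i ∪ (bx i).image ng
  have maps : ∀ q ∈ (univ : Finset (Fin (ℓ j ^ 5) × Fin (ℓ j ^ 6) × Fin (ℓ j ^ 6))),
      co (f (φ q)) ∈ T1 ∪ T2 ∪ T3 := by
    intro q _
    have n1 := near q
    have n2 := hc _ n1
    generalize f (φ q) = y at n1 n2
    obtain ⟨a1, a2, a3⟩ := le_dY (a := ρ) (by exact_mod_cast n1)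
    obtain ⟨⟨p, p1, p2, p3⟩, t⟩ := y
    have cb : (co (⟨p, p1, p2, p3⟩, t)).2.2 = p.2.2 := by cases t <;> rfl
    rcases p3 with p3 | ⟨i, hi⟩
    · exact mem_union_left _ (mem_union_left _ (mem_product.2 ⟨mem_I.2 a1,
        mem_product.2 ⟨mem_I.2 a2, mem_singleton.2 (cb.trans p3)⟩⟩))
    rcases lt_trichotomy i j with hij | rfl | hij
    · refine mem_union_right _ (mem_biUnion.2 ⟨i, mem_range.2 hij, ?_⟩)
      have b1 : (ℓ i : ℤ) ^ 6 ≤ ℓ j := by
        have := ℓ_ge i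
        exact_mod_cast (Nat.pow_le_pow_right (by omega) (by norm_num : 6 ≤ 10)).trans
          ((ℓ_succ i).ge.trans (ℓ_mono hij))
      obtain ⟨-, c1, c2, c3, c4, c5⟩ := hi
      have b2 : p ∈ bx i := mem_product.2 ⟨mem_Ico.2 ⟨c1, by omega⟩,
        mem_product.2 ⟨mem_Ico.2 ⟨c3, by omega⟩, mem_Ico.2 ⟨p2, by omega⟩⟩⟩
      cases t
      · exact mem_union_right _ (mem_image_of_mem _ b2)
      · exact mem_union_left _ b2
    · exact absurd hi n2
    · refine mem_union_left _ (mem_union_right _ (mem_product.2 ⟨mem_filter.2 ⟨mem_I.2 a1, ?_⟩,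
        mem_product.2 ⟨mem_I.2 a2, mem_I.2 a3⟩⟩))
      have b1 : (ℓ (j + 1) : ℤ) ∣ p.1 := (Int.natCast_dvd_natCast.2 (ℓ_dvd hij)).trans hi.1
      cases t
      · exact (dvd_neg.2 b1)
      · exact b1
  have fib : ∀ c ∈ T1 ∪ T2 ∪ T3, (univ.filter fun q => co (f (φ q)) = c).card ≤ N := by
    intro c _
    rcases (univ.filter fun q => co (f (φ q)) = c).eq_empty_or_nonempty with h | ⟨q0, h0⟩
    · rw [h]; simp
    have h := (Set.encard_le_encard_of_injOn (f := φ)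
      (s := ↑(univ.filter fun q => co (f (φ q)) = c)) (t := f ⁻¹' {f (φ q0)})
      (fun q hq => co_inj ((mem_filter.1 hq).2.trans (mem_filter.1 h0).2.symm))
      φi.injOn).trans (hN _)
    rw [Set.encard_coe_eq_coe_finsetCard] at h
    exact_mod_cast h
  have cnt := card_le_mul_card_image_of_maps_to maps N fib
  have c1 : T1.card = (2 * ρ + 1) * (2 * ρ + 1) := by
    rw [card_product, card_product, card_I, card_I, card_singleton, mul_one]
  have p3 : 64 ^ 3 * ℓ j ^ 7 ≤ ℓ j ^ 10 := by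
    rw [show 10 = 3 + 7 from rfl, pow_add]
    exact Nat.mul_le_mul_right _ (Nat.pow_le_pow_left m0 3)
  have p7 : 0 < ℓ j ^ 7 := by positivity
  have c2 : T2.card ≤ (2 * ρ + 1) * (2 * ρ + 1) := by
    rw [card_product, card_product, card_I, card_I]
    refine (Nat.mul_le_mul_right _ (card_le_one.2 fun a ha b hb => ?_)).trans (one_mul _).le
    rw [mem_filter, mem_I, abs_le] at ha hb
    have := Int.eq_zero_of_abs_lt_dvd (ha.2.sub hb.2) (by rw [abs_lt]; omega)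
    omega
  have c3 : T3.card ≤ j * (2 * ℓ j ^ 3) := by
    refine (card_biUnion_le_card_mul _ _ _ fun i _ => ?_).trans (by rw [card_range])
    have : (bx i).card = ℓ j ^ 3 := by
      simp only [bx, card_product, Int.card_Ico, add_sub_cancel_left, sub_zero, Int.toNat_natCast]
      ring
    refine (card_union_le _ _).trans ?_
    have := card_image_le (s := bx i) (f := ng)
    omega
  have c4 : (T1 ∪ T2 ∪ T3).card ≤ 100 * ℓ j ^ 14 := by
    have e1 := card_union_le (T1 ∪ T2) T3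
    have e2 := card_union_le T1 T2
    have e3 : (2 * ρ + 1) * (2 * ρ + 1) ≤ 49 * ℓ j ^ 14 :=
      (Nat.mul_le_mul (show 2 * ρ + 1 ≤ 7 * ℓ j ^ 7 by omega)
        (show 2 * ρ + 1 ≤ 7 * ℓ j ^ 7 by omega)).trans (by ring_nf; rfl)
    have e4 : j * (2 * ℓ j ^ 3) ≤ 2 * ℓ j ^ 14 :=
      (Nat.mul_le_mul_right _ hj).trans (by
        have := Nat.pow_le_pow_right (show 0 < ℓ j by omega) (show 4 ≤ 14 by norm_num)
        nlinarith)
    omega
  simp only [card_univ, Fintype.card_prod, Fintype.card_fin] at cnt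
  have c5 := cnt.trans (Nat.mul_le_mul h2 c4)
  have c6 : ℓ j ^ 15 * ℓ j ^ 2 ≤ ℓ j ^ 15 * 100 := by
    calc _ = ℓ j ^ 5 * (ℓ j ^ 6 * ℓ j ^ 6) := by ring
      _ ≤ _ := c5
      _ = _ := by ring
  have c7 := Nat.le_of_mul_le_mul_left c6 (by positivity)
  nlinarith

lemma noreg (N : ℕ) (hN : ∀ y, (f ⁻¹' {y}).encard ≤ N) : False := by
  obtain ⟨n, hn1, hn2⟩ : ∃ n, 3 * s + 6 ≤ n ∧ N ≤ n := ⟨3 * s + 6 + N, by omega, by omega⟩
  obtain ⟨L, hL⟩ : ∃ L : ℕ, ℓ ((2 * n + 1) ^ 2) = L := ⟨_, rfl⟩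
  have L0 : 64 ≤ L := hL ▸ ℓ_ge _
  have pu' : ∀ k, pu (Nat.pair n k) = ((k : ℤ) - n) * L := fun k => by
    simp only [pu, Nat.unpair_pair, Lq, hL]
  have pv' : ∀ k, pv (Nat.pair n k) = (n - |(k : ℤ) - n|) * L := fun k => by
    simp only [pv, Nat.unpair_pair, Lq, hL]
  have key : ∀ k, k ≤ 2 * n → ∃ y : XX × Bool,
      dY (f (bs (((k : ℤ) - n) * L) ((n - |(k : ℤ) - n|) * L))) y ≤ L ∧
      ((k : ℤ) - n) * L ≤ y.1.1.1 ∧ y.1.1.1 ≤ ((k : ℤ) - n) * L + L ∧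
      (n - |(k : ℤ) - n|) * L ≤ y.1.1.2.1 := by
    intro k hk
    have j1 : Nat.pair n k + 1 ≤ (2 * n + 1) ^ 2 :=
      (Nat.pair_lt_max_add_one_sq n k).trans_le (Nat.pow_le_pow_left (by omega) 2)
    have j2 : n ≤ ℓ (Nat.pair n k) := (Nat.left_le_pair n k).trans (lt_ℓ _)
    have j3 : ℓ (Nat.pair n k) ^ 10 ≤ L := (ℓ_succ _).ge.trans (hL ▸ ℓ_mono j1)
    have j4 : ℓ (Nat.pair n k) ∣ L := hL ▸ ℓ_dvd (by omega)
    obtain ⟨y, y1, -, y2, y3, y4, -⟩ := hit f s hf N (Nat.pair n k) hN (by omega) (by omega)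
      (by rw [pu']; exact (Int.natCast_dvd_natCast.2 j4).mul_left _)
      (by rw [pv']; exact mul_nonneg (by rw [sub_nonneg, abs_le]; omega) (by positivity))
    have m0 := ℓ_ge (Nat.pair n k)
    generalize ℓ (Nat.pair n k) = m at *
    have p3 : 64 ^ 3 * m ^ 7 ≤ m ^ 10 := by
      rw [show 10 = 3 + 7 from rfl, pow_add]
      exact Nat.mul_le_mul_right _ (Nat.pow_le_pow_left m0 3)
    have p6 : (m : ℤ) ^ 6 ≤ L := by
      exact_mod_cast (Nat.pow_le_pow_right (by omega) (by norm_num : 6 ≤ 10)).trans j3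
    rw [pu'] at y1 y2 y3
    rw [pv'] at y1 y4
    exact ⟨y, y1.trans (by exact_mod_cast (by omega : 3 * m ^ 7 ≤ L)), y2, by omega, y4⟩
  have : Nonempty (XX × Bool) := ⟨(bs 0 0, true)⟩
  choose! y y1 y2 y3 y4 using key
  have L1 : (0 : ℤ) < L := by omega
  have step : ∀ k, k < 2 * n → (y (k + 1)).2 = (y k).2 := by
    intro k hk
    have d1 := moveU f s hf (((k : ℤ) - n) * L) ((n - |(k : ℤ) - n|) * L) L
    have e1 : ((k : ℤ) - n) * L + L = (((k + 1 : ℕ) : ℤ) - n) * L := by push_cast; ring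
    rw [e1] at d1
    have d2 : dY (f (bs ((((k + 1 : ℕ) : ℤ) - n) * L) ((n - |(k : ℤ) - n|) * L)))
        (f (bs ((((k + 1 : ℕ) : ℤ) - n) * L) ((n - |((k + 1 : ℕ) : ℤ) - n|) * L))) ≤ s * L := by
      rcases lt_or_ge k n with h | h
      · have e2 : (n - |((k + 1 : ℕ) : ℤ) - n|) * L = (n - |(k : ℤ) - n|) * L + L := by
          rw [abs_of_nonpos (by omega), abs_of_nonpos (by omega)]; push_cast; ring
        rw [e2]; exact moveV f s hf _ _ L
      · have e2 : (n - |(k : ℤ) - n|) * L = (n - |((k + 1 : ℕ) : ℤ) - n|) * L + L := by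
          rw [abs_of_nonneg (by omega), abs_of_nonneg (by omega)]; push_cast; ring
        rw [e2, dY_comm]; exact moveV f s hf _ _ L
    have d3 := y1 k hk.le
    have d4 := y1 (k + 1) hk
    rw [dY_comm] at d3
    have d5 := (dY_tri _ _ _).trans (add_le_add d3 ((dY_tri _ _ _).trans
      (add_le_add ((dY_tri _ _ _).trans (add_le_add d1 d2)) d4)))
    obtain ⟨a1, a2, -⟩ := le_dY (y := y k) (y' := y (k + 1)) (a := (2 * s + 2) * L)
      (d5.trans (by push_cast; linarith))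
    have b1 := y2 k hk.le
    have b2 := y3 k hk.le
    have b3 := y4 k hk.le
    have b4 := y2 (k + 1) hk
    have b5 := y3 (k + 1) hk
    rw [← e1] at b4 b5
    have b6 := (y (k + 1)).1.2.1
    have b7 : (3 * s + 6 : ℤ) * L ≤ n * L := by gcongr; omega
    have b8 : (n - |(k : ℤ) - n|) * L = n * L - |((k : ℤ) - n) * L| := by
      rw [abs_mul, abs_of_pos L1]; ring
    rw [b8] at b3
    generalize y k = w at *
    generalize y (k + 1) = w' at *
    obtain ⟨x, t⟩ := w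
    obtain ⟨x', t'⟩ := w'
    generalize ((k : ℤ) - n) * L = P at *
    have s0 : (0 : ℤ) ≤ s * L := by positivity
    cases t <;> cases t' <;> first | rfl | skip
    all_goals
      exfalso
      simp only [co_t, co_f, ng, abs_le] at a1 a2 b1 b2 b3 b4 b5 b6
      rcases abs_cases P with h | h <;> nlinarith
  have all : ∀ k, k ≤ 2 * n → (y k).2 = (y 0).2 := by
    intro k
    induction k with
    | zero => intro _; rfl
    | succ k ih => intro hk; rw [step k hk, ih (by omega)]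
  have d1 := y1 0 (by omega)
  have d2 := y1 (2 * n) le_rfl
  have b1 := y3 0 (by omega)
  have b2 := y2 (2 * n) le_rfl
  have e1 : (((2 * n : ℕ) : ℤ) - n) = n := by push_cast; ring
  have e2 : (((0 : ℕ) : ℤ) - n) = - n := by push_cast; ring
  rw [e1] at d2 b2
  rw [e2] at d1 b1
  rw [abs_neg] at d1
  rw [Nat.abs_cast, sub_self, zero_mul] at d1 d2
  have d3 := hf (bs (-n * L) 0) (bs (n * L) 0) ((dX_le _ _ true false).trans (by
    have := dY_le (y := (bs (-n * L) 0, true)) (y' := (bs (n * L) 0, false)) (a := 1)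
      (by simp [co_t, co_f, ng, bs])
    exact_mod_cast this))
  rw [dY_comm] at d1
  have d5 := (dY_tri _ _ _).trans (add_le_add d1 ((dY_tri _ _ _).trans (add_le_add d3 d2)))
  obtain ⟨a1, -⟩ := le_dY (y := y 0) (y' := y (2 * n)) (a := s + 2 * L)
    (d5.trans (by push_cast; linarith))
  have h := all (2 * n) le_rfl
  have b7 : (3 * s + 6 : ℤ) * L ≤ n * L := by gcongr; omega
  have b8 : (s : ℤ) ≤ s * L := le_mul_of_one_le_right (by positivity) L1
  generalize y 0 = w at *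
  generalize y (2 * n) = w' at *
  obtain ⟨x, t⟩ := w
  obtain ⟨x', t'⟩ := w'
  obtain rfl : t' = t := h
  cases t' <;> simp only [co_t, co_f, ng, abs_le] at a1 b1 b2 <;> nlinarith

end

end Pool.Agent.H31.Mono
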