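import Mathlib

set_option autoImplicit false

namespace Pool.Agent.H31.Pock

def mul (D N : ℕ) (x y : ℕ × ℕ) : ℕ × ℕ := ((x.1 * y.1 + D * (x.2 * y.2)) % N, (x.1 * y.2 + x.2 * y.1) % N)

def pw (D N : ℕ) : ℕ → ℕ → ℕ × ℕ → ℕ × ℕ
  | 0, _, _ => (1, 0)
  | f + 1, e, x => if e = 0 then (1, 0) else if e % 2 = 0 then pw D N f (e / 2) (mul D N x x)
      else mul D N x (pw D N f (e / 2) (mul D N x x))

lemma mul_ev {K : Type*} [CommRing K] {D N : ℕ} (s : K) (hs : s ^ 2 = D) (hN : (N : K) = 0) (x y : ℕ × ℕ) :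
    ((mul D N x y).1 : K) + (mul D N x y).2 * s = (x.1 + x.2 * s) * (y.1 + y.2 * s) := by
  have m : ∀ a : ℕ, ((a % N : ℕ) : K) = a := fun a => by
    conv_rhs => rw [← Nat.mod_add_div a N]
    push_cast; rw [hN]; ring
  simp only [mul, m]; push_cast; linear_combination (-(x.2 : K) * y.2) * hs

lemma pw_ev {K : Type*} [CommRing K] {D N : ℕ} (s : K) (hs : s ^ 2 = D) (hN : (N : K) = 0) :
    ∀ (f e : ℕ) (x : ℕ × ℕ), e < 2 ^ f → ((pw D N f e x).1 : K) + (pw D N f e x).2 * s = (x.1 + x.2 * s) ^ e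
  | 0, e, x, h => by obtain rfl : e = 0 := by omega
                     simp [pw]
  | f + 1, e, x, h => by
    have ih := pw_ev s hs hN f (e / 2) (mul D N x x) (by omega)
    rw [mul_ev s hs hN, ← sq, ← pow_mul] at ih
    unfold pw
    split_ifs with h0 h1
    · simp [h0]
    · rw [ih]; congr 1; omega
    · rw [mul_ev s hs hN, ih, ← pow_succ']; congr 1; omega

/-- certificate check -/
def chk (N D : ℕ) (x : ℕ × ℕ) (L : List ℕ) (f : ℕ) : Bool :=
  decide (1 < N) && (decide (N < (L.prod - 1) ^ 2) && (decide (L.prod < 2 ^ f) &&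
    (decide (x.1 * x.1 % N = (1 + D * (x.2 * x.2)) % N) && (decide (pw D N f L.prod x = (1, 0)) &&
      L.all fun r => decide (Nat.gcd (2 * ((pw D N f (L.prod / r) x).1 + N - 1)) N = 1)))))

theorem prime_of (N D : ℕ) (x : ℕ × ℕ) (L : List ℕ) (f : ℕ) (hL : ∀ r ∈ L, r.Prime) (h : chk N D x L f = true) :
    N.Prime := by
  simp only [chk, Bool.and_eq_true, decide_eq_true_iff, List.all_eq_true] at h
  obtain ⟨h1, h2, h3, h4, h5, h6⟩ := h
  by_contra hp
  have hq := Nat.minFac_sq_le_self (by omega) hp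
  have qp := Nat.minFac_prime h1.ne'
  have qd := Nat.minFac_dvd N
  generalize N.minFac = q at *
  have := Fact.mk qp
  obtain ⟨K, _, _, s, hs⟩ : ∃ (K : Type) (_ : Field K) (_ : CharP K q) (s : K), s ^ 2 = D :=
    ⟨AlgebraicClosure (ZMod q), inferInstance, inferInstance, IsAlgClosed.exists_pow_nat_eq _ two_pos⟩
  have hN : (N : K) = 0 := (CharP.cast_eq_zero_iff K q N).2 qd
  have nm : ((x.1 : K) + x.2 * s) * (x.1 + x.2 * -s) = 1 := by
    have : ((x.1 * x.1 : ℕ) : K) = (1 + D * (x.2 * x.2) : ℕ) :=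
      (CharP.natCast_eq_natCast K q).2 (Nat.ModEq.of_dvd qd h4)
    push_cast at this; linear_combination this - (x.2 : K) ^ 2 * hs
  have F0 : 0 < L.prod := by
    by_contra! h0
    rw [Nat.le_zero.1 h0] at h2; simp at h2
  have ord : orderOf ((x.1 : K) + x.2 * s) = L.prod := by
    refine orderOf_eq_of_pow_and_pow_div_prime F0 (by rw [← pw_ev s hs hN f _ x h3, h5]; simp) fun r hr hd e => ?_
    obtain ⟨r', hr', hd⟩ := (Prime.dvd_prod_iff hr.prime).1 hd
    obtain rfl := (Nat.prime_dvd_prime_iff_eq hr (hL _ hr')).1 hd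
    have lt : L.prod / r < 2 ^ f := (Nat.div_le_self _ _).trans_lt h3
    have e1 := pw_ev s hs hN f _ x lt
    have e2 := pw_ev (-s) (by rw [neg_sq, hs]) hN f _ x lt
    have e3 : ((x.1 : K) + x.2 * -s) ^ (L.prod / r) = 1 := by
      have := congrArg (· ^ (L.prod / r)) nm
      simp only [mul_pow, e, one_mul, one_pow] at this; exact this
    have e4 : q ∣ 2 * ((pw D N f (L.prod / r) x).1 + N - 1) := (CharP.cast_eq_zero_iff K q _).1 (by
      rw [Nat.add_sub_assoc h1.le]; push_cast [Nat.cast_sub h1.le]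
      linear_combination e1 + e2 + e + e3 + 2 * hN)
    exact qp.one_lt.ne' (Nat.dvd_one.1 (h6 r hr' ▸ Nat.dvd_gcd e4 qd))
  have fr : ∀ a : ℕ, (a : K) ^ q = a := fun a => by
    have := map_natCast (frobenius K q) a
    rwa [frobenius_def] at this
  have e : ((x.1 : K) + x.2 * s) ^ q = x.1 + x.2 * s ^ q := by rw [add_pow_char, mul_pow, fr, fr]
  have : L.prod ≤ q + 1 := by
    rcases sq_eq_sq_iff_eq_or_eq_neg.1 (show (s ^ q) ^ 2 = s ^ 2 by rw [← pow_mul, mul_comm, pow_mul, hs, fr]) with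
      h | h
    · rw [h] at e
      have : ((x.1 : K) + x.2 * s) ^ (q - 1) = 1 := by
        refine mul_left_cancel₀ (left_ne_zero_of_mul_eq_one nm) ?_
        rw [← pow_succ', Nat.sub_add_cancel qp.one_le, e, mul_one]
      have := Nat.le_of_dvd (by have := qp.two_le; omega) (ord ▸ orderOf_dvd_of_pow_eq_one this)
      omega
    · rw [h] at e
      exact Nat.le_of_dvd (by omega) (ord ▸ orderOf_dvd_of_pow_eq_one (by rw [pow_succ', e, nm]))
  have := Nat.pow_le_pow_left (show L.prod - 1 ≤ q by omega) 2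
  omega

theorem not_prime_of (N f : ℕ) (h1 : N < 2 ^ f) (h : (pw 0 N f N (2, 0)).1 % N ≠ 2 % N) : ¬ N.Prime := fun hp => by
  have := Fact.mk hp
  have := pw_ev (K := ZMod N) (D := 0) (N := N) 0 (by simp) (by simp) f N (2, 0) h1
  rw [ZMod.pow_card, mul_zero, mul_zero, add_zero, add_zero] at this
  exact h ((ZMod.natCast_eq_natCast_iff' _ _ _).1 this)

end Pool.Agent.H31.Pock
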