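import Mathlib
import Pool.Agent.H31.Interl
import Pool.Agent.H31.HalfRel

set_option autoImplicit false

namespace H31.RSP
open Polynomial H31.HalfRel

/-- Descent positions `k ∈ {1, …, n-1}` (1-indexed): the `k`-th letter (index `k-1` of `Fin n`)
is larger than the `(k+1)`-st letter (index `k`). -/
def DES {n : ℕ} (π : Equiv.Perm (Fin n)) : Finset ℕ :=
  (Finset.Icc 1 (n - 1)).filter
    (fun k => ∃ a b : Fin n, a.val + 1 = k ∧ b.val = k ∧ π b < π a)

/-- `π` is run-sorted: its word can be cut into consecutive nonempty blocks (`B` is the set of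
positions where a block starts) such that each block is increasing and the first (= smallest)
letters of the blocks increase from left to right. -/
def IsRS {n : ℕ} (π : Equiv.Perm (Fin n)) : Prop :=
  ∃ B : Finset (Fin n), (∀ a : Fin n, a.val = 0 → a ∈ B) ∧
    (∀ a b : Fin n, a.val + 1 = b.val → b ∉ B → π a < π b) ∧
    (∀ a ∈ B, ∀ b ∈ B, a < b → π a < π b)

open Classical in
/-- The polynomial `Q_n` in the variables `x_1, x_2, …`. -/
noncomputable def Q (n : ℕ) : MvPolynomial ℕ ℝ :=
  ∑ π ∈ Finset.univ.filter (fun π : Equiv.Perm (Fin n) => IsRS π), ∏ k ∈ DES π, MvPolynomial.X k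

/-- `Q_n^λ(t) = Q_n(λ_1 t, …, λ_n t)`. -/
noncomputable def q (lam : ℕ → ℝ) (n : ℕ) : ℝ[X] :=
  MvPolynomial.aeval (fun k => C (lam k) * X) (Q n)

lemma DES_eq {n : ℕ} (π : Equiv.Perm (Fin (n + 1))) :
    DES π = (Finset.univ.filter (fun k : Fin n => π k.succ < π k.castSucc)).image
      (fun k => k.val + 1) := by
  ext k
  simp only [DES, Finset.mem_filter, Finset.mem_Icc, Finset.mem_image, Finset.mem_univ, true_and]
  constructor
  · rintro ⟨⟨h1, h2⟩, a, b, ha, hb, hab⟩
    refine ⟨⟨a.val, by omega⟩, ?_, ha⟩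
    have e1 : (⟨a.val, by omega⟩ : Fin n).succ = b := Fin.ext (by simp; omega)
    have e2 : (⟨a.val, by omega⟩ : Fin n).castSucc = a := Fin.ext (by simp)
    rw [e1, e2]
    exact hab
  · rintro ⟨a, ha, rfl⟩
    exact ⟨⟨by omega, by have := a.2; omega⟩, a.castSucc, a.succ, by simp, by simp, ha⟩

lemma prod_DES {M : Type} [CommMonoid M] (c : ℕ → M) {n : ℕ} (π : Equiv.Perm (Fin (n + 1))) :
    ∏ k ∈ DES π, c k = ∏ k : Fin n, if π k.succ < π k.castSucc then c (k.val + 1) else 1 := by
  rw [DES_eq, Finset.prod_image, Finset.prod_filter]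
  intro a _ b _ h
  exact Fin.ext (by simpa using h)

/-- every descent bottom is a right-to-left minimum -/
def Good {n : ℕ} (π : Equiv.Perm (Fin (n + 1))) : Prop :=
  ∀ k : Fin n, π k.succ < π k.castSucc → ∀ l, k.succ < l → π k.succ < π l

lemma isRS_iff {n : ℕ} (π : Equiv.Perm (Fin (n + 1))) : IsRS π ↔ Good π ∧ π 0 = 0 := by
  constructor
  · rintro ⟨B, h0, h1, h2⟩
    have key : ∀ b ∈ B, ∀ m : ℕ, ∀ l : Fin (n + 1), l.val = m → b ≤ l → π b ≤ π l := by
      intro b hb m
      induction m with
      | zero =>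
        intro l hl hbl
        have : b = l := Fin.ext (by have := Fin.le_def.mp hbl; omega)
        rw [this]
      | succ m ih =>
        intro l hl hbl
        rcases hbl.eq_or_lt with rfl | hbl
        · exact le_rfl
        by_cases hB : l ∈ B
        · exact (h2 b hb l hB hbl).le
        · have a1 := ih ⟨m, by omega⟩ rfl (by
            have := Fin.lt_def.mp hbl
            rw [Fin.le_def]
            simp only
            omega)
          exact a1.trans (h1 ⟨m, by omega⟩ l (by simp [hl]) hB).le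
    constructor
    · intro k hk l hl
      have hB : k.succ ∈ B := by
        by_contra hB
        exact absurd (h1 k.castSucc k.succ (by simp) hB) (not_lt.mpr hk.le)
      refine lt_of_le_of_ne (key _ hB _ l rfl hl.le) (fun e => ?_)
      exact hl.ne (π.injective e)
    · have := key 0 (h0 0 rfl) _ (π.symm 0) rfl (Fin.zero_le _)
      rw [Equiv.apply_symm_apply] at this
      exact le_antisymm this (Fin.zero_le _)
  · rintro ⟨hG, h0⟩
    classical
    refine ⟨Finset.univ.filter (fun b => ∀ l, b < l → π b < π l), ?_, ?_, ?_⟩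
    · intro a ha
      have : a = 0 := Fin.ext ha
      subst this
      simp only [Finset.mem_filter, Finset.mem_univ, true_and]
      intro l hl
      refine lt_of_le_of_ne (by rw [h0]; exact Fin.zero_le _) (fun e => ?_)
      exact hl.ne (π.injective e)
    · intro a b hab hb
      by_contra hlt
      apply hb
      simp only [Finset.mem_filter, Finset.mem_univ, true_and]
      have e1 : (⟨a.val, by omega⟩ : Fin n).succ = b := Fin.ext (by simp; omega)
      have e2 : (⟨a.val, by omega⟩ : Fin n).castSucc = a := Fin.ext (by simp)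
      have := hG ⟨a.val, by omega⟩
      rw [e1, e2] at this
      apply this
      refine lt_of_le_of_ne (not_lt.mp hlt) (fun e => ?_)
      have := congrArg Fin.val (π.injective e)
      omega
    · intro a ha b _ hab
      exact (Finset.mem_filter.mp ha).2 b hab

/-- prepend the first letter `i`. -/
def extF {n : ℕ} (i : Fin (n + 1)) (σ : Equiv.Perm (Fin n)) : Equiv.Perm (Fin (n + 1)) :=
  (finSuccEquiv' 0).trans ((Equiv.optionCongr σ).trans (finSuccEquiv' i).symm)

lemma extF_zero {n : ℕ} (i : Fin (n + 1)) (σ : Equiv.Perm (Fin n)) : extF i σ 0 = i := by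
  simp [extF]

lemma extF_succ {n : ℕ} (i : Fin (n + 1)) (σ : Equiv.Perm (Fin n)) (k : Fin n) :
    extF i σ k.succ = i.succAbove (σ k) := by
  have : finSuccEquiv' 0 k.succ = some k := by
    rw [← Fin.zero_succAbove, finSuccEquiv'_succAbove]
  simp [extF, this]

lemma extF_bij (n : ℕ) : Function.Bijective
    (fun p : Fin (n + 1) × Equiv.Perm (Fin n) => extF p.1 p.2) := by
  rw [Fintype.bijective_iff_injective_and_card]
  constructor
  · rintro ⟨i, σ⟩ ⟨j, τ⟩ h
    simp only at h
    have h1 : i = j := by rw [← extF_zero i σ, h, extF_zero]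
    subst h1
    have h2 : σ = τ := by
      ext k
      have := extF_succ i σ k
      rw [h, extF_succ] at this
      rw [Fin.succAbove_right_injective this]
    rw [h2]
  · simp [Fintype.card_perm, Nat.factorial_succ]

lemma sum_perm {M : Type} [AddCommMonoid M] {n : ℕ} (f : Equiv.Perm (Fin (n + 1)) → M) :
    ∑ π, f π = ∑ i : Fin (n + 1), ∑ σ : Equiv.Perm (Fin n), f (extF i σ) := by
  rw [← (extF_bij n).sum_comp f, Fintype.sum_prod_type]

lemma good_ext {n : ℕ} (i : Fin (n + 2)) (σ : Equiv.Perm (Fin (n + 1))) :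
    Good (extF i σ) ↔ Good σ ∧ ((σ 0).val < i.val → (σ 0).val = 0) := by
  unfold Good
  rw [Fin.forall_fin_succ, and_comm]
  refine and_congr ?_ ?_
  · refine forall_congr' (fun k => ?_)
    rw [← Fin.succ_castSucc, extF_succ, extF_succ, Fin.succAbove_lt_succAbove_iff]
    refine imp_congr Iff.rfl ?_
    rw [Fin.forall_fin_succ]
    simp only [Fin.not_lt_zero, false_imp_iff, true_and, Fin.succ_lt_succ_iff, extF_succ,
      Fin.succAbove_lt_succAbove_iff]
  · rw [Fin.castSucc_zero, extF_zero, extF_succ, Fin.succAbove_lt_iff_castSucc_lt, Fin.lt_def,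
      Fin.val_castSucc]
    refine imp_congr Iff.rfl ?_
    rw [Fin.forall_fin_succ]
    simp only [Fin.not_lt_zero, false_imp_iff, true_and, Fin.succ_lt_succ_iff, extF_succ,
      Fin.succAbove_lt_succAbove_iff]
    constructor
    · intro h
      by_contra h0
      have h1 : σ.symm 0 ≠ 0 := by
        intro e
        apply h0
        have := congrArg σ e
        rw [Equiv.apply_symm_apply] at this
        rw [← this]
        rfl
      have := h (σ.symm 0) (Fin.pos_iff_ne_zero.mpr h1)
      rw [Equiv.apply_symm_apply] at this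
      exact Fin.not_lt_zero _ this
    · intro h l hl
      have h0 : σ 0 = 0 := Fin.ext h
      refine lt_of_le_of_ne (by rw [h0]; exact Fin.zero_le _) (fun e => ?_)
      exact hl.ne (σ.injective e)

open Classical in
/-- weight -/
noncomputable def v {R : Type} [CommSemiring R] (c : ℕ → R) {n : ℕ}
    (π : Equiv.Perm (Fin (n + 1))) : R := if Good π then ∏ k ∈ DES π, c k else 0

lemma v_ext {R : Type} [CommSemiring R] (c : ℕ → R) {n : ℕ} (i : Fin (n + 2))
    (σ : Equiv.Perm (Fin (n + 1))) :
    v c (extF i σ) = v (fun k => c (k + 1)) σ *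
      (if (σ 0).val < i.val then (if (σ 0).val = 0 then c 1 else 0) else 1) := by
  have hw : ∏ k ∈ DES (extF i σ), c k = (∏ k ∈ DES σ, c (k + 1)) *
      (if (σ 0).val < i.val then c 1 else 1) := by
    rw [prod_DES, prod_DES (fun k => c (k + 1)), Fin.prod_univ_succ, mul_comm]
    congr 1
    · refine Finset.prod_congr rfl (fun k _ => ?_)
      rw [← Fin.succ_castSucc, extF_succ, extF_succ]
      simp only [Fin.succAbove_lt_succAbove_iff, Fin.val_succ]
    · rw [Fin.castSucc_zero, extF_zero, extF_succ]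
      simp only [Fin.succAbove_lt_iff_castSucc_lt]
      simp only [Fin.lt_def, Fin.val_castSucc, Fin.val_zero, zero_add]
  unfold v
  rw [hw]
  by_cases h1 : Good σ <;> by_cases h2 : (σ 0).val < i.val <;> by_cases h3 : (σ 0).val = 0 <;>
    simp [good_ext, h1, h2, h3]

/-- refined sums -/
noncomputable def T {R : Type} [CommSemiring R] (c : ℕ → R) (n : ℕ) (i : Fin (n + 1)) : R :=
  ∑ σ : Equiv.Perm (Fin n), v c (extF i σ)

lemma T_zero {R : Type} [CommSemiring R] (c : ℕ → R) (i : Fin 1) : T c 0 i = 1 := by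
  simp [T, v, Good, DES]

lemma T_succ {R : Type} [CommSemiring R] (c : ℕ → R) (n : ℕ) (i : Fin (n + 2)) :
    T c (n + 1) i = ∑ j : Fin (n + 1), T (fun k => c (k + 1)) n j *
      (if j.val < i.val then (if j.val = 0 then c 1 else 0) else 1) := by
  unfold T
  rw [sum_perm]
  refine Finset.sum_congr rfl (fun j _ => ?_)
  rw [Finset.sum_mul]
  refine Finset.sum_congr rfl (fun σ _ => ?_)
  rw [v_ext, extF_zero]

open Classical in
lemma sum_RS {R : Type} [CommSemiring R] (c : ℕ → R) (n : ℕ) :
    ∑ π ∈ Finset.univ.filter (fun π : Equiv.Perm (Fin (n + 1)) => IsRS π), ∏ k ∈ DES π, c k =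
      T c n 0 := by
  rw [Finset.sum_filter, sum_perm, Finset.sum_eq_single 0]
  · unfold T v
    refine Finset.sum_congr rfl (fun σ _ => ?_)
    simp [isRS_iff, extF_zero]
  · intro i _ hi
    refine Finset.sum_eq_zero (fun σ _ => ?_)
    simp [isRS_iff, extF_zero, hi]
  · simp

lemma q_eq (lam : ℕ → ℝ) (n : ℕ) : q lam (n + 1) = T (fun k => C (lam k) * X) n 0 := by
  rw [← sum_RS]
  simp [q, Q, map_sum, map_prod]

lemma aeval_q (lam : ℕ → ℝ) (n : ℕ) (z : ℂ) :
    aeval z (q lam (n + 1)) = T (fun k => (lam k : ℂ) * z) n 0 := by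
  rw [← sum_RS]
  simp [q, Q, map_sum, map_prod]

lemma T_S (z : ℂ) (hz : 0 < z.im) (n : ℕ) :
    ∀ lam : ℕ → ℝ, (∀ k, 1 ≤ k → k ≤ n → 0 < lam k) → ∀ i i' : Fin (n + 1), i.val ≤ i'.val →
      S z (T (fun k => (lam k : ℂ) * z) n i) (T (fun k => (lam k : ℂ) * z) n i') := by
  induction n with
  | zero =>
    intro lam _ i i' _
    have : i = i' := Fin.ext (by omega)
    rw [this]
    exact S_refl hz _
  | succ n ih =>
    intro lam hlam i i' hi
    have ih' := ih (fun k => lam (k + 1)) (fun k h1 h2 => hlam (k + 1) (by omega) (by omega))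
    by_cases hi0 : i'.val = 0
    · have : i = i' := Fin.ext (by omega)
      rw [this]
      exact S_refl hz _
    set t := T (fun k => (lam (k + 1) : ℂ) * z) n with ht
    set l := lam 1 with hl
    have hl0 : 0 ≤ l := (hlam 1 (by omega) (by omega)).le
    set A := ∑ j : Fin (n + 1), if i.val ≤ j.val ∧ j.val < i'.val then t j else 0 with hA
    set B := ∑ j : Fin (n + 1), if i'.val ≤ j.val then t j else 0 with hB
    set Z := ∑ j : Fin (n + 1), if j.val = 0 then t j else 0 with hZ
    have e2 : T (fun k => (lam k : ℂ) * z) (n + 1) i' = B + Z * ((l : ℂ) * z) := by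
      rw [T_succ, hB, hZ, Finset.sum_mul, ← Finset.sum_add_distrib]
      refine Finset.sum_congr rfl (fun j _ => ?_)
      split_ifs <;> first | (exfalso; omega) | simp [ht, hl]
    have hAB : S z A B := S_sum z _ _ _ _ (fun j j' => by
      split_ifs with h1 h2
      · exact ih' j j' (by omega)
      · exact S_zr _ _
      · exact S_zl _ _
      · exact S_zl _ _)
    have hZA : S z Z A := S_sum z _ _ _ _ (fun j j' => by
      split_ifs with h1 h2
      · exact ih' j j' (by omega)
      · exact S_zr _ _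
      · exact S_zl _ _
      · exact S_zl _ _)
    have hZB : S z Z B := S_sum z _ _ _ _ (fun j j' => by
      split_ifs with h1 h2
      · exact ih' j j' (by omega)
      · exact S_zr _ _
      · exact S_zl _ _
      · exact S_zl _ _)
    have hAX : S z A (B + Z * ((l : ℂ) * z)) := S_addr hAB (S_mul l hl0 hZA)
    rw [e2]
    by_cases hi1 : i.val = 0
    · have e1 : T (fun k => (lam k : ℂ) * z) (n + 1) i = A + B := by
        rw [T_succ, hA, hB, ← Finset.sum_add_distrib]
        refine Finset.sum_congr rfl (fun j _ => ?_)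
        split_ifs <;> first | (exfalso; omega) | simp [ht]
      rw [e1]
      exact S_addl hAX (S_addr (S_refl hz _) (S_mul l hl0 hZB))
    · have e1 : T (fun k => (lam k : ℂ) * z) (n + 1) i = A + (B + Z * ((l : ℂ) * z)) := by
        rw [T_succ, hA, hB, hZ, Finset.sum_mul, ← Finset.sum_add_distrib,
          ← Finset.sum_add_distrib]
        refine Finset.sum_congr rfl (fun j _ => ?_)
        split_ifs <;> first | (exfalso; omega) | simp [ht, hl]
      rw [e1]
      exact S_addl hAX (S_refl hz _)

lemma T_ne (z : ℂ) (hz : 0 < z.im) (n : ℕ) :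
    ∀ lam : ℕ → ℝ, (∀ k, 1 ≤ k → k ≤ n → 0 < lam k) →
      T (fun k => (lam k : ℂ) * z) n 0 ≠ 0 := by
  induction n with
  | zero => intro lam _; rw [T_zero]; exact one_ne_zero
  | succ n ih =>
    intro lam hlam h
    have hl' : ∀ k, 1 ≤ k → k ≤ n → 0 < lam (k + 1) :=
      fun k h1 h2 => hlam (k + 1) (by omega) (by omega)
    have ih' := ih (fun k => lam (k + 1)) hl'
    have hS := T_S z hz n (fun k => lam (k + 1)) hl' 0
    set t := T (fun k => (lam (k + 1) : ℂ) * z) n with ht
    have e1 : T (fun k => (lam k : ℂ) * z) (n + 1) 0 = ∑ j, t j := by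
      rw [T_succ]
      refine Finset.sum_congr rfl (fun j _ => ?_)
      simp [ht]
    have e2 : 0 < (z * t 0 * (starRingEnd ℂ) (∑ j, t j)).im := by
      rw [map_sum, Finset.mul_sum, Complex.im_sum]
      refine Finset.sum_pos' (fun j _ => (hS j (by simp)).2) ⟨0, Finset.mem_univ _, ?_⟩
      rw [mul_assoc, Complex.mul_conj]
      simp only [Complex.mul_im, Complex.ofReal_re, Complex.ofReal_im, mul_zero, zero_add]
      exact mul_pos hz (Complex.normSq_pos.mpr ih')
    rw [← e1, h] at e2
    simp at e2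

lemma q_ne (lam : ℕ → ℝ) (n : ℕ) (hlam : ∀ k, 1 ≤ k → k ≤ n → 0 < lam k) (z : ℂ)
    (hz : 0 < z.im) : aeval z (q lam (n + 1)) ≠ 0 := by
  rw [aeval_q]
  exact T_ne z hz n lam hlam

lemma T4 {R : Type} [CommRing R] (c : ℕ → R) :
    T c 4 0 = 1 + 3 * c 2 + 5 * c 3 + 3 * c 4 + 3 * c 2 * c 4 := by
  simp [T_succ, T_zero, Fin.sum_univ_succ]
  ring

lemma T5 {R : Type} [CommRing R] (c : ℕ → R) :
    T c 5 0 = 1 + 4 * c 2 + 9 * c 3 + 9 * c 4 + 4 * c 5 + 8 * c 2 * c 4 + 8 * c 2 * c 5 +
      9 * c 3 * c 5 := by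
  simp [T_succ, T_zero, Fin.sum_univ_succ]
  ring

end H31.RSP
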