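import Mathlib

set_option autoImplicit false

namespace Pool.Agent.H31.Schur
open Finset

abbrev H (X : Type) : Type := lp (fun _ : X => ℂ) 2

open Classical in
noncomputable def δ {X : Type} (x : X) : H X := lp.single 2 x 1

lemma inner_δ {X : Type} (x : X) (v : H X) : inner ℂ (δ x) v = v x := by
  classical rw [δ, lp.inner_single_left]; simp
lemma δ_self {X : Type} (x : X) : δ x x = 1 := by classical rw [δ, lp.single_apply_self]
lemma δ_ne {X : Type} {x y : X} (h : y ≠ x) : δ x y = 0 := by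
  classical rw [δ, lp.single_apply_ne _ _ _ h]
lemma norm_δ {X : Type} (x : X) : ‖δ x‖ = 1 := by
  classical rw [δ, lp.norm_single (by norm_num)]; simp

lemma ext_δ {X Y : Type} (p q : H X →L[ℂ] H Y) (h : ∀ y, p (δ y) = q (δ y)) : p = q := by
  classical
  refine lp.ext_continuousLinearMap (by simp) fun i => ?_
  ext1
  have := h i
  simp only [ContinuousLinearMap.comp_apply, lp.singleContinuousLinearMap_apply]
  convert this <;> rfl

lemma entry_le {X : Type} (a : H X →L[ℂ] H X) (x x' : X) : ‖a (δ x) x'‖ ≤ ‖a‖ := by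
  have h1 := lp.norm_apply_le_norm (by norm_num) (a (δ x)) x'
  have h2 := a.le_opNorm (δ x)
  rw [norm_δ, mul_one] at h2
  exact h1.trans h2

lemma matrix_op {X Y : Type} (m : Y → X → ℂ) (ε : ℝ) (hε : 0 ≤ ε) (N : ℕ)
    (hm : ∀ y x, ‖m y x‖ ≤ ε) (hr : ∀ y, {x | m y x ≠ 0}.encard ≤ N)
    (hc : ∀ x, {y | m y x ≠ 0}.encard ≤ N) :
    ∃ T : H X →L[ℂ] H Y, ‖T‖ ≤ ε * N ∧ ∀ x y, T (δ x) y = m y x := by
  classical
  let row : Y → Finset X := fun y => (Set.finite_of_encard_le_coe (hr y)).toFinset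
  have mrow : ∀ y x, x ∈ row y ↔ m y x ≠ 0 := fun y x => Set.Finite.mem_toFinset _
  have crow : ∀ y, (row y).card ≤ N := fun y => by
    have := hr y
    rw [(Set.finite_of_encard_le_coe (hr y)).encard_eq_coe_toFinset_card] at this
    exact_mod_cast this
  have key : ∀ (v : H X) (s : Finset Y),
      ∑ y ∈ s, ‖∑ x ∈ row y, m y x * v x‖ ^ (2 : ENNReal).toReal
        ≤ (ε * N * ‖v‖) ^ (2 : ENNReal).toReal := by
    intro v s
    have e2 : ∀ t : ℝ, t ^ (2 : ENNReal).toReal = t ^ 2 := fun t => by simp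
    simp only [e2]
    have h1 : ∀ y ∈ s, ‖∑ x ∈ row y, m y x * v x‖ ^ 2
        ≤ ε ^ 2 * N * ∑ x ∈ s.biUnion row, if x ∈ row y then ‖v x‖ ^ 2 else 0 := by
      intro y hy
      rw [sum_ite_mem, inter_eq_right.2 (subset_biUnion_of_mem row hy)]
      have a1 : ‖∑ x ∈ row y, m y x * v x‖ ≤ ε * ∑ x ∈ row y, ‖v x‖ := by
        rw [mul_sum]
        refine (norm_sum_le _ _).trans (sum_le_sum fun x _ => ?_)
        rw [norm_mul]
        exact mul_le_mul_of_nonneg_right (hm y x) (norm_nonneg _)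
      have a2 : (∑ x ∈ row y, ‖v x‖) ^ 2 ≤ (row y).card * ∑ x ∈ row y, ‖v x‖ ^ 2 :=
        sq_sum_le_card_mul_sum_sq
      have a3 : ((row y).card : ℝ) ≤ N := by exact_mod_cast crow y
      have a4 : 0 ≤ ∑ x ∈ row y, ‖v x‖ ^ 2 := sum_nonneg fun _ _ => sq_nonneg _
      calc _ ≤ (ε * ∑ x ∈ row y, ‖v x‖) ^ 2 := by gcongr
        _ = ε ^ 2 * (∑ x ∈ row y, ‖v x‖) ^ 2 := by ring
        _ ≤ ε ^ 2 * (N * ∑ x ∈ row y, ‖v x‖ ^ 2) := by
          gcongr; exact a2.trans (mul_le_mul_of_nonneg_right a3 a4)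
        _ = _ := by ring
    refine (sum_le_sum h1).trans ?_
    rw [← mul_sum, sum_comm]
    have h2 : ∀ x ∈ s.biUnion row, (∑ y ∈ s, if x ∈ row y then ‖v x‖ ^ 2 else 0)
        ≤ N * ‖v x‖ ^ 2 := by
      intro x _
      rw [← sum_filter, sum_const, nsmul_eq_mul]
      refine mul_le_mul_of_nonneg_right ?_ (sq_nonneg _)
      have : ((s.filter fun y => x ∈ row y).card : ℕ∞) ≤ N := by
        rw [← Set.encard_coe_eq_coe_finsetCard]
        exact (Set.encard_le_encard fun y hy => (mrow y x).1 (mem_filter.1 hy).2).trans (hc x)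
      exact_mod_cast this
    have h3 := lp.sum_rpow_le_norm_rpow (p := 2) (by norm_num) v (s.biUnion row)
    simp only [e2] at h3
    have h4 := sum_le_sum h2
    rw [← mul_sum] at h4
    calc _ ≤ ε ^ 2 * N * (N * ‖v‖ ^ 2) := by
          gcongr; exact h4.trans (mul_le_mul_of_nonneg_left h3 (Nat.cast_nonneg _))
      _ = _ := by ring
  let L : H X →ₗ[ℂ] H Y :=
    { toFun := fun v => ⟨fun y => ∑ x ∈ row y, m y x * v x, memℓp_gen' (key v)⟩
      map_add' := fun v w => lp.ext (funext fun y => by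
        change ∑ x ∈ row y, m y x * (v x + w x)
          = ∑ x ∈ row y, m y x * v x + ∑ x ∈ row y, m y x * w x
        simp only [mul_add, sum_add_distrib])
      map_smul' := fun c v => lp.ext (funext fun y => by
        change ∑ x ∈ row y, m y x * (c * v x) = c * ∑ x ∈ row y, m y x * v x
        rw [mul_sum]; exact sum_congr rfl fun x _ => by ring) }
  have hL : ∀ v, ‖L v‖ ≤ ε * N * ‖v‖ := fun v =>
    lp.norm_le_of_forall_sum_le (by norm_num) (by positivity) (key v)
  refine ⟨L.mkContinuous _ hL, L.mkContinuous_norm_le (by positivity) hL, fun x y => ?_⟩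
  change ∑ x' ∈ row y, m y x' * δ x x' = m y x
  rw [sum_eq_single x (fun x' _ h => by rw [δ_ne h, mul_zero])
    (fun h => by rw [not_not.1 (mt (mrow y x).2 h), zero_mul]), δ_self, mul_one]

lemma exists_W {X : Type} (c : X × Bool → ℂ) (hc : ∀ y, ‖c y‖ = 1) :
    ∃ W : H (X × Bool) →L[ℂ] H X, (∀ y, W (δ y) = c y • δ y.1) ∧
      ∀ x, W.adjoint (δ x) = starRingEnd ℂ (c (x, true)) • δ (x, true)
        + starRingEnd ℂ (c (x, false)) • δ (x, false) := by
  classical
  obtain ⟨W, -, hW⟩ := matrix_op (fun x (y : X × Bool) => if y.1 = x then c y else 0) 1 zero_le_one 2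
    (fun x y => by split_ifs <;> simp [hc]) (fun x => by
      refine (Set.encard_le_encard (t := {(x, true), (x, false)}) ?_).trans
        ((Set.encard_insert_le _ _).trans (by rw [Set.encard_singleton]; rfl))
      rintro ⟨x', s⟩ h
      have : x' = x := by by_contra e; exact h (if_neg e)
      subst this
      cases s <;> simp) (fun y => by
      refine (Set.encard_le_encard (t := {y.1}) ?_).trans (by rw [Set.encard_singleton]; norm_num)
      intro x h
      by_contra e
      exact h (if_neg (Ne.symm e)))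
  have h1 : ∀ y, W (δ y) = c y • δ y.1 := fun y => lp.ext (funext fun x => by
    rw [hW, lp.coeFn_smul, Pi.smul_apply, smul_eq_mul]
    split_ifs with h
    · rw [← h, δ_self, mul_one]
    · rw [δ_ne (Ne.symm h), mul_zero])
  refine ⟨W, h1, fun x => lp.ext (funext fun y => ?_)⟩
  rw [← inner_δ, ContinuousLinearMap.adjoint_inner_right, h1, inner_smul_left, inner_δ,
    lp.coeFn_add, Pi.add_apply, lp.coeFn_smul, lp.coeFn_smul, Pi.smul_apply, Pi.smul_apply]
  obtain ⟨x', s⟩ := y
  by_cases h : x' = x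
  · subst h
    cases s
    · rw [δ_self, δ_self, δ_ne (by simp)]; simp
    · rw [δ_self, δ_self, δ_ne (by simp)]; simp
  · rw [δ_ne h, δ_ne (by simp [h]), δ_ne (by simp [h])]; simp

def FP {X : Type} (d : X → X → ℝ) (T : H X →L[ℂ] H X) : Prop :=
  ∃ r : ℝ, ∀ x x' : X, r < d x x' → T (δ x) x' = 0

theorem exists_phi {X : Type} (dX : X → X → ℝ) (dY : X × Bool → X × Bool → ℝ)
    (θ : X × Bool → ℂ) (h1 : ∀ y, ‖θ y‖ = 1) (h2 : ∀ x, θ (x, false) = - θ (x, true))
    (hs : ∀ x x', dX x x' = dX x' x)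
    (hN : ∀ r : ℝ, ∃ N : ℕ, ∀ x, {y : X × Bool | dX y.1 x ≤ r}.encard ≤ N)
    (h3 : ∀ r ε : ℝ, 0 < ε → ∃ R : ℝ, ∀ y y', dX y.1 y'.1 ≤ r → R < dY y y' → ‖θ y + θ y'‖ ≤ ε) :
    ∃ Φ : (H X →L[ℂ] H X) →⋆ₙₐ[ℂ] (H (X × Bool) →L[ℂ] H (X × Bool)), Function.Injective Φ ∧
      Continuous Φ ∧ (∀ a : H X →L[ℂ] H X, IsCompactOperator a → IsCompactOperator (Φ a)) ∧
      ∀ a, FP dX a → Φ a ∈ closure {b | FP dY b} := by
  obtain ⟨A, A1, A2⟩ := exists_W (X := X) (fun _ => 1) (fun _ => norm_one)
  obtain ⟨B, B1, B2⟩ := exists_W θ h1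
  have t1 : ∀ y, starRingEnd ℂ (θ y) * θ y = 1 := fun y => by
    rw [Complex.conj_mul', h1]; simp
  have AA : ∀ v, A (A.adjoint v) = (2 : ℂ) • v := fun v =>
    congrArg (fun T : H X →L[ℂ] H X => T v) (ext_δ (A ∘L A.adjoint) ((2 : ℂ) • 1) fun x => by
      simp only [ContinuousLinearMap.comp_apply, A2, map_add, A1, map_one, one_smul,
        add_apply, one_apply_eq_self, two_smul])
  have BB : ∀ v, B (B.adjoint v) = (2 : ℂ) • v := fun v =>
    congrArg (fun T : H X →L[ℂ] H X => T v) (ext_δ (B ∘L B.adjoint) ((2 : ℂ) • 1) fun x => by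
      simp only [ContinuousLinearMap.comp_apply, B2, map_add, map_smul, B1, smul_smul, t1,
        one_smul, add_apply, one_apply_eq_self, two_smul])
  have AB : ∀ v, A (B.adjoint v) = 0 := fun v =>
    congrArg (fun T : H X →L[ℂ] H X => T v) (ext_δ (A ∘L B.adjoint) 0 fun x => by
      simp only [ContinuousLinearMap.comp_apply, B2, map_add, map_smul, A1, one_smul, h2, map_neg,
        neg_smul, add_neg_cancel, zero_apply])
  have BA : ∀ v, B (A.adjoint v) = 0 := fun v =>
    congrArg (fun T : H X →L[ℂ] H X => T v) (ext_δ (B ∘L A.adjoint) 0 fun x => by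
      simp only [ContinuousLinearMap.comp_apply, A2, map_add, map_smul, B1, one_smul, h2, map_one,
        neg_smul, add_neg_cancel, zero_apply])
  let F : (H X →L[ℂ] H X) → (H (X × Bool) →L[ℂ] H (X × Bool)) := fun a =>
    (2⁻¹ : ℂ) • (A.adjoint ∘L a ∘L A + B.adjoint ∘L a ∘L B)
  have Fa : ∀ a v, F a v = (2⁻¹ : ℂ) • (A.adjoint (a (A v)) + B.adjoint (a (B v))) :=
    fun _ _ => rfl
  have AF : ∀ a v, A (F a v) = a (A v) := fun a v => by
    rw [Fa, map_smul, map_add, AA, AB, add_zero, smul_smul]; norm_num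
  have BF : ∀ a v, B (F a v) = a (B v) := fun a v => by
    rw [Fa, map_smul, map_add, BA, BB, zero_add, smul_smul]; norm_num
  let Φ : (H X →L[ℂ] H X) →⋆ₙₐ[ℂ] (H (X × Bool) →L[ℂ] H (X × Bool)) :=
    { toFun := F
      map_smul' := fun c a => ContinuousLinearMap.ext fun v => by
        simp only [Fa, smul_apply, map_smul, MonoidHom.id_apply, ← smul_add]
        exact smul_comm _ _ _
      map_zero' := ContinuousLinearMap.ext fun v => by simp [Fa]
      map_add' := fun a b => ContinuousLinearMap.ext fun v => by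
        simp only [Fa, add_apply, map_add, smul_add]; abel
      map_mul' := fun a b => ContinuousLinearMap.ext fun v => by
        rw [mul_apply_eq_comp, Fa a, AF, BF]; rfl
      map_star' := fun a => by
        refine (ContinuousLinearMap.eq_adjoint_iff _ _).2 fun v w => ?_
        simp only [Fa, inner_smul_left, inner_smul_right, inner_add_left, inner_add_right,
          ContinuousLinearMap.star_eq_adjoint, ContinuousLinearMap.adjoint_inner_left,
          ContinuousLinearMap.adjoint_inner_right, map_inv₀, map_ofNat] }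
  have ent : ∀ a y' y, Φ a (δ y') y
      = 2⁻¹ * (1 + starRingEnd ℂ (θ y) * θ y') * a (δ y'.1) y.1 := by
    intro a y' y
    change F a (δ y') y = _
    rw [← inner_δ, Fa, inner_smul_right, inner_add_right, ContinuousLinearMap.adjoint_inner_right,
      ContinuousLinearMap.adjoint_inner_right, A1, A1, B1, B1, map_smul, map_smul]
    simp only [inner_smul_left, inner_smul_right, inner_δ, map_one]
    ring
  refine ⟨Φ, fun a b h => ?_, ?_, fun a ha => ?_, ?_⟩
  · ext1 v
    have e : ∀ a : H X →L[ℂ] H X, A (F a (A.adjoint v)) = (2 : ℂ) • a v := fun a => by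
      rw [AF, AA, map_smul]
    have : (2 : ℂ) • a v = (2 : ℂ) • b v := by rw [← e, ← e, show F a = F b from h]
    exact smul_right_injective _ two_ne_zero this
  · exact AddMonoidHomClass.continuous_of_bound Φ 1 fun a => by
      rw [one_mul]; exact NonUnitalStarAlgHom.norm_apply_le Φ a
  · exact (((ha.comp_clm A).clm_comp A.adjoint).add ((ha.comp_clm B).clm_comp B.adjoint)).smul
      (2⁻¹ : ℂ)
  · rintro a ⟨r, hr⟩
    classical
    obtain ⟨N, hN⟩ := hN r
    refine Metric.mem_closure_iff.2 fun ε hε => ?_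
    obtain ⟨R, hR⟩ := h3 r (ε / ((‖a‖ + 1) * (N + 1))) (by positivity)
    have nz : ∀ y' y, Φ a (δ y') y ≠ 0 → dX y'.1 y.1 ≤ r := fun y' y h =>
      not_lt.1 fun h' => h (by rw [ent, hr _ _ h', mul_zero])
    obtain ⟨T, T1, T2⟩ := matrix_op (fun y y' => if R < dY y' y then Φ a (δ y') y else 0)
      (ε / ((‖a‖ + 1) * (N + 1)) * ‖a‖) (by positivity) N (fun y y' => by
        split_ifs with h
        · by_cases e : Φ a (δ y') y = 0
          · rw [e, norm_zero]; positivity
          have b1 := hR y' y (nz _ _ e) h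
          have b2 : 1 + starRingEnd ℂ (θ y) * θ y' = starRingEnd ℂ (θ y) * (θ y' + θ y) := by
            rw [mul_add, t1]; ring
          rw [ent, b2, norm_mul, norm_mul, norm_mul, Complex.norm_conj, h1, one_mul]
          have b3 := entry_le a y'.1 y.1
          have b4 : ‖(2⁻¹ : ℂ)‖ * ‖θ y' + θ y‖ ≤ ε / ((‖a‖ + 1) * (N + 1)) := by
            have := norm_nonneg (θ y' + θ y)
            rw [norm_inv, Complex.norm_ofNat]; linarith
          gcongr
        · rw [norm_zero]; positivity)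
      (fun y => by
        refine (Set.encard_le_encard fun y' h => ?_).trans (hN y.1)
        exact nz _ _ fun e => h (by simp [e]))
      (fun y' => by
        refine (Set.encard_le_encard fun y h => ?_).trans (hN y'.1)
        exact (hs _ _).trans_le (nz y' y fun e => h (by simp [e])))
    refine ⟨Φ a - T, ⟨R, fun y' y h => ?_⟩, ?_⟩
    · rw [sub_apply, lp.coeFn_sub, Pi.sub_apply, T2, if_pos h, sub_self]
    · rw [dist_eq_norm, sub_sub_cancel]
      refine T1.trans_lt ?_
      rw [div_mul_eq_mul_div, div_mul_eq_mul_div, div_lt_iff₀ (by positivity), mul_assoc]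
      have := norm_nonneg a
      have : (0 : ℝ) ≤ N := Nat.cast_nonneg _
      exact mul_lt_mul_of_pos_left (by nlinarith) hε

end Pool.Agent.H31.Schur
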