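import Mathlib

set_option autoImplicit false

namespace Pool.Agent.H31.Slater

open Finset Matrix

/-- the discrete sine kernel -/
noncomputable def sn (M a b : ℕ) : ℝ := Real.sin (a * b * Real.pi / M)

/-- Slater determinant -/
noncomputable def D {m : ℕ} (M : ℕ) (k y : Fin m → ℕ) : ℝ :=
  (Matrix.of fun i j => sn M (k i) (y j)).det

variable {m : ℕ}

lemma sn_comm (M a b : ℕ) : sn M a b = sn M b a := by unfold sn; rw [mul_comm (a : ℝ)]

lemma D_comm (M : ℕ) (k y : Fin m → ℕ) : D M k y = D M y k := by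
  unfold D
  rw [← det_transpose]
  congr 1
  ext i j
  simp [sn_comm]

lemma D_eq (M : ℕ) (k y : Fin m → ℕ) :
    D M k y = ∑ σ : Equiv.Perm (Fin m), ((Equiv.Perm.sign σ : ℤ) : ℝ) * ∏ j, sn M (k (σ j)) (y j) := by
  unfold D
  rw [det_apply']
  rfl

lemma D_perm (M : ℕ) (k y : Fin m → ℕ) (σ : Equiv.Perm (Fin m)) :
    D M k (y ∘ σ) = ((Equiv.Perm.sign σ : ℤ) : ℝ) * D M k y := by
  unfold D
  rw [← det_permute']
  rfl

lemma D_inj {M : ℕ} {k y : Fin m → ℕ} (h : D M k y ≠ 0) : Function.Injective y := by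
  intro i j hij
  by_contra hne
  exact h (det_zero_of_column_eq hne fun a => by simp [hij])

lemma D_pos {M : ℕ} {k y : Fin m → ℕ} (h : D M k y ≠ 0) (j : Fin m) : y j ≠ 0 := by
  intro h0
  exact h (det_eq_zero_of_column_eq_zero j fun a => by simp [h0, sn])

lemma D_top {M : ℕ} (hM : 0 < M) {k y : Fin m → ℕ} (h : D M k y ≠ 0) (j : Fin m) : y j ≠ M := by
  intro h0
  have hM' : (M : ℝ) ≠ 0 := by exact_mod_cast hM.ne'
  refine h (det_eq_zero_of_column_eq_zero j fun a => ?_)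
  simp only [of_apply, h0, sn]
  rw [show (k a : ℝ) * M * Real.pi / M = k a * Real.pi by field_simp]
  exact Real.sin_nat_mul_pi _

lemma sn_step (M a b : ℕ) (hb : 1 ≤ b) :
    sn M a (b + 1) + sn M a (b - 1) = 2 * Real.cos (a * Real.pi / M) * sn M a b := by
  unfold sn
  have h1 : (a : ℝ) * ((b + 1 : ℕ) : ℝ) * Real.pi / M = a * b * Real.pi / M + a * Real.pi / M := by
    push_cast; ring
  have h2 : (a : ℝ) * ((b - 1 : ℕ) : ℝ) * Real.pi / M = a * b * Real.pi / M - a * Real.pi / M := by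
    rw [Nat.cast_sub hb]; push_cast; ring
  rw [h1, h2, Real.sin_add, Real.sin_sub]; ring

lemma D_step (M : ℕ) (k y : Fin m → ℕ) (hy : ∀ j, 1 ≤ y j) :
    ∑ j, D M k (Function.update y j (y j + 1)) + ∑ j, D M k (Function.update y j (y j - 1))
      = (∑ i, 2 * Real.cos (k i * Real.pi / M)) * D M k y := by
  rw [← sum_add_distrib]
  simp only [D_eq, ← sum_add_distrib, ← mul_add]
  rw [sum_comm, mul_sum]
  refine sum_congr rfl fun σ _ => ?_
  rw [← mul_sum, mul_left_comm, ← Equiv.sum_comp σ (fun i => 2 * Real.cos (k i * Real.pi / M)), sum_mul]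
  congr 1
  refine sum_congr rfl fun j _ => ?_
  have h : ∀ v, ∏ l, sn M (k (σ l)) (Function.update y j v l)
      = sn M (k (σ j)) v * ∏ l ∈ univ.erase j, sn M (k (σ l)) (y l) := by
    intro v
    rw [← mul_prod_erase univ _ (mem_univ j), Function.update_self]
    congr 1
    exact prod_congr rfl fun l hl => by rw [Function.update_of_ne (ne_of_mem_erase hl)]
  rw [h, h, ← add_mul, sn_step M _ _ (hy j), ← mul_prod_erase univ _ (mem_univ j)]
  ring

lemma cos_sum (φ : ℝ) (N : ℕ) : 2 * Real.sin (φ / 2) * ∑ t ∈ range N, Real.cos ((t + 1 : ℕ) * φ)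
    = Real.sin ((N + 1) * φ - φ / 2) - Real.sin (φ / 2) := by
  induction N with
  | zero => simp; ring_nf
  | succ N ih =>
    rw [sum_range_succ, mul_add, ih]
    have h1 : (((N + 1 : ℕ) : ℝ) + 1) * φ - φ / 2 = ((N + 1 : ℕ) : ℝ) * φ + φ / 2 := by ring
    have h2 : ((N : ℝ) + 1) * φ - φ / 2 = ((N + 1 : ℕ) : ℝ) * φ - φ / 2 := by push_cast; ring
    rw [h1, h2, Real.sin_add, Real.sin_sub]; ring

lemma cos_sum' (N c : ℕ) (h0 : 0 < c) (h1 : c < 2 * (N + 1)) :
    ∑ t ∈ range N, Real.cos ((t + 1 : ℕ) * (c * Real.pi / (N + 1 : ℕ))) = (-(-1) ^ c - 1) / 2 := by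
  have hM : (0 : ℝ) < (N + 1 : ℕ) := by positivity
  have h := cos_sum (c * Real.pi / (N + 1 : ℕ)) N
  have h2 : ((N : ℝ) + 1) * (c * Real.pi / (N + 1 : ℕ)) = c * Real.pi := by
    push_cast; field_simp
  rw [h2, Real.sin_nat_mul_pi_sub] at h
  have h3 : 0 < Real.sin (c * Real.pi / (N + 1 : ℕ) / 2) := by
    apply Real.sin_pos_of_pos_of_lt_pi
    · have : (0 : ℝ) < c := by exact_mod_cast h0
      have := Real.pi_pos
      positivity
    · have : (c : ℝ) < 2 * (N + 1 : ℕ) := by exact_mod_cast h1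
      rw [div_div, div_lt_iff₀ (by positivity)]
      nlinarith [Real.pi_pos]
  apply mul_left_cancel₀ (show 2 * Real.sin (c * Real.pi / (N + 1 : ℕ) / 2) ≠ 0 by positivity)
  rw [h]; ring

lemma orth_le (N a b : ℕ) (hb : 1 ≤ b) (hab : b ≤ a) (ha : a ≤ N) :
    ∑ t ∈ range N, sn (N + 1) a (t + 1) * sn (N + 1) (t + 1) b
      = if a = b then ((N + 1 : ℕ) : ℝ) / 2 else 0 := by
  have h1 : ∀ t : ℕ, sn (N + 1) a (t + 1) * sn (N + 1) (t + 1) b =
      (Real.cos ((t + 1 : ℕ) * ((a - b : ℕ) * Real.pi / (N + 1 : ℕ)))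
        - Real.cos ((t + 1 : ℕ) * ((a + b : ℕ) * Real.pi / (N + 1 : ℕ)))) / 2 := by
    intro t
    unfold sn
    have e1 : ((t + 1 : ℕ) : ℝ) * ((a - b : ℕ) * Real.pi / (N + 1 : ℕ)) =
        a * (t + 1 : ℕ) * Real.pi / (N + 1 : ℕ) - (t + 1 : ℕ) * b * Real.pi / (N + 1 : ℕ) := by
      rw [Nat.cast_sub hab]; ring
    have e2 : ((t + 1 : ℕ) : ℝ) * ((a + b : ℕ) * Real.pi / (N + 1 : ℕ)) =
        a * (t + 1 : ℕ) * Real.pi / (N + 1 : ℕ) + (t + 1 : ℕ) * b * Real.pi / (N + 1 : ℕ) := by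
      rw [Nat.cast_add a b]; ring
    rw [e1, e2, Real.cos_sub, Real.cos_add]; ring
  simp only [h1]
  rw [← sum_div, sum_sub_distrib, cos_sum' N (a + b) (by omega) (by omega)]
  have hp : ((-1 : ℝ)) ^ (a + b) = (-1) ^ (a - b) := by
    rw [show a + b = (a - b) + 2 * b by omega, pow_add, pow_mul]; simp
  split_ifs with h
  · subst h
    rw [hp]
    simp
    ring
  · rw [cos_sum' N (a - b) (by omega) (by omega), hp]; ring

lemma orth (N a b : ℕ) (ha : 1 ≤ a) (ha' : a ≤ N) (hb : 1 ≤ b) (hb' : b ≤ N) :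
    ∑ t : Fin N, sn (N + 1) a (t + 1) * sn (N + 1) (t + 1) b
      = if a = b then ((N + 1 : ℕ) : ℝ) / 2 else 0 := by
  rw [Fin.sum_univ_eq_sum_range (fun t => sn (N + 1) a (t + 1) * sn (N + 1) (t + 1) b)]
  rcases le_total b a with h | h
  · exact orth_le N a b hb h ha'
  · have := orth_le N b a ha h hb'
    simp only [eq_comm (a := b)] at this
    rw [← this]
    exact sum_congr rfl fun t _ => by rw [mul_comm, sn_comm _ (t + 1), sn_comm _ a]

lemma expand (N : ℕ) (a b : Fin m → ℕ) (ha : ∀ i, 1 ≤ a i ∧ a i ≤ N) (hb : ∀ i, 1 ≤ b i ∧ b i ≤ N) :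
    ∑ y : Fin m → Fin N, (∏ j, sn (N + 1) (y j + 1) (b j)) * D (N + 1) a (fun j => y j + 1)
      = (Matrix.of fun i j => if a i = b j then ((N + 1 : ℕ) : ℝ) / 2 else 0).det := by
  rw [det_apply']
  simp only [D_eq, mul_sum]
  rw [sum_comm]
  refine sum_congr rfl fun σ _ => ?_
  simp only [of_apply]
  rw [prod_congr rfl fun j _ => (orth N (a (σ j)) (b j) (ha _).1 (ha _).2 (hb _).1 (hb _).2).symm,
    prod_univ_sum, Fintype.piFinset_univ, mul_sum]
  refine sum_congr rfl fun y _ => ?_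
  rw [prod_mul_distrib]; ring

lemma delta_self (c : ℝ) {a : Fin m → ℕ} (ha : Function.Injective a) :
    (Matrix.of fun i j => if a i = a j then c else 0).det = c ^ m := by
  have : (Matrix.of fun i j => if a i = a j then c else 0) = diagonal fun _ => c := by
    ext i j
    simp [diagonal_apply, ha.eq_iff]
  rw [this, det_diagonal]; simp

lemma delta_ne (c : ℝ) {a b : Fin m → ℕ} (ha : StrictAnti a) (hb : StrictAnti b) (h : a ≠ b) :
    (Matrix.of fun i j => if a i = b j then c else 0).det = 0 := by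
  rw [det_apply']
  refine sum_eq_zero fun σ _ => ?_
  by_contra hc
  have h1 := prod_ne_zero_iff.1 (right_ne_zero_of_mul hc)
  have h2 : ∀ j, a (σ j) = b j := fun j => by
    by_contra h3
    exact h1 j (mem_univ _) (by simp [h3])
  have h3 : Monotone σ := by
    intro i j hij
    have := hb.antitone hij
    rw [← h2, ← h2] at this
    exact ha.le_iff_ge.1 this
  have h4 := (Equiv.Perm.monotone_iff σ).1 h3
  subst h4
  exact h (funext h2)

lemma anti_gap {y : Fin m → ℕ} (hy : StrictAnti y) (i j : Fin m) (h : i ≤ j) :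
    y j + j ≤ y i + i := by
  obtain ⟨d, hd⟩ := Nat.exists_eq_add_of_le (show i.val ≤ j.val from h)
  induction d generalizing j with
  | zero =>
    have : j = i := Fin.ext (by omega)
    rw [this]
  | succ d ih =>
    have h1 : i.val + d < m := by omega
    have h2 := ih ⟨i.val + d, h1⟩ (by simp [Fin.le_def]) rfl
    have h3 : y j < y ⟨i.val + d, h1⟩ := hy (by simp [Fin.lt_def]; omega)
    simp only at h2
    omega

end Pool.Agent.H31.Slater
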