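import Mathlib

set_option autoImplicit false

namespace Pool.Agent.H31.Van

open Finset

lemma geo {q : ℕ} {ξ : ℂ} (hξ : IsPrimitiveRoot ξ q) (e : ℕ) :
    ∑ t ∈ range q, (ξ ^ e) ^ t = if q ∣ e then (q : ℂ) else 0 := by
  split_ifs with h
  · rw [(hξ.pow_eq_one_iff_dvd e).2 h]; simp
  · have h1 : ξ ^ e ≠ 1 := fun h' => h ((hξ.pow_eq_one_iff_dvd e).1 h')
    have h2 := mul_geom_sum (ξ ^ e) q
    rw [← pow_mul, mul_comm e q, pow_mul, hξ.pow_eq_one, one_pow, sub_self] at h2
    exact (mul_eq_zero.1 h2).resolve_left (sub_ne_zero.2 h1)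

lemma dft {q : ℕ} {ξ : ℂ} (hξ : IsPrimitiveRoot ξ q) (s : Finset ℕ) (g : ℕ → ℂ) (c : ℕ) (hc : c < q)
    (h : ∀ t, 0 < t → t < q → ∑ a ∈ s, g a * (ξ ^ t) ^ a = 0) :
    (q : ℂ) * ∑ a ∈ s.filter (fun a => a % q = c), g a = ∑ a ∈ s, g a := by
  have h1 : ∑ t ∈ range q, (ξ ^ (q - c)) ^ t * ∑ a ∈ s, g a * (ξ ^ t) ^ a = ∑ a ∈ s, g a := by
    rw [sum_eq_single 0]
    · simp
    · intro t ht h0
      rw [h t (Nat.pos_of_ne_zero h0) (mem_range.1 ht), mul_zero]
    · intro h0; exact absurd (mem_range.2 (by omega)) h0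
  rw [← h1]
  simp only [mul_sum]
  rw [sum_comm, sum_filter]
  refine sum_congr rfl fun a _ => ?_
  have h2 : ∀ t, (ξ ^ (q - c)) ^ t * (g a * (ξ ^ t) ^ a) = g a * (ξ ^ (a + (q - c))) ^ t := by
    intro t; ring
  simp only [h2]
  rw [← mul_sum, geo hξ]
  have h3 : q ∣ a + (q - c) ↔ a % q = c := by
    have h4 := Nat.mod_lt a (show 0 < q by omega)
    rw [Nat.dvd_iff_mod_eq_zero, ← Nat.mod_add_mod]
    constructor
    · intro h5
      rcases lt_or_ge (a % q + (q - c)) q with h6 | h6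
      · rw [Nat.mod_eq_of_lt h6] at h5; omega
      · rw [Nat.mod_eq_sub_mod h6, Nat.mod_eq_of_lt (by omega)] at h5; omega
    · intro h5
      rw [h5, Nat.add_sub_cancel' hc.le, Nat.mod_self]
  simp only [h3]
  split_ifs <;> ring

lemma prim_lift {q M : ℕ} (hq : q.Prime) (hM : 0 < M) (hd : q ∣ M) {η ω : ℂ}
    (hη : IsPrimitiveRoot η M) (hω : ω ^ q = η) : IsPrimitiveRoot ω (q * M) := by
  refine IsPrimitiveRoot.mk_of_lt ω (Nat.mul_pos hq.pos hM) (by rw [pow_mul, hω, hη.pow_eq_one]) ?_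
  intro l hl0 hl h
  have h1 : M ∣ l := by
    apply (hη.pow_eq_one_iff_dvd l).1
    rw [← hω, ← pow_mul, mul_comm, pow_mul, h, one_pow]
  obtain ⟨u, rfl⟩ := h1
  obtain ⟨v, rfl⟩ := hd
  have h2 : q * v ∣ v * u := by
    apply (hη.pow_eq_one_iff_dvd _).1
    rw [← hω, ← pow_mul, ← mul_assoc, h]
  have hv : 0 < v := Nat.pos_of_mul_pos_left hM
  rw [mul_comm q v] at h2
  have h3 : q ∣ u := Nat.dvd_of_mul_dvd_mul_left hv h2
  have hu : 0 < u := Nat.pos_of_mul_pos_left hl0
  have h4 := Nat.le_of_dvd hu h3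
  have h5 : q * v * u < q * v * q := by rw [mul_comm (q * v) q]; exact hl
  have := Nat.lt_of_mul_lt_mul_left h5
  omega

lemma prim_mul {q M : ℕ} (hq : q.Prime) (hd : ¬ q ∣ M) {ω ξ : ℂ}
    (hω : IsPrimitiveRoot ω M) (hξ : IsPrimitiveRoot ξ q) (t : ℕ) (h0 : 0 < t) (ht : t < q) :
    IsPrimitiveRoot (ω * ξ ^ t) (q * M) := by
  have hc : Nat.Coprime M q := ((Nat.Prime.coprime_iff_not_dvd hq).2 hd).symm
  have h1 : IsPrimitiveRoot (ξ ^ t) q :=
    hξ.pow_of_coprime t ((Nat.coprime_of_lt_prime h0.ne' ht hq).symm)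
  rw [IsPrimitiveRoot.iff_orderOf] at *
  rw [(Commute.all ω (ξ ^ t)).orderOf_mul_eq_mul_orderOf_of_coprime (by rw [hω, h1]; exact hc), hω, h1,
    mul_comm]

/-- short vanishing sums of roots of unity of odd order have odd length -/
theorem short (p : ℕ) (M : ℕ) : 0 < M → Odd M → (∀ r, r.Prime → r ∣ M → p ≤ r) →
    ∀ (s : Finset ℕ) (f : ℕ → ℂ), (∀ a ∈ s, ∀ b ∈ s, a ≡ b [MOD M] → a = b) → (∀ a ∈ s, f a ≠ 0) →
    (∀ ω : ℂ, IsPrimitiveRoot ω M → ∑ a ∈ s, f a * ω ^ a = 0) → s.card < 2 * p →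
    s = ∅ ∨ (Odd s.card ∧ ∃ r, r.Prime ∧ r ∣ M ∧ r ≤ s.card) := by
  induction M using Nat.strong_induction_on with
  | _ M ih =>
  intro hM0 hodd hp s f hinj hnz hvan hcard
  rcases eq_or_ne M 1 with rfl | hM1
  · left
    by_contra hne
    obtain ⟨a, ha⟩ := nonempty_iff_ne_empty.2 hne
    have h1 : s = {a} := eq_singleton_iff_unique_mem.2 ⟨ha, fun b hb => hinj b hb a ha Nat.modEq_one⟩
    have h2 := hvan 1 IsPrimitiveRoot.one
    rw [h1] at h2
    simp only [sum_singleton, one_pow, mul_one] at h2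
    exact hnz a ha h2
  have hne : M.primeFactors.Nonempty := Nat.nonempty_primeFactors.2 (by omega)
  obtain ⟨q, hqm, hmax⟩ := exists_max_image M.primeFactors id hne
  have hq : q.Prime := Nat.prime_of_mem_primeFactors hqm
  obtain ⟨M', rfl⟩ := Nat.dvd_of_mem_primeFactors hqm
  have hM' : 0 < M' := Nat.pos_of_mul_pos_left hM0
  have hlt : M' < q * M' := by nlinarith [hq.two_le]
  have hodd' : Odd M' := (Nat.odd_mul.1 hodd).2
  have hoddq : Odd q := (Nat.odd_mul.1 hodd).1
  have hp' : ∀ r, r.Prime → r ∣ M' → p ≤ r := fun r hr h => hp r hr (h.mul_left q)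
  have ih' := ih M' hlt hM' hodd' hp'
  have hξ := Complex.isPrimitiveRoot_exp q hq.ne_zero
  set ξ := Complex.exp (2 * Real.pi * Complex.I / q)
  let cl : ℕ → Finset ℕ := fun c => s.filter fun a => a % q = c
  have hsum : s.card = ∑ c ∈ range q, (cl c).card :=
    card_eq_sum_card_fiberwise fun a _ => mem_range.2 (Nat.mod_lt a hq.pos)
  have hcl : ∀ c, (cl c).card ≤ s.card := fun c => card_filter_le _ _
  have fin : (∀ c, c < q → cl c = ∅ ∨ (Odd (cl c).card ∧ ∃ r, r.Prime ∧ r ∣ M' ∧ r ≤ (cl c).card)) →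
      s = ∅ ∨ (Odd s.card ∧ ∃ r, r.Prime ∧ r ∣ q * M' ∧ r ≤ s.card) := by
    intro h
    by_cases hs : s = ∅
    · exact Or.inl hs
    right
    obtain ⟨a, ha⟩ := nonempty_iff_ne_empty.2 hs
    have hc0 := Nat.mod_lt a hq.pos
    obtain ⟨ho, r, hr, hrd, hrc⟩ := (h _ hc0).resolve_left
      (nonempty_iff_ne_empty.1 ⟨a, mem_filter.2 ⟨ha, rfl⟩⟩)
    have h1 : s.card = (cl (a % q)).card := by
      rw [hsum, sum_eq_single (a % q)]
      · intro c hc hne
        rcases h c (mem_range.1 hc) with h2 | ⟨-, r', hr', hrd', hrc'⟩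
        · rw [h2, card_empty]
        · exfalso
          have h3 := add_le_sum (f := fun c => (cl c).card) (fun _ _ => Nat.zero_le _) hc
            (mem_range.2 hc0) hne
          have := hp' r hr hrd
          have := hp' r' hr' hrd'
          omega
      · intro h2; exact absurd (mem_range.2 hc0) h2
    rw [h1]
    exact ⟨ho, r, hr, hrd.mul_left q, hrc⟩
  have hq0 : (q : ℂ) ≠ 0 := by exact_mod_cast hq.ne_zero
  by_cases hd : q ∣ M'
  · apply fin
    intro c hc
    have hcls : ∀ a ∈ cl c, a = q * (a / q) + c := by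
      intro a ha
      have := Nat.div_add_mod a q
      rw [(mem_filter.1 ha).2] at this
      exact this.symm
    have hio : Set.InjOn (· / q) (cl c) := by
      intro a ha b hb hab
      rw [hcls a ha, hcls b hb]
      simp only at hab
      rw [hab]
    have h1 := ih' ((cl c).image (· / q)) (fun a => f (q * a + c)) ?_ ?_ ?_ ?_
    · rw [card_image_of_injOn hio, image_eq_empty] at h1
      exact h1
    · intro a' ha' b' hb' hab
      obtain ⟨a, ha, rfl⟩ := mem_image.1 ha'
      obtain ⟨b, hb, rfl⟩ := mem_image.1 hb'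
      rw [hinj a (mem_filter.1 ha).1 b (mem_filter.1 hb).1]
      rw [hcls a ha, hcls b hb]
      exact (hab.mul_left' q).add_right c
    · intro a' ha'
      obtain ⟨a, ha, rfl⟩ := mem_image.1 ha'
      rw [← hcls a ha]
      exact hnz a (mem_filter.1 ha).1
    · intro η hη
      obtain ⟨ω, hω⟩ := IsAlgClosed.exists_pow_nat_eq η hq.pos
      have hω0 : ω ≠ 0 := by
        rintro rfl
        rw [zero_pow hq.ne_zero] at hω
        exact hη.ne_zero hM'.ne' hω.symm
      have h2 : ∀ t, ∑ a ∈ s, (f a * ω ^ a) * (ξ ^ t) ^ a = 0 := by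
        intro t
        rw [← hvan (ω * ξ ^ t) (prim_lift hq hM' hd hη (by
          rw [mul_pow, hω, ← pow_mul, mul_comm t q, pow_mul, hξ.pow_eq_one, one_pow, mul_one]))]
        exact sum_congr rfl fun a _ => by ring
      have h3 := dft hξ s (fun a => f a * ω ^ a) c hc fun t _ _ => h2 t
      have h4 := h2 0
      simp only [pow_zero, one_pow, mul_one] at h4
      rw [h4] at h3
      have h5 := (mul_eq_zero.1 h3).resolve_left hq0
      rw [sum_image hio]
      have h6 : ω ^ c * ∑ a ∈ cl c, f (q * (a / q) + c) * η ^ (a / q) = 0 := by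
        rw [← h5, mul_sum]
        refine sum_congr rfl fun a ha => ?_
        rw [← hcls a ha, ← hω]
        conv_rhs => rw [hcls a ha]
        rw [← hcls a ha]
        have : ω ^ a = ω ^ c * (ω ^ q) ^ (a / q) := by
          conv_lhs => rw [hcls a ha]
          ring
        rw [this]; ring
      exact (mul_eq_zero.1 h6).resolve_left (pow_ne_zero _ hω0)
    · rw [card_image_of_injOn hio]
      exact (hcl c).trans_lt hcard
  have hcop : Nat.Coprime q M' := (Nat.Prime.coprime_iff_not_dvd hq).2 hd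
  have hinj' : ∀ c, ∀ a ∈ cl c, ∀ b ∈ cl c, a ≡ b [MOD M'] → a = b := by
    intro c a ha b hb hab
    refine hinj a (mem_filter.1 ha).1 b (mem_filter.1 hb).1
      ((Nat.modEq_and_modEq_iff_modEq_mul hcop).1 ⟨?_, hab⟩)
    unfold Nat.ModEq
    rw [(mem_filter.1 ha).2, (mem_filter.1 hb).2]
  have heq : ∀ ω : ℂ, IsPrimitiveRoot ω M' → ∀ c, c < q → ∀ d, d < q →
      ∑ a ∈ cl c, f a * ω ^ a = ∑ a ∈ cl d, f a * ω ^ a := by
    intro ω hω c hc d hd'
    have h2 : ∀ t, 0 < t → t < q → ∑ a ∈ s, (f a * ω ^ a) * (ξ ^ t) ^ a = 0 := by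
      intro t h0 ht
      rw [← hvan (ω * ξ ^ t) (prim_mul hq hd hω hξ t h0 ht)]
      exact sum_congr rfl fun a _ => by ring
    have h3 := dft hξ s (fun a => f a * ω ^ a) c hc h2
    have h4 := dft hξ s (fun a => f a * ω ^ a) d hd' h2
    exact mul_left_cancel₀ hq0 (h3.trans h4.symm)
  by_cases hemp : ∃ d, d < q ∧ cl d = ∅
  · obtain ⟨d, hd', he⟩ := hemp
    apply fin
    intro c hc
    refine ih' (cl c) f (hinj' c) (fun a ha => hnz a (mem_filter.1 ha).1) (fun ω hω => ?_)
      ((hcl c).trans_lt hcard)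
    rw [heq ω hω c hc d hd', he, sum_empty]
  push Not at hemp
  have hpq := hp q hq (dvd_mul_right q M')
  have hpos : ∀ c, c < q → 1 ≤ (cl c).card := fun c hc => (hemp c hc).card_pos
  obtain ⟨c0, hc0, h1⟩ : ∃ c0, c0 < q ∧ (cl c0).card = 1 := by
    by_contra hc
    push Not at hc
    have h2 : ∑ c ∈ range q, 2 ≤ ∑ c ∈ range q, (cl c).card := sum_le_sum fun c hc' => by
      have := hpos c (mem_range.1 hc')
      have := hc c (mem_range.1 hc')
      omega
    rw [sum_const, card_range, smul_eq_mul] at h2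
    omega
  obtain ⟨a0, ha0⟩ := card_eq_one.1 h1
  have ha0m : a0 ∈ cl c0 := by rw [ha0]; exact mem_singleton_self _
  have hcls : ∀ c, c < q → (cl c).card = 1 ∨ ∃ r, r.Prime ∧ r ∣ M' ∧ r ≤ (cl c).card + 1 := by
    intro c hc
    have hv : ∀ ω : ℂ, IsPrimitiveRoot ω M' → ∑ a ∈ cl c, f a * ω ^ a = f a0 * ω ^ a0 := by
      intro ω hω
      rw [heq ω hω c hc c0 hc0, ha0, sum_singleton]
    by_cases hex : ∃ a1 ∈ cl c, a1 ≡ a0 [MOD M']
    · obtain ⟨a1, ha1, hm⟩ := hex
      let g : ℕ → ℂ := fun a => f a - if a = a1 then f a0 else 0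
      have h2 := ih' ((cl c).filter fun a => g a ≠ 0) g
        (fun a ha b hb => hinj' c a (mem_filter.1 ha).1 b (mem_filter.1 hb).1)
        (fun a ha => (mem_filter.1 ha).2) ?_ ((card_filter_le _ _).trans_lt ((hcl c).trans_lt hcard))
      · rcases h2 with h2 | ⟨-, r, hr, hrd, hrc⟩
        · left
          rw [card_eq_one]
          refine ⟨a1, eq_singleton_iff_unique_mem.2 ⟨ha1, fun b hb => ?_⟩⟩
          by_contra hb1
          have h3 : g b = 0 := by
            by_contra h4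
            exact notMem_empty b (h2 ▸ mem_filter.2 ⟨hb, h4⟩)
          simp only [g, if_neg hb1, sub_zero] at h3
          exact hnz b (mem_filter.1 hb).1 h3
        · exact Or.inr ⟨r, hr, hrd, (hrc.trans (card_filter_le _ _)).trans (Nat.le_succ _)⟩
      · intro ω hω
        rw [sum_filter_of_ne (fun a _ h => left_ne_zero_of_mul h)]
        simp only [g, sub_mul, sum_sub_distrib, ite_mul, zero_mul, sum_ite_eq', if_pos ha1]
        rw [hv ω hω, pow_eq_pow_of_modEq hm hω.pow_eq_one, sub_self]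
    · right
      have hn : a0 ∉ cl c := fun h => hex ⟨a0, h, rfl⟩
      let g : ℕ → ℂ := fun a => if a = a0 then - f a0 else f a
      have hsub : insert a0 (cl c) ⊆ s := insert_subset (mem_filter.1 ha0m).1 (filter_subset _ _)
      have h2 := ih' (insert a0 (cl c)) g ?_ ?_ ?_ ((card_le_card hsub).trans_lt hcard)
      · rcases h2 with h2 | ⟨-, r, hr, hrd, hrc⟩
        · exact absurd h2 (insert_ne_empty _ _)
        · rw [card_insert_of_notMem hn] at hrc
          exact ⟨r, hr, hrd, hrc⟩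
      · intro a ha b hb hab
        rcases mem_insert.1 ha with rfl | ha' <;> rcases mem_insert.1 hb with rfl | hb'
        · rfl
        · exact absurd ⟨b, hb', hab.symm⟩ hex
        · exact absurd ⟨a, ha', hab⟩ hex
        · exact hinj' c a ha' b hb' hab
      · intro a ha
        simp only [g]
        split_ifs with h
        · exact neg_ne_zero.2 (hnz a0 (mem_filter.1 ha0m).1)
        · exact hnz a (hsub ha)
      · intro ω hω
        rw [sum_insert hn]
        have : ∑ a ∈ cl c, g a * ω ^ a = ∑ a ∈ cl c, f a * ω ^ a :=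
          sum_congr rfl fun a ha => by simp only [g, if_neg (fun h : a = a0 => hn (h ▸ ha))]
        rw [this, hv ω hω]
        simp [g]
  by_cases hall : ∀ c, c < q → (cl c).card = 1
  · right
    have : s.card = q := by
      rw [hsum, sum_congr rfl fun c hc => hall c (mem_range.1 hc)]
      simp
    rw [this]
    exact ⟨hoddq, q, hq, dvd_mul_right q M', le_rfl⟩
  · exfalso
    push Not at hall
    obtain ⟨c, hc, hc1⟩ := hall
    obtain ⟨r, hr, hrd, hrc⟩ := (hcls c hc).resolve_left hc1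
    have h2 : r ≤ q := hmax r (Nat.mem_primeFactors.2 ⟨hr, hrd.mul_left q, hM0.ne'⟩)
    have h3 : r ≠ q := fun h => hd (h ▸ hrd)
    have h4 : Odd r := Odd.of_dvd_nat hodd' hrd
    have h5 := hp' r hr hrd
    have h6 : ∑ d ∈ (range q).erase c, 1 ≤ ∑ d ∈ (range q).erase c, (cl d).card :=
      sum_le_sum fun d hd => hpos d (mem_range.1 (mem_of_mem_erase hd))
    rw [sum_const, card_erase_of_mem (mem_range.2 hc), card_range, smul_eq_mul] at h6
    have h7 := add_sum_erase (range q) (fun d => (cl d).card) (mem_range.2 hc)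
    obtain ⟨u, hu⟩ := h4
    obtain ⟨v, hv⟩ := hoddq
    omega

lemma even_of_inv (M : ℕ) (hM : Odd M) (T : Finset ℕ) (h1 : ∀ a ∈ T, a ≤ M)
    (h2 : ∀ a ∈ T, M - a ∈ T) : Even T.card := by
  have h := sum_involution (s := T) (f := fun _ => (1 : ZMod 2)) (fun a _ => M - a)
    (fun _ _ => by decide) (fun a ha _ h => by obtain ⟨u, hu⟩ := hM; have := h1 a ha; omega)
    (fun a ha => h2 a ha) (fun a ha => by have := h1 a ha; omega)
  rw [sum_const, nsmul_eq_mul, mul_one] at h
  exact (ZMod.natCast_eq_zero_iff_even).1 h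

lemma cos_ne (M : ℕ) (hM : Odd M) (S : Finset ℕ) (hS : S ⊆ Ico 1 M) (hodd : Odd S.card)
    (hlt : S.card < M.minFac) : ∑ k ∈ S, Real.cos (k * Real.pi / M) ≠ 0 := by
  intro h0
  have hM0 : 0 < M := hM.pos
  have hMc : (M : ℂ) ≠ 0 := by exact_mod_cast hM0.ne'
  set ζ := Complex.exp (Real.pi * Complex.I / M) with hζ
  have hζM : ζ ^ M = -1 := by
    rw [hζ, ← Complex.exp_nat_mul, mul_div_cancel₀ _ hMc, Complex.exp_pi_mul_I]
  obtain ⟨u, hu⟩ := hM
  have hω : IsPrimitiveRoot (-ζ) M := by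
    have h1 := Complex.isPrimitiveRoot_exp_of_coprime (u + 1) M hM0.ne' (by
      rw [hu, show 2 * u + 1 = u + (u + 1) * 1 by ring, Nat.coprime_add_mul_left_right]
      simp)
    convert h1 using 1
    have : (2 * Real.pi * Complex.I * (((u + 1 : ℕ) : ℂ) / M)) = Real.pi * Complex.I + Real.pi * Complex.I / M := by
      have h2 : (M : ℂ) = 2 * u + 1 := by exact_mod_cast hu
      field_simp
      rw [h2]; push_cast; ring
    rw [this, Complex.exp_add, Complex.exp_pi_mul_I]; ring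
  have hM : Odd M := ⟨u, hu⟩
  let c : ℕ → ℤ := fun j => (-1) ^ j * ((if j ∈ S then 1 else 0) - (if M - j ∈ S then 1 else 0))
  have hcos : ∀ k, k ≤ M → ζ ^ k - ζ ^ (M - k) = 2 * (Real.cos (k * Real.pi / M) : ℂ) := by
    intro k hk
    have h1 : ζ ^ k = Complex.exp ((k * Real.pi / M : ℝ) * Complex.I) := by
      rw [hζ, ← Complex.exp_nat_mul]; congr 1; push_cast; ring
    have h2 : ζ ^ (M - k) = - Complex.exp (-(k * Real.pi / M : ℝ) * Complex.I) := by
      have h3 : ζ ^ (M - k) * ζ ^ k = -1 := by rw [← pow_add, Nat.sub_add_cancel hk, hζM]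
      have h4 : Complex.exp (-(k * Real.pi / M : ℝ) * Complex.I) * ζ ^ k = 1 := by
        rw [h1, ← Complex.exp_add]; simp
      have h5 : ζ ^ k ≠ 0 := pow_ne_zero _ (Complex.exp_ne_zero _)
      apply mul_right_cancel₀ h5
      rw [h3, neg_mul, h4]
    rw [h2, h1, Complex.ofReal_cos, Complex.two_cos]; ring
  have hv0 : ∑ j ∈ Ico 1 M, (c j : ℂ) * (-ζ) ^ j = 0 := by
    have h1 : ∀ j, (c j : ℂ) * (-ζ) ^ j = (if j ∈ S then ζ ^ j else 0) - (if M - j ∈ S then ζ ^ j else 0) := by
      intro j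
      have h2 : ((-1 : ℂ)) ^ j * (-1) ^ j = 1 := by rw [← mul_pow]; simp
      simp only [c]
      push_cast
      rw [neg_pow ζ]
      have h3 : ∀ e : ℂ, (-1) ^ j * e * ((-1) ^ j * ζ ^ j) = e * ζ ^ j := by
        intro e; linear_combination e * ζ ^ j * h2
      rw [h3]
      split_ifs <;> ring
    simp only [h1, sum_sub_distrib]
    have h2 : ∑ j ∈ Ico 1 M, (if j ∈ S then ζ ^ j else 0) = ∑ k ∈ S, ζ ^ k := by
      rw [← sum_filter, filter_mem_eq_inter, inter_eq_right.2 hS]
    have h3 : ∑ j ∈ Ico 1 M, (if M - j ∈ S then ζ ^ j else 0) = ∑ k ∈ S, ζ ^ (M - k) := by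
      rw [← sum_filter]
      refine sum_bij' (fun j _ => M - j) (fun k _ => M - k) ?_ ?_ ?_ ?_ ?_
      · intro j hj; exact (mem_filter.1 hj).2
      · intro k hk
        have := mem_Ico.1 (hS hk)
        refine mem_filter.2 ⟨mem_Ico.2 ⟨by omega, by omega⟩, ?_⟩
        rwa [Nat.sub_sub_self (by omega)]
      · intro j hj
        have := mem_Ico.1 (mem_filter.1 hj).1
        omega
      · intro k hk
        have := mem_Ico.1 (hS hk)
        omega
      · intro j hj
        have := mem_Ico.1 (mem_filter.1 hj).1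
        rw [Nat.sub_sub_self (by omega)]
    rw [h2, h3, ← sum_sub_distrib, sum_congr rfl fun k hk => hcos k (mem_Ico.1 (hS hk)).2.le,
      ← mul_sum, ← Complex.ofReal_sum, h0]
    simp
  have hv : ∀ ω : ℂ, IsPrimitiveRoot ω M → ∑ j ∈ Ico 1 M, (c j : ℂ) * ω ^ j = 0 := by
    intro ω hω'
    let P : Polynomial ℚ := ∑ j ∈ Ico 1 M, Polynomial.C (c j : ℚ) * Polynomial.X ^ j
    have hP : ∀ x : ℂ, Polynomial.aeval x P = ∑ j ∈ Ico 1 M, (c j : ℂ) * x ^ j := by
      intro x; simp [P]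
    have h1 := minpoly.dvd ℚ (-ζ) (p := P) (by rw [hP, hv0])
    rw [← Polynomial.cyclotomic_eq_minpoly_rat hω hM0, Polynomial.cyclotomic_eq_minpoly_rat hω' hM0] at h1
    obtain ⟨Q, hQ⟩ := h1
    rw [← hP, hQ, map_mul, minpoly.aeval, zero_mul]
  let T := (Ico 1 M).filter fun j => c j ≠ 0
  have hT : ∀ j, j ∈ T ↔ j ∈ Ico 1 M ∧ ¬ (j ∈ S ↔ M - j ∈ S) := by
    intro j
    simp only [T, mem_filter, c]
    by_cases h1 : j ∈ S <;> by_cases h2 : M - j ∈ S <;> simp [h1, h2]
  have hTc : T.card ≤ 2 * S.card := by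
    have h1 : T ⊆ S ∪ S.image (fun k => M - k) := by
      intro j hj
      obtain ⟨h1, h2⟩ := (hT j).1 hj
      rw [mem_union]
      by_cases h3 : j ∈ S
      · exact Or.inl h3
      · right
        have := mem_Ico.1 h1
        exact mem_image.2 ⟨M - j, by tauto, by omega⟩
    have h2 := (card_le_card h1).trans (card_union_le _ _)
    have h3 := card_image_le (s := S) (f := fun k => M - k)
    omega
  have h1 := short M.minFac M hM0 hM (fun r hr hd => Nat.minFac_le_of_dvd hr.two_le hd) T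
    (fun j => (c j : ℂ)) ?_ ?_ ?_ (by omega)
  · rcases h1 with h1 | ⟨h1, -⟩
    · refine (Nat.not_even_iff_odd.2 hodd) (even_of_inv M hM S
        (fun a ha => (mem_Ico.1 (hS ha)).2.le) fun a ha => ?_)
      by_contra h2
      exact notMem_empty a (h1 ▸ (hT a).2 ⟨hS ha, by tauto⟩)
    · refine (Nat.not_even_iff_odd.2 h1) (even_of_inv M hM T
        (fun a ha => (mem_Ico.1 ((hT a).1 ha).1).2.le) fun a ha => ?_)
      obtain ⟨h2, h3⟩ := (hT a).1 ha
      have := mem_Ico.1 h2
      refine (hT _).2 ⟨mem_Ico.2 ⟨by omega, by omega⟩, ?_⟩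
      rw [Nat.sub_sub_self (by omega)]
      tauto
  · intro a ha b hb hab
    exact Nat.ModEq.eq_of_lt_of_lt hab (mem_Ico.1 ((hT a).1 ha).1).2 (mem_Ico.1 ((hT b).1 hb).1).2
  · intro a ha
    exact_mod_cast (mem_filter.1 ha).2
  · intro ω hω'
    rw [← hv ω hω']
    exact sum_filter_of_ne fun a _ h => by exact_mod_cast left_ne_zero_of_mul h

lemma cos_pair (M k : ℕ) (hM : 0 < M) (hk : k ≤ M) :
    Real.cos ((M - k : ℕ) * Real.pi / M) = - Real.cos (k * Real.pi / M) := by
  have hM' : (M : ℝ) ≠ 0 := by exact_mod_cast hM.ne'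
  rw [← Real.cos_pi_sub, Nat.cast_sub hk]
  congr 1
  field_simp

lemma cos_all (M : ℕ) (hM : 0 < M) : ∑ k ∈ Ico 1 M, Real.cos (k * Real.pi / M) = 0 := by
  have h : ∑ k ∈ Ico 1 M, Real.cos (k * Real.pi / M)
      = ∑ k ∈ Ico 1 M, Real.cos ((M - k : ℕ) * Real.pi / M) := by
    refine sum_bij' (fun j _ => M - j) (fun k _ => M - k) ?_ ?_ ?_ ?_ ?_
    · intro j hj; have := mem_Ico.1 hj; exact mem_Ico.2 ⟨by omega, by omega⟩
    · intro j hj; have := mem_Ico.1 hj; exact mem_Ico.2 ⟨by omega, by omega⟩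
    · intro j hj; have := mem_Ico.1 hj; omega
    · intro j hj; have := mem_Ico.1 hj; omega
    · intro j hj; have := mem_Ico.1 hj; rw [Nat.sub_sub_self (by omega)]
  rw [sum_congr rfl fun k hk => cos_pair M k hM (mem_Ico.1 hk).2.le, sum_neg_distrib] at h
  linarith

lemma extend (M : ℕ) (hM : 0 < M) (S : Finset ℕ) (hS : S ⊆ Ico 1 M)
    (h0 : ∑ k ∈ S, Real.cos (k * Real.pi / M) = 0) (t : ℕ) (ht : 2 * (t + S.card) < M) :
    ∃ T : Finset ℕ, T ⊆ Ico 1 M ∧ T.card = S.card + 2 * t ∧ ∑ k ∈ T, Real.cos (k * Real.pi / M) = 0 := by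
  let B := S.image fun k => min k (M - k)
  have h1 : t ≤ (Ico 1 (t + S.card + 1) \ B).card := by
    have h2 := le_card_sdiff B (Ico 1 (t + S.card + 1))
    have h3 : B.card ≤ S.card := card_image_le
    rw [Nat.card_Ico] at h2
    omega
  obtain ⟨A, hA, hAc⟩ := exists_subset_card_eq h1
  have hA1 : ∀ a ∈ A, 1 ≤ a ∧ 2 * a < M ∧ a ∉ S ∧ M - a ∉ S := by
    intro a ha
    obtain ⟨h2, h3⟩ := mem_sdiff.1 (hA ha)
    have h4 := mem_Ico.1 h2
    refine ⟨h4.1, by omega, fun h => h3 (mem_image.2 ⟨a, h, by omega⟩),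
      fun h => h3 (mem_image.2 ⟨M - a, h, by omega⟩)⟩
  have hio : Set.InjOn (fun a => M - a) A := by
    intro a ha b hb hab
    have := hA1 a ha
    have := hA1 b hb
    simp only at hab
    omega
  have d1 : Disjoint A (A.image fun a => M - a) := by
    rw [disjoint_left]
    intro a ha h
    obtain ⟨b, hb, hab⟩ := mem_image.1 h
    have := hA1 a ha
    have := hA1 b hb
    omega
  have d2 : Disjoint S (A ∪ A.image fun a => M - a) := by
    rw [disjoint_right]
    intro a ha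
    rcases mem_union.1 ha with h | h
    · exact (hA1 a h).2.2.1
    · obtain ⟨b, hb, rfl⟩ := mem_image.1 h
      exact (hA1 b hb).2.2.2
  refine ⟨S ∪ (A ∪ A.image fun a => M - a), ?_, ?_, ?_⟩
  · refine union_subset hS (union_subset (fun a ha => ?_) fun a ha => ?_)
    · have := hA1 a ha
      exact mem_Ico.2 ⟨by omega, by omega⟩
    · obtain ⟨b, hb, rfl⟩ := mem_image.1 ha
      have := hA1 b hb
      exact mem_Ico.2 ⟨by omega, by omega⟩
  · rw [card_union_of_disjoint d2, card_union_of_disjoint d1, card_image_of_injOn hio, hAc]; ring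
  · rw [sum_union d2, sum_union d1, sum_image hio, h0,
      sum_congr rfl fun a ha => cos_pair M a hM (by have := hA1 a ha; omega), sum_neg_distrib]
    ring

lemma polygon (p e : ℕ) (hp : 1 < p) (he : 1 < e) :
    ∃ S : Finset ℕ, S ⊆ Ico 1 (p * e) ∧ S.card = p ∧
      ∑ k ∈ S, Real.cos (k * Real.pi / (p * e : ℕ)) = 0 := by
  let g : ℕ → ℕ := fun j => min (1 + 2 * e * j) (2 * (p * e) - (1 + 2 * e * j))
  have hb : ∀ j, j < p → 1 + 2 * e * j < 2 * (p * e) := by
    intro j hj
    have : e * (j + 1) ≤ e * p := Nat.mul_le_mul_left e hj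
    nlinarith
  have hne : ∀ i j, 1 + 2 * e * i + (1 + 2 * e * j) ≠ 2 * (p * e) := by
    intro i j h
    have h1 : e * (i + j) + 1 = e * p := by nlinarith
    have h2 : e ∣ 1 := (Nat.dvd_add_right (dvd_mul_right e (i + j))).1 (h1 ▸ dvd_mul_right e p)
    have := Nat.le_of_dvd one_pos h2
    omega
  have hio : Set.InjOn g (range p) := by
    intro i hi j hj h
    have h1 := hb i (mem_range.1 hi)
    have h2 := hb j (mem_range.1 hj)
    have h3 := hne i j
    have h4 : 2 * e * i = 2 * e * j := by simp only [g] at h; omega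
    exact Nat.eq_of_mul_eq_mul_left (by omega) h4
  have hM : ((p * e : ℕ) : ℝ) ≠ 0 := by exact_mod_cast (Nat.mul_pos (by omega) (by omega)).ne'
  refine ⟨(range p).image g, ?_, by rw [card_image_of_injOn hio, card_range], ?_⟩
  · intro k hk
    obtain ⟨j, hj, rfl⟩ := mem_image.1 hk
    have h1 := hb j (mem_range.1 hj)
    have h3 := hne j j
    simp only [g]
    exact mem_Ico.2 ⟨by omega, by omega⟩
  · rw [sum_image hio]
    have h1 : ∀ j ∈ range p, Real.cos (g j * Real.pi / (p * e : ℕ)) =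
        (Complex.exp (Real.pi * Complex.I / (p * e : ℕ)) *
          (Complex.exp (2 * Real.pi * Complex.I / p) ^ 1) ^ j).re := by
      intro j hj
      have h2 : Real.cos (g j * Real.pi / (p * e : ℕ)) =
          Real.cos ((1 + 2 * e * j : ℕ) * Real.pi / (p * e : ℕ)) := by
        have h1 := hb j (mem_range.1 hj)
        simp only [g]
        rcases min_choice (1 + 2 * e * j) (2 * (p * e) - (1 + 2 * e * j)) with h | h <;> rw [h]
        rw [← Real.cos_two_pi_sub, Nat.cast_sub h1.le]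
        congr 1
        field_simp
        push_cast
        ring
      rw [h2, pow_one, ← Complex.exp_nat_mul, ← Complex.exp_add, ← Complex.exp_ofReal_mul_I_re]
      congr 2
      have a1 : (p : ℂ) ≠ 0 := by exact_mod_cast (show p ≠ 0 by omega)
      have a2 : (e : ℂ) ≠ 0 := by exact_mod_cast (show e ≠ 0 by omega)
      push_cast
      field_simp
    rw [sum_congr rfl h1, ← Complex.re_sum, ← mul_sum,
      geo (Complex.isPrimitiveRoot_exp p (by omega)) 1, if_neg (by
        intro h; have := Nat.le_of_dvd one_pos h; omega)]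
    simp

/-- the complete answer for sums of cosines -/
theorem cos_iff (m n : ℕ) (hm : 1 ≤ m) (hn : 1 ≤ n) :
    (∀ S : Finset ℕ, S ⊆ Ico 1 (m + n + 1) → S.card = m →
      ∑ k ∈ S, Real.cos (k * Real.pi / (m + n + 1 : ℕ)) ≠ 0) ↔
    Odd m ∧ Odd n ∧ min m n < (m + n + 1).minFac := by
  have hM : 0 < m + n + 1 := by omega
  constructor
  · intro h
    have hom : Odd m := by
      by_contra hc
      obtain ⟨t, ht⟩ := Nat.not_odd_iff_even.1 hc
      obtain ⟨T, h1, h2, h3⟩ := extend (m + n + 1) hM ∅ (empty_subset _) sum_empty t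
        (by rw [card_empty]; omega)
      exact h T h1 (by rw [h2, card_empty]; omega) h3
    obtain ⟨a, ha⟩ := hom
    have hon : Odd n := by
      by_contra hc
      obtain ⟨t, ht⟩ := Nat.not_odd_iff_even.1 hc
      obtain ⟨T, h1, h2, h3⟩ := extend (m + n + 1) hM {a + t + 1}
        (singleton_subset_iff.2 (mem_Ico.2 ⟨by omega, by omega⟩)) (by
          rw [sum_singleton, ← Real.cos_pi_div_two]
          congr 1
          have : ((m + n + 1 : ℕ) : ℝ) = 2 * ((a + t + 1 : ℕ) : ℝ) := by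
            exact_mod_cast (show m + n + 1 = 2 * (a + t + 1) by omega)
          rw [this]
          field_simp) a (by rw [card_singleton]; omega)
      exact h T h1 (by rw [h2, card_singleton]; omega) h3
    refine ⟨⟨a, ha⟩, hon, ?_⟩
    by_contra hc
    push Not at hc
    obtain ⟨b, hb⟩ := hon
    have hp := Nat.minFac_prime (show m + n + 1 ≠ 1 by omega)
    obtain ⟨e, he⟩ := Nat.minFac_dvd (m + n + 1)
    set p := (m + n + 1).minFac
    have hpo : Odd p := Odd.of_dvd_nat (show Odd (m + n + 1) from ⟨a + b + 1, by omega⟩) ⟨e, he⟩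
    obtain ⟨c, hc'⟩ := hpo
    have h1 : p ≤ m := hc.trans (min_le_left _ _)
    have h2 : p ≤ n := hc.trans (min_le_right _ _)
    have he1 : 1 < e := by
      by_contra h3
      have : p * e ≤ p * 1 := Nat.mul_le_mul_left p (by omega)
      omega
    obtain ⟨S, s1, s2, s3⟩ := polygon p e hp.one_lt he1
    rw [← he] at s1 s3
    obtain ⟨T, t1, t2, t3⟩ := extend (m + n + 1) hM S s1 s3 (a - c) (by omega)
    exact h T t1 (by omega) t3
  · rintro ⟨hom, hon, hlt⟩ S hS hc
    have hMo : Odd (m + n + 1) := (hom.add_odd hon).add_one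
    rcases min_lt_iff.1 hlt with h | h
    · exact cos_ne _ hMo S hS (hc ▸ hom) (hc ▸ h)
    · intro h0
      have h1 : (Ico 1 (m + n + 1) \ S).card = n := by
        rw [card_sdiff_of_subset hS, Nat.card_Ico, hc]; omega
      refine cos_ne _ hMo (Ico 1 (m + n + 1) \ S) sdiff_subset (by rw [h1]; exact hon) (by rw [h1]; exact h) ?_
      have h2 := sum_sdiff (f := fun k : ℕ => Real.cos (k * Real.pi / (m + n + 1 : ℕ))) hS
      rw [h0, add_zero, cos_all _ hM] at h2
      exact h2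

end Pool.Agent.H31.Van
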